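import Pool.Agent.N917.AF.Stm2

/-! Project AF (helper917), leaf ASM2: the reduction theorem from its parts. -/

set_option autoImplicit false

namespace Pool.Agent.N917.AF

theorem t_ASM2 : S_ASM2 := by
  intro hSEP hCO2 hCPL hRD2 hBD2 S M _ _ _ _ _ _ _ b
  constructor
  · rintro ⟨ω, hω, hnd⟩
    obtain ⟨N, x, y, hsep⟩ := hSEP S
    obtain ⟨l, hl⟩ := hCO2 S M b N x y hsep ω hω
    obtain ⟨hanti, hcyc⟩ := hω
    let β : M →ₗ[ℂ] M →ₗ[ℂ] ℂ := ω.compl₁₂ (LinearMap.inr ℂ S M) (LinearMap.inr ℂ S M)
    have hβ : ∀ m m', β m m' = ω (0, m) (0, m') := fun m m' => rfl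
    have hβanti : ∀ m m', β m m' = -β m' m := fun m m' => hanti _ _
    have hβs : ∀ s u v, β (b.L s u) v = β u (b.R s v) := by
      intro s u v
      have h := hcyc (0, u) (0, v) (s, 0)
      have e1 : b.mul (0, v) (s, 0) = (0, b.R s v) := by simp [Bim.mul]
      have e2 : b.mul (s, 0) (0, u) = (0, b.L s u) := by simp [Bim.mul]
      have e3 : b.mul (0, u) (0, v) = 0 := by simp [Bim.mul]
      rw [e1, e2, e3, map_zero, add_zero] at h
      rw [hβ, hβ, hanti (0, b.L s u) (0, v)]
      linear_combination -h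
    have hform : ∀ z w : S × M, ω z w = l (b.mul z w - b.mul w z) + β z.2 w.2 := by
      rintro ⟨s, m⟩ ⟨s', m'⟩
      have hz : ((s, m) : S × M) = (s, 0) + (0, m) := by simp
      have hw : ((s', m') : S × M) = (s', 0) + (0, m') := by simp
      have h1 := hl s (s', m')
      have h2 := hl s' (0, m)
      have h3 : ω (s, m) (s', m') = ω (s, 0) (s', m') + ω (0, m) (s', m') := by
        rw [hz, map_add, LinearMap.add_apply]
      have h4 : ω (0, m) (s', m') = ω (0, m) (s', 0) + ω (0, m) (0, m') := by
        rw [hw, map_add]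
      have h5 : b.mul (s, m) (s', m') - b.mul (s', m') (s, m) =
          (b.mul (s, 0) (s', m') - b.mul (s', m') (s, 0)) -
            (b.mul (s', 0) (0, m) - b.mul (0, m) (s', 0)) := by
        ext
        · simp [Bim.mul]
        · simp [Bim.mul]
          abel
      rw [h5, map_sub l, ← h1, ← h2, h3, h4, hanti (0, m) (s', 0), hβ]
      ring
    have hmem : ∀ m, m ∈ LinearMap.ker β ↔ ∀ y, β m y = 0 := by
      intro m
      rw [LinearMap.mem_ker]
      constructor
      · intro h y
        rw [h, LinearMap.zero_apply]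
      · intro h
        ext y
        rw [h y, LinearMap.zero_apply]
    have hW : b.Sub (LinearMap.ker β) := by
      intro s m hm
      rw [hmem] at hm
      constructor
      · rw [hmem]
        intro y
        rw [hβs, hm]
      · rw [hmem]
        intro y
        rw [hβanti, ← hβs, hβanti, hm, neg_zero, neg_zero]
    obtain ⟨W', hW', hc⟩ := hCPL S M b N x y hsep _ hW
    obtain ⟨h1, h2⟩ := hRD2 S M b l β W' (LinearMap.ker β) hβanti hβs hW' hc hmem (by
      intro z hz
      apply hnd
      intro w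
      rw [hform]
      exact hz w)
    exact ⟨W', LinearMap.ker β, hW', hW, hc, h1, h2⟩
  · rintro ⟨M', M'', h1, h2, h3, h4, h5⟩
    exact hBD2 S M b M' M'' h1 h2 h3 h4 h5

end Pool.Agent.N917.AF
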