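import Pool.Agent.N917.AF.Stm2

/-!
Project AF (helper917), part BD2: the converse of the reduction theorem.
-/

set_option autoImplicit false

namespace Pool.Agent.N917.AF

namespace BD2

section
variable {S M : Type} [Ring S] [Algebra ℂ S] [AddCommGroup M] [Module ℂ M]

theorem mul_add_left (b : Bim S M) (x x' y : S × M) :
    b.mul (x + x') y = b.mul x y + b.mul x' y := by
  refine Prod.ext ?_ ?_
  · simp [Bim.mul, add_mul]
  · simp only [Bim.mul, Prod.fst_add, Prod.snd_add, map_add, LinearMap.add_apply]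
    abel

theorem mul_add_right (b : Bim S M) (x y y' : S × M) :
    b.mul x (y + y') = b.mul x y + b.mul x y' := by
  refine Prod.ext ?_ ?_
  · simp [Bim.mul, mul_add]
  · simp only [Bim.mul, Prod.fst_add, Prod.snd_add, map_add, LinearMap.add_apply]
    abel

theorem mul_smul_left (b : Bim S M) (c : ℂ) (x y : S × M) :
    b.mul (c • x) y = c • b.mul x y := by
  refine Prod.ext ?_ ?_
  · simp [Bim.mul]
  · simp only [Bim.mul, Prod.smul_fst, Prod.smul_snd, map_smul, LinearMap.smul_apply, smul_add]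

theorem mul_smul_right (b : Bim S M) (c : ℂ) (x y : S × M) :
    b.mul x (c • y) = c • b.mul x y := by
  refine Prod.ext ?_ ?_
  · simp [Bim.mul]
  · simp only [Bim.mul, Prod.smul_fst, Prod.smul_snd, map_smul, LinearMap.smul_apply, smul_add]

theorem assoc (b : Bim S M) (x y z : S × M) : b.mul (b.mul x y) z = b.mul x (b.mul y z) := by
  refine Prod.ext ?_ ?_
  · simp [Bim.mul, mul_assoc]
  · simp only [Bim.mul, map_add, b.mulL, b.mulR, b.comm]
    abel

/-- the component of `x` in `S ⊕ W` -/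
noncomputable def tl (Q : M →ₗ[ℂ] M) (x : S × M) : S × M := (x.1, Q x.2)

theorem tl_add (Q : M →ₗ[ℂ] M) (x y : S × M) : tl Q (x + y) = tl Q x + tl Q y := by
  simp [tl]

theorem tl_smul (Q : M →ₗ[ℂ] M) (c : ℂ) (x : S × M) : tl Q (c • x) = c • tl Q x := by
  simp [tl]

theorem tl_mul (b : Bim S M) (Q : M →ₗ[ℂ] M) (hL : ∀ s m, Q (b.L s m) = b.L s (Q m))
    (hR : ∀ s m, Q (b.R s m) = b.R s (Q m)) (x y : S × M) :
    tl Q (b.mul x y) = b.mul (tl Q x) (tl Q y) := by
  refine Prod.ext rfl ?_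
  simp [tl, Bim.mul, hL, hR]

/-- the form -/
noncomputable def om (b : Bim S M) (l : S × M →ₗ[ℂ] ℂ) (β : M →ₗ[ℂ] M →ₗ[ℂ] ℂ)
    (P Q : M →ₗ[ℂ] M) : (S × M) →ₗ[ℂ] (S × M) →ₗ[ℂ] ℂ :=
  LinearMap.mk₂ ℂ (fun x y => l (b.mul (tl Q x) (tl Q y) - b.mul (tl Q y) (tl Q x)) +
      β (P x.2) (P y.2))
    (fun x x' y => by
      simp only [tl_add, mul_add_left, mul_add_right, Prod.snd_add, map_add, map_sub,
        LinearMap.add_apply]
      ring)
    (fun c x y => by
      simp only [tl_smul, mul_smul_left, mul_smul_right, Prod.smul_snd, map_smul, map_sub,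
        LinearMap.smul_apply, smul_eq_mul]
      ring)
    (fun x y y' => by
      simp only [tl_add, mul_add_left, mul_add_right, Prod.snd_add, map_add, map_sub]
      ring)
    (fun c x y => by
      simp only [tl_smul, mul_smul_left, mul_smul_right, Prod.smul_snd, map_smul, map_sub,
        smul_eq_mul]
      ring)

theorem om_apply (b : Bim S M) (l : S × M →ₗ[ℂ] ℂ) (β : M →ₗ[ℂ] M →ₗ[ℂ] ℂ)
    (P Q : M →ₗ[ℂ] M) (x y : S × M) : om b l β P Q x y =
      l (b.mul (tl Q x) (tl Q y) - b.mul (tl Q y) (tl Q x)) + β (P x.2) (P y.2) := rfl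

theorem core (b : Bim S M) (W' W : Submodule ℂ M) (P Q : M →ₗ[ℂ] M)
    (hP : ∀ m, P m ∈ W') (hQ : ∀ m, Q m ∈ W) (hPQ : ∀ m, P m + Q m = m)
    (hPW' : ∀ m ∈ W', P m = m) (hQW' : ∀ m ∈ W', Q m = 0) (hPW : ∀ m ∈ W, P m = 0)
    (hQW : ∀ m ∈ W, Q m = m) (h1 : b.Sub W') (h2 : b.Sub W) (h3 : b.Sympl W') (h4 : b.Frob W) :
    AF (S × M) b.mul := by
  obtain ⟨β, hβ1, hβ2, hβ3⟩ := h3
  obtain ⟨l, hl⟩ := h4
  have hPL : ∀ s m, P (b.L s m) = b.L s (P m) := by
    intro s m
    have e : b.L s m = b.L s (P m) + b.L s (Q m) := by rw [← map_add, hPQ]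
    rw [e, map_add, hPW' _ (h1 s _ (hP m)).1, hPW _ (h2 s _ (hQ m)).1, add_zero]
  have hPR : ∀ s m, P (b.R s m) = b.R s (P m) := by
    intro s m
    have e : b.R s m = b.R s (P m) + b.R s (Q m) := by rw [← map_add, hPQ]
    rw [e, map_add, hPW' _ (h1 s _ (hP m)).2, hPW _ (h2 s _ (hQ m)).2, add_zero]
  have hQL : ∀ s m, Q (b.L s m) = b.L s (Q m) := by
    intro s m
    have e : b.L s m = b.L s (P m) + b.L s (Q m) := by rw [← map_add, hPQ]
    rw [e, map_add, hQW' _ (h1 s _ (hP m)).1, hQW _ (h2 s _ (hQ m)).1, zero_add]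
  have hQR : ∀ s m, Q (b.R s m) = b.R s (Q m) := by
    intro s m
    have e : b.R s m = b.R s (P m) + b.R s (Q m) := by rw [← map_add, hPQ]
    rw [e, map_add, hQW' _ (h1 s _ (hP m)).2, hQW _ (h2 s _ (hQ m)).2, zero_add]
  refine ⟨om b l β P Q, ⟨fun x y => ?_, fun x y z => ?_⟩, fun x hx => ?_⟩
  · rw [om_apply, om_apply, hβ1 _ (hP _) _ (hP _), map_sub, map_sub]
    ring
  · rw [om_apply, om_apply, om_apply, tl_mul b Q hQL hQR, tl_mul b Q hQL hQR,
      tl_mul b Q hQL hQR]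
    have e1 : b.mul (b.mul (tl Q y) (tl Q z)) (tl Q x) = b.mul (tl Q y) (b.mul (tl Q z) (tl Q x)) :=
      assoc b _ _ _
    have e2 : b.mul (b.mul (tl Q z) (tl Q x)) (tl Q y) = b.mul (tl Q z) (b.mul (tl Q x) (tl Q y)) :=
      assoc b _ _ _
    have e3 : b.mul (b.mul (tl Q x) (tl Q y)) (tl Q z) = b.mul (tl Q x) (b.mul (tl Q y) (tl Q z)) :=
      assoc b _ _ _
    rw [e1, e2, e3]
    have f : ∀ u v : S × M, P (b.mul u v).2 = b.L u.1 (P v.2) + b.R v.1 (P u.2) := by
      intro u v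
      show P (b.L u.1 v.2 + b.R v.1 u.2) = _
      rw [map_add, hPL, hPR]
    rw [f, f, f, map_add, map_add, map_add, map_sub, map_sub, map_sub]
    have hX := hP x.2
    have hY := hP y.2
    have hZ := hP z.2
    have g1 : β (P x.2) (b.R z.1 (P y.2)) = -β (P y.2) (b.L z.1 (P x.2)) := by
      rw [← hβ2 _ _ hX _ hY, hβ1 _ (h1 z.1 _ hX).1 _ hY]
    have g2 : β (P y.2) (b.R x.1 (P z.2)) = -β (P z.2) (b.L x.1 (P y.2)) := by
      rw [← hβ2 _ _ hY _ hZ, hβ1 _ (h1 x.1 _ hY).1 _ hZ]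
    have g3 : β (P z.2) (b.R y.1 (P x.2)) = -β (P x.2) (b.L y.1 (P z.2)) := by
      rw [← hβ2 _ _ hZ _ hX, hβ1 _ (h1 y.1 _ hZ).1 _ hX]
    rw [g1, g2, g3]
    ring
  · have ht : tl Q x = 0 := by
      refine hl (tl Q x) (hQ _) fun y hy => ?_
      have h5 := hx y
      rw [om_apply, hPW _ hy, map_zero, add_zero] at h5
      have e : tl Q y = y := Prod.ext rfl (hQW _ hy)
      rwa [e] at h5
    have hP0 : P x.2 = 0 := by
      refine hβ3 _ (hP _) fun m' hm' => ?_
      have h5 := hx (0, m')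
      rw [om_apply, ht, hPW' _ hm'] at h5
      have e1 : tl Q ((0, m') : S × M) = 0 := Prod.ext rfl (hQW' _ hm')
      have e2 : b.mul 0 0 = 0 := by
        refine Prod.ext ?_ ?_ <;> simp [Bim.mul]
      rw [e1, sub_self, map_zero, zero_add] at h5
      exact h5
    have h6 : x.1 = 0 := congrArg Prod.fst ht
    have h7 : Q x.2 = 0 := congrArg Prod.snd ht
    refine Prod.ext h6 ?_
    rw [← hPQ x.2, hP0, h7, add_zero]
    rfl

end

end BD2

theorem t_BD2 : S_BD2 := by
  intro S M _ _ _ _ b W' W h1 h2 hc h3 h4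
  exact BD2.core b W' W (W'.projection W hc) (W.projection W' hc.symm)
    (fun m => Submodule.projection_apply_mem hc m)
    (fun m => Submodule.projection_apply_mem hc.symm m)
    (fun m => Submodule.projection_add_projection_eq_self hc m)
    (fun m hm => Submodule.projection_apply_of_mem_left hc hm)
    (fun m hm => Submodule.projection_apply_of_mem_right hc.symm hm)
    (fun m hm => Submodule.projection_apply_of_mem_right hc hm)
    (fun m hm => Submodule.projection_apply_of_mem_left hc.symm hm) h1 h2 h3 h4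

end Pool.Agent.N917.AF
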