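import Pool.Agent.N917.AF.Stm5

/-!
Project AF (helper917): additivity of the multiplicities (leaf CADD, helper645).
-/

set_option autoImplicit false

namespace Pool.Agent.N917.AF

namespace CADD

variable {m : ℕ} {μ : Option (Fin m) → Option (Fin m) → ℕ}

theorem left_mem {W : Submodule ℂ (MC μ)} (hW : (bc μ).Sub W) (i : Option (Fin m)) (x : MC μ)
    (hx : x ∈ W) : (fun i' j' k => (if i' = i then 1 else 0) * x i' j' k : MC μ) ∈ W := by
  cases i with
  | none =>
    have h := W.sub_mem hx ((hW 1 x hx).1)
    convert h using 1
    funext i' j' k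
    cases i' <;> simp [bc, hat]
  | some a =>
    have h := (hW (Pi.single a 1) x hx).1
    convert h using 1
    funext i' j' k
    cases i' <;> simp [bc, hat, Pi.single_apply]

theorem right_mem {W : Submodule ℂ (MC μ)} (hW : (bc μ).Sub W) (j : Option (Fin m)) (x : MC μ)
    (hx : x ∈ W) : (fun i' j' k => (if j' = j then 1 else 0) * x i' j' k : MC μ) ∈ W := by
  cases j with
  | none =>
    have h := W.sub_mem hx ((hW 1 x hx).2)
    convert h using 1
    funext i' j' k
    cases j' <;> simp [bc, hat]
  | some a =>
    have h := (hW (Pi.single a 1) x hx).2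
    convert h using 1
    funext i' j' k
    cases j' <;> simp [bc, hat, Pi.single_apply]

theorem pr_surj (i j : Option (Fin m)) : Function.Surjective (pr μ i j) := by
  intro v
  refine ⟨Pi.single i (Pi.single j v), ?_⟩
  simp [pr]

theorem compl {W' W : Submodule ℂ (MC μ)} (h' : (bc μ).Sub W') (h : (bc μ).Sub W)
    (hc : IsCompl W' W) (i j : Option (Fin m)) :
    IsCompl (W'.map (pr μ i j)) (W.map (pr μ i j)) := by
  constructor
  · rw [Submodule.disjoint_def]
    rintro v ⟨x', hx', rfl⟩ ⟨x, hx, hxx⟩
    have m1 := right_mem h' j _ (left_mem h' i x' hx')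
    have m2 := right_mem h j _ (left_mem h i x hx)
    have e : (fun i' j' k => (if j' = j then 1 else 0) * ((if i' = i then 1 else 0) * x i' j' k) : MC μ) =
        (fun i' j' k => (if j' = j then 1 else 0) * ((if i' = i then 1 else 0) * x' i' j' k) : MC μ) := by
      funext i' j' k
      by_cases hi : i' = i
      · by_cases hj : j' = j
        · subst hi
          subst hj
          have h3 : x i' j' k = x' i' j' k := congrFun hxx k
          simp [h3]
        · simp [hj]
      · simp [hi]
    rw [e] at m2
    have h0 := (Submodule.disjoint_def.1 hc.disjoint) _ m1 m2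
    funext k
    have h4 := congrFun (congrFun (congrFun h0 i) j) k
    simpa [pr] using h4
  · rw [codisjoint_iff, ← Submodule.map_sup, codisjoint_iff.1 hc.codisjoint, Submodule.map_top,
      LinearMap.range_eq_top]
    exact pr_surj i j

end CADD

theorem t_CADD : S_CADD := by
  intro m μ W' W h' h hc i j
  have h1 := Submodule.finrank_add_eq_of_isCompl (CADD.compl h' h hc i j)
  rw [Module.finrank_fin_fun] at h1
  exact h1.symm

end Pool.Agent.N917.AF
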