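import Pool.Agent.N917.AF.Stm2

/-!
Project AF (helper917), third part: the classification for arbitrary bimodules over `∏ Mat_(n i)`
without components between different factors.
-/

set_option autoImplicit false

namespace Pool.Agent.N917.AF

section
variable {m : ℕ} (n : Fin m → ℕ)

/-- `∏ Mat_(n i)` -/
abbrev PS : Type := (i : Fin m) → Matrix (Fin (n i)) (Fin (n i)) ℂ

variable {n} {M : Type} [AddCommGroup M] [Module ℂ M]

/-- `M` has no components between different factors: `e_i M e_j = 0` for `i ≠ j`. -/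
def Unmixed (b : Bim (PS n) M) : Prop :=
  ∀ i j, i ≠ j → ∀ x, b.L (Pi.single i 1) (b.R (Pi.single j 1) x) = 0

variable [∀ i, NeZero (n i)]

/-- the minimal idempotent `E_00` of the factor `i` -/
def ee (n : Fin m → ℕ) [∀ i, NeZero (n i)] (i : Fin m) : PS n :=
  Pi.single i (Matrix.single (0 : Fin (n i)) (0 : Fin (n i)) (1 : ℂ))

/-- the multiplicity of `Mat_(n i)` in `M`: the dimension of `e M e` -/
noncomputable def pp (b : Bim (PS n) M) (i : Fin m) : ℕ :=
  Module.finrank ℂ (LinearMap.range (b.L (ee n i) ∘ₗ b.R (ee n i)))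

/-- the multiplicity of the left module `C^(n i)` with zero right action: the dimension of
`e M (1 - 1_S)` -/
noncomputable def qq (b : Bim (PS n) M) (i : Fin m) : ℕ :=
  Module.finrank ℂ (LinearMap.range (b.L (ee n i) ∘ₗ (LinearMap.id - b.R 1)))

/-- the multiplicity of the right module `C^(n i)` with zero left action: the dimension of
`(1 - 1_S) M e` -/
noncomputable def rr (b : Bim (PS n) M) (i : Fin m) : ℕ :=
  Module.finrank ℂ (LinearMap.range (b.R (ee n i) ∘ₗ (LinearMap.id - b.L 1)))

/-- the multiplicity of the zero bimodule: the dimension of `(1 - 1_S) M (1 - 1_S)` -/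
noncomputable def tt (b : Bim (PS n) M) : ℕ :=
  Module.finrank ℂ (LinearMap.range ((LinearMap.id - b.L 1) ∘ₗ (LinearMap.id - b.R 1)))

end

/-- MOR: structure of the bimodules -/
def S_MOR : Prop := ∀ (m : ℕ) (n : Fin m → ℕ) [∀ i, NeZero (n i)] (M : Type) [AddCommGroup M]
  [Module ℂ M] [Module.Finite ℂ M] (b : Bim (PS n) M), Unmixed b →
  ∃ e : (PS n × M) ≃ₗ[ℂ] T n (pp b) (qq b) (rr b) (tt b),
    ∀ x y, e (b.mul x y) = mulT (e x) (e y)

/-- ISO -/
def S_ISO : Prop := ∀ (V W : Type) [AddCommGroup V] [Module ℂ V] [AddCommGroup W] [Module ℂ W]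
  (f : V → V → V) (g : W → W → W) (e : V ≃ₗ[ℂ] W), (∀ x y, e (f x y) = g (e x) (e y)) →
  (AF V f ↔ AF W g)

end Pool.Agent.N917.AF
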