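import Pool.Agent.N917.AF.Stm5
import Pool.Agent.N917.AF.Stm3

/-! Project AF (helper917): assembly of the commutative case. -/

set_option autoImplicit false

namespace Pool.Agent.N917.AF

/-- the classification for `S = ℂ^m` -/
def S_COMM : Prop := ∀ (m : ℕ) (M : Type) [AddCommGroup M] [Module ℂ M] [Module.Finite ℂ M]
  (b : Bim (Fin m → ℂ) M), AF ((Fin m → ℂ) × M) b.mul ↔ Tr (mm b)

theorem t_COMM (hRES : S_RES2) (hISO : S_ISO) (hMOR : S_CMOR) (hADD : S_CADD) (hSYM : S_CSYM)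
    (hFRO : S_CFRO) (hSUF : S_CSUF) : S_COMM := by
  intro m M _ _ _ b
  obtain ⟨e, hL, hR⟩ := hMOR m M b
  have hiso := hISO ((Fin m → ℂ) × M) ((Fin m → ℂ) × MC (mm b)) b.mul (bc (mm b)).mul
    ((LinearEquiv.refl ℂ (Fin m → ℂ)).prodCongr e) (by
      rintro ⟨s, x⟩ ⟨s', y⟩
      refine Prod.ext ?_ ?_
      · simp [Bim.mul]
      · simp [Bim.mul, hL, hR])
  rw [hiso]
  generalize mm b = μ
  constructor
  · intro h
    obtain ⟨W', W, hW', hW, hc, hS, hF⟩ := (hRES (Fin m → ℂ) (MC μ) (bc μ)).1 h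
    obtain ⟨hs1, hs2⟩ := hSYM m μ W' hW' hS
    obtain ⟨hf1, hf2, hf3⟩ := hFRO m μ W hW hF
    have ha := hADD m μ W' W hW' hW hc
    have hrel : (fun i j => μ i j ≠ μ j i) = (fun i j => dd μ W i j ≠ dd μ W j i) := by
      funext i j
      rw [ha i j, ha j i, hs1 i j, ne_eq, ne_eq, add_left_cancel_iff]
    refine ⟨fun i => ?_, fun i j => ?_, ?_⟩
    · rw [ha i i, hf1 i, add_zero]; exact hs2 i
    · have h1 := ha i j
      have h2 := ha j i
      have h3 := hs1 i j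
      have h4 := hf2 i j
      omega
    · rw [hrel]; exact hf3
  · intro h
    exact hSUF m μ h

end Pool.Agent.N917.AF
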