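import Pool.Agent.N917.AF.Stm5

/-! AF/CFRO: the Frobenius part gives a tree (helper91). -/

set_option autoImplicit false

namespace Pool.Agent.N917.AF

namespace CFRO

variable {m : ℕ} {μ : Option (Fin m) → Option (Fin m) → ℕ}

lemma bcL (s : Fin m → ℂ) (w : MC μ) (a b : Option (Fin m)) (k : Fin (μ a b)) :
    (bc μ).L s w a b k = hat s a * w a b k := rfl

lemma bcR (s : Fin m → ℂ) (w : MC μ) (a b : Option (Fin m)) (k : Fin (μ a b)) :
    (bc μ).R s w a b k = hat s b * w a b k := rfl

lemma hat_single (i : Fin m) (a : Option (Fin m)) :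
    hat (Pi.single i (1 : ℂ)) a = if a = some i then 1 else 0 := by
  cases a with
  | none => simp [hat]
  | some a =>
    by_cases h : a = i
    · subst h; simp [hat]
    · simp [hat, h]

lemma hat_one (a : Option (Fin m)) : hat (1 : Fin m → ℂ) a = if a = none then 0 else 1 := by
  cases a <;> simp [hat]

lemma stepL {W : Submodule ℂ (MC μ)} (hsub : (bc μ).Sub W) (i : Option (Fin m)) {w : MC μ}
    (hw : w ∈ W) : ∃ w1 ∈ W, ∀ a b, w1 a b = if a = i then w a b else 0 := by
  cases i with
  | none =>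
    refine ⟨w - (bc μ).L 1 w, W.sub_mem hw (hsub 1 w hw).1, fun a b => ?_⟩
    funext k
    show w a b k - (bc μ).L 1 w a b k = _
    rw [bcL, hat_one]
    by_cases h : a = none
    · rw [if_pos h, if_pos h]; ring
    · rw [if_neg h, if_neg h]; simp
  | some i =>
    refine ⟨(bc μ).L (Pi.single i 1) w, (hsub _ w hw).1, fun a b => ?_⟩
    funext k
    rw [bcL, hat_single]
    by_cases h : a = some i
    · rw [if_pos h, if_pos h]; ring
    · rw [if_neg h, if_neg h]; simp

lemma stepR {W : Submodule ℂ (MC μ)} (hsub : (bc μ).Sub W) (j : Option (Fin m)) {w : MC μ}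
    (hw : w ∈ W) : ∃ w1 ∈ W, ∀ a b, w1 a b = if b = j then w a b else 0 := by
  cases j with
  | none =>
    refine ⟨w - (bc μ).R 1 w, W.sub_mem hw (hsub 1 w hw).2, fun a b => ?_⟩
    funext k
    show w a b k - (bc μ).R 1 w a b k = _
    rw [bcR, hat_one]
    by_cases h : b = none
    · rw [if_pos h, if_pos h]; ring
    · rw [if_neg h, if_neg h]; simp
  | some j =>
    refine ⟨(bc μ).R (Pi.single j 1) w, (hsub _ w hw).2, fun a b => ?_⟩
    funext k
    rw [bcR, hat_single]
    by_cases h : b = some j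
    · rw [if_pos h, if_pos h]; ring
    · rw [if_neg h, if_neg h]; simp

/-- the elements supported in the component `i j` -/
noncomputable def io (μ : Option (Fin m) → Option (Fin m) → ℕ) (i j : Option (Fin m)) :
    (Fin (μ i j) → ℂ) →ₗ[ℂ] MC μ :=
  (LinearMap.single ℂ (fun i => (j : Option (Fin m)) → Fin (μ i j) → ℂ) i) ∘ₗ
    (LinearMap.single ℂ (fun j => Fin (μ i j) → ℂ) j)

lemma io_same (i j : Option (Fin m)) (y : Fin (μ i j) → ℂ) : io μ i j y i j = y := by
  show (Pi.single i (Pi.single j y : (j : Option (Fin m)) → Fin (μ i j) → ℂ) : MC μ) i j = y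
  rw [Pi.single_eq_same, Pi.single_eq_same]

lemma io_ne (i j : Option (Fin m)) (y : Fin (μ i j) → ℂ) {a b : Option (Fin m)}
    (h : ¬ (a = i ∧ b = j)) : io μ i j y a b = 0 := by
  show (Pi.single i (Pi.single j y : (j : Option (Fin m)) → Fin (μ i j) → ℂ) : MC μ) a b = 0
  by_cases ha : a = i
  · subst ha
    have hb : b ≠ j := fun hb => h ⟨rfl, hb⟩
    rw [Pi.single_eq_same, Pi.single_eq_of_ne hb]
  · rw [Pi.single_eq_of_ne ha]
    rfl

lemma io_mem {W : Submodule ℂ (MC μ)} (hsub : (bc μ).Sub W) {i j : Option (Fin m)}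
    {y : Fin (μ i j) → ℂ} (hy : y ∈ W.map (pr μ i j)) : io μ i j y ∈ W := by
  obtain ⟨w, hw, rfl⟩ := hy
  obtain ⟨w1, hw1, e1⟩ := stepL hsub i hw
  obtain ⟨w2, hw2, e2⟩ := stepR hsub j hw1
  have e : io μ i j (pr μ i j w) = w2 := by
    funext a b
    by_cases h : a = i ∧ b = j
    · obtain ⟨rfl, rfl⟩ := h
      rw [io_same, e2, if_pos rfl, e1, if_pos rfl]
      rfl
    · rw [io_ne _ _ _ h, e2, e1]
      by_cases hb : b = j
      · by_cases ha : a = i
        · exact absurd ⟨ha, hb⟩ h
        · rw [if_pos hb, if_neg ha]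
      · rw [if_neg hb]
  rw [e]
  exact hw2

/-- the commutator with `s` -/
noncomputable def br (s : Fin m → ℂ) (w : MC μ) : MC μ := (bc μ).L s w - (bc μ).R s w

lemma br_apply (s : Fin m → ℂ) (w : MC μ) (a b : Option (Fin m)) :
    br s w a b = (hat s a - hat s b) • w a b := by
  funext k
  show (bc μ).L s w a b k - (bc μ).R s w a b k = (hat s a - hat s b) * w a b k
  rw [bcL, bcR]
  ring

lemma k1 {W : Submodule ℂ (MC μ)} {l : (Fin m → ℂ) × MC μ →ₗ[ℂ] ℂ}
    (hl : ∀ x : (Fin m → ℂ) × MC μ, x.2 ∈ W →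
      (∀ y : (Fin m → ℂ) × MC μ, y.2 ∈ W → l ((bc μ).mul x y - (bc μ).mul y x) = 0) → x = 0)
    {w : MC μ} (hw : w ∈ W) (h : ∀ s, l (0, br s w) = 0) : w = 0 := by
  have h1 := hl (0, w) hw (fun y _ => by
    have e : (bc μ).mul (0, w) y - (bc μ).mul y (0, w) = -((0 : Fin m → ℂ), br y.1 w) := by
      refine Prod.ext ?_ ?_
      · show 0 * y.1 - y.1 * 0 = -0
        simp
      · show ((bc μ).L 0 y.2 + (bc μ).R y.1 w) - ((bc μ).L y.1 w + (bc μ).R 0 y.2) =
          -((bc μ).L y.1 w - (bc μ).R y.1 w)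
        rw [map_zero, map_zero]
        simp
    rw [e, map_neg, h, neg_zero])
  exact congrArg Prod.snd h1

lemma k2 {W : Submodule ℂ (MC μ)} {l : (Fin m → ℂ) × MC μ →ₗ[ℂ] ℂ}
    (hl : ∀ x : (Fin m → ℂ) × MC μ, x.2 ∈ W →
      (∀ y : (Fin m → ℂ) × MC μ, y.2 ∈ W → l ((bc μ).mul x y - (bc μ).mul y x) = 0) → x = 0)
    {s : Fin m → ℂ} (h : ∀ w ∈ W, l (0, br s w) = 0) : s = 0 := by
  have h1 := hl (s, 0) W.zero_mem (fun y hy => by
    have e : (bc μ).mul (s, 0) y - (bc μ).mul y (s, 0) = ((0 : Fin m → ℂ), br s y.2) := by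
      refine Prod.ext ?_ ?_
      · show s * y.1 - y.1 * s = 0
        rw [mul_comm, sub_self]
      · show ((bc μ).L s y.2 + (bc μ).R y.1 0) - ((bc μ).L y.1 0 + (bc μ).R s y.2) =
          (bc μ).L s y.2 - (bc μ).R s y.2
        rw [map_zero, map_zero]
        simp
    rw [e, h _ hy])
  exact congrArg Prod.fst h1

lemma mapdiag {W : Submodule ℂ (MC μ)} (hsub : (bc μ).Sub W) {l : (Fin m → ℂ) × MC μ →ₗ[ℂ] ℂ}
    (hl : ∀ x : (Fin m → ℂ) × MC μ, x.2 ∈ W →
      (∀ y : (Fin m → ℂ) × MC μ, y.2 ∈ W → l ((bc μ).mul x y - (bc μ).mul y x) = 0) → x = 0)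
    (i : Option (Fin m)) : dd μ W i i = 0 := by
  have h : W.map (pr μ i i) = ⊥ := by
    rw [Submodule.eq_bot_iff]
    intro y hy
    have h1 := k1 hl (io_mem hsub hy) (fun s => by
      have e : br s (io μ i i y) = 0 := by
        funext a b
        rw [br_apply]
        by_cases h : a = i ∧ b = i
        · rw [h.1, h.2, sub_self, zero_smul]
          rfl
        · rw [io_ne _ _ _ h, smul_zero]
          rfl
      rw [e]
      exact map_zero l)
    have h2 := io_same i i y
    rw [h1] at h2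
    exact h2.symm
  unfold dd
  rw [h]
  exact finrank_bot ℂ _

lemma le_one {W : Submodule ℂ (MC μ)} (hsub : (bc μ).Sub W) {l : (Fin m → ℂ) × MC μ →ₗ[ℂ] ℂ}
    (hl : ∀ x : (Fin m → ℂ) × MC μ, x.2 ∈ W →
      (∀ y : (Fin m → ℂ) × MC μ, y.2 ∈ W → l ((bc μ).mul x y - (bc μ).mul y x) = 0) → x = 0)
    (i j : Option (Fin m)) : dd μ W i j + dd μ W j i ≤ 1 := by
  by_cases hij : i = j
  · subst hij
    rw [mapdiag hsub hl]
    omega
  · let φ : MC μ →ₗ[ℂ] ℂ := l ∘ₗ LinearMap.inr ℂ (Fin m → ℂ) (MC μ)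
    let Θ : (W.map (pr μ i j) × W.map (pr μ j i)) →ₗ[ℂ] ℂ :=
      (φ ∘ₗ io μ i j ∘ₗ (W.map (pr μ i j)).subtype) ∘ₗ LinearMap.fst ℂ _ _ -
      (φ ∘ₗ io μ j i ∘ₗ (W.map (pr μ j i)).subtype) ∘ₗ LinearMap.snd ℂ _ _
    have hinj : Function.Injective Θ := by
      rw [injective_iff_map_eq_zero]
      rintro ⟨⟨y, hy⟩, ⟨z, hz⟩⟩ h0
      have h0' : φ (io μ i j y) - φ (io μ j i z) = 0 := h0
      have hw : io μ i j y + io μ j i z ∈ W := W.add_mem (io_mem hsub hy) (io_mem hsub hz)
      have hzz := k1 hl hw (fun s => by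
        have e : br s (io μ i j y + io μ j i z) =
            (hat s i - hat s j) • (io μ i j y - io μ j i z) := by
          funext a b
          rw [br_apply]
          show (hat s a - hat s b) • (io μ i j y a b + io μ j i z a b) =
            (hat s i - hat s j) • (io μ i j y a b - io μ j i z a b)
          by_cases h1 : a = i ∧ b = j
          · have h2 : ¬ (a = j ∧ b = i) := fun h2 => hij (h1.1.symm.trans h2.1)
            have h3 := io_ne (μ := μ) j i z h2
            rw [h3, h1.1, h1.2, add_zero, sub_zero]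
          · have h3 := io_ne (μ := μ) i j y h1
            rw [h3]
            by_cases h2 : a = j ∧ b = i
            · rw [h2.1, h2.2, zero_add, zero_sub, smul_neg, ← neg_smul, neg_sub]
            · have h4 := io_ne (μ := μ) j i z h2
              rw [h4, add_zero, sub_zero, smul_zero, smul_zero]
        have e2 : l (0, br s (io μ i j y + io μ j i z)) =
            (hat s i - hat s j) * (φ (io μ i j y) - φ (io μ j i z)) := by
          show φ (br s (io μ i j y + io μ j i z)) = _
          rw [e, map_smul, map_sub, smul_eq_mul]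
        rw [e2, h0', mul_zero])
      have hy0 : y = 0 := by
        have h1 : (io μ i j y + io μ j i z) i j = 0 := by rw [hzz]; rfl
        have h2 : (io μ i j y + io μ j i z) i j = io μ i j y i j + io μ j i z i j := rfl
        have h3 : io μ j i z i j = 0 := io_ne (μ := μ) j i z (fun h => hij h.1)
        have h4 : io μ i j y i j = y := io_same (μ := μ) i j y
        rw [h2, h3, h4, add_zero] at h1
        exact h1
      have hz0 : z = 0 := by
        have h1 : (io μ i j y + io μ j i z) j i = 0 := by rw [hzz]; rfl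
        have h2 : (io μ i j y + io μ j i z) j i = io μ i j y j i + io μ j i z j i := rfl
        have h3 : io μ i j y j i = 0 := io_ne (μ := μ) i j y (fun h => hij h.1.symm)
        have h4 : io μ j i z j i = z := io_same (μ := μ) j i z
        rw [h2, h3, h4, zero_add] at h1
        exact h1
      exact Prod.ext (Subtype.ext hy0) (Subtype.ext hz0)
    have h1 := LinearMap.finrank_le_finrank_of_injective hinj
    rw [Module.finrank_prod, Module.finrank_self] at h1
    exact h1

lemma dd_ne {W : Submodule ℂ (MC μ)} {w : MC μ} (hw : w ∈ W) {i j : Option (Fin m)}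
    (h : w i j ≠ 0) : dd μ W i j ≠ 0 := by
  intro h0
  unfold dd at h0
  have h1 := Submodule.finrank_eq_zero.1 h0
  have h2 : w i j ∈ W.map (pr μ i j) := ⟨w, hw, rfl⟩
  rw [h1] at h2
  exact h ((Submodule.mem_bot ℂ).1 h2)

end CFRO

open CFRO

theorem t_CFRO : S_CFRO := by
  classical
  intro m μ W hsub hF
  obtain ⟨l, hl⟩ := hF
  have hone := le_one hsub hl
  refine ⟨mapdiag hsub hl, hone, ?_⟩
  obtain ⟨G, hG⟩ : ∃ G : SimpleGraph (Option (Fin m)),
      G = SimpleGraph.fromRel (fun i j => dd μ W i j ≠ dd μ W j i) := ⟨_, rfl⟩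
  rw [← hG]
  have hadj : ∀ (w : MC μ), w ∈ W → ∀ a b, w a b ≠ 0 → G.Adj a b := by
    intro w hw a b h
    have h1 := dd_ne hw h
    have h2 := hone a b
    have h3 : dd μ W a b ≠ dd μ W b a := by omega
    have h4 : a ≠ b := by
      rintro rfl
      exact h1 (mapdiag hsub hl a)
    rw [hG, SimpleGraph.fromRel_adj]
    exact ⟨h4, Or.inl h3⟩
  -- connected
  have hconn : G.Connected := by
    rw [SimpleGraph.connected_iff_exists_forall_reachable]
    refine ⟨none, ?_⟩
    by_contra hcon
    push Not at hcon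
    obtain ⟨v, hv⟩ := hcon
    let s : Fin m → ℂ := fun i => if G.Reachable none (some i) then 0 else 1
    have hs : ∀ a, hat s a = if G.Reachable none a then 0 else 1 := by
      intro a
      cases a with
      | none =>
        rw [if_pos (SimpleGraph.Reachable.refl none)]
        rfl
      | some a => rfl
    have h1 := k2 hl (s := s) (fun w hw => by
      have e : br s w = 0 := by
        funext a b
        rw [br_apply]
        by_cases h : w a b = 0
        · rw [h, smul_zero]
          rfl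
        · have h2 := hadj w hw a b h
          have h3 : hat s a = hat s b := by
            rw [hs, hs]
            by_cases h4 : G.Reachable none a
            · rw [if_pos h4, if_pos (h4.trans h2.reachable)]
            · rw [if_neg h4, if_neg (fun h5 => h4 (h5.trans h2.symm.reachable))]
          rw [h3, sub_self, zero_smul]
          rfl
      rw [e]
      exact map_zero l)
    have h2 : hat s v = 0 := by
      rw [h1]
      cases v <;> rfl
    rw [hs, if_neg hv] at h2
    exact one_ne_zero h2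
  rw [SimpleGraph.isTree_iff_connected_and_card]
  refine ⟨hconn, le_antisymm ?_ hconn.card_vert_le_card_edgeSet_add_one⟩
  -- the edges
  have hE : ∀ e : G.edgeSet, ∃ (p : Option (Fin m) × Option (Fin m)) (w : MC μ),
      s(p.1, p.2) = (e : Sym2 (Option (Fin m))) ∧ w ∈ W ∧ w p.1 p.2 ≠ 0 ∧
      ∀ a b, (a, b) ≠ p → w a b = 0 := by
    have key : ∀ i j, dd μ W i j ≠ 0 → ∃ w : MC μ, w ∈ W ∧ w i j ≠ 0 ∧
        ∀ a b, (a, b) ≠ (i, j) → w a b = 0 := by
      intro i j h
      have h1 : W.map (pr μ i j) ≠ ⊥ := by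
        intro h0
        apply h
        unfold dd
        rw [h0]
        exact finrank_bot ℂ _
      obtain ⟨y, hy, hy0⟩ := (Submodule.ne_bot_iff _).1 h1
      refine ⟨io μ i j y, io_mem hsub hy, by rw [io_same]; exact hy0, fun a b hab => ?_⟩
      exact io_ne i j y (fun h => hab (Prod.ext h.1 h.2))
    rintro ⟨e, he⟩
    induction e using Sym2.ind with
    | _ i j =>
      rw [SimpleGraph.mem_edgeSet, hG, SimpleGraph.fromRel_adj] at he
      have h1 : dd μ W i j ≠ 0 ∨ dd μ W j i ≠ 0 := by
        have := he.2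
        omega
      rcases h1 with h1 | h1
      · obtain ⟨w, hw, h2, h3⟩ := key i j h1
        exact ⟨(i, j), w, rfl, hw, h2, h3⟩
      · obtain ⟨w, hw, h2, h3⟩ := key j i h1
        exact ⟨(j, i), w, Sym2.eq_swap, hw, h2, h3⟩
  choose p w hp hwW hw0 hws using hE
  have := Fintype.ofFinite G.edgeSet
  let φ : MC μ →ₗ[ℂ] ℂ := l ∘ₗ LinearMap.inr ℂ (Fin m → ℂ) (MC μ)
  let Φ : G.edgeSet → Module.Dual ℂ (Fin m → ℂ) := fun e =>
    φ ∘ₗ ((bc μ).L.flip (w e) - (bc μ).R.flip (w e))
  have hΦ : ∀ e s, Φ e s = φ (br s (w e)) := fun e s => rfl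
  have hli : LinearIndependent ℂ Φ := by
    rw [Fintype.linearIndependent_iff]
    intro g hg e0
    have hbr : ∀ s, br s (∑ e, g e • w e) = ∑ e, g e • br s (w e) := by
      intro s
      show (bc μ).L s (∑ e, g e • w e) - (bc μ).R s (∑ e, g e • w e) = _
      rw [map_sum, map_sum, ← Finset.sum_sub_distrib]
      refine Finset.sum_congr rfl fun e _ => ?_
      rw [map_smul, map_smul, ← smul_sub]
      rfl
    have h1 : ∑ e, g e • w e = 0 := by
      refine k1 hl (W.sum_mem fun e _ => W.smul_mem _ (hwW e)) (fun s => ?_)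
      show φ (br s (∑ e, g e • w e)) = 0
      rw [hbr, map_sum]
      have h2 := LinearMap.congr_fun hg s
      rw [LinearMap.sum_apply] at h2
      rw [← show (∑ e, (g e • Φ e) s) = 0 from h2]
      refine Finset.sum_congr rfl fun e _ => ?_
      rw [map_smul, LinearMap.smul_apply, hΦ]
    have h2 : (∑ e, g e • w e) (p e0).1 (p e0).2 = g e0 • w e0 (p e0).1 (p e0).2 := by
      rw [Finset.sum_apply, Finset.sum_apply]
      rw [Finset.sum_eq_single e0]
      · rfl
      · intro e _ hne
        have h3 : ((p e0).1, (p e0).2) ≠ p e := by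
          intro h4
          apply hne
          apply Subtype.ext
          rw [← hp e, ← hp e0, ← h4]
        show g e • w e (p e0).1 (p e0).2 = 0
        rw [hws e _ _ h3, smul_zero]
      · intro h
        exact absurd (Finset.mem_univ e0) h
    rw [h1] at h2
    have h3 : g e0 • w e0 (p e0).1 (p e0).2 = 0 := h2.symm
    exact (smul_eq_zero.1 h3).resolve_right (hw0 e0)
  have hc := hli.fintype_card_le_finrank
  rw [Subspace.dual_finrank_eq, Module.finrank_fin_fun] at hc
  rw [Nat.card_eq_fintype_card, Nat.card_eq_fintype_card, Fintype.card_option, Fintype.card_fin]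
  omega

end Pool.Agent.N917.AF
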