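import Pool.Agent.N917.AF.Stm5

/-!
Project AF: structure of bimodules over `ℂ^m` (leaf CMOR).
-/

set_option autoImplicit false

namespace Pool.Agent.N917.AF

namespace CMOR

variable {m : ℕ} {M : Type} [AddCommGroup M] [Module ℂ M] (b : Bim (Fin m → ℂ) M)

theorem L_one_one (x : M) : b.L 1 (b.L 1 x) = b.L 1 x := by
  rw [← b.mulL, one_mul]

theorem R_one_one (x : M) : b.R 1 (b.R 1 x) = b.R 1 x := by
  rw [← b.mulR, one_mul]

theorem single_sum (s : Fin m → ℂ) : s = ∑ i, s i • (Pi.single i 1 : Fin m → ℂ) := by
  funext k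
  simp [Finset.sum_apply, Pi.single_apply]

theorem lI_L (i : Option (Fin m)) (s : Fin m → ℂ) (x : M) :
    lI b i (b.L s x) = hat s i • lI b i x := by
  cases i with
  | none =>
    simp only [lI, hat, Option.elim_none, LinearMap.sub_apply, LinearMap.id_coe, id_eq, zero_smul]
    rw [← b.mulL, one_mul, sub_self]
  | some i =>
    simp only [lI, hat, Option.elim_some]
    rw [← b.mulL]
    have h : (Pi.single i 1 : Fin m → ℂ) * s = s i • Pi.single i 1 := by
      funext k
      by_cases hk : k = i
      · subst hk; simp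
      · simp [Pi.single_apply, hk]
    rw [h, map_smul, LinearMap.smul_apply]

theorem rI_R (j : Option (Fin m)) (s : Fin m → ℂ) (x : M) :
    rI b j (b.R s x) = hat s j • rI b j x := by
  cases j with
  | none =>
    simp only [rI, hat, Option.elim_none, LinearMap.sub_apply, LinearMap.id_coe, id_eq, zero_smul]
    rw [← b.mulR, mul_one, sub_self]
  | some j =>
    simp only [rI, hat, Option.elim_some]
    rw [← b.mulR]
    have h : s * (Pi.single j 1 : Fin m → ℂ) = s j • Pi.single j 1 := by
      funext k
      by_cases hk : k = j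
      · subst hk; simp
      · simp [Pi.single_apply, hk]
    rw [h, map_smul, LinearMap.smul_apply]

theorem rI_L (j : Option (Fin m)) (s : Fin m → ℂ) (x : M) :
    rI b j (b.L s x) = b.L s (rI b j x) := by
  cases j with
  | none => simp [rI, b.comm]
  | some j => simp [rI, b.comm]

theorem lI_R (i : Option (Fin m)) (s : Fin m → ℂ) (x : M) :
    lI b i (b.R s x) = b.R s (lI b i x) := by
  cases i with
  | none => simp [lI, b.comm]
  | some i => simp [lI, b.comm]

theorem hat_single (i j : Option (Fin m)) (k : Fin m) (hj : j = some k) :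
    hat (Pi.single k (1 : ℂ)) i = if i = j then 1 else 0 := by
  subst hj
  cases i with
  | none => simp [hat]
  | some i =>
    simp only [hat, Option.elim_some, Pi.single_apply, Option.some.injEq]

theorem lI_lI (i j : Option (Fin m)) (x : M) :
    lI b i (lI b j x) = if i = j then lI b i x else 0 := by
  cases j with
  | some k =>
    have h : lI b (some k) x = b.L (Pi.single k 1) x := rfl
    rw [h, lI_L, hat_single i (some k) k rfl]
    split_ifs with h2
    · rw [one_smul]
    · rw [zero_smul]
  | none =>
    have h : lI b none x = x - b.L 1 x := rfl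
    rw [h, map_sub, lI_L]
    cases i with
    | none => simp [hat]
    | some i => simp [hat]

theorem rI_rI (i j : Option (Fin m)) (x : M) :
    rI b i (rI b j x) = if i = j then rI b i x else 0 := by
  cases j with
  | some k =>
    have h : rI b (some k) x = b.R (Pi.single k 1) x := rfl
    rw [h, rI_R, hat_single i (some k) k rfl]
    split_ifs with h2
    · rw [one_smul]
    · rw [zero_smul]
  | none =>
    have h : rI b none x = x - b.R 1 x := rfl
    rw [h, map_sub, rI_R]
    cases i with
    | none => simp [hat]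
    | some i => simp [hat]

theorem one_sum : (1 : Fin m → ℂ) = ∑ i, (Pi.single i 1 : Fin m → ℂ) := by
  funext k
  simp [Finset.sum_apply, Pi.single_apply]

theorem lI_sum (x : M) : ∑ i, lI b i x = x := by
  rw [Fintype.sum_option]
  have h : ∑ i : Fin m, lI b (some i) x = b.L 1 x := by
    conv_rhs => rw [one_sum, map_sum, LinearMap.sum_apply]
    rfl
  rw [h]
  simp [lI]

theorem rI_sum (x : M) : ∑ i, rI b i x = x := by
  rw [Fintype.sum_option]
  have h : ∑ i : Fin m, rI b (some i) x = b.R 1 x := by
    conv_rhs => rw [one_sum, map_sum, LinearMap.sum_apply]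
    rfl
  rw [h]
  simp [rI]

theorem lI_rI (i j : Option (Fin m)) (x : M) : lI b i (rI b j x) = rI b j (lI b i x) := by
  cases j with
  | some k =>
    have h : ∀ y, rI b (some k) y = b.R (Pi.single k 1) y := fun _ => rfl
    rw [h, h, lI_R]
  | none =>
    have h : ∀ y, rI b none y = y - b.R 1 y := fun _ => rfl
    rw [h, h, map_sub, lI_R]

/-- the idempotents -/
noncomputable abbrev P (i j : Option (Fin m)) : M →ₗ[ℂ] M := lI b i ∘ₗ rI b j

theorem P_P (i j k l : Option (Fin m)) (x : M) :
    P b i j (P b k l x) = if i = k ∧ j = l then P b i j x else 0 := by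
  simp only [P, LinearMap.comp_apply]
  rw [← lI_rI b k j, lI_lI, rI_rI]
  by_cases h1 : i = k
  · by_cases h2 : j = l
    · subst h1; subst h2; simp
    · simp [h1, h2]
  · simp [h1]

theorem P_sum (x : M) : ∑ i, ∑ j, P b i j x = x := by
  simp only [P, LinearMap.comp_apply]
  have h : ∀ i, ∑ j, lI b i (rI b j x) = lI b i x := by
    intro i
    rw [← map_sum, rI_sum]
  simp only [h, lI_sum]

theorem P_L (i j : Option (Fin m)) (s : Fin m → ℂ) (x : M) :
    P b i j (b.L s x) = hat s i • P b i j x := by
  simp only [P, LinearMap.comp_apply]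
  rw [rI_L, lI_L]

theorem P_R (i j : Option (Fin m)) (s : Fin m → ℂ) (x : M) :
    P b i j (b.R s x) = hat s j • P b i j x := by
  simp only [P, LinearMap.comp_apply]
  rw [rI_R, map_smul]

variable [Module.Finite ℂ M]

/-- coordinates on the component `i j` -/
noncomputable def E (i j : Option (Fin m)) :
    LinearMap.range (lI b i ∘ₗ rI b j) ≃ₗ[ℂ] (Fin (mm b i j) → ℂ) :=
  (Module.finBasis ℂ (LinearMap.range (lI b i ∘ₗ rI b j))).equivFun

/-- the isomorphism as a linear map -/
noncomputable def ee : M →ₗ[ℂ] MC (mm b) :=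
  LinearMap.pi fun i => LinearMap.pi fun j =>
    (E b i j).toLinearMap ∘ₗ (lI b i ∘ₗ rI b j).rangeRestrict

theorem ee_apply (x : M) (i j : Option (Fin m)) :
    ee b x i j = E b i j ((lI b i ∘ₗ rI b j).rangeRestrict x) := rfl

theorem ee_inj : Function.Injective (ee b) := by
  rw [← LinearMap.ker_eq_bot, LinearMap.ker_eq_bot']
  intro x hx
  rw [← P_sum b x]
  refine Finset.sum_eq_zero fun i _ => Finset.sum_eq_zero fun j _ => ?_
  have h1 : ee b x i j = 0 := by rw [hx]; rfl
  rw [ee_apply, LinearEquiv.map_eq_zero_iff] at h1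
  exact congrArg Subtype.val h1

theorem ee_surj : Function.Surjective (ee b) := by
  intro y
  refine ⟨∑ i, ∑ j, ((E b i j).symm (y i j) : M), ?_⟩
  funext k l
  rw [ee_apply]
  have h : (lI b k ∘ₗ rI b l).rangeRestrict (∑ i, ∑ j, ((E b i j).symm (y i j) : M)) =
      (E b k l).symm (y k l) := by
    apply Subtype.ext
    change P b k l (∑ i, ∑ j, ((E b i j).symm (y i j) : M)) = _
    rw [map_sum]
    have h2 : ∀ i j, P b k l ((E b i j).symm (y i j) : M) =
        if k = i ∧ l = j then ((E b i j).symm (y i j) : M) else 0 := by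
      intro i j
      obtain ⟨w, hw⟩ := ((E b i j).symm (y i j)).2
      rw [← hw]
      change P b k l (P b i j w) = if k = i ∧ l = j then P b i j w else 0
      rw [P_P]
      by_cases h3 : k = i ∧ l = j
      · obtain ⟨h3, h4⟩ := h3
        subst h3; subst h4; simp
      · simp [h3]
    simp only [map_sum, h2]
    rw [Finset.sum_eq_single k]
    · rw [Finset.sum_eq_single l]
      · simp
      · intro j _ hj
        simp [Ne.symm hj]
      · simp
    · intro i _ hi
      refine Finset.sum_eq_zero fun j _ => ?_
      simp [Ne.symm hi]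
    · simp
  rw [h, LinearEquiv.apply_symm_apply]

end CMOR

open CMOR in
theorem t_CMOR : S_CMOR := by
  intro m M _ _ _ b
  refine ⟨LinearEquiv.ofBijective (ee b) ⟨ee_inj b, ee_surj b⟩, ?_, ?_⟩
  · intro s x
    funext i j
    change ee b (b.L s x) i j = fun k => hat s i * ee b x i j k
    rw [ee_apply]
    have h : (lI b i ∘ₗ rI b j).rangeRestrict (b.L s x) =
        hat s i • (lI b i ∘ₗ rI b j).rangeRestrict x := by
      apply Subtype.ext
      exact P_L b i j s x
    rw [h, map_smul]
    rfl
  · intro s x
    funext i j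
    change ee b (b.R s x) i j = fun k => hat s j * ee b x i j k
    rw [ee_apply]
    have h : (lI b i ∘ₗ rI b j).rangeRestrict (b.R s x) =
        hat s j • (lI b i ∘ₗ rI b j).rangeRestrict x := by
      apply Subtype.ext
      exact P_R b i j s x
    rw [h, map_smul]
    rfl

end Pool.Agent.N917.AF
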