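import Pool.Agent.N917.AF.Stm2

/-!
Project AF (helper917), leaf CO2 (helper195): on `S × (S ⊕ M)` a cocycle is a coboundary, for every
algebra `S` with a separability element and every bimodule `M`.
-/

set_option autoImplicit false

namespace Pool.Agent.N917.AF

open TensorProduct

namespace CO2

variable {S M : Type} [Ring S] [Algebra ℂ S] [AddCommGroup M] [Module ℂ M]

/-- the left multiplication `z ↦ s z` on `S ⊕ M` -/
def lam (b : Bim S M) : S →ₗ[ℂ] (S × M) →ₗ[ℂ] (S × M) :=
  LinearMap.mk₂ ℂ (fun s z => (s * z.1, b.L s z.2))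
    (fun s s' z => Prod.ext (by simp [add_mul]) (by simp))
    (fun c s z => Prod.ext (by simp) (by simp))
    (fun s z z' => Prod.ext (by simp [mul_add]) (by simp))
    (fun c s z => Prod.ext (by simp) (by simp))

/-- the right multiplication `z ↦ z s` on `S ⊕ M` -/
def rho (b : Bim S M) : S →ₗ[ℂ] (S × M) →ₗ[ℂ] (S × M) :=
  LinearMap.mk₂ ℂ (fun s z => (z.1 * s, b.R s z.2))
    (fun s s' z => Prod.ext (by simp [mul_add]) (by simp))
    (fun c s z => Prod.ext (by simp) (by simp))
    (fun s z z' => Prod.ext (by simp [add_mul]) (by simp))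
    (fun c s z => Prod.ext (by simp) (by simp))

theorem lam_apply (b : Bim S M) (s : S) (z : S × M) : lam b s z = (s * z.1, b.L s z.2) := rfl

theorem rho_apply (b : Bim S M) (s : S) (z : S × M) : rho b s z = (z.1 * s, b.R s z.2) := rfl

theorem mul_lam (b : Bim S M) (s : S) (z : S × M) : b.mul (s, 0) z = lam b s z := by
  simp [Bim.mul, lam_apply]

theorem mul_rho (b : Bim S M) (s : S) (z : S × M) : b.mul z (s, 0) = rho b s z := by
  simp [Bim.mul, rho_apply]

theorem lam_mul (b : Bim S M) (s s' : S) (z : S × M) : lam b (s * s') z = lam b s (lam b s' z) := by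
  simp [lam_apply, b.mulL, mul_assoc]

theorem lam_rho (b : Bim S M) (s s' : S) (z : S × M) :
    lam b s (rho b s' z) = rho b s' (lam b s z) := by
  simp [lam_apply, rho_apply, b.comm, mul_assoc]

end CO2

open CO2

theorem t_CO2 : S_CO2 := by
  intro S M _ _ _ _ b N x y hS ω hω
  obtain ⟨hs1, hs2⟩ := hS
  obtain ⟨ha, hc⟩ := hω
  -- the functional
  let A : (S × M) →ₗ[ℂ] ℂ := ∑ i, (ω (x i, 0)).comp (lam b (y i))
  let C : (S × M) →ₗ[ℂ] ℂ := (ω (1, 0)).comp (LinearMap.id - lam b 1)
  have hA : ∀ z, A z = ∑ i, ω (x i, 0) (lam b (y i) z) := by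
    intro z
    simp [A]
  have hC : ∀ z, C z = ω (1, 0) (z - lam b 1 z) := by
    intro z
    simp [C]
  refine ⟨A - C, fun s z => ?_⟩
  rw [mul_lam, mul_rho]
  -- separability
  have h1 : ∑ i, ω (s * x i, 0) (lam b (y i) z) = A (lam b s z) := by
    let f : S →ₗ[ℂ] S →ₗ[ℂ] ℂ :=
      LinearMap.mk₂ ℂ (fun a c => ω (a, 0) (lam b c z))
        (fun a a' c => by
          have : ((a + a', 0) : S × M) = (a, 0) + (a', 0) := by simp
          rw [this, map_add, LinearMap.add_apply])
        (fun k a c => by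
          have : ((k • a, 0) : S × M) = k • (a, 0) := by simp
          rw [this, map_smul, LinearMap.smul_apply])
        (fun a c c' => by simp)
        (fun k a c => by simp)
    have hf : ∀ a c, f a c = ω (a, 0) (lam b c z) := fun a c => rfl
    have h2 := congrArg (TensorProduct.lift f) (hs2 s)
    rw [map_sum, map_sum] at h2
    simp only [TensorProduct.lift.tmul, hf] at h2
    rw [h2, hA]
    exact Finset.sum_congr rfl fun i _ => by rw [lam_mul]
  -- the cyclic identity, summed
  have h2 : -A (lam b s z) + ω (s, 0) (lam b 1 z) + A (rho b s z) = 0 := by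
    have h3 : ∀ i, -ω (s * x i, 0) (lam b (y i) z) + ω (s, 0) (lam b (x i * y i) z) +
        ω (x i, 0) (lam b (y i) (rho b s z)) = 0 := by
      intro i
      have h4 := hc (lam b (y i) z) (s, 0) (x i, 0)
      rw [mul_lam, mul_lam, mul_rho] at h4
      have h5 : lam b s ((x i, 0) : S × M) = (s * x i, 0) := by simp [lam_apply]
      rw [h5, ha _ (s * x i, 0), ← lam_mul, ← lam_rho] at h4
      exact h4
    have h4 : ∑ i, (-ω (s * x i, 0) (lam b (y i) z) + ω (s, 0) (lam b (x i * y i) z) +
        ω (x i, 0) (lam b (y i) (rho b s z))) = 0 := Finset.sum_eq_zero fun i _ => h3 i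
    rw [Finset.sum_add_distrib, Finset.sum_add_distrib, Finset.sum_neg_distrib, h1] at h4
    have h5 : ∑ i, ω (s, 0) (lam b (x i * y i) z) = ω (s, 0) (lam b 1 z) := by
      rw [← hs1, map_sum, LinearMap.sum_apply, map_sum]
    rw [h5, ← hA] at h4
    exact h4
  -- the correction term
  have h6 : C (lam b s z - rho b s z) = -ω (s, 0) (z - lam b 1 z) := by
    rw [hC]
    have h7 : lam b 1 (lam b s z - rho b s z) = lam b s z - rho b s (lam b 1 z) := by
      rw [map_sub, ← lam_mul, one_mul, lam_rho]
    have h8 : lam b s z - rho b s z - (lam b s z - rho b s (lam b 1 z)) =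
        -rho b s (z - lam b 1 z) := by
      rw [map_sub]; abel
    rw [h7, h8, map_neg]
    have h9 := hc (s, 0) (1, 0) (z - lam b 1 z)
    rw [mul_lam, mul_rho, mul_lam] at h9
    have h10 : lam b 1 (z - lam b 1 z) = 0 := by
      rw [map_sub, ← lam_mul, one_mul, sub_self]
    have h11 : lam b s ((1, 0) : S × M) = (s, 0) := by simp [lam_apply]
    rw [h10, h11, map_zero, zero_add, ha _ (s, 0)] at h9
    linear_combination -h9
  rw [LinearMap.sub_apply, h6, map_sub, map_sub]
  linear_combination h2

end Pool.Agent.N917.AF
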