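import Pool.Agent.N917.AF.Stm

/-!
# Leaf RK: rank normal form (helper475)
-/

set_option autoImplicit false

namespace Pool.Agent.N917.AF

open Matrix

namespace RK

theorem kst_inj (r a : ℕ) (c : Fin r → ℂ) (h : kst r a *ᵥ c = 0) : c = 0 := by
  funext k
  have h1 := congrFun h (Fin.castAdd a k)
  rw [Matrix.mulVec, dotProduct, Finset.sum_eq_single k] at h1
  · simpa [kst] using h1
  · intro j _ hj
    unfold kst
    rw [if_neg, zero_mul]
    intro h2
    apply hj
    apply Fin.ext
    rw [← h2]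
    rfl
  · intro h2
    exact absurd (Finset.mem_univ k) h2

theorem inj_of {m n : ℕ} (κ : Matrix (Fin m) (Fin n) ℂ) (h : ∀ c, κ *ᵥ c = 0 → c = 0) :
    Function.Injective (Matrix.toLin' κ) := by
  rw [← LinearMap.ker_eq_bot, LinearMap.ker_eq_bot']
  intro c hc
  rw [Matrix.toLin'_apply] at hc
  exact h c hc

end RK

open RK in
theorem t_RK : S_RK := by
  intro q r κ hκ
  have hF := inj_of κ hκ
  have hle : r ≤ q := by
    have := LinearMap.finrank_le_finrank_of_injective hF
    simpa using this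
  obtain ⟨a, rfl⟩ := Nat.exists_eq_add_of_le hle
  have hG := inj_of (kst r a) (kst_inj r a)
  obtain ⟨g, hg⟩ := Submodule.exists_linearEquiv_restrict_eq
    ((LinearEquiv.ofInjective _ hF).symm ≪≫ₗ (LinearEquiv.ofInjective _ hG))
  have hcomp : (g : (Fin (r + a) → ℂ) →ₗ[ℂ] (Fin (r + a) → ℂ)) ∘ₗ Matrix.toLin' κ =
      Matrix.toLin' (kst r a) := by
    refine LinearMap.ext fun c => ?_
    have h1 := hg (LinearEquiv.ofInjective _ hF c)
    rw [LinearEquiv.trans_apply, LinearEquiv.symm_apply_apply] at h1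
    exact h1.symm
  refine ⟨a, rfl, LinearMap.toMatrix' (g : (Fin (r + a) → ℂ) →ₗ[ℂ] (Fin (r + a) → ℂ)), ?_, ?_⟩
  · rw [LinearMap.det_toMatrix']
    exact LinearEquiv.isUnit_det' g
  · have h2 : κ.submatrix (Fin.cast rfl) id = κ := by
      ext i j
      rfl
    rw [h2]
    have h3 := congrArg LinearMap.toMatrix' hcomp
    rw [LinearMap.toMatrix'_comp, LinearMap.toMatrix'_toLin', LinearMap.toMatrix'_toLin'] at h3
    exact h3

end Pool.Agent.N917.AF
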