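import Pool.Agent.N917.AF.Stm4
import Pool.Agent.N917.AF.RK

set_option autoImplicit false

/-!
Project AF (helper917), leaf CS1 (helper627): castling, first half.
-/

namespace Pool.Agent.N917.AF

open Matrix

namespace CS1

/-- a linear functional on matrices is a trace form -/
theorem exists_trace {a b : ℕ} (φ : Matrix (Fin a) (Fin b) ℂ →ₗ[ℂ] ℂ) :
    ∃ Γ : Matrix (Fin b) (Fin a) ℂ, ∀ X, φ X = trace (Γ * X) := by
  refine ⟨fun j i => φ (Matrix.single i j 1), fun X => ?_⟩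
  have h1 : φ X = ∑ i, ∑ j, X i j * φ (Matrix.single i j 1) := by
    conv_lhs => rw [Matrix.matrix_eq_sum_single X]
    rw [map_sum]
    refine Finset.sum_congr rfl fun i _ => ?_
    rw [map_sum]
    refine Finset.sum_congr rfl fun j _ => ?_
    have h2 : Matrix.single i j (X i j) = X i j • (Matrix.single i j (1 : ℂ)) := by
      rw [Matrix.smul_single, smul_eq_mul, mul_one]
    rw [h2, map_smul, smul_eq_mul]
  rw [h1, Finset.sum_comm]
  unfold Matrix.trace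
  refine Finset.sum_congr rfl fun j _ => ?_
  rw [Matrix.diag_apply, Matrix.mul_apply]
  exact Finset.sum_congr rfl fun i _ => mul_comm _ _

theorem eq_zero_of_trace {a b : ℕ} (A : Matrix (Fin a) (Fin b) ℂ)
    (h : ∀ X : Matrix (Fin b) (Fin a) ℂ, trace (A * X) = 0) : A = 0 := by
  ext i j
  have h1 := h (Matrix.single j i 1)
  have h2 : trace (A * Matrix.single j i (1 : ℂ)) = A i j := by
    unfold Matrix.trace
    rw [Finset.sum_eq_single i]
    · simp [Matrix.mul_apply, Matrix.single_apply]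
    · intro k _ hk
      simp [Matrix.mul_apply, Matrix.single_apply, Ne.symm hk]
    · intro hi
      exact absurd (Finset.mem_univ i) hi
  rw [← h2, h1]
  rfl

section
variable {S M : Type} [Ring S] [Algebra ℂ S] [AddCommGroup M] [Module ℂ M]

/-- the linear functional with the components `mu, Γ, lam, Λ` -/
noncomputable def frm {n ν : ℕ} (mu : S →ₗ[ℂ] ℂ) (Γ : Matrix (Fin n) (Fin n) ℂ) (lam : M →ₗ[ℂ] ℂ)
    (Λ : Matrix (Fin ν) (Fin n) ℂ) :
    ((S × Matrix (Fin n) (Fin n) ℂ) × (M × Matrix (Fin n) (Fin ν) ℂ)) →ₗ[ℂ] ℂ where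
  toFun x := mu x.1.1 + trace (Γ * x.1.2) + lam x.2.1 + trace (Λ * x.2.2)
  map_add' x y := by
    simp only [Prod.fst_add, Prod.snd_add, map_add, Matrix.mul_add, Matrix.trace_add]
    ring
  map_smul' c x := by
    simp only [Prod.smul_fst, Prod.smul_snd, map_smul, Matrix.mul_smul, Matrix.trace_smul,
      smul_eq_mul, RingHom.id_apply]
    ring

theorem exists_frm {n ν : ℕ}
    (l : ((S × Matrix (Fin n) (Fin n) ℂ) × (M × Matrix (Fin n) (Fin ν) ℂ)) →ₗ[ℂ] ℂ) :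
    ∃ (mu : S →ₗ[ℂ] ℂ) (Γ : Matrix (Fin n) (Fin n) ℂ) (lam : M →ₗ[ℂ] ℂ)
      (Λ : Matrix (Fin ν) (Fin n) ℂ), l = frm mu Γ lam Λ := by
  obtain ⟨Γ, hΓ⟩ := exists_trace (l ∘ₗ LinearMap.inl ℂ _ _ ∘ₗ LinearMap.inr ℂ _ _)
  obtain ⟨Λ, hΛ⟩ := exists_trace (l ∘ₗ LinearMap.inr ℂ _ _ ∘ₗ LinearMap.inr ℂ _ _)
  refine ⟨l ∘ₗ LinearMap.inl ℂ _ _ ∘ₗ LinearMap.inl ℂ _ _, Γ,
    l ∘ₗ LinearMap.inr ℂ _ _ ∘ₗ LinearMap.inl ℂ _ _, Λ, ?_⟩
  refine LinearMap.ext fun x => ?_
  obtain ⟨⟨s, g⟩, w, Y⟩ := x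
  have h1 : (((s, g), (w, Y)) : (S × Matrix (Fin n) (Fin n) ℂ) × (M × Matrix (Fin n) (Fin ν) ℂ)) =
      ((s, 0), 0) + ((0, g), 0) + (0, (w, 0)) + (0, (0, Y)) := by
    simp
  have h2 := hΓ g
  have h3 := hΛ Y
  have e1 : l ((0, g), 0) = trace (Γ * g) := h2
  have e2 : l (0, (0, Y)) = trace (Λ * Y) := h3
  rw [h1, map_add, map_add, map_add, e1, e2, ← h1]
  rfl

/-- the form of the functional `frm` on the algebra of a sink -/
theorem lie {n ν : ℕ} (b : Bim S M) (ρ : S →ₗ[ℂ] Matrix (Fin ν) (Fin ν) ℂ)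
    (hρ : ∀ s s', ρ (s * s') = ρ s * ρ s') (mu : S →ₗ[ℂ] ℂ) (Γ : Matrix (Fin n) (Fin n) ℂ)
    (lam : M →ₗ[ℂ] ℂ) (Λ : Matrix (Fin ν) (Fin n) ℂ) (s : S) (g : Matrix (Fin n) (Fin n) ℂ) (w : M)
    (Y : Matrix (Fin n) (Fin ν) ℂ) (s' : S) (g' : Matrix (Fin n) (Fin n) ℂ) (w' : M)
    (Y' : Matrix (Fin n) (Fin ν) ℂ) :
    frm mu Γ lam Λ ((snk b ρ hρ n).mul ((s, g), (w, Y)) ((s', g'), (w', Y')) -
      (snk b ρ hρ n).mul ((s', g'), (w', Y')) ((s, g), (w, Y))) =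
    (mu (s * s' - s' * s) + lam (b.R s' w - b.L s' w) + trace (Λ * Y * ρ s')) +
      lam (b.L s w' - b.R s w') + trace ((Γ * g - g * Γ - Y * Λ) * g') +
      trace ((Λ * g - ρ s * Λ) * Y') := by
  have t1 : trace (Γ * (g' * g)) = trace (g * Γ * g') := by
    rw [← Matrix.mul_assoc, Matrix.trace_mul_comm, ← Matrix.mul_assoc]
  have t2 : trace (Λ * (g' * Y)) = trace (Y * Λ * g') := by
    rw [← Matrix.mul_assoc, Matrix.trace_mul_comm, ← Matrix.mul_assoc]
  have t3 : trace (Λ * (Y' * ρ s)) = trace (ρ s * Λ * Y') := by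
    rw [← Matrix.mul_assoc, Matrix.trace_mul_comm, ← Matrix.mul_assoc]
  have e1 : (snk b ρ hρ n).mul ((s, g), (w, Y)) ((s', g'), (w', Y')) =
      ((s * s', g * g'), (b.L s w' + b.R s' w, g * Y' + Y * ρ s')) := rfl
  have e2 : (snk b ρ hρ n).mul ((s', g'), (w', Y')) ((s, g), (w, Y)) =
      ((s' * s, g' * g), (b.L s' w + b.R s w', g' * Y + Y' * ρ s)) := rfl
  rw [e1, e2]
  show mu (s * s' - s' * s) + trace (Γ * (g * g' - g' * g)) +
    lam (b.L s w' + b.R s' w - (b.L s' w + b.R s w')) +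
    trace (Λ * (g * Y' + Y * ρ s' - (g' * Y + Y' * ρ s))) = _
  simp only [Matrix.mul_sub, Matrix.mul_add, Matrix.sub_mul, Matrix.trace_sub, Matrix.trace_add,
    map_sub, map_add, t1, t2, t3, Matrix.mul_assoc]
  ring

/-- the kernel of the form -/
theorem kernel {n ν : ℕ} (b : Bim S M) (ρ : S →ₗ[ℂ] Matrix (Fin ν) (Fin ν) ℂ)
    (hρ : ∀ s s', ρ (s * s') = ρ s * ρ s') (mu : S →ₗ[ℂ] ℂ) (Γ : Matrix (Fin n) (Fin n) ℂ)
    (lam : M →ₗ[ℂ] ℂ) (Λ : Matrix (Fin ν) (Fin n) ℂ) (s : S) (g : Matrix (Fin n) (Fin n) ℂ) (w : M)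
    (Y : Matrix (Fin n) (Fin ν) ℂ) :
    (∀ y, y.2 ∈ (⊤ : Submodule ℂ (M × Matrix (Fin n) (Fin ν) ℂ)) → frm mu Γ lam Λ
      ((snk b ρ hρ n).mul ((s, g), (w, Y)) y - (snk b ρ hρ n).mul y ((s, g), (w, Y))) = 0) ↔
    (∀ w', lam (b.L s w' - b.R s w') = 0) ∧ Λ * g = ρ s * Λ ∧ Γ * g - g * Γ = Y * Λ ∧
      ∀ s', mu (s * s' - s' * s) + lam (b.R s' w - b.L s' w) + trace (Λ * Y * ρ s') = 0 := by
  constructor
  · intro h
    have h0 : ∀ (s' : S) (g' : Matrix (Fin n) (Fin n) ℂ) (w' : M) (Y' : Matrix (Fin n) (Fin ν) ℂ),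
        (mu (s * s' - s' * s) + lam (b.R s' w - b.L s' w) +
        trace (Λ * Y * ρ s')) + lam (b.L s w' - b.R s w') +
        trace ((Γ * g - g * Γ - Y * Λ) * g') + trace ((Λ * g - ρ s * Λ) * Y') = 0 := by
      intro s' g' w' Y'
      rw [← lie b ρ hρ mu Γ lam Λ s g w Y s' g' w' Y']
      exact h _ Submodule.mem_top
    refine ⟨fun w' => ?_, ?_, ?_, fun s' => ?_⟩
    · have h1 := h0 0 0 w' 0
      simpa using h1
    · rw [← sub_eq_zero]
      refine eq_zero_of_trace _ fun Y' => ?_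
      have h1 := h0 0 0 0 Y'
      simpa using h1
    · rw [← sub_eq_zero]
      refine eq_zero_of_trace _ fun g' => ?_
      have h1 := h0 0 g' 0 0
      simpa using h1
    · have h1 := h0 s' 0 0 0
      simpa using h1
  · rintro ⟨h1, h2, h3, h4⟩ ⟨⟨s', g'⟩, w', Y'⟩ _
    rw [lie, h1, h4, h2, h3]
    simp

theorem mid_of {n n' ν : ℕ} (b : Bim S M) (ρ : S →ₗ[ℂ] Matrix (Fin ν) (Fin ν) ℂ)
    (hρ : ∀ s s', ρ (s * s') = ρ s * ρ s') (mu : S →ₗ[ℂ] ℂ) (Γ : Matrix (Fin n) (Fin n) ℂ)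
    (lam : M →ₗ[ℂ] ℂ) (A : Matrix (Fin ν) (Fin n) ℂ) (A' : Matrix (Fin n) (Fin ν) ℂ)
    (P : Matrix (Fin n') (Fin ν) ℂ) (P' : Matrix (Fin ν) (Fin n') ℂ) (hC : Cmp A A' P P')
    (h : ∀ x : (S × Matrix (Fin n) (Fin n) ℂ) × (M × Matrix (Fin n) (Fin ν) ℂ),
      x.2 ∈ (⊤ : Submodule ℂ (M × Matrix (Fin n) (Fin ν) ℂ)) →
      (∀ y, y.2 ∈ (⊤ : Submodule ℂ (M × Matrix (Fin n) (Fin ν) ℂ)) → frm mu Γ lam A
        ((snk b ρ hρ n).mul x y - (snk b ρ hρ n).mul y x) = 0) → x = 0) :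
    ∃ mu' : S →ₗ[ℂ] ℂ, Mid b ρ A P mu' lam := by
  obtain ⟨c1, c2, c3, c4, c5⟩ := hC
  refine ⟨{ toFun := fun s => mu s + trace (A * Γ * A' * ρ s)
            map_add' := fun s s' => by
              simp only [map_add, Matrix.mul_add, Matrix.trace_add]
              ring
            map_smul' := fun c s => by
              simp only [map_smul, Matrix.mul_smul, Matrix.trace_smul, smul_eq_mul,
                RingHom.id_apply]
              ring }, ?_⟩
  intro s w K0 hP hE1 hE4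
  set g : Matrix (Fin n) (Fin n) ℂ := A' * ρ s * A with hg
  set u : Matrix (Fin n) (Fin n') ℂ := A' * ρ s * P' with hu
  set K : Matrix (Fin n) (Fin n') ℂ := K0 + Γ * u with hK
  set Y : Matrix (Fin n) (Fin ν) ℂ := (Γ * g - g * Γ) * A' + K * P with hY
  have k2 : A * g = ρ s * A := by
    have h1 : A * g = (A * A') * (ρ s * A) := by
      rw [hg]
      simp only [Matrix.mul_assoc]
    have h2 : A * A' = 1 - P' * P := by rw [← c5]; abel
    rw [h1, h2, Matrix.sub_mul, Matrix.one_mul]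
    have h3 : P' * P * (ρ s * A) = P' * (P * ρ s * A) := by simp only [Matrix.mul_assoc]
    rw [h3, hP, Matrix.mul_zero, sub_zero]
  have k3 : Γ * g - g * Γ = Y * A := by
    rw [hY, Matrix.add_mul, Matrix.mul_assoc (Γ * g - g * Γ) A' A, c1, Matrix.mul_one,
      Matrix.mul_assoc K P A, c3, Matrix.mul_zero, add_zero]
  have k4 : g * A' = A' * ρ s - u * P := by
    have h1 : g * A' = A' * ρ s * (A * A') := by
      rw [hg]
      simp only [Matrix.mul_assoc]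
    have h2 : A * A' = 1 - P' * P := by rw [← c5]; abel
    rw [h1, h2, Matrix.mul_sub, Matrix.mul_one, hu]
    simp only [Matrix.mul_assoc]
  have k5 : A * Y = (A * Γ * A') * ρ s - ρ s * (A * Γ * A') + A * K0 * P := by
    have h1 : A * Y = A * Γ * (g * A') - (A * g) * Γ * A' + A * K * P := by
      rw [hY]
      simp only [Matrix.mul_add, Matrix.mul_sub, Matrix.sub_mul, Matrix.mul_assoc]
    rw [h1, k4, k2, hK]
    simp only [Matrix.mul_add, Matrix.mul_sub, Matrix.add_mul, Matrix.mul_assoc]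
    abel
  have hx := h ((s, g), (w, Y)) Submodule.mem_top ((kernel b ρ hρ mu Γ lam A s g w Y).2
    ⟨hE1, k2, k3, fun s' => by
      have h1 := hE4 s'
      rw [k5, Matrix.add_mul, Matrix.trace_add, Matrix.sub_mul, Matrix.trace_sub]
      have h2 : trace ((A * Γ * A') * ρ s * ρ s') = trace (A * Γ * A' * ρ (s * s')) := by
        rw [hρ, Matrix.mul_assoc]
      have h3 : trace (ρ s * (A * Γ * A') * ρ s') = trace (A * Γ * A' * ρ (s' * s)) := by
        rw [hρ, Matrix.mul_assoc, Matrix.trace_mul_comm, Matrix.mul_assoc]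
      rw [h2, h3]
      have h4 : mu (s * s' - s' * s) + trace (A * Γ * A' * ρ (s * s' - s' * s)) +
          lam (b.R s' w - b.L s' w) + trace (A * K0 * P * ρ s') = 0 := h1
      rw [map_sub ρ, Matrix.mul_sub, Matrix.trace_sub] at h4
      linear_combination h4⟩)
  have hs : s = 0 := congrArg (fun x => x.1.1) hx
  have hg0 : g = 0 := congrArg (fun x => x.1.2) hx
  have hw : w = 0 := congrArg (fun x => x.2.1) hx
  have hY0 : Y = 0 := congrArg (fun x => x.2.2) hx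
  refine ⟨hs, hw, ?_⟩
  have hu0 : u = 0 := by
    rw [hu, hs, map_zero, Matrix.mul_zero, Matrix.zero_mul]
  have hK0 : K0 = K := by rw [hK, hu0, Matrix.mul_zero, add_zero]
  have h5 : K * P = 0 := by
    have h6 : (Γ * g - g * Γ) * A' + K * P = 0 := hY0
    rw [hg0] at h6
    simpa using h6
  rw [hK0]
  calc K = K * (P * P') := by rw [c2, Matrix.mul_one]
    _ = K * P * P' := (Matrix.mul_assoc _ _ _).symm
    _ = 0 := by rw [h5, Matrix.zero_mul]

theorem frob_of {n n' ν : ℕ} (b : Bim S M) (ρ : S →ₗ[ℂ] Matrix (Fin ν) (Fin ν) ℂ)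
    (hρ : ∀ s s', ρ (s * s') = ρ s * ρ s') (mu : S →ₗ[ℂ] ℂ)
    (lam : M →ₗ[ℂ] ℂ) (A : Matrix (Fin ν) (Fin n) ℂ) (A' : Matrix (Fin n) (Fin ν) ℂ)
    (P : Matrix (Fin n') (Fin ν) ℂ) (P' : Matrix (Fin ν) (Fin n') ℂ) (hC : Cmp A A' P P')
    (h : Mid b ρ A P mu lam) : (snk b ρ hρ n).Frob ⊤ := by
  obtain ⟨c1, c2, c3, c4, c5⟩ := hC
  refine ⟨frm mu 0 lam A, ?_⟩
  rintro ⟨⟨s, g⟩, w, Y⟩ _ hk
  obtain ⟨k1, k2, k3, k4⟩ := (kernel b ρ hρ mu 0 lam A s g w Y).1 hk
  have hYA : Y * A = 0 := by rw [← k3]; simp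
  have hY : Y = Y * P' * P := by
    calc Y = Y * (A * A' + P' * P) := by rw [c5, Matrix.mul_one]
      _ = Y * P' * P := by
        rw [Matrix.mul_add, ← Matrix.mul_assoc, hYA, Matrix.zero_mul, zero_add, Matrix.mul_assoc]
  have hPA : P * ρ s * A = 0 := by
    rw [Matrix.mul_assoc, ← k2, ← Matrix.mul_assoc, c3, Matrix.zero_mul]
  obtain ⟨hs, hw, hK⟩ := h s w (Y * P') hPA k1 (fun s' => by
    have h1 : A * (Y * P') * P = A * Y := by
      conv_rhs => rw [hY]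
      simp only [Matrix.mul_assoc]
    rw [h1]
    exact k4 s')
  have hY0 : Y = 0 := by rw [hY, hK, Matrix.zero_mul]
  have hg0 : g = 0 := by
    calc g = A' * A * g := by rw [c1, Matrix.one_mul]
      _ = A' * (A * g) := Matrix.mul_assoc _ _ _
      _ = 0 := by rw [k2, hs, map_zero, Matrix.zero_mul, Matrix.mul_zero]
  rw [hs, hg0, hw, hY0]
  rfl

/-- the functional of a nondegenerate form has an injective component `Λ` -/
theorem inj {n n' : ℕ} (b : Bim S M) (ρ : S →ₗ[ℂ] Matrix (Fin (n + n')) (Fin (n + n')) ℂ)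
    (hρ : ∀ s s', ρ (s * s') = ρ s * ρ s') (mu : S →ₗ[ℂ] ℂ) (Γ : Matrix (Fin n) (Fin n) ℂ)
    (lam : M →ₗ[ℂ] ℂ) (A : Matrix (Fin (n + n')) (Fin n) ℂ)
    (h : ∀ x : (S × Matrix (Fin n) (Fin n) ℂ) × (M × Matrix (Fin n) (Fin (n + n')) ℂ),
      x.2 ∈ (⊤ : Submodule ℂ (M × Matrix (Fin n) (Fin (n + n')) ℂ)) →
      (∀ y, y.2 ∈ (⊤ : Submodule ℂ (M × Matrix (Fin n) (Fin (n + n')) ℂ)) → frm mu Γ lam A
        ((snk b ρ hρ n).mul x y - (snk b ρ hρ n).mul y x) = 0) → x = 0)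
    (c : Fin n → ℂ) (hc : A *ᵥ c = 0) : c = 0 := by
  by_contra hc0
  have hd : ∃ d : Fin (n + n') → ℂ, d ≠ 0 ∧ d ᵥ* A = 0 := by
    by_contra hcon
    push Not at hcon
    have hinj : Function.Injective (Matrix.vecMulLinear A) := by
      rw [← LinearMap.ker_eq_bot, LinearMap.ker_eq_bot']
      intro d hd
      by_contra hd0
      exact hcon d hd0 hd
    have h1 := LinearMap.finrank_le_finrank_of_injective hinj
    rw [Module.finrank_fin_fun, Module.finrank_fin_fun] at h1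
    have h2 : Module.finrank ℂ (Fin (n + n') → ℂ) = Module.finrank ℂ (Fin n → ℂ) := by
      rw [Module.finrank_fin_fun, Module.finrank_fin_fun]
      omega
    have hsurj := (LinearMap.injective_iff_surjective_of_finrank_eq_finrank h2).1 hinj
    apply hc0
    funext i
    obtain ⟨d, hd⟩ := hsurj (Pi.single i 1)
    have h3 : d ᵥ* A = Pi.single i 1 := hd
    have h4 : (d ᵥ* A) ⬝ᵥ c = d ⬝ᵥ (A *ᵥ c) := (Matrix.dotProduct_mulVec d A c).symm
    rw [hc, h3, dotProduct_zero, single_one_dotProduct] at h4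
    exact h4
  obtain ⟨d, hd0, hd⟩ := hd
  have hYA : Matrix.vecMulVec c d * A = 0 := by
    rw [Matrix.vecMulVec_mul, hd]
    ext i j
    simp [Matrix.vecMulVec_apply]
  have hAY : A * Matrix.vecMulVec c d = 0 := by
    rw [Matrix.mul_vecMulVec, hc]
    ext i j
    simp [Matrix.vecMulVec_apply]
  have hx := h ((0, 0), (0, Matrix.vecMulVec c d)) Submodule.mem_top
    ((kernel b ρ hρ mu Γ lam A 0 0 0 (Matrix.vecMulVec c d)).2
      ⟨fun w' => by simp, by simp, by rw [hYA]; simp, fun s' => by rw [hAY]; simp⟩)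
  have hY0 : Matrix.vecMulVec c d = 0 := congrArg (fun x => x.2.2) hx
  obtain ⟨i, hi⟩ := Function.ne_iff.1 hc0
  obtain ⟨j, hj⟩ := Function.ne_iff.1 hd0
  have h5 := congrFun (congrFun hY0 i) j
  rw [Matrix.vecMulVec_apply] at h5
  exact (mul_ne_zero hi hj) h5

end

/-- complementary matrices of an injective matrix -/
theorem exists_cmp {n n' : ℕ} (A : Matrix (Fin (n + n')) (Fin n) ℂ)
    (hA : ∀ c, A *ᵥ c = 0 → c = 0) : ∃ A' P P', Cmp (n' := n') A A' P P' := by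
  obtain ⟨a, h, Q, hQ, hQA⟩ := t_RK (n + n') n A hA
  obtain rfl : a = n' := by omega
  have e : A.submatrix (Fin.cast h.symm) id = A := by
    ext i j
    rfl
  rw [e] at hQA
  have q1 : Q * Q⁻¹ = 1 := Matrix.mul_nonsing_inv Q hQ
  have q2 : Q⁻¹ * Q = 1 := Matrix.nonsing_inv_mul Q hQ
  have hA2 : A = Q⁻¹ * kst n a := by
    rw [← hQA, ← Matrix.mul_assoc, q2, Matrix.one_mul]
  have hAe : ∀ i k, A i k = Q⁻¹ i (Fin.castAdd a k) := by
    intro i k
    rw [hA2, Matrix.mul_apply, Finset.sum_eq_single (Fin.castAdd a k)]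
    · simp [kst]
    · intro j _ hj
      have : ¬ ((j : ℕ) = (k : ℕ)) := fun h => hj (Fin.ext h)
      simp [kst, this]
    · intro h
      exact absurd (Finset.mem_univ _) h
  refine ⟨fun k j => Q (Fin.castAdd a k) j, fun k j => Q (Fin.natAdd n k) j,
    fun i k => Q⁻¹ i (Fin.natAdd n k), ?_, ?_, ?_, ?_, ?_⟩
  · ext i k
    have h1 := congrFun (congrFun q1 (Fin.castAdd a i)) (Fin.castAdd a k)
    rw [Matrix.mul_apply] at h1 ⊢
    simp only [hAe]
    rw [h1, Matrix.one_apply, Matrix.one_apply]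
    simp
  · ext i k
    have h1 := congrFun (congrFun q1 (Fin.natAdd n i)) (Fin.natAdd n k)
    rw [Matrix.mul_apply] at h1 ⊢
    rw [h1, Matrix.one_apply, Matrix.one_apply]
    simp
  · ext i k
    have h1 := congrFun (congrFun q1 (Fin.natAdd n i)) (Fin.castAdd a k)
    rw [Matrix.mul_apply] at h1 ⊢
    simp only [hAe]
    rw [h1, Matrix.one_apply, if_neg]
    · rfl
    · intro h2
      have := congrArg Fin.val h2
      simp at this
      omega
  · ext i k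
    have h1 := congrFun (congrFun q1 (Fin.castAdd a i)) (Fin.natAdd n k)
    rw [Matrix.mul_apply] at h1 ⊢
    rw [h1, Matrix.one_apply, if_neg]
    · rfl
    · intro h2
      have := congrArg Fin.val h2
      simp at this
      omega
  · ext i k
    have h1 := congrFun (congrFun q2 i) k
    rw [Matrix.mul_apply, Fin.sum_univ_add] at h1
    rw [Matrix.add_apply, Matrix.mul_apply, Matrix.mul_apply]
    simp only [hAe]
    exact h1

end CS1

open CS1 in
theorem t_CS1 : S_CS1 := by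
  intro S M _ _ _ _ _ _ b ν ρ hρ n n' hν
  subst hν
  constructor
  · rintro ⟨l, hl⟩
    obtain ⟨mu, Γ, lam, A, rfl⟩ := exists_frm l
    have hA := inj b ρ hρ mu Γ lam A hl
    obtain ⟨A', P, P', hC⟩ := exists_cmp A hA
    obtain ⟨mu', hmid⟩ := mid_of b ρ hρ mu Γ lam A A' P P' hC hl
    exact ⟨A, A', P, P', hC, mu', lam, hmid⟩
  · rintro ⟨A, A', P, P', hC, mu, lam, hmid⟩
    exact frob_of b ρ hρ mu lam A A' P P' hC hmid

end Pool.Agent.N917.AF
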