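import Pool.Agent.N917.AF.Stm4

/-!
Project AF (helper917), leaf CS2: castling, second half (helper935).
-/

set_option autoImplicit false

namespace Pool.Agent.N917.AF

open Matrix

namespace CS2

/-- every linear functional on matrices is `X ↦ trace (Q X)` -/
theorem fun_trace {a c : ℕ} (φ : Matrix (Fin a) (Fin c) ℂ →ₗ[ℂ] ℂ) :
    ∃ Q : Matrix (Fin c) (Fin a) ℂ, ∀ X, φ X = trace (Q * X) := by
  refine ⟨Matrix.of fun j i => φ (Matrix.single i j 1), fun X => ?_⟩
  conv_lhs => rw [matrix_eq_sum_single X]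
  rw [map_sum]
  simp only [map_sum]
  rw [Finset.sum_comm]
  simp only [trace, diag, mul_apply, of_apply]
  refine Finset.sum_congr rfl fun j _ => Finset.sum_congr rfl fun i _ => ?_
  have : (Matrix.single i j (X i j) : Matrix (Fin a) (Fin c) ℂ) =
      X i j • Matrix.single i j (1 : ℂ) := by
    rw [smul_single, smul_eq_mul, mul_one]
  rw [this, map_smul, smul_eq_mul, mul_comm]

/-- complement of a full rank matrix -/
theorem exists_cmp {ν n n' : ℕ} (hν : n + n' = ν) (P : Matrix (Fin n') (Fin ν) ℂ)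
    (hP : Function.Surjective P.mulVecLin) :
    ∃ A A' P', Cmp (ν := ν) (n := n) (n' := n') A A' P P' := by
  obtain ⟨g, hg⟩ := P.mulVecLin.exists_rightInverse_of_surjective (LinearMap.range_eq_top.2 hP)
  have hg' : ∀ c, P.mulVecLin (g c) = c := fun c => LinearMap.congr_fun hg c
  have hdim : Module.finrank ℂ (LinearMap.ker P.mulVecLin) = n := by
    have h1 := LinearMap.finrank_range_add_finrank_ker P.mulVecLin
    rw [LinearMap.range_eq_top.2 hP, finrank_top] at h1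
    simp only [Module.finrank_fintype_fun_eq_card, Fintype.card_fin] at h1
    omega
  let bk : Module.Basis (Fin n) ℂ (LinearMap.ker P.mulVecLin) :=
    Module.finBasisOfFinrankEq ℂ _ hdim
  let ι : (Fin n → ℂ) →ₗ[ℂ] (Fin ν → ℂ) :=
    (LinearMap.ker P.mulVecLin).subtype ∘ₗ bk.equivFun.symm.toLinearMap
  let π : (Fin ν → ℂ) →ₗ[ℂ] LinearMap.ker P.mulVecLin :=
    (LinearMap.id - g ∘ₗ P.mulVecLin).codRestrict _ (by
      intro v
      rw [LinearMap.mem_ker, LinearMap.sub_apply, map_sub, LinearMap.comp_apply, hg',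
        LinearMap.id_apply, sub_self])
  have hπ : ∀ v, ((π v : LinearMap.ker P.mulVecLin) : Fin ν → ℂ) = v - g (P.mulVecLin v) :=
    fun v => rfl
  have hιk : ∀ c, P.mulVecLin (ι c) = 0 := fun c => (bk.equivFun.symm c).2
  have e1 : (bk.equivFun.toLinearMap ∘ₗ π) ∘ₗ ι = LinearMap.id := by
    refine LinearMap.ext fun c => ?_
    have h1 : π (ι c) = bk.equivFun.symm c := by
      apply Subtype.ext
      rw [hπ, hιk, map_zero, sub_zero]
      rfl
    change bk.equivFun (π (ι c)) = c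
    rw [h1, LinearEquiv.apply_symm_apply]
  have e3 : P.mulVecLin ∘ₗ ι = 0 := LinearMap.ext fun c => hιk c
  have e4 : (bk.equivFun.toLinearMap ∘ₗ π) ∘ₗ g = 0 := by
    refine LinearMap.ext fun c => ?_
    have h1 : π (g c) = 0 := by
      apply Subtype.ext
      rw [hπ, hg', sub_self]
      rfl
    change bk.equivFun (π (g c)) = 0
    rw [h1, map_zero]
  have e5 : ι ∘ₗ (bk.equivFun.toLinearMap ∘ₗ π) + g ∘ₗ P.mulVecLin = LinearMap.id := by
    refine LinearMap.ext fun v => ?_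
    change ((bk.equivFun.symm (bk.equivFun (π v)) : LinearMap.ker P.mulVecLin) : Fin ν → ℂ) +
      g (P.mulVecLin v) = v
    rw [LinearEquiv.symm_apply_apply, hπ, sub_add_cancel]
  have hPm : LinearMap.toMatrix' P.mulVecLin = P := by
    rw [← Matrix.toLin'_apply', LinearMap.toMatrix'_toLin']
  refine ⟨LinearMap.toMatrix' ι, LinearMap.toMatrix' (bk.equivFun.toLinearMap ∘ₗ π),
    LinearMap.toMatrix' g, ?_, ?_, ?_, ?_, ?_⟩
  · rw [← LinearMap.toMatrix'_comp, e1, LinearMap.toMatrix'_id]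
  · conv_lhs => rw [← hPm]
    rw [← LinearMap.toMatrix'_comp, hg, LinearMap.toMatrix'_id]
  · conv_lhs => rw [← hPm]
    rw [← LinearMap.toMatrix'_comp, e3, map_zero]
  · rw [← LinearMap.toMatrix'_comp, e4, map_zero]
  · have h1 : LinearMap.toMatrix' g * P = LinearMap.toMatrix' g * LinearMap.toMatrix' P.mulVecLin := by
      rw [hPm]
    rw [h1, ← LinearMap.toMatrix'_comp, ← LinearMap.toMatrix'_comp, ← map_add, e5,
      LinearMap.toMatrix'_id]

section
variable {S M : Type} [Ring S] [Algebra ℂ S] [AddCommGroup M] [Module ℂ M]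

/-- the functional with the given components -/
noncomputable def LL {ν n' : ℕ} (mu : S →ₗ[ℂ] ℂ) (Γ : Matrix (Fin n') (Fin n') ℂ)
    (lam : M →ₗ[ℂ] ℂ) (P : Matrix (Fin n') (Fin ν) ℂ) :
    (S × Matrix (Fin n') (Fin n') ℂ) × (M × Matrix (Fin ν) (Fin n') ℂ) →ₗ[ℂ] ℂ where
  toFun z := mu z.1.1 + trace (Γ * z.1.2) + lam z.2.1 + trace (P * z.2.2)
  map_add' x y := by
    simp only [Prod.fst_add, Prod.snd_add, map_add, Matrix.mul_add, trace_add]
    ring
  map_smul' c x := by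
    simp only [Prod.smul_fst, Prod.smul_snd, map_smul, Matrix.mul_smul, trace_smul, smul_eq_mul,
      RingHom.id_apply]
    ring

theorem LL_apply {ν n' : ℕ} (mu : S →ₗ[ℂ] ℂ) (Γ : Matrix (Fin n') (Fin n') ℂ)
    (lam : M →ₗ[ℂ] ℂ) (P : Matrix (Fin n') (Fin ν) ℂ) (s : S) (g : Matrix (Fin n') (Fin n') ℂ)
    (w : M) (Z : Matrix (Fin ν) (Fin n') ℂ) :
    LL mu Γ lam P ((s, g), (w, Z)) = mu s + trace (Γ * g) + lam w + trace (P * Z) := rfl

theorem exists_LL {ν n' : ℕ}
    (l : (S × Matrix (Fin n') (Fin n') ℂ) × (M × Matrix (Fin ν) (Fin n') ℂ) →ₗ[ℂ] ℂ) :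
    ∃ mu Γ lam P, l = LL mu Γ lam P := by
  obtain ⟨Γ, hΓ⟩ := fun_trace (l ∘ₗ (LinearMap.inl ℂ (S × Matrix (Fin n') (Fin n') ℂ)
    (M × Matrix (Fin ν) (Fin n') ℂ)) ∘ₗ LinearMap.inr ℂ S (Matrix (Fin n') (Fin n') ℂ))
  obtain ⟨P, hP⟩ := fun_trace (l ∘ₗ (LinearMap.inr ℂ (S × Matrix (Fin n') (Fin n') ℂ)
    (M × Matrix (Fin ν) (Fin n') ℂ)) ∘ₗ LinearMap.inr ℂ M (Matrix (Fin ν) (Fin n') ℂ))
  refine ⟨l ∘ₗ (LinearMap.inl ℂ (S × Matrix (Fin n') (Fin n') ℂ)
    (M × Matrix (Fin ν) (Fin n') ℂ)) ∘ₗ LinearMap.inl ℂ S (Matrix (Fin n') (Fin n') ℂ), Γ,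
    l ∘ₗ (LinearMap.inr ℂ (S × Matrix (Fin n') (Fin n') ℂ)
    (M × Matrix (Fin ν) (Fin n') ℂ)) ∘ₗ LinearMap.inl ℂ M (Matrix (Fin ν) (Fin n') ℂ), P, ?_⟩
  refine LinearMap.ext ?_
  rintro ⟨⟨s, g⟩, ⟨w, Z⟩⟩
  rw [LL_apply, ← hΓ, ← hP]
  change _ = l ((s, 0), (0, 0)) + l ((0, g), (0, 0)) + l ((0, 0), (w, 0)) + l ((0, 0), (0, Z))
  rw [← map_add, ← map_add, ← map_add]
  congr 1
  simp

/-- the four kernel equations -/
def E4 (b : Bim S M) {ν n' : ℕ} (ρ : S →ₗ[ℂ] Matrix (Fin ν) (Fin ν) ℂ)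
    (mu : S →ₗ[ℂ] ℂ) (Γ : Matrix (Fin n') (Fin n') ℂ)
    (lam : M →ₗ[ℂ] ℂ) (P : Matrix (Fin n') (Fin ν) ℂ) (s : S) (g : Matrix (Fin n') (Fin n') ℂ)
    (w : M) (Z : Matrix (Fin ν) (Fin n') ℂ) : Prop :=
  (∀ w', lam (b.L s w' - b.R s w') = 0) ∧ P * ρ s = g * P ∧ P * Z = g * Γ - Γ * g ∧
    ∀ s', mu (s * s' - s' * s) + lam (b.R s' w - b.L s' w) - trace (P * ρ s' * Z) = 0

theorem src_mul (b : Bim S M) {ν n' : ℕ} (ρ : S →ₗ[ℂ] Matrix (Fin ν) (Fin ν) ℂ)
    (hρ : ∀ s s', ρ (s * s') = ρ s * ρ s') (s s' : S) (g g' : Matrix (Fin n') (Fin n') ℂ)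
    (w w' : M) (Z Z' : Matrix (Fin ν) (Fin n') ℂ) :
    (src b ρ hρ n').mul ((s, g), (w, Z)) ((s', g'), (w', Z')) =
      ((s * s', g * g'), (b.L s w' + b.R s' w, ρ s * Z' + Z * g')) := rfl

theorem LL_comm (b : Bim S M) {ν n' : ℕ} (ρ : S →ₗ[ℂ] Matrix (Fin ν) (Fin ν) ℂ)
    (hρ : ∀ s s', ρ (s * s') = ρ s * ρ s') (mu : S →ₗ[ℂ] ℂ) (Γ : Matrix (Fin n') (Fin n') ℂ)
    (lam : M →ₗ[ℂ] ℂ) (P : Matrix (Fin n') (Fin ν) ℂ) (s s' : S)
    (g g' : Matrix (Fin n') (Fin n') ℂ)
    (w w' : M) (Z Z' : Matrix (Fin ν) (Fin n') ℂ) :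
    LL mu Γ lam P ((src b ρ hρ n').mul ((s, g), (w, Z)) ((s', g'), (w', Z')) -
      (src b ρ hρ n').mul ((s', g'), (w', Z')) ((s, g), (w, Z))) =
      (mu (s * s' - s' * s) + lam (b.R s' w - b.L s' w) - trace (P * ρ s' * Z)) +
      lam (b.L s w' - b.R s w') + trace ((P * ρ s - g * P) * Z') +
      trace ((Γ * g - g * Γ + P * Z) * g') := by
  rw [map_sub, src_mul, src_mul, LL_apply, LL_apply]
  simp only [map_sub, map_add, Matrix.mul_add, Matrix.add_mul, Matrix.sub_mul, trace_add,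
    trace_sub, Matrix.mul_assoc]
  have h1 : trace (Γ * (g' * g)) = trace (g * (Γ * g')) := by
    rw [← Matrix.mul_assoc, trace_mul_comm]
  have h2 : trace (P * (Z' * g)) = trace (g * (P * Z')) := by
    rw [← Matrix.mul_assoc, trace_mul_comm]
  rw [h1, h2]
  ring

theorem ker_iff (b : Bim S M) {ν n' : ℕ} (ρ : S →ₗ[ℂ] Matrix (Fin ν) (Fin ν) ℂ)
    (hρ : ∀ s s', ρ (s * s') = ρ s * ρ s') (mu : S →ₗ[ℂ] ℂ) (Γ : Matrix (Fin n') (Fin n') ℂ)
    (lam : M →ₗ[ℂ] ℂ) (P : Matrix (Fin n') (Fin ν) ℂ) (s : S)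
    (g : Matrix (Fin n') (Fin n') ℂ) (w : M) (Z : Matrix (Fin ν) (Fin n') ℂ) :
    (∀ y : (S × Matrix (Fin n') (Fin n') ℂ) × (M × Matrix (Fin ν) (Fin n') ℂ),
      y.2 ∈ (⊤ : Submodule ℂ (M × Matrix (Fin ν) (Fin n') ℂ)) →
      LL mu Γ lam P ((src b ρ hρ n').mul ((s, g), (w, Z)) y -
        (src b ρ hρ n').mul y ((s, g), (w, Z))) = 0) ↔ E4 b ρ mu Γ lam P s g w Z := by
  constructor
  · intro h
    have h' : ∀ (s' : S) (g' : Matrix (Fin n') (Fin n') ℂ) (w' : M)
        (Z' : Matrix (Fin ν) (Fin n') ℂ), (mu (s * s' - s' * s) + lam (b.R s' w - b.L s' w) -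
        trace (P * ρ s' * Z)) +
        lam (b.L s w' - b.R s w') + trace ((P * ρ s - g * P) * Z') +
        trace ((Γ * g - g * Γ + P * Z) * g') = 0 := by
      intro s' g' w' Z'
      rw [← LL_comm b ρ hρ]
      exact h _ trivial
    refine ⟨fun w' => ?_, ?_, ?_, fun s' => ?_⟩
    · have := h' 0 0 w' 0
      simpa using this
    · rw [← sub_eq_zero]
      rw [ext_iff_trace_mul_right]
      intro x
      have := h' 0 0 0 x
      simpa using this
    · have : Γ * g - g * Γ + P * Z = 0 := by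
        rw [ext_iff_trace_mul_right]
        intro x
        have := h' 0 x 0 0
        simpa using this
      rw [← sub_eq_zero, ← this]
      abel
    · have := h' s' 0 0 0
      simpa using this
  · rintro ⟨h1, h2, h3, h4⟩ ⟨⟨s', g'⟩, ⟨w', Z'⟩⟩ -
    rw [LL_comm, h1, h4, h2, h3]
    simp

end

end CS2

open CS2

theorem t_CS2 : S_CS2 := by
  intro S M _ _ _ _ _ _ b ν ρ hρ n n' hν
  constructor
  · rintro ⟨l, hl⟩
    obtain ⟨mu, Γ, lam, P, rfl⟩ := exists_LL l
    have hker : ∀ s g w Z, E4 b ρ mu Γ lam P s g w Z → s = 0 ∧ g = 0 ∧ w = 0 ∧ Z = 0 := by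
      intro s g w Z h
      have h1 := hl ((s, g), (w, Z)) trivial ((ker_iff b ρ hρ mu Γ lam P s g w Z).2 h)
      exact ⟨congrArg (fun x => x.1.1) h1, congrArg (fun x => x.1.2) h1,
        congrArg (fun x => x.2.1) h1, congrArg (fun x => x.2.2) h1⟩
    have hsurj : Function.Surjective P.mulVecLin := by
      by_contra hns
      have hlt : LinearMap.range P.mulVecLin < ⊤ := by
        rw [lt_top_iff_ne_top]
        intro h
        exact hns (LinearMap.range_eq_top.1 h)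
      obtain ⟨φ, hφ0, hφ⟩ := Submodule.exists_le_ker_of_lt_top _ hlt
      have hninj : ¬ Function.Injective P.mulVecLin := by
        intro hinj
        have h1 := LinearMap.finrank_le_finrank_of_injective hinj
        simp only [Module.finrank_fintype_fun_eq_card, Fintype.card_fin] at h1
        have h2 : Module.finrank ℂ (Fin ν → ℂ) = Module.finrank ℂ (Fin n' → ℂ) := by
          simp only [Module.finrank_fintype_fun_eq_card, Fintype.card_fin]
          omega
        exact hns ((LinearMap.injective_iff_surjective_of_finrank_eq_finrank h2).1 hinj)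
      have hker0 : LinearMap.ker P.mulVecLin ≠ ⊥ := by
        intro h
        exact hninj (LinearMap.ker_eq_bot.1 h)
      obtain ⟨h, hh, hh0⟩ := Submodule.exists_mem_ne_zero_of_ne_bot hker0
      let c : Fin n' → ℂ := fun i => φ (Pi.single i 1)
      have hc : ∀ x : Fin n' → ℂ, φ x = c ⬝ᵥ x := by
        intro x
        conv_lhs => rw [← Finset.univ_sum_single x]
        rw [map_sum]
        refine Finset.sum_congr rfl fun i _ => ?_
        have : (Pi.single i (x i) : Fin n' → ℂ) = x i • Pi.single i (1 : ℂ) := by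
          rw [← Pi.single_smul, smul_eq_mul, mul_one]
        rw [this, map_smul, smul_eq_mul, mul_comm]
      have hc0 : c ≠ 0 := by
        intro h0
        apply hφ0
        refine LinearMap.ext fun x => ?_
        rw [hc, h0, zero_dotProduct]
        rfl
      have hcP : c ᵥ* P = 0 := by
        ext j
        have h1 : φ (P.mulVecLin (Pi.single j 1)) = 0 := hφ ⟨_, rfl⟩
        rw [hc, mulVecLin_apply, dotProduct_mulVec, dotProduct_single, mul_one] at h1
        exact h1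
      have hPh : P *ᵥ h = 0 := hh
      have h1 := hker 0 0 0 (vecMulVec h c) ⟨by simp, by simp, by
        rw [mul_vecMulVec, hPh]; simp, by
        intro s'
        rw [trace_mul_comm, ← Matrix.mul_assoc, vecMulVec_mul, hcP]
        simp⟩
      have h2 : (vecMulVec h c : Matrix (Fin ν) (Fin n') ℂ) = 0 := h1.2.2.2
      obtain ⟨i, hi⟩ := Function.ne_iff.1 hh0
      obtain ⟨j, hj⟩ := Function.ne_iff.1 hc0
      have h3 : h i * c j = 0 := congrFun (congrFun h2 i) j
      rcases mul_eq_zero.1 h3 with h4 | h4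
      · exact hi h4
      · exact hj h4
    obtain ⟨A, A', P', hcmp⟩ := exists_cmp hν P hsurj
    refine ⟨A, A', P, P', hcmp, ?_⟩
    obtain ⟨c1, c2, c3, c4, c5⟩ := hcmp
    refine ⟨mu + (traceLinearMap (Fin ν) ℂ ℂ) ∘ₗ (LinearMap.mulLeft ℂ (P' * Γ * P)) ∘ₗ ρ, lam, ?_⟩
    intro s w K hA hE1 hE4
    have hmu : ∀ x, (mu + (traceLinearMap (Fin ν) ℂ ℂ) ∘ₗ (LinearMap.mulLeft ℂ (P' * Γ * P)) ∘ₗ ρ) x =
        mu x + trace (P' * Γ * P * ρ x) := fun x => rfl
    simp only [hmu] at hE4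
    have hgP : P * ρ s * P' * P = P * ρ s := by
      have h1 : P' * P = 1 - A * A' := by
        rw [← c5]; abel
      rw [Matrix.mul_assoc _ P' P, h1, Matrix.mul_sub, Matrix.mul_one, ← Matrix.mul_assoc, hA,
        Matrix.zero_mul, sub_zero]
    have hk := hker s (P * ρ s * P') w
      (P' * (P * ρ s * P' * Γ - Γ * (P * ρ s * P')) + A * (A' * ρ s * P' * Γ - K)) ⟨hE1, hgP.symm, by
        rw [Matrix.mul_add, ← Matrix.mul_assoc P P', c2, Matrix.one_mul, ← Matrix.mul_assoc P A, c3,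
          Matrix.zero_mul, add_zero], by
        intro s'
        have h1 := hE4 s'
        have key : (P' * (P * ρ s * P' * Γ - Γ * (P * ρ s * P')) +
            A * (A' * ρ s * P' * Γ - K)) * P =
            ρ s * (P' * Γ * P) - (P' * Γ * P) * ρ s - A * K * P := by
          have h2 : P' * (P * ρ s * P' * Γ) * P + A * (A' * ρ s * P' * Γ) * P =
              (A * A' + P' * P) * (ρ s * (P' * Γ * P)) := by
            simp only [Matrix.add_mul, Matrix.mul_assoc]
            abel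
          have h3 : P' * (Γ * (P * ρ s * P')) * P = P' * Γ * P * ρ s := by
            have : P' * (Γ * (P * ρ s * P')) * P = P' * Γ * (P * ρ s * P' * P) := by
              simp only [Matrix.mul_assoc]
            rw [this, hgP]
            simp only [Matrix.mul_assoc]
          rw [c5, Matrix.one_mul] at h2
          rw [← h2, ← h3]
          simp only [Matrix.mul_sub, Matrix.sub_mul, Matrix.add_mul, Matrix.mul_assoc]
          abel
        rw [Matrix.mul_assoc P, trace_mul_comm P, Matrix.mul_assoc, trace_mul_comm (ρ s'), key]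
        have h4 : trace (P' * Γ * P * ρ (s * s' - s' * s)) =
            trace (P' * Γ * P * ρ s * ρ s') - trace (ρ s * (P' * Γ * P) * ρ s') := by
          rw [map_sub, hρ, hρ, Matrix.mul_sub, trace_sub]
          congr 1
          · rw [Matrix.mul_assoc (P' * Γ * P)]
          · rw [← Matrix.mul_assoc, trace_mul_comm, ← Matrix.mul_assoc]
        rw [h4] at h1
        rw [Matrix.sub_mul, Matrix.sub_mul, trace_sub, trace_sub]
        linear_combination h1⟩
    obtain ⟨hs, hg, hw, hZ⟩ := hk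
    refine ⟨hs, hw, ?_⟩
    rw [hs] at hZ
    simp only [map_zero, Matrix.mul_zero, Matrix.zero_mul, sub_self, zero_add, zero_sub,
      Matrix.mul_neg, neg_eq_zero] at hZ
    have h5 : A' * (A * K) = K := by
      rw [← Matrix.mul_assoc, c1, Matrix.one_mul]
    rw [← h5, hZ, Matrix.mul_zero]
  · rintro ⟨A, A', P, P', ⟨c1, c2, c3, c4, c5⟩, mu, lam, hmid⟩
    refine ⟨LL mu 0 lam P, ?_⟩
    rintro ⟨⟨s, g⟩, ⟨w, Z⟩⟩ - h
    obtain ⟨h1, h2, h3, h4⟩ := (ker_iff b ρ hρ mu 0 lam P s g w Z).1 h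
    have hPA : P * ρ s * A = 0 := by
      rw [h2, Matrix.mul_assoc, c3, Matrix.mul_zero]
    have hPZ : P * Z = 0 := by
      rw [h3]; simp
    have hZ : Z = A * (A' * Z) := by
      have : (A * A' + P' * P) * Z = Z := by rw [c5, Matrix.one_mul]
      rw [Matrix.add_mul, Matrix.mul_assoc P', hPZ, Matrix.mul_zero, add_zero,
        Matrix.mul_assoc] at this
      exact this.symm
    obtain ⟨hs, hw, hK⟩ := hmid s w (-(A' * Z)) hPA h1 (by
      intro s'
      have h5 := h4 s'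
      have h6 : trace (A * -(A' * Z) * P * ρ s') = -trace (P * ρ s' * Z) := by
        rw [Matrix.mul_neg, Matrix.neg_mul, Matrix.neg_mul, trace_neg, ← hZ, Matrix.mul_assoc Z,
          trace_mul_comm Z]
      rw [h6]
      linear_combination h5)
    have hZ0 : Z = 0 := by
      rw [neg_eq_zero] at hK
      rw [hZ, hK, Matrix.mul_zero]
    have hg0 : g = 0 := by
      have h6 : g * P * P' = g := by rw [Matrix.mul_assoc, c2, Matrix.mul_one]
      rw [← h6, ← h2, hs, map_zero, Matrix.mul_zero, Matrix.zero_mul]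
    rw [hs, hw, hZ0, hg0]
    rfl

end Pool.Agent.N917.AF
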