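import Pool.Agent.N917.AF.Stm5
import Pool.Agent.N917.AF.BD2

/-!
# Project AF (helper917), leaf CSUF: a nondegenerate form from a tree (helper252)
-/

set_option autoImplicit false

namespace Pool.Agent.N917.AF

namespace CSUF

section
variable {m : ℕ} {μ : Option (Fin m) → Option (Fin m) → ℕ}

/-- the coordinates of `MC μ` -/
abbrev I (μ : Option (Fin m) → Option (Fin m) → ℕ) : Type :=
  (i : Option (Fin m)) × (j : Option (Fin m)) × Fin (μ i j)

/-- evaluation at a coordinate -/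
def ev (x : MC μ) (a : I μ) : ℂ := x a.1 a.2.1 a.2.2

/-- unit vector -/
def dl (a : I μ) : MC μ := fun i j k => if (⟨i, j, k⟩ : I μ) = a then 1 else 0

theorem ev_dl (a b : I μ) : ev (dl a) b = if b = a then 1 else 0 := rfl

/-- the partner coordinate -/
def sg (a : I μ) : I μ :=
  if a.1 = a.2.1 then ⟨a.1, a.2.1, a.2.2.rev⟩
  else if h : (a.2.2 : ℕ) < μ a.2.1 a.1 then ⟨a.2.1, a.1, ⟨a.2.2, h⟩⟩ else a

theorem sg_diag (a : I μ) (h : a.1 = a.2.1) : sg a = ⟨a.1, a.2.1, a.2.2.rev⟩ := if_pos h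

theorem sg_good (a : I μ) (h : a.1 ≠ a.2.1) (h' : (a.2.2 : ℕ) < μ a.2.1 a.1) :
    sg a = ⟨a.2.1, a.1, ⟨a.2.2, h'⟩⟩ := by
  rw [sg, if_neg h, dif_pos h']

theorem sg_bad (a : I μ) (h : a.1 ≠ a.2.1) (h' : ¬ (a.2.2 : ℕ) < μ a.2.1 a.1) :
    sg a = a := by
  rw [sg, if_neg h, dif_neg h']

theorem sg_sg (a : I μ) : sg (sg a) = a := by
  by_cases h : a.1 = a.2.1
  · rw [sg_diag a h, sg_diag ⟨a.1, a.2.1, a.2.2.rev⟩ h]
    simp only [Fin.rev_rev]
  · by_cases h' : (a.2.2 : ℕ) < μ a.2.1 a.1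
    · rw [sg_good a h h', sg_good _ (Ne.symm h) a.2.2.2]
    · rw [sg_bad a h h', sg_bad a h h']

/-- the sign -/
noncomputable def ep (a : I μ) : ℂ :=
  if a.1 = a.2.1 then (if a.2.2 < a.2.2.rev then 1 else -1)
  else if (a.2.2 : ℕ) < μ a.2.1 a.1 then
    (if Fintype.equivFin (Option (Fin m)) a.1 < Fintype.equivFin (Option (Fin m)) a.2.1
      then 1 else -1)
  else 0

theorem ep_diag (a : I μ) (h : a.1 = a.2.1) : ep a = if a.2.2 < a.2.2.rev then 1 else -1 := if_pos h

theorem ep_good (a : I μ) (h : a.1 ≠ a.2.1) (h' : (a.2.2 : ℕ) < μ a.2.1 a.1) :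
    ep a = if Fintype.equivFin (Option (Fin m)) a.1 < Fintype.equivFin (Option (Fin m)) a.2.1
      then 1 else -1 := by
  rw [ep, if_neg h, if_pos h']

theorem ep_bad (a : I μ) (h : a.1 ≠ a.2.1) (h' : ¬ (a.2.2 : ℕ) < μ a.2.1 a.1) :
    ep a = 0 := by
  rw [ep, if_neg h, if_neg h']

theorem ep_sg (hE : ∀ i, Even (μ i i)) (a : I μ) : ep (sg a) = - ep a := by
  by_cases h : a.1 = a.2.1
  · rw [sg_diag a h, ep_diag ⟨a.1, a.2.1, a.2.2.rev⟩ h, ep_diag a h]
    simp only [Fin.rev_rev]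
    obtain ⟨i, j, k⟩ := a
    dsimp only at h
    subst h
    dsimp only
    have hk : (k : ℕ) ≠ (k.rev : ℕ) := by
      rw [Fin.val_rev]
      obtain ⟨r, hr⟩ := hE i
      have := k.2
      omega
    rcases Nat.lt_or_gt_of_ne hk with h1 | h1
    · have h2 : k < k.rev := h1
      have h3 : ¬ k.rev < k := not_lt_of_gt h2
      simp only [h2, h3, if_true, if_false]
    · have h2 : k.rev < k := h1
      have h3 : ¬ k < k.rev := not_lt_of_gt h2
      simp only [h2, h3, if_true, if_false, neg_neg]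
  · by_cases h' : (a.2.2 : ℕ) < μ a.2.1 a.1
    · rw [sg_good a h h', ep_good _ (Ne.symm h) a.2.2.2, ep_good a h h']
      dsimp only
      have hk : Fintype.equivFin (Option (Fin m)) a.1 ≠ Fintype.equivFin (Option (Fin m)) a.2.1 :=
        fun h2 => h ((Fintype.equivFin _).injective h2)
      rcases lt_or_gt_of_ne hk with h1 | h1
      · rw [if_pos h1, if_neg (not_lt_of_gt h1)]
      · rw [if_neg (not_lt_of_gt h1), if_pos h1, neg_neg]
    · rw [sg_bad a h h', ep_bad a h h', neg_zero]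

theorem ep_ne (a : I μ) (h' : (a.2.2 : ℕ) < μ a.2.1 a.1) : ep a ≠ 0 := by
  by_cases h : a.1 = a.2.1
  · rw [ep_diag a h]
    split_ifs <;> norm_num
  · rw [ep_good a h h']
    split_ifs <;> norm_num

theorem ep_hat (s : Fin m → ℂ) (a : I μ) : ep a * hat s a.1 = ep a * hat s (sg a).2.1 := by
  by_cases h : a.1 = a.2.1
  · rw [sg_diag a h]
    exact congrArg (fun i => ep a * hat s i) h
  · by_cases h' : (a.2.2 : ℕ) < μ a.2.1 a.1
    · rw [sg_good a h h']
    · rw [ep_bad a h h', zero_mul, zero_mul]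

theorem sg_inW (a : I μ) (h' : (a.2.2 : ℕ) < μ a.2.1 a.1) :
    ((sg a).2.2 : ℕ) < μ (sg a).2.1 (sg a).1 := by
  by_cases h : a.1 = a.2.1
  · rw [sg_diag a h]
    dsimp only
    obtain ⟨i, j, k⟩ := a
    dsimp only at h
    subst h
    exact k.rev.2
  · rw [sg_good a h h']
    exact a.2.2.2

/-- the symplectic form -/
noncomputable def bt (μ : Option (Fin m) → Option (Fin m) → ℕ) : MC μ →ₗ[ℂ] MC μ →ₗ[ℂ] ℂ :=
  LinearMap.mk₂ ℂ (fun x y => ∑ a, ep a * ev x a * ev y (sg a))
    (by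
      intro x x' y
      rw [← Finset.sum_add_distrib]
      refine Finset.sum_congr rfl fun a _ => ?_
      show ep a * (ev x a + ev x' a) * ev y (sg a) = _
      ring)
    (by
      intro c x y
      rw [Finset.smul_sum]
      refine Finset.sum_congr rfl fun a _ => ?_
      show ep a * (c * ev x a) * ev y (sg a) = c * _
      ring)
    (by
      intro x y y'
      rw [← Finset.sum_add_distrib]
      refine Finset.sum_congr rfl fun a _ => ?_
      show ep a * ev x a * (ev y (sg a) + ev y' (sg a)) = _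
      ring)
    (by
      intro c x y
      rw [Finset.smul_sum]
      refine Finset.sum_congr rfl fun a _ => ?_
      show ep a * ev x a * (c * ev y (sg a)) = c * _
      ring)

theorem bt_apply (x y : MC μ) : bt μ x y = ∑ a, ep a * ev x a * ev y (sg a) := rfl

theorem bt_anti (hE : ∀ i, Even (μ i i)) (x y : MC μ) : bt μ x y = - bt μ y x := by
  rw [bt_apply, bt_apply, ← Equiv.sum_comp (Function.Involutive.toPerm sg sg_sg),
    ← Finset.sum_neg_distrib]
  refine Finset.sum_congr rfl fun a _ => ?_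
  show ep (sg a) * ev x (sg a) * ev y (sg (sg a)) = _
  rw [sg_sg, ep_sg hE]
  ring

theorem bt_LR (s : Fin m → ℂ) (x y : MC μ) : bt μ ((bc μ).L s x) y = bt μ x ((bc μ).R s y) := by
  rw [bt_apply, bt_apply]
  refine Finset.sum_congr rfl fun a _ => ?_
  show ep a * (hat s a.1 * ev x a) * ev y (sg a) = ep a * ev x a * (hat s (sg a).2.1 * ev y (sg a))
  have h := ep_hat s a
  calc ep a * (hat s a.1 * ev x a) * ev y (sg a) = (ep a * hat s a.1) * (ev x a * ev y (sg a)) := by
        ring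
    _ = (ep a * hat s (sg a).2.1) * (ev x a * ev y (sg a)) := by rw [h]
    _ = _ := by ring

theorem bt_dl (x : MC μ) (a : I μ) : bt μ x (dl (sg a)) = ep a * ev x a := by
  rw [bt_apply, Finset.sum_eq_single a]
  · rw [ev_dl, if_pos rfl, mul_one]
  · intro b _ hb
    rw [ev_dl, if_neg, mul_zero]
    intro h
    apply hb
    rw [← sg_sg b, h, sg_sg]
  · intro h
    exact absurd (Finset.mem_univ _) h

/-- the symplectic part -/
def W1 (μ : Option (Fin m) → Option (Fin m) → ℕ) : Submodule ℂ (MC μ) where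
  carrier := {x | ∀ a : I μ, ¬ (a.2.2 : ℕ) < μ a.2.1 a.1 → ev x a = 0}
  zero_mem' := fun _ _ => rfl
  add_mem' := by
    intro x y hx hy a ha
    show ev x a + ev y a = 0
    rw [hx a ha, hy a ha, add_zero]
  smul_mem' := by
    intro c x hx a ha
    show c * ev x a = 0
    rw [hx a ha, mul_zero]

/-- the Frobenius part -/
def W2 (μ : Option (Fin m) → Option (Fin m) → ℕ) : Submodule ℂ (MC μ) where
  carrier := {x | ∀ a : I μ, (a.2.2 : ℕ) < μ a.2.1 a.1 → ev x a = 0}
  zero_mem' := fun _ _ => rfl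
  add_mem' := by
    intro x y hx hy a ha
    show ev x a + ev y a = 0
    rw [hx a ha, hy a ha, add_zero]
  smul_mem' := by
    intro c x hx a ha
    show c * ev x a = 0
    rw [hx a ha, mul_zero]

theorem sub1 : (bc μ).Sub (W1 μ) := by
  intro s x hx
  refine ⟨fun a ha => ?_, fun a ha => ?_⟩
  · show hat s a.1 * ev x a = 0
    rw [hx a ha, mul_zero]
  · show hat s a.2.1 * ev x a = 0
    rw [hx a ha, mul_zero]

theorem sub2 : (bc μ).Sub (W2 μ) := by
  intro s x hx
  refine ⟨fun a ha => ?_, fun a ha => ?_⟩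
  · show hat s a.1 * ev x a = 0
    rw [hx a ha, mul_zero]
  · show hat s a.2.1 * ev x a = 0
    rw [hx a ha, mul_zero]

theorem ext' {x y : MC μ} (h : ∀ a, ev x a = ev y a) : x = y := by
  funext i j k
  exact h ⟨i, j, k⟩

theorem compl : IsCompl (W1 μ) (W2 μ) := by
  constructor
  · rw [Submodule.disjoint_def]
    intro x h1 h2
    refine ext' fun a => ?_
    by_cases ha : (a.2.2 : ℕ) < μ a.2.1 a.1
    · exact h2 a ha
    · exact h1 a ha
  · rw [codisjoint_iff, eq_top_iff]
    intro x _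
    rw [Submodule.mem_sup]
    refine ⟨fun i j k => if (k : ℕ) < μ j i then x i j k else 0, ?_,
      fun i j k => if (k : ℕ) < μ j i then 0 else x i j k, ?_, ?_⟩
    · intro a ha
      exact if_neg ha
    · intro a ha
      exact if_pos ha
    · funext i j k
      show (if (k : ℕ) < μ j i then x i j k else 0) + (if (k : ℕ) < μ j i then 0 else x i j k) = _
      split_ifs
      · rw [add_zero]
      · rw [zero_add]

theorem sympl (hE : ∀ i, Even (μ i i)) : (bc μ).Sympl (W1 μ) := by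
  refine ⟨bt μ, fun x _ y _ => bt_anti hE x y, fun s x _ y _ => bt_LR s x y, ?_⟩
  intro x hx h
  refine ext' fun a => ?_
  by_cases ha : (a.2.2 : ℕ) < μ a.2.1 a.1
  · have h1 := h (dl (sg a)) (by
      intro b hb
      rw [ev_dl, if_neg]
      rintro rfl
      exact hb (sg_inW a ha))
    rw [bt_dl] at h1
    exact (mul_eq_zero.mp h1).resolve_left (ep_ne a ha)
  · exact hx a ha

/-- the functional -/
noncomputable def ll (μ : Option (Fin m) → Option (Fin m) → ℕ) : ((Fin m → ℂ) × MC μ) →ₗ[ℂ] ℂ where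
  toFun x := ∑ a : I μ, if (a.2.2 : ℕ) < μ a.2.1 a.1 then 0 else ev x.2 a
  map_add' := by
    intro x y
    rw [← Finset.sum_add_distrib]
    refine Finset.sum_congr rfl fun a _ => ?_
    show (if (a.2.2 : ℕ) < μ a.2.1 a.1 then 0 else (ev x.2 a + ev y.2 a)) = _
    split_ifs
    · rw [add_zero]
    · rfl
  map_smul' := by
    intro c x
    rw [RingHom.id_apply, Finset.smul_sum]
    refine Finset.sum_congr rfl fun a _ => ?_
    show (if (a.2.2 : ℕ) < μ a.2.1 a.1 then 0 else (c * ev x.2 a)) = c * _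
    split_ifs
    · rw [mul_zero]
    · rfl

theorem ll_comm (x y : (Fin m → ℂ) × MC μ) : ll μ ((bc μ).mul x y - (bc μ).mul y x)
    = ∑ a : I μ, if (a.2.2 : ℕ) < μ a.2.1 a.1 then 0 else
      ((hat x.1 a.1 - hat x.1 a.2.1) * ev y.2 a - (hat y.1 a.1 - hat y.1 a.2.1) * ev x.2 a) := by
  refine Finset.sum_congr rfl fun a _ => ?_
  split_ifs
  · rfl
  · show (hat x.1 a.1 * ev y.2 a + hat y.1 a.2.1 * ev x.2 a)
      - (hat y.1 a.1 * ev x.2 a + hat x.1 a.2.1 * ev y.2 a) = _
    ring

theorem frob (hT : S_TRE) (h1 : ∀ i j, μ i j ≤ μ j i + 1)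
    (hG : (SimpleGraph.fromRel (fun i j => μ i j ≠ μ j i)).IsTree) : (bc μ).Frob (W2 μ) := by
  classical
  have hG' : (SimpleGraph.fromRel (fun i j => μ j i < μ i j)).IsTree := by
    have : SimpleGraph.fromRel (fun i j => μ j i < μ i j)
        = SimpleGraph.fromRel (fun i j => μ i j ≠ μ j i) := by
      ext i j
      simp only [SimpleGraph.fromRel_adj]
      constructor
      · rintro ⟨h2, h3⟩
        exact ⟨h2, Or.inl (by omega)⟩
      · rintro ⟨h2, h3⟩
        exact ⟨h2, by omega⟩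
    rw [this]
    exact hG
  obtain ⟨t1, t2⟩ := hT m (fun i j => μ j i < μ i j) (fun i j h h' => lt_asymm h h') hG'
  refine ⟨ll μ, ?_⟩
  rintro ⟨s, x⟩ hx h
  have hx' : ∀ a : I μ, (a.2.2 : ℕ) < μ a.2.1 a.1 → ev x a = 0 := hx
  have hs : s = 0 := by
    refine t1 s fun i j hij => ?_
    have h2 := h (0, dl ⟨i, j, ⟨μ j i, hij⟩⟩) (by
      intro b hb
      show ev (dl _) b = 0
      rw [ev_dl, if_neg]
      rintro rfl
      exact lt_irrefl _ hb)
    rw [ll_comm, Finset.sum_eq_single (⟨i, j, ⟨μ j i, hij⟩⟩ : I μ)] at h2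
    · rw [if_neg (lt_irrefl _), ev_dl, if_pos rfl] at h2
      have h3 : hat (0 : Fin m → ℂ) i = 0 := by cases i <;> rfl
      have h4 : hat (0 : Fin m → ℂ) j = 0 := by cases j <;> rfl
      change (hat s i - hat s j) * 1 - (hat (0 : Fin m → ℂ) i - hat (0 : Fin m → ℂ) j) * ev x _ = 0 at h2
      rw [h3, h4, sub_zero, zero_mul, sub_zero, mul_one] at h2
      exact sub_eq_zero.mp h2
    · intro b _ hb
      split_ifs
      · rfl
      · have h3 : ∀ i, hat (0 : Fin m → ℂ) i = 0 := by intro i; cases i <;> rfl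
        show _ * ev (dl _) b - (hat (0 : Fin m → ℂ) _ - hat (0 : Fin m → ℂ) _) * _ = 0
        rw [ev_dl, if_neg hb, h3, h3]
        ring
    · intro h3
      exact absurd (Finset.mem_univ _) h3
  subst hs
  refine Prod.ext rfl (ext' fun a => ?_)
  show ev x a = 0
  by_cases ha : (a.2.2 : ℕ) < μ a.2.1 a.1
  · exact hx' a ha
  · have h5 := t2 (fun i j => ∑ k : Fin (μ i j), if (k : ℕ) < μ j i then 0 else x i j k) (by
      intro s'
      have h2 := h (s', 0) (W2 μ).zero_mem
      rw [ll_comm] at h2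
      rw [Fintype.sum_sigma] at h2
      simp only [Fintype.sum_sigma] at h2
      rw [← neg_eq_zero, ← Finset.sum_neg_distrib]
      refine Eq.trans ?_ h2
      refine Finset.sum_congr rfl fun i _ => ?_
      rw [← Finset.sum_neg_distrib]
      refine Finset.sum_congr rfl fun j _ => ?_
      have h6 : ∀ i, hat (0 : Fin m → ℂ) i = 0 := by intro i; cases i <;> rfl
      split_ifs with hij
      · rw [Finset.mul_sum, ← Finset.sum_neg_distrib]
        refine Finset.sum_congr rfl fun k _ => ?_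
        show -((hat s' i - hat s' j) * (if (k : ℕ) < μ j i then 0 else x i j k))
          = if (k : ℕ) < μ j i then 0 else
            ((hat (0 : Fin m → ℂ) i - hat (0 : Fin m → ℂ) j) * 0 - (hat s' i - hat s' j) * x i j k)
        split_ifs <;> ring
      · symm
        rw [neg_zero]
        refine Finset.sum_eq_zero fun k _ => ?_
        have hk := k.2
        exact if_pos (show (k : ℕ) < μ j i by omega))
    obtain ⟨i, j, k⟩ := a
    have ha' : ¬ (k : ℕ) < μ j i := ha
    have hk := k.2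
    have h6 := h5 i j (by omega)
    change (∑ k : Fin (μ i j), if (k : ℕ) < μ j i then 0 else x i j k) = 0 at h6
    rw [Finset.sum_eq_single k] at h6
    · rwa [if_neg ha'] at h6
    · intro k' _ hk'
      apply if_pos
      have := h1 i j
      have h8 := k'.2
      have h9 : (k' : ℕ) ≠ (k : ℕ) := fun h => hk' (Fin.ext h)
      omega
    · intro h3
      exact absurd (Finset.mem_univ _) h3

end

end CSUF

theorem t_CSUF : S_TRE → S_CSUF := by
  intro hT m μ hμ
  obtain ⟨hE, h1, hG⟩ := hμ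
  exact t_BD2 _ _ (bc μ) (CSUF.W1 μ) (CSUF.W2 μ) CSUF.sub1 CSUF.sub2 CSUF.compl (CSUF.sympl hE)
    (CSUF.frob hT h1 hG)

end Pool.Agent.N917.AF
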