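import Pool.Agent.N917.AF.Stm2

/-!
Project AF (helper917), fifth part: commutative semisimple `S = ℂ^m` and arbitrary bimodules.
-/

set_option autoImplicit false

namespace Pool.Agent.N917.AF

section
variable {m : ℕ}

/-- extension by zero to `Option (Fin m)` -/
def hat (s : Fin m → ℂ) : Option (Fin m) → ℂ := fun i => i.elim 0 s

/-- the model of a bimodule over `ℂ^m` with multiplicities `μ i j` -/
abbrev MC (μ : Option (Fin m) → Option (Fin m) → ℕ) : Type :=
  (i j : Option (Fin m)) → Fin (μ i j) → ℂ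

/-- `s` acts on the component `i j` by `s_i` from the left and by `s_j` from the right
(`s_none = 0`) -/
noncomputable def bc (μ : Option (Fin m) → Option (Fin m) → ℕ) : Bim (Fin m → ℂ) (MC μ) where
  L := LinearMap.mk₂ ℂ (fun s x i j k => hat s i * x i j k)
    (by intro s s' x; funext i j k; cases i <;> simp [hat, add_mul])
    (by intro c s x; funext i j k; cases i <;> simp [hat, mul_assoc])
    (by intro s x y; funext i j k; simp [mul_add])
    (by intro c s x; funext i j k; simp [mul_left_comm])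
  R := LinearMap.mk₂ ℂ (fun s x i j k => hat s j * x i j k)
    (by intro s s' x; funext i j k; cases j <;> simp [hat, add_mul])
    (by intro c s x; funext i j k; cases j <;> simp [hat, mul_assoc])
    (by intro s x y; funext i j k; simp [mul_add])
    (by intro c s x; funext i j k; simp [mul_left_comm])
  mulL := by intro s s' x; funext i j k; cases i <;> simp [hat, mul_assoc]
  mulR := by intro s s' x; funext i j k; cases j <;> simp [hat]; ring
  comm := by intro s s' x; funext i j k; simp; ring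

/-- the component `i j` -/
def pr (μ : Option (Fin m) → Option (Fin m) → ℕ) (i j : Option (Fin m)) :
    MC μ →ₗ[ℂ] (Fin (μ i j) → ℂ) := LinearMap.proj j ∘ₗ LinearMap.proj i

/-- multiplicities of a sub-bimodule -/
noncomputable def dd (μ : Option (Fin m) → Option (Fin m) → ℕ) (W : Submodule ℂ (MC μ))
    (i j : Option (Fin m)) : ℕ := Module.finrank ℂ (W.map (pr μ i j))

/-- the left action of the idempotent `i`; `none` stands for `1 - 1_S` -/
noncomputable def lI {M : Type} [AddCommGroup M] [Module ℂ M] (b : Bim (Fin m → ℂ) M)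
    (i : Option (Fin m)) : M →ₗ[ℂ] M := i.elim (LinearMap.id - b.L 1) (fun i => b.L (Pi.single i 1))

/-- the right action of the idempotent `j`; `none` stands for `1 - 1_S` -/
noncomputable def rI {M : Type} [AddCommGroup M] [Module ℂ M] (b : Bim (Fin m → ℂ) M)
    (j : Option (Fin m)) : M →ₗ[ℂ] M := j.elim (LinearMap.id - b.R 1) (fun j => b.R (Pi.single j 1))

/-- the multiplicities `dim e_i M e_j` of a bimodule over `ℂ^m`, `i, j ∈ {none, 0, …, m-1}`,
`e_none = 1 - 1_S` -/
noncomputable def mm {M : Type} [AddCommGroup M] [Module ℂ M] (b : Bim (Fin m → ℂ) M)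
    (i j : Option (Fin m)) : ℕ := Module.finrank ℂ (LinearMap.range (lI b i ∘ₗ rI b j))

/-- the tree condition -/
def Tr (μ : Option (Fin m) → Option (Fin m) → ℕ) : Prop :=
  (∀ i, Even (μ i i)) ∧ (∀ i j, μ i j ≤ μ j i + 1) ∧
    (SimpleGraph.fromRel (fun i j => μ i j ≠ μ j i)).IsTree

end

/-- CMOR: structure of bimodules over `ℂ^m` -/
def S_CMOR : Prop := ∀ (m : ℕ) (M : Type) [AddCommGroup M] [Module ℂ M] [Module.Finite ℂ M]
  (b : Bim (Fin m → ℂ) M), ∃ e : M ≃ₗ[ℂ] MC (mm b),
    (∀ s x, e (b.L s x) = (bc (mm b)).L s (e x)) ∧ (∀ s x, e (b.R s x) = (bc (mm b)).R s (e x))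

/-- CADD -/
def S_CADD : Prop := ∀ (m : ℕ) (μ : Option (Fin m) → Option (Fin m) → ℕ)
  (W' W : Submodule ℂ (MC μ)), (bc μ).Sub W' → (bc μ).Sub W → IsCompl W' W →
  ∀ i j, μ i j = dd μ W' i j + dd μ W i j

/-- CSYM -/
def S_CSYM : Prop := ∀ (m : ℕ) (μ : Option (Fin m) → Option (Fin m) → ℕ)
  (W : Submodule ℂ (MC μ)), (bc μ).Sub W → (bc μ).Sympl W →
  (∀ i j, dd μ W i j = dd μ W j i) ∧ ∀ i, Even (dd μ W i i)

/-- CFRO -/
def S_CFRO : Prop := ∀ (m : ℕ) (μ : Option (Fin m) → Option (Fin m) → ℕ)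
  (W : Submodule ℂ (MC μ)), (bc μ).Sub W → (bc μ).Frob W →
  (∀ i, dd μ W i i = 0) ∧ (∀ i j, dd μ W i j + dd μ W j i ≤ 1) ∧
    (SimpleGraph.fromRel (fun i j => dd μ W i j ≠ dd μ W j i)).IsTree

/-- TRE: characters of a tree -/
def S_TRE : Prop := ∀ (m : ℕ) (R : Option (Fin m) → Option (Fin m) → Prop) [DecidableRel R],
  (∀ i j, R i j → ¬ R j i) → (SimpleGraph.fromRel R).IsTree →
  (∀ s : Fin m → ℂ, (∀ i j, R i j → hat s i = hat s j) → s = 0) ∧
  (∀ c : Option (Fin m) → Option (Fin m) → ℂ,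
    (∀ s : Fin m → ℂ, ∑ i, ∑ j, (if R i j then (hat s i - hat s j) * c i j else 0) = 0) →
    ∀ i j, R i j → c i j = 0)

/-- CSUF -/
def S_CSUF : Prop := ∀ (m : ℕ) (μ : Option (Fin m) → Option (Fin m) → ℕ), Tr μ →
  AF ((Fin m → ℂ) × MC μ) (bc μ).mul

end Pool.Agent.N917.AF
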