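import Mathlib
import Pool.Agent.N917.AF.Stm5

/-!
Project AF (helper917), leaf CSYM (helper572): symmetry and parity of the multiplicities of a
sub-bimodule with a nondegenerate antisymmetric form.
-/

set_option autoImplicit false

namespace Pool.Agent.N917.AF

open Module Matrix

namespace CSYM

/-- a space with a nondegenerate antisymmetric form has even dimension -/
lemma even_of {U : Type} [AddCommGroup U] [Module ℂ U] [FiniteDimensional ℂ U]
    (B : U →ₗ[ℂ] U →ₗ[ℂ] ℂ) (hanti : ∀ x y, B x y = -B y x)
    (hnd : ∀ x, (∀ y, B x y = 0) → x = 0) : Even (finrank ℂ U) := by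
  set n := finrank ℂ U with hn
  set bs : Basis (Fin n) ℂ U := finBasis ℂ U with hbs
  set A : Matrix (Fin n) (Fin n) ℂ := fun a b => B (bs a) (bs b) with hA
  have hdet : A.det ≠ 0 := by
    intro h0
    obtain ⟨c, hc, hcA⟩ := Matrix.exists_vecMul_eq_zero_iff.2 h0
    have hx : (∑ a, c a • bs a) = 0 := by
      apply hnd
      intro y
      have h1 : B (∑ a, c a • bs a) = 0 := by
        apply bs.ext
        intro k
        have h6 : ∑ j, c j * A j k = 0 := congrFun hcA k
        rw [map_sum, LinearMap.sum_apply, LinearMap.zero_apply, ← h6]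
        refine Finset.sum_congr rfl fun a _ => ?_
        rw [map_smul, LinearMap.smul_apply, smul_eq_mul]
      rw [h1, LinearMap.zero_apply]
    apply hc
    have h2 := (Fintype.linearIndependent_iff.1 bs.linearIndependent) c hx
    funext a
    exact h2 a
  by_contra hp
  rw [Nat.not_even_iff_odd] at hp
  have hT : Aᵀ = -A := by
    ext i j
    rw [Matrix.transpose_apply, Matrix.neg_apply]
    exact hanti _ _
  have h1 : A.det = -A.det := by
    calc A.det = Aᵀ.det := (Matrix.det_transpose A).symm
      _ = (-A).det := by rw [hT]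
      _ = (-1) ^ n * A.det := by rw [Matrix.det_neg, Fintype.card_fin]
      _ = -A.det := by rw [hp.neg_one_pow]; ring
  apply hdet
  have h2 : (2 : ℂ) * A.det = 0 := by linear_combination h1
  simpa using h2

section

variable {m : ℕ} (μ : Option (Fin m) → Option (Fin m) → ℕ)

lemma hat_single (a : Fin m) (i : Option (Fin m)) :
    hat (Pi.single a (1 : ℂ)) i = if i = some a then 1 else 0 := by
  cases i with
  | none => simp [hat]
  | some c => simp [hat, Pi.single_apply]

lemma lI_apply (i : Option (Fin m)) (x : MC μ) (i' j : Option (Fin m)) (k : Fin (μ i' j)) :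
    lI (bc μ) i x i' j k = if i' = i then x i' j k else 0 := by
  cases i with
  | none =>
    show x i' j k - hat 1 i' * x i' j k = _
    cases i' with
    | none => simp [hat]
    | some c => simp [hat]
  | some a =>
    show hat (Pi.single a 1) i' * x i' j k = _
    rw [hat_single]
    split_ifs <;> simp

lemma rI_apply (j : Option (Fin m)) (x : MC μ) (i j' : Option (Fin m)) (k : Fin (μ i j')) :
    rI (bc μ) j x i j' k = if j' = j then x i j' k else 0 := by
  cases j with
  | none =>
    show x i j' k - hat 1 j' * x i j' k = _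
    cases j' with
    | none => simp [hat]
    | some c => simp [hat]
  | some a =>
    show hat (Pi.single a 1) j' * x i j' k = _
    rw [hat_single]
    split_ifs <;> simp

/-- the projection to the component `i j` -/
noncomputable def EE (i j : Option (Fin m)) : MC μ →ₗ[ℂ] MC μ := lI (bc μ) i ∘ₗ rI (bc μ) j

lemma EE_apply (i j : Option (Fin m)) (x : MC μ) (i' j' : Option (Fin m)) (k : Fin (μ i' j')) :
    EE μ i j x i' j' k = if i' = i then (if j' = j then x i' j' k else 0) else 0 := by
  show lI (bc μ) i (rI (bc μ) j x) i' j' k = _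
  rw [lI_apply, rI_apply]

lemma EE_idem (i j : Option (Fin m)) (x : MC μ) : EE μ i j (EE μ i j x) = EE μ i j x := by
  funext i' j' k
  rw [EE_apply, EE_apply]
  split_ifs <;> rfl

lemma pr_EE (i j : Option (Fin m)) : pr μ i j ∘ₗ EE μ i j = pr μ i j := by
  apply LinearMap.ext
  intro x
  funext k
  show EE μ i j x i j k = x i j k
  rw [EE_apply, if_pos rfl, if_pos rfl]

lemma eq_zero_of_pr (i j : Option (Fin m)) (x : MC μ) (h : pr μ i j x = 0) : EE μ i j x = 0 := by
  funext i' j' k
  rw [EE_apply]
  by_cases h1 : i' = i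
  · subst h1
    by_cases h2 : j' = j
    · subst h2
      rw [if_pos rfl, if_pos rfl]
      exact congrFun h k
    · rw [if_pos rfl, if_neg h2]
      rfl
  · rw [if_neg h1]
    rfl

variable (W : Submodule ℂ (MC μ))

/-- the part of `W` in the component `i j` -/
noncomputable def UU (i j : Option (Fin m)) : Submodule ℂ (MC μ) := W.map (EE μ i j)

lemma UU_fix {i j : Option (Fin m)} {x : MC μ} (hx : x ∈ UU μ W i j) : EE μ i j x = x := by
  obtain ⟨y, -, rfl⟩ := hx
  exact EE_idem μ i j y

lemma dd_eq (i j : Option (Fin m)) : dd μ W i j = finrank ℂ (UU μ W i j) := by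
  unfold dd
  have h1 : W.map (pr μ i j) = (UU μ W i j).map (pr μ i j) := by
    unfold UU
    rw [← Submodule.map_comp, pr_EE]
  have hinj : Function.Injective ((pr μ i j).domRestrict (UU μ W i j)) := by
    rw [injective_iff_map_eq_zero]
    intro x hx
    have h2 : pr μ i j (x : MC μ) = 0 := hx
    apply Subtype.ext
    rw [← UU_fix μ W x.2, eq_zero_of_pr μ i j _ h2]
    rfl
  rw [h1, ← LinearMap.range_domRestrict, LinearMap.finrank_range_of_inj hinj]

end

end CSYM

open CSYM in
theorem t_CSYM : S_CSYM := by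
  intro m μ W hsub hsym
  obtain ⟨β, hanti, hadj, hnd⟩ := hsym
  have hl : ∀ i, ∀ x ∈ W, lI (bc μ) i x ∈ W := by
    intro i x hx
    cases i with
    | none => exact W.sub_mem hx (hsub 1 x hx).1
    | some a => exact (hsub _ x hx).1
  have hr : ∀ i, ∀ x ∈ W, rI (bc μ) i x ∈ W := by
    intro i x hx
    cases i with
    | none => exact W.sub_mem hx (hsub 1 x hx).2
    | some a => exact (hsub _ x hx).2
  have adj : ∀ i, ∀ x ∈ W, ∀ y ∈ W, β (lI (bc μ) i x) y = β x (rI (bc μ) i y) := by
    intro i x hx y hy
    cases i with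
    | none =>
      show β (x - (bc μ).L 1 x) y = β x (y - (bc μ).R 1 y)
      rw [map_sub, LinearMap.sub_apply, map_sub, hadj 1 x hx y hy]
    | some a => exact hadj _ x hx y hy
  have hUW : ∀ i j, UU μ W i j ≤ W := by
    rintro i j _ ⟨y, hy, rfl⟩
    exact hl i _ (hr j y hy)
  have key : ∀ i j, ∀ x ∈ UU μ W i j, ∀ y ∈ W, β x y = β x (EE μ j i y) := by
    intro i j x hx y hy
    have hxW := hUW i j hx
    calc β x y = β (lI (bc μ) i (rI (bc μ) j x)) y := by
          conv_lhs => rw [← UU_fix μ W hx]
          rfl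
      _ = β (rI (bc μ) j x) (rI (bc μ) i y) := adj i _ (hr j x hxW) y hy
      _ = -β (rI (bc μ) i y) (rI (bc μ) j x) := hanti _ (hr j x hxW) _ (hr i y hy)
      _ = -β (lI (bc μ) j (rI (bc μ) i y)) x := by rw [adj j _ (hr i y hy) x hxW]
      _ = β x (lI (bc μ) j (rI (bc μ) i y)) :=
        (hanti _ hxW _ (hl j _ (hr i y hy))).symm
      _ = β x (EE μ j i y) := rfl
  have hzero : ∀ i j, ∀ x ∈ UU μ W i j, (∀ y ∈ UU μ W j i, β x y = 0) → x = 0 := by
    intro i j x hx h
    apply hnd x (hUW i j hx)
    intro y hy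
    rw [key i j x hx y hy]
    exact h _ ⟨y, hy, rfl⟩
  have hle : ∀ i j, finrank ℂ (UU μ W i j) ≤ finrank ℂ (UU μ W j i) := by
    intro i j
    let Φ : UU μ W i j →ₗ[ℂ] Dual ℂ (UU μ W j i) :=
      (UU μ W j i).dualRestrict ∘ₗ β ∘ₗ (UU μ W i j).subtype
    have hΦ : Function.Injective Φ := by
      rw [injective_iff_map_eq_zero]
      intro x hx
      apply Subtype.ext
      apply hzero i j x x.2
      intro y hy
      exact LinearMap.congr_fun hx (⟨y, hy⟩ : UU μ W j i)
    have h := LinearMap.finrank_le_finrank_of_injective hΦ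
    rwa [Subspace.dual_finrank_eq] at h
  refine ⟨fun i j => ?_, fun i => ?_⟩
  · rw [dd_eq, dd_eq]
    exact le_antisymm (hle i j) (hle j i)
  · rw [dd_eq]
    refine even_of ((UU μ W i i).dualRestrict ∘ₗ β ∘ₗ (UU μ W i i).subtype) ?_ ?_
    · intro x y
      exact hanti _ (hUW i i x.2) _ (hUW i i y.2)
    · intro x hx
      apply Subtype.ext
      exact hzero i i x x.2 fun y hy => hx ⟨y, hy⟩

end Pool.Agent.N917.AF
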