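import Pool.Agent.N917.AF.Stm4

/-!
Project AF (helper917), fourth part, leaf EUC: the Euclidean step at a sink (helper285).
-/

set_option autoImplicit false

namespace Pool.Agent.N917.AF

open Matrix

namespace EUC

/-- every functional on matrices is a trace functional -/
theorem tr_fun {a c : ℕ} (φ : Matrix (Fin a) (Fin c) ℂ →ₗ[ℂ] ℂ) :
    ∃ A : Matrix (Fin c) (Fin a) ℂ, ∀ X, φ X = trace (A * X) := by
  refine ⟨Matrix.of fun j i => φ (Matrix.single i j 1), fun X => ?_⟩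
  conv_lhs => rw [Matrix.matrix_eq_sum_single X]
  rw [map_sum]
  simp only [Matrix.trace, Matrix.diag_apply, Matrix.mul_apply, Matrix.of_apply]
  rw [Finset.sum_comm]
  refine Finset.sum_congr rfl fun i _ => ?_
  rw [map_sum]
  refine Finset.sum_congr rfl fun j _ => ?_
  have e : Matrix.single i j (X i j) = X i j • (Matrix.single i j (1 : ℂ)) := by
    rw [Matrix.smul_single, smul_eq_mul, mul_one]
  rw [e, map_smul, smul_eq_mul, mul_comm]

theorem tr_zero {a c : ℕ} {A : Matrix (Fin c) (Fin a) ℂ}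
    (h : ∀ X : Matrix (Fin a) (Fin c) ℂ, trace (A * X) = 0) : A = 0 := by
  ext j i
  have h1 := h (Matrix.single i j 1)
  rw [Matrix.trace_mul_comm, Matrix.trace_single_mul] at h1
  simpa using h1

section
variable {S M : Type} [Ring S] [Algebra ℂ S] [AddCommGroup M] [Module ℂ M]

/-- the kernel equations -/
structure Ker (b : Bim S M) {ν m : ℕ} (ρ : S →ₗ[ℂ] Matrix (Fin ν) (Fin ν) ℂ)
    (mu : S →ₗ[ℂ] ℂ) (lam : M →ₗ[ℂ] ℂ) (Γ : Matrix (Fin m) (Fin m) ℂ)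
    (Λ : Matrix (Fin ν) (Fin m) ℂ) (s : S) (g : Matrix (Fin m) (Fin m) ℂ) (w : M)
    (Y : Matrix (Fin m) (Fin ν) ℂ) : Prop where
  e1 : ∀ w', lam (b.L s w' - b.R s w') = 0
  e2 : Λ * g = ρ s * Λ
  e3 : Γ * g - g * Γ = Y * Λ
  e4 : ∀ s', mu (s * s' - s' * s) + lam (b.R s' w - b.L s' w) + trace (Λ * Y * ρ s') = 0

/-- only the zero solution -/
def NK (b : Bim S M) {ν m : ℕ} (ρ : S →ₗ[ℂ] Matrix (Fin ν) (Fin ν) ℂ)
    (mu : S →ₗ[ℂ] ℂ) (lam : M →ₗ[ℂ] ℂ) (Γ : Matrix (Fin m) (Fin m) ℂ)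
    (Λ : Matrix (Fin ν) (Fin m) ℂ) : Prop :=
  ∀ s g w Y, Ker b ρ mu lam Γ Λ s g w Y → s = 0 ∧ g = 0 ∧ w = 0 ∧ Y = 0

/-- the functional -/
noncomputable def fn {ν m : ℕ} (mu : S →ₗ[ℂ] ℂ) (lam : M →ₗ[ℂ] ℂ) (Γ : Matrix (Fin m) (Fin m) ℂ)
    (Λ : Matrix (Fin ν) (Fin m) ℂ) :
    ((S × Matrix (Fin m) (Fin m) ℂ) × (M × Matrix (Fin m) (Fin ν) ℂ)) →ₗ[ℂ] ℂ where
  toFun x := mu x.1.1 + trace (Γ * x.1.2) + (lam x.2.1 + trace (Λ * x.2.2))
  map_add' x y := by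
    simp only [Prod.fst_add, Prod.snd_add, map_add, Matrix.mul_add, Matrix.trace_add]
    ring
  map_smul' c x := by
    simp only [Prod.smul_fst, Prod.smul_snd, map_smul, Matrix.mul_smul, Matrix.trace_smul,
      smul_eq_mul, RingHom.id_apply]
    ring

theorem fn_apply {ν m : ℕ} (mu : S →ₗ[ℂ] ℂ) (lam : M →ₗ[ℂ] ℂ) (Γ : Matrix (Fin m) (Fin m) ℂ)
    (Λ : Matrix (Fin ν) (Fin m) ℂ) (s : S) (g : Matrix (Fin m) (Fin m) ℂ) (w : M)
    (Y : Matrix (Fin m) (Fin ν) ℂ) : fn mu lam Γ Λ ((s, g), (w, Y)) =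
      mu s + trace (Γ * g) + (lam w + trace (Λ * Y)) := rfl

/-- every functional has this form -/
theorem fn_all {ν m : ℕ}
    (l : ((S × Matrix (Fin m) (Fin m) ℂ) × (M × Matrix (Fin m) (Fin ν) ℂ)) →ₗ[ℂ] ℂ) :
    ∃ mu lam Γ Λ, l = fn mu lam Γ Λ := by
  obtain ⟨Γ, hΓ⟩ := tr_fun (l.comp ((LinearMap.inl ℂ (S × Matrix (Fin m) (Fin m) ℂ)
    (M × Matrix (Fin m) (Fin ν) ℂ)).comp (LinearMap.inr ℂ S (Matrix (Fin m) (Fin m) ℂ))))
  obtain ⟨Λ, hΛ⟩ := tr_fun (l.comp ((LinearMap.inr ℂ (S × Matrix (Fin m) (Fin m) ℂ)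
    (M × Matrix (Fin m) (Fin ν) ℂ)).comp (LinearMap.inr ℂ M (Matrix (Fin m) (Fin ν) ℂ))))
  refine ⟨l.comp ((LinearMap.inl ℂ (S × Matrix (Fin m) (Fin m) ℂ)
    (M × Matrix (Fin m) (Fin ν) ℂ)).comp (LinearMap.inl ℂ S (Matrix (Fin m) (Fin m) ℂ))),
    l.comp ((LinearMap.inr ℂ (S × Matrix (Fin m) (Fin m) ℂ)
    (M × Matrix (Fin m) (Fin ν) ℂ)).comp (LinearMap.inl ℂ M (Matrix (Fin m) (Fin ν) ℂ))),
    Γ, Λ, ?_⟩
  refine LinearMap.ext fun x => ?_
  obtain ⟨⟨s, g⟩, w, Y⟩ := x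
  rw [fn_apply, ← hΓ, ← hΛ]
  simp only [LinearMap.comp_apply, LinearMap.inl_apply, LinearMap.inr_apply]
  rw [← map_add, ← map_add, ← map_add]
  congr 1
  simp

theorem form (b : Bim S M) {ν m : ℕ} (ρ : S →ₗ[ℂ] Matrix (Fin ν) (Fin ν) ℂ)
    (hρ : ∀ s s', ρ (s * s') = ρ s * ρ s') (mu : S →ₗ[ℂ] ℂ) (lam : M →ₗ[ℂ] ℂ)
    (Γ : Matrix (Fin m) (Fin m) ℂ) (Λ : Matrix (Fin ν) (Fin m) ℂ)
    (s : S) (g : Matrix (Fin m) (Fin m) ℂ) (w : M) (Y : Matrix (Fin m) (Fin ν) ℂ)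
    (s' : S) (g' : Matrix (Fin m) (Fin m) ℂ) (w' : M) (Y' : Matrix (Fin m) (Fin ν) ℂ) :
    fn mu lam Γ Λ ((snk b ρ hρ m).mul ((s, g), (w, Y)) ((s', g'), (w', Y')) -
      (snk b ρ hρ m).mul ((s', g'), (w', Y')) ((s, g), (w, Y))) =
    (mu (s * s' - s' * s) + lam (b.R s' w - b.L s' w) + trace (Λ * Y * ρ s')) +
      lam (b.L s w' - b.R s w') + trace ((Λ * g - ρ s * Λ) * Y') +
      trace ((Γ * g - g * Γ - Y * Λ) * g') := by
  have e : (snk b ρ hρ m).mul ((s, g), (w, Y)) ((s', g'), (w', Y')) -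
      (snk b ρ hρ m).mul ((s', g'), (w', Y')) ((s, g), (w, Y)) =
      ((s * s' - s' * s, g * g' - g' * g), (b.L s w' + b.R s' w - (b.L s' w + b.R s w'),
        g * Y' + Y * ρ s' - (g' * Y + Y' * ρ s))) := rfl
  rw [e, fn_apply]
  have t1 : trace (Γ * g' * g) = trace (g * Γ * g') := by
    rw [Matrix.trace_mul_comm, Matrix.mul_assoc]
  have t2 : trace (Λ * g' * Y) = trace (Y * Λ * g') := by
    rw [Matrix.trace_mul_comm, Matrix.mul_assoc]
  have t3 : trace (Λ * Y' * ρ s) = trace (ρ s * Λ * Y') := by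
    rw [Matrix.trace_mul_comm, Matrix.mul_assoc]
  simp only [Matrix.mul_sub, Matrix.mul_add, Matrix.sub_mul, Matrix.trace_sub, Matrix.trace_add,
    map_sub, map_add, ← Matrix.mul_assoc]
  rw [t1, t2, t3]
  ring

theorem frob_iff (b : Bim S M) {ν : ℕ} (ρ : S →ₗ[ℂ] Matrix (Fin ν) (Fin ν) ℂ)
    (hρ : ∀ s s', ρ (s * s') = ρ s * ρ s') (m : ℕ) : (snk b ρ hρ m).Frob ⊤ ↔
    ∃ (mu : S →ₗ[ℂ] ℂ) (lam : M →ₗ[ℂ] ℂ) (Γ : Matrix (Fin m) (Fin m) ℂ)
      (Λ : Matrix (Fin ν) (Fin m) ℂ), NK b ρ mu lam Γ Λ := by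
  have key : ∀ (mu : S →ₗ[ℂ] ℂ) (lam : M →ₗ[ℂ] ℂ) (Γ : Matrix (Fin m) (Fin m) ℂ)
      (Λ : Matrix (Fin ν) (Fin m) ℂ) (s : S) (g : Matrix (Fin m) (Fin m) ℂ) (w : M)
      (Y : Matrix (Fin m) (Fin ν) ℂ), Ker b ρ mu lam Γ Λ s g w Y ↔
      ∀ y : (S × Matrix (Fin m) (Fin m) ℂ) × (M × Matrix (Fin m) (Fin ν) ℂ),
        fn mu lam Γ Λ ((snk b ρ hρ m).mul ((s, g), (w, Y)) y -
          (snk b ρ hρ m).mul y ((s, g), (w, Y))) = 0 := by
    intro mu lam Γ Λ s g w Y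
    constructor
    · rintro ⟨h1, h2, h3, h4⟩ ⟨⟨s', g'⟩, w', Y'⟩
      rw [form, h4, h1, h2, h3, sub_self, sub_self, Matrix.zero_mul, Matrix.zero_mul,
        Matrix.trace_zero, Matrix.trace_zero]
      simp
    · intro h
      refine ⟨fun w' => ?_, ?_, ?_, fun s' => ?_⟩
      · have h1 := h ((0, 0), (w', 0))
        rw [form] at h1
        simpa using h1
      · have h1 : Λ * g - ρ s * Λ = 0 := by
          refine tr_zero fun X => ?_
          have h1 := h ((0, 0), (0, X))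
          rw [form] at h1
          simpa using h1
        exact sub_eq_zero.1 h1
      · have h1 : Γ * g - g * Γ - Y * Λ = 0 := by
          refine tr_zero fun X => ?_
          have h1 := h ((0, X), (0, 0))
          rw [form] at h1
          simpa using h1
        exact sub_eq_zero.1 h1
      · have h1 := h ((s', 0), (0, 0))
        rw [form] at h1
        simpa using h1
  constructor
  · rintro ⟨l, hl⟩
    obtain ⟨mu, lam, Γ, Λ, rfl⟩ := fn_all l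
    refine ⟨mu, lam, Γ, Λ, fun s g w Y hK => ?_⟩
    have h1 := hl ((s, g), (w, Y)) Submodule.mem_top fun y _ => (key mu lam Γ Λ s g w Y).1 hK y
    simp only [Prod.mk_eq_zero] at h1
    exact ⟨h1.1.1, h1.1.2, h1.2.1, h1.2.2⟩
  · rintro ⟨mu, lam, Γ, Λ, hN⟩
    refine ⟨fn mu lam Γ Λ, fun x _ hx => ?_⟩
    obtain ⟨⟨s, g⟩, w, Y⟩ := x
    obtain ⟨h1, h2, h3, h4⟩ := hN s g w Y ((key mu lam Γ Λ s g w Y).2 fun y =>
      hx y Submodule.mem_top)
    rw [h1, h2, h3, h4]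
    rfl

/-- complementary matrices for `Λ` -/
structure Rl {ν n m : ℕ} (Λ : Matrix (Fin ν) (Fin m) ℂ) (A : Matrix (Fin m) (Fin ν) ℂ)
    (N : Matrix (Fin m) (Fin n) ℂ) (D : Matrix (Fin n) (Fin m) ℂ) : Prop where
  r1 : Λ * A = 1
  r2 : Λ * N = 0
  r3 : D * A = 0
  r4 : D * N = 1
  r5 : A * Λ + N * D = 1

/-- the functional `s ↦ tr (P ρ s)` -/
noncomputable def trf {ν : ℕ} (ρ : S →ₗ[ℂ] Matrix (Fin ν) (Fin ν) ℂ)
    (P : Matrix (Fin ν) (Fin ν) ℂ) : S →ₗ[ℂ] ℂ where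
  toFun s := trace (P * ρ s)
  map_add' x y := by rw [map_add, Matrix.mul_add, Matrix.trace_add]
  map_smul' c x := by rw [map_smul, Matrix.mul_smul, Matrix.trace_smul]; rfl

/-- from `m` to `n` -/
theorem fwd (b : Bim S M) {ν n m : ℕ} (ρ : S →ₗ[ℂ] Matrix (Fin ν) (Fin ν) ℂ)
    (hρ : ∀ s s', ρ (s * s') = ρ s * ρ s') {mu : S →ₗ[ℂ] ℂ} {lam : M →ₗ[ℂ] ℂ}
    {Γ : Matrix (Fin m) (Fin m) ℂ} {Λ : Matrix (Fin ν) (Fin m) ℂ}
    {A : Matrix (Fin m) (Fin ν) ℂ} {N : Matrix (Fin m) (Fin n) ℂ} {D : Matrix (Fin n) (Fin m) ℂ}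
    (hR : Rl Λ A N D) {s : S} {g : Matrix (Fin m) (Fin m) ℂ} {w : M}
    {Y : Matrix (Fin m) (Fin ν) ℂ} (h : Ker b ρ mu lam Γ Λ s g w Y) :
    Ker b ρ (mu + trf ρ (Λ * Γ * A)) lam (D * Γ * N) (Λ * Γ * N) s (D * g * N) w (D * g * A) ∧
      g = A * ρ s * Λ + N * (D * g * A) * Λ + N * (D * g * N) * D ∧ Y = (Γ * g - g * Γ) * A := by
  obtain ⟨r1, r2, r3, r4, r5⟩ := hR
  obtain ⟨e1, e2, e3, e4⟩ := h
  have hY : Y = (Γ * g - g * Γ) * A := by
    rw [e3, Matrix.mul_assoc, r1, Matrix.mul_one]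
  have hgN : g * N = N * (D * g * N) := by
    calc g * N = (A * Λ + N * D) * (g * N) := by rw [r5, Matrix.one_mul]
      _ = A * (Λ * g) * N + N * (D * g * N) := by
        simp only [Matrix.add_mul, Matrix.mul_assoc]
      _ = N * (D * g * N) := by
        rw [e2, Matrix.mul_assoc A, Matrix.mul_assoc (ρ s), r2]
        simp
  have hgA : g * A = A * ρ s + N * (D * g * A) := by
    calc g * A = (A * Λ + N * D) * (g * A) := by rw [r5, Matrix.one_mul]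
      _ = A * (Λ * g) * A + N * (D * g * A) := by
        simp only [Matrix.add_mul, Matrix.mul_assoc]
      _ = A * ρ s + N * (D * g * A) := by
        rw [e2, Matrix.mul_assoc A, Matrix.mul_assoc (ρ s), r1, Matrix.mul_one]
  have hg : g = A * ρ s * Λ + N * (D * g * A) * Λ + N * (D * g * N) * D := by
    calc g = g * (A * Λ + N * D) := by rw [r5, Matrix.mul_one]
      _ = (g * A) * Λ + (g * N) * D := by simp only [Matrix.mul_add, Matrix.mul_assoc]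
      _ = (A * ρ s + N * (D * g * A)) * Λ + (N * (D * g * N)) * D := by rw [hgA]; rw [← hgN]
      _ = _ := by rw [Matrix.add_mul]
  have h3 : Γ * (g * N) = g * (Γ * N) := by
    have : (Γ * g - g * Γ) * N = 0 := by rw [e3, Matrix.mul_assoc, r2, Matrix.mul_zero]
    rw [Matrix.sub_mul, sub_eq_zero, Matrix.mul_assoc, Matrix.mul_assoc] at this
    exact this
  refine ⟨⟨e1, ?_, ?_, fun s' => ?_⟩, hg, hY⟩
  · calc Λ * Γ * N * (D * g * N) = Λ * (Γ * (N * (D * g * N))) := by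
          simp only [Matrix.mul_assoc]
      _ = Λ * (g * (Γ * N)) := by rw [← hgN, h3]
      _ = (Λ * g) * (Γ * N) := by rw [Matrix.mul_assoc]
      _ = ρ s * (Λ * Γ * N) := by rw [e2]; simp only [Matrix.mul_assoc]
  · have h5 : D * Γ * N * (D * g * N) = D * (Γ * (N * (D * g * N))) := by
      simp only [Matrix.mul_assoc]
    have h6 : D * (g * (Γ * N)) = (D * g * A) * (Λ * Γ * N) + (D * g * N) * (D * Γ * N) := by
      calc D * (g * (Γ * N)) = D * g * (A * Λ + N * D) * (Γ * N) := by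
            rw [r5, Matrix.mul_one, Matrix.mul_assoc]
        _ = _ := by simp only [Matrix.mul_add, Matrix.add_mul, Matrix.mul_assoc]
    rw [h5, ← hgN, h3, h6, add_sub_cancel_right]
  · have h7 : Λ * Y = (Λ * Γ * A) * ρ s - ρ s * (Λ * Γ * A) + (Λ * Γ * N) * (D * g * A) := by
      have h8 : Λ * (Γ * (g * A)) = (Λ * Γ * A) * ρ s + (Λ * Γ * N) * (D * g * A) := by
        rw [hgA]
        simp only [Matrix.mul_add, Matrix.mul_assoc]
      have h9 : Λ * (g * (Γ * A)) = ρ s * (Λ * Γ * A) := by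
        rw [← Matrix.mul_assoc, e2]
        simp only [Matrix.mul_assoc]
      rw [hY, Matrix.sub_mul, Matrix.mul_sub, Matrix.mul_assoc Γ, Matrix.mul_assoc g, h8, h9]
      abel
    have h10 := e4 s'
    rw [h7] at h10
    have h11 : (mu + trf ρ (Λ * Γ * A)) (s * s' - s' * s) = mu (s * s' - s' * s) +
        (trace ((Λ * Γ * A) * ρ s * ρ s') - trace (ρ s * (Λ * Γ * A) * ρ s')) := by
      show mu (s * s' - s' * s) + trace ((Λ * Γ * A) * ρ (s * s' - s' * s)) = _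
      rw [map_sub ρ, hρ, hρ, Matrix.mul_sub, Matrix.trace_sub, ← Matrix.mul_assoc (Λ * Γ * A),
        ← Matrix.mul_assoc (Λ * Γ * A), Matrix.trace_mul_comm (Λ * Γ * A * ρ s') (ρ s),
        ← Matrix.mul_assoc (ρ s)]
    rw [h11]
    rw [Matrix.add_mul, Matrix.sub_mul, Matrix.trace_add, Matrix.trace_sub] at h10
    linear_combination h10

/-- from `n` to `m` -/
theorem bwd (b : Bim S M) {ν n m : ℕ} (ρ : S →ₗ[ℂ] Matrix (Fin ν) (Fin ν) ℂ)
    (hρ : ∀ s s', ρ (s * s') = ρ s * ρ s') {mu : S →ₗ[ℂ] ℂ} {lam : M →ₗ[ℂ] ℂ}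
    {Γ : Matrix (Fin m) (Fin m) ℂ} {Λ : Matrix (Fin ν) (Fin m) ℂ}
    {A : Matrix (Fin m) (Fin ν) ℂ} {N : Matrix (Fin m) (Fin n) ℂ} {D : Matrix (Fin n) (Fin m) ℂ}
    (hR : Rl Λ A N D) {s : S} {C : Matrix (Fin n) (Fin n) ℂ} {w : M}
    {Z : Matrix (Fin n) (Fin ν) ℂ}
    (h : Ker b ρ (mu + trf ρ (Λ * Γ * A)) lam (D * Γ * N) (Λ * Γ * N) s C w Z) :
    ∃ g Y, Ker b ρ mu lam Γ Λ s g w Y ∧ C = D * g * N ∧ Z = D * g * A := by
  obtain ⟨r1, r2, r3, r4, r5⟩ := hR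
  obtain ⟨e1, e2, e3, e4⟩ := h
  obtain ⟨g, hg⟩ : ∃ g, g = A * ρ s * Λ + N * Z * Λ + N * C * D := ⟨_, rfl⟩
  have hgN : g * N = N * C := by
    rw [hg, Matrix.add_mul, Matrix.add_mul, Matrix.mul_assoc _ Λ N, Matrix.mul_assoc _ Λ N,
      Matrix.mul_assoc _ D N, r2, r4]
    simp
  have hgA : g * A = A * ρ s + N * Z := by
    rw [hg, Matrix.add_mul, Matrix.add_mul, Matrix.mul_assoc _ Λ A, Matrix.mul_assoc _ Λ A,
      Matrix.mul_assoc _ D A, r1, r3]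
    simp
  have hΛg : Λ * g = ρ s * Λ := by
    have h1 : Λ * (A * ρ s * Λ) = ρ s * Λ := by
      rw [Matrix.mul_assoc A, ← Matrix.mul_assoc Λ A, r1, Matrix.one_mul]
    have h2 : Λ * (N * Z * Λ) = 0 := by
      rw [Matrix.mul_assoc N, ← Matrix.mul_assoc Λ N, r2, Matrix.zero_mul]
    have h3 : Λ * (N * C * D) = 0 := by
      rw [Matrix.mul_assoc N, ← Matrix.mul_assoc Λ N, r2, Matrix.zero_mul]
    rw [hg, Matrix.mul_add, Matrix.mul_add, h1, h2, h3, add_zero, add_zero]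
  have hΓN : Γ * N = A * (Λ * Γ * N) + N * (D * Γ * N) := by
    calc Γ * N = (A * Λ + N * D) * (Γ * N) := by rw [r5, Matrix.one_mul]
      _ = _ := by simp only [Matrix.add_mul, Matrix.mul_assoc]
  have h3 : (Γ * g - g * Γ) * N = 0 := by
    have h4 : Γ * (g * N) = g * (Γ * N) := by
      rw [hgN]
      calc Γ * (N * C) = (Γ * N) * C := by rw [Matrix.mul_assoc]
        _ = A * (Λ * Γ * N * C) + N * (D * Γ * N * C) := by
          rw [hΓN]
          simp only [Matrix.add_mul, Matrix.mul_assoc]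
        _ = A * (ρ s * (Λ * Γ * N)) + N * (C * (D * Γ * N) + Z * (Λ * Γ * N)) := by
          rw [e2, ← e3]
          congr 2
          abel
        _ = (A * ρ s + N * Z) * (Λ * Γ * N) + (N * C) * (D * Γ * N) := by
          simp only [Matrix.add_mul, Matrix.mul_add, Matrix.mul_assoc]
          abel
        _ = g * A * (Λ * Γ * N) + g * N * (D * Γ * N) := by rw [hgA, hgN]
        _ = g * (A * (Λ * Γ * N) + N * (D * Γ * N)) := by
          simp only [Matrix.mul_add, Matrix.mul_assoc]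
        _ = g * (Γ * N) := by rw [← hΓN]
    rw [Matrix.sub_mul, Matrix.mul_assoc, Matrix.mul_assoc, h4, sub_self]
  refine ⟨g, (Γ * g - g * Γ) * A, ⟨e1, hΛg, ?_, fun s' => ?_⟩, ?_, ?_⟩
  · calc Γ * g - g * Γ = (Γ * g - g * Γ) * (A * Λ + N * D) := by rw [r5, Matrix.mul_one]
      _ = (Γ * g - g * Γ) * A * Λ + (Γ * g - g * Γ) * N * D := by
        simp only [Matrix.mul_add, Matrix.mul_assoc]
      _ = (Γ * g - g * Γ) * A * Λ := by rw [h3, Matrix.zero_mul, add_zero]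
  · have h7 : Λ * ((Γ * g - g * Γ) * A) =
        (Λ * Γ * A) * ρ s - ρ s * (Λ * Γ * A) + (Λ * Γ * N) * Z := by
      have h8 : Λ * (Γ * (g * A)) = (Λ * Γ * A) * ρ s + (Λ * Γ * N) * Z := by
        rw [hgA]
        simp only [Matrix.mul_add, Matrix.mul_assoc]
      have h9 : Λ * (g * (Γ * A)) = ρ s * (Λ * Γ * A) := by
        rw [← Matrix.mul_assoc, hΛg]
        simp only [Matrix.mul_assoc]
      rw [Matrix.sub_mul, Matrix.mul_sub, Matrix.mul_assoc Γ, Matrix.mul_assoc g, h8, h9]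
      abel
    have h10 := e4 s'
    have h11 : (mu + trf ρ (Λ * Γ * A)) (s * s' - s' * s) = mu (s * s' - s' * s) +
        (trace ((Λ * Γ * A) * ρ s * ρ s') - trace (ρ s * (Λ * Γ * A) * ρ s')) := by
      show mu (s * s' - s' * s) + trace ((Λ * Γ * A) * ρ (s * s' - s' * s)) = _
      rw [map_sub ρ, hρ, hρ, Matrix.mul_sub, Matrix.trace_sub, ← Matrix.mul_assoc (Λ * Γ * A),
        ← Matrix.mul_assoc (Λ * Γ * A), Matrix.trace_mul_comm (Λ * Γ * A * ρ s') (ρ s),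
        ← Matrix.mul_assoc (ρ s)]
    rw [h11] at h10
    rw [h7, Matrix.add_mul, Matrix.sub_mul, Matrix.trace_add, Matrix.trace_sub]
    linear_combination h10
  · rw [Matrix.mul_assoc, hgN, ← Matrix.mul_assoc, r4, Matrix.one_mul]
  · rw [Matrix.mul_assoc, hgA, Matrix.mul_add, ← Matrix.mul_assoc, ← Matrix.mul_assoc, r3, r4]
    simp

/-- `Λ` is surjective -/
theorem surj (b : Bim S M) {ν n : ℕ} (ρ : S →ₗ[ℂ] Matrix (Fin ν) (Fin ν) ℂ)
    {mu : S →ₗ[ℂ] ℂ} {lam : M →ₗ[ℂ] ℂ}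
    {Γ : Matrix (Fin (ν + n)) (Fin (ν + n)) ℂ} {Λ : Matrix (Fin ν) (Fin (ν + n)) ℂ}
    (h : NK b ρ mu lam Γ Λ) : Function.Surjective Λ.mulVecLin := by
  by_contra hs
  have hlt : LinearMap.range Λ.mulVecLin < ⊤ := by
    rw [lt_top_iff_ne_top]
    intro h1
    exact hs (LinearMap.range_eq_top.1 h1)
  obtain ⟨φ, hφ, hφ2⟩ := Submodule.exists_le_ker_of_lt_top _ hlt
  have hinj : ¬ Function.Injective Λ.mulVecLin := by
    intro hi
    have h1 := LinearMap.finrank_range_of_inj hi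
    have h2 := Submodule.finrank_lt hlt.ne
    rw [h1] at h2
    simp at h2
  have hker : LinearMap.ker Λ.mulVecLin ≠ ⊥ := fun h1 => hinj (LinearMap.ker_eq_bot.1 h1)
  obtain ⟨x, hx, hx0⟩ := (Submodule.ne_bot_iff _).1 hker
  have hx' : Λ.mulVecLin x = 0 := hx
  obtain ⟨v, hv⟩ : ∃ v, φ v ≠ 0 := by
    by_contra hcon
    push Not at hcon
    exact hφ (LinearMap.ext hcon)
  have hΛ : Λ = LinearMap.toMatrix' Λ.mulVecLin := by
    rw [← Matrix.toLin'_apply', LinearMap.toMatrix'_toLin']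
  obtain ⟨Y, hY⟩ : ∃ Y, Y = LinearMap.toMatrix' (φ.smulRight x) := ⟨_, rfl⟩
  have hYΛ : Y * Λ = 0 := by
    conv_lhs => rw [hY, hΛ]
    rw [← LinearMap.toMatrix'_comp]
    have : (φ.smulRight x).comp Λ.mulVecLin = 0 := by
      refine LinearMap.ext fun u => ?_
      have : φ (Λ.mulVecLin u) = 0 := hφ2 ⟨u, rfl⟩
      rw [LinearMap.comp_apply, LinearMap.smulRight_apply, this, zero_smul]
      rfl
    rw [this, map_zero]
  have hΛY : Λ * Y = 0 := by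
    conv_lhs => rw [hY, hΛ]
    rw [← LinearMap.toMatrix'_comp]
    have : Λ.mulVecLin.comp (φ.smulRight x) = 0 := by
      refine LinearMap.ext fun u => ?_
      rw [LinearMap.comp_apply, LinearMap.smulRight_apply, map_smul, hx', smul_zero]
      rfl
    rw [this, map_zero]
  have hY0 : Y ≠ 0 := by
    intro h1
    rw [hY, LinearEquiv.map_eq_zero_iff] at h1
    have h2 := LinearMap.congr_fun h1 v
    rw [LinearMap.smulRight_apply, LinearMap.zero_apply] at h2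
    rcases smul_eq_zero.1 h2 with h3 | h3
    · exact hv h3
    · exact hx0 h3
  have hK : Ker b ρ mu lam Γ Λ 0 0 0 Y := by
    refine ⟨fun w' => ?_, ?_, ?_, fun s' => ?_⟩
    · simp
    · simp
    · rw [hYΛ]; simp
    · rw [hΛY]; simp
  exact hY0 (h 0 0 0 Y hK).2.2.2

/-- complementary matrices exist -/
theorem exists_Rl {ν n : ℕ} (Λ : Matrix (Fin ν) (Fin (ν + n)) ℂ)
    (hs : Function.Surjective Λ.mulVecLin) :
    ∃ (A : Matrix (Fin (ν + n)) (Fin ν) ℂ) (N : Matrix (Fin (ν + n)) (Fin n) ℂ)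
      (D : Matrix (Fin n) (Fin (ν + n)) ℂ), Rl Λ A N D := by
  -- right inverse
  choose a ha using fun i : Fin ν => hs (Pi.single i 1)
  have hA : Λ * (Matrix.of fun j i => a i j) = 1 := by
    ext i j
    have h1 := congrFun (ha j) i
    rw [Matrix.mulVecLin_apply] at h1
    rw [Matrix.mul_apply]
    simp only [Matrix.of_apply]
    have h2 : ∑ x, Λ i x * a j x = (Λ *ᵥ a j) i := rfl
    rw [h2, h1, Matrix.one_apply, Pi.single_apply]
  obtain ⟨A, hA⟩ : ∃ A : Matrix (Fin (ν + n)) (Fin ν) ℂ, Λ * A = 1 := ⟨_, hA⟩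
  have hdim : Module.finrank ℂ (LinearMap.ker Λ.mulVecLin) = n := by
    have h1 := LinearMap.finrank_range_add_finrank_ker Λ.mulVecLin
    rw [LinearMap.range_eq_top.2 hs, finrank_top] at h1
    simp at h1
    omega
  let β := Module.finBasisOfFinrankEq ℂ (LinearMap.ker Λ.mulVecLin) hdim
  obtain ⟨N, hN⟩ : ∃ N : Matrix (Fin (ν + n)) (Fin n) ℂ,
      ∀ i k, N i k = (β k : Fin (ν + n) → ℂ) i := ⟨Matrix.of fun i k => (β k : Fin (ν + n) → ℂ) i,
        fun _ _ => rfl⟩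
  have hNv : ∀ c : Fin n → ℂ, N *ᵥ c = ((∑ k, c k • β k : LinearMap.ker Λ.mulVecLin) :
      Fin (ν + n) → ℂ) := by
    intro c
    funext i
    rw [Submodule.coe_sum, Finset.sum_apply]
    show ∑ k, N i k * c k = _
    refine Finset.sum_congr rfl fun k _ => ?_
    rw [hN, Submodule.coe_smul, Pi.smul_apply, smul_eq_mul, mul_comm]
  have hNinj : ∀ c : Fin n → ℂ, N *ᵥ c = 0 → c = 0 := by
    intro c hc
    rw [hNv] at hc
    have h1 : ∑ k, c k • β k = 0 := Subtype.ext hc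
    funext k
    exact Fintype.linearIndependent_iff.1 β.linearIndependent c h1 k
  have hΛN : Λ * N = 0 := by
    ext i k
    have h1 : Λ.mulVecLin (β k : Fin (ν + n) → ℂ) = 0 := (β k).2
    have h2 := congrFun h1 i
    rw [Matrix.mulVecLin_apply] at h2
    rw [Matrix.mul_apply]
    have h3 : ∑ x, Λ i x * N x k = (Λ *ᵥ (β k : Fin (ν + n) → ℂ)) i :=
      Finset.sum_congr rfl fun x _ => by rw [hN]
    rw [h3, h2]
    rfl
  have hNinj2 : ∀ {q : ℕ} (X : Matrix (Fin n) (Fin q) ℂ), N * X = 0 → X = 0 := by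
    intro q X hX
    ext k j
    have h1 : N *ᵥ (fun k => X k j) = 0 := by
      funext i
      exact congrFun (congrFun hX i) j
    exact congrFun (hNinj _ h1) k
  -- coordinates of the projection
  have hmem : ∀ j, (1 - A * Λ).mulVec (Pi.single j 1) ∈ LinearMap.ker Λ.mulVecLin := by
    intro j
    rw [LinearMap.mem_ker, Matrix.mulVecLin_apply, Matrix.mulVec_mulVec, Matrix.mul_sub,
      Matrix.mul_one, ← Matrix.mul_assoc, hA, Matrix.one_mul, sub_self, Matrix.zero_mulVec]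
  obtain ⟨D, hD⟩ : ∃ D : Matrix (Fin n) (Fin (ν + n)) ℂ, N * D = 1 - A * Λ := by
    refine ⟨Matrix.of fun k j => β.repr ⟨_, hmem j⟩ k, ?_⟩
    ext i j
    have h1 := β.sum_repr ⟨_, hmem j⟩
    have h2 := hNv (fun k => β.repr ⟨_, hmem j⟩ k)
    rw [h1] at h2
    have h3 := congrFun h2 i
    rw [Matrix.mul_apply]
    simp only [Matrix.of_apply]
    have h4 : ∑ x, N i x * (β.repr ⟨_, hmem j⟩ x) = (N *ᵥ (fun k => β.repr ⟨_, hmem j⟩ k)) i := rfl
    rw [h4, h3]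
    show ((1 - A * Λ).mulVec (Pi.single j 1)) i = _
    rw [Matrix.mulVec_single_one]
    rfl
  refine ⟨A, N, D, hA, hΛN, ?_, ?_, ?_⟩
  · refine hNinj2 _ ?_
    rw [← Matrix.mul_assoc, hD, Matrix.sub_mul, Matrix.one_mul, Matrix.mul_assoc, hA,
      Matrix.mul_one, sub_self]
  · have h1 : N * (D * N - 1) = 0 := by
      rw [Matrix.mul_sub, ← Matrix.mul_assoc, hD, Matrix.sub_mul, Matrix.one_mul, Matrix.mul_assoc,
        hΛN, Matrix.mul_zero, sub_zero, Matrix.mul_one, sub_self]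
    exact sub_eq_zero.1 (hNinj2 _ h1)
  · rw [hD, add_sub_cancel]

/-- the standard complementary matrices -/
theorem std_Rl (ν n : ℕ) : ∃ (Λ : Matrix (Fin ν) (Fin (ν + n)) ℂ)
    (A : Matrix (Fin (ν + n)) (Fin ν) ℂ) (N : Matrix (Fin (ν + n)) (Fin n) ℂ)
    (D : Matrix (Fin n) (Fin (ν + n)) ℂ), Rl Λ A N D := by
  have hs : Function.Surjective
      (Matrix.of fun (i : Fin ν) (j : Fin (ν + n)) =>
        if j = Fin.castAdd n i then (1 : ℂ) else 0).mulVecLin := by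
    intro v
    refine ⟨Fin.append v 0, ?_⟩
    funext i
    rw [Matrix.mulVecLin_apply]
    show ∑ j, (if j = Fin.castAdd n i then (1 : ℂ) else 0) * Fin.append v 0 j = v i
    rw [Finset.sum_eq_single (Fin.castAdd n i)]
    · simp
    · intro j _ hj
      simp [hj]
    · intro h
      exact absurd (Finset.mem_univ _) h
  exact ⟨_, exists_Rl _ hs⟩

end

end EUC

theorem t_EUC : S_EUC := by
  intro S M _ _ _ _ _ _ b ν ρ hρ n
  rw [EUC.frob_iff, EUC.frob_iff]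
  constructor
  · rintro ⟨mu, lam, Γ, Λ, hN⟩
    obtain ⟨A, N, D, hR⟩ := EUC.exists_Rl Λ (EUC.surj b ρ hN)
    refine ⟨mu + EUC.trf ρ (Λ * Γ * A), lam, D * Γ * N, Λ * Γ * N, fun s C w Z hK => ?_⟩
    obtain ⟨g, Y, hK', hC, hZ⟩ := EUC.bwd b ρ hρ hR hK
    obtain ⟨h1, h2, h3, -⟩ := hN s g w Y hK'
    refine ⟨h1, ?_, h3, ?_⟩
    · rw [hC, h2]; simp
    · rw [hZ, h2]; simp
  · rintro ⟨mu, lam, T, Q, hN⟩
    obtain ⟨Λ, A, N, D, hR⟩ := EUC.std_Rl ν n
    obtain ⟨Γ, hΓ⟩ : ∃ Γ, Γ = A * Q * D + N * T * D := ⟨_, rfl⟩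
    have hΓN : Γ * N = A * Q + N * T := by
      rw [hΓ, Matrix.add_mul, Matrix.mul_assoc _ D N, Matrix.mul_assoc _ D N, hR.r4,
        Matrix.mul_one, Matrix.mul_one]
    have hΓA : Γ * A = 0 := by
      rw [hΓ, Matrix.add_mul, Matrix.mul_assoc _ D A, Matrix.mul_assoc _ D A, hR.r3,
        Matrix.mul_zero, Matrix.mul_zero, add_zero]
    have e1 : D * Γ * N = T := by
      rw [Matrix.mul_assoc, hΓN, Matrix.mul_add, ← Matrix.mul_assoc, ← Matrix.mul_assoc, hR.r3,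
        hR.r4, Matrix.zero_mul, zero_add, Matrix.one_mul]
    have e2 : Λ * Γ * N = Q := by
      rw [Matrix.mul_assoc, hΓN, Matrix.mul_add, ← Matrix.mul_assoc, ← Matrix.mul_assoc, hR.r1,
        hR.r2, Matrix.zero_mul, add_zero, Matrix.one_mul]
    have e3 : mu + EUC.trf ρ (Λ * Γ * A) = mu := by
      refine LinearMap.ext fun s => ?_
      show mu s + trace ((Λ * Γ * A) * ρ s) = mu s
      rw [Matrix.mul_assoc Λ, hΓA, Matrix.mul_zero, Matrix.zero_mul, Matrix.trace_zero, add_zero]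
    refine ⟨mu, lam, Γ, Λ, fun s g w Y hK => ?_⟩
    obtain ⟨hK', hg, hY⟩ := EUC.fwd b ρ hρ hR hK
    rw [e1, e2, e3] at hK'
    obtain ⟨h1, h2, h3, h4⟩ := hN s _ w _ hK'
    have hg0 : g = 0 := by
      rw [hg, h1, h2, h4]
      simp
    refine ⟨h1, hg0, h3, ?_⟩
    rw [hY, hg0]
    simp

end Pool.Agent.N917.AF
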