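import Pool.Agent.N917.AF.Stm6

/-!
Leaf GADD: additivity of the multiplicities.
-/

set_option autoImplicit false

namespace Pool.Agent.N917.AF

namespace GADD

variable {m : ℕ} {n : Fin m → ℕ} [∀ i, NeZero (n i)] {M : Type} [AddCommGroup M] [Module ℂ M]

lemma lE_mem (b : Bim (PS n) M) {W : Submodule ℂ M} (hW : b.Sub W) (i : Option (Fin m)) {x : M}
    (hx : x ∈ W) : lE b i x ∈ W := by
  cases i with
  | none =>
    show ((LinearMap.id : M →ₗ[ℂ] M) - b.L 1) x ∈ W
    rw [LinearMap.sub_apply, LinearMap.id_apply]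
    exact W.sub_mem hx (hW _ x hx).1
  | some i => exact (hW _ x hx).1

lemma rE_mem (b : Bim (PS n) M) {W : Submodule ℂ M} (hW : b.Sub W) (i : Option (Fin m)) {x : M}
    (hx : x ∈ W) : rE b i x ∈ W := by
  cases i with
  | none =>
    show ((LinearMap.id : M →ₗ[ℂ] M) - b.R 1) x ∈ W
    rw [LinearMap.sub_apply, LinearMap.id_apply]
    exact W.sub_mem hx (hW _ x hx).2
  | some i => exact (hW _ x hx).2

lemma map_le (b : Bim (PS n) M) {W : Submodule ℂ M} (hW : b.Sub W) (i j : Option (Fin m)) :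
    W.map (lE b i ∘ₗ rE b j) ≤ W := by
  rintro _ ⟨x, hx, rfl⟩
  exact lE_mem b hW i (rE_mem b hW j hx)

end GADD

theorem t_GADD : S_GADD := by
  intro m n _ M _ _ _ b W' W hW' hW hc i j
  unfold mu mW
  set P := lE b i ∘ₗ rE b j with hP
  have h1 : LinearMap.range P = W'.map P ⊔ W.map P := by
    rw [← Submodule.map_sup, hc.sup_eq_top, Submodule.map_top]
  have h2 : W'.map P ⊓ W.map P = ⊥ := by
    have h3 : W'.map P ⊓ W.map P ≤ W' ⊓ W :=
      inf_le_inf (GADD.map_le b hW' i j) (GADD.map_le b hW i j)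
    rw [hc.inf_eq_bot] at h3
    exact le_bot_iff.1 h3
  have h4 := Submodule.finrank_sup_add_finrank_inf_eq (W'.map P) (W.map P)
  rw [h2, finrank_bot, add_zero] at h4
  rw [h1, h4]

end Pool.Agent.N917.AF
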