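import Pool.Agent.N917.AF.Stm6
import Pool.Agent.N917.AF.BD2

/-!
Project AF (helper917), part GBLD (helper707): a nondegenerate form on `S ⊕ M` from one on the skew
part of `M`.
-/

set_option autoImplicit false

namespace Pool.Agent.N917.AF

namespace GBLD

open Matrix

/-- an injection into the natural numbers -/
def od {m : ℕ} (i : Option (Fin m)) : ℕ := i.elim 0 (fun i => i.val + 1)

theorem od_inj {m : ℕ} {i j : Option (Fin m)} (h : od i = od j) : i = j := by
  cases i with
  | none =>
    cases j with
    | none => rfl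
    | some j => simp [od] at h
  | some i =>
    cases j with
    | none => simp [od] at h
    | some j =>
      simp only [od, Option.elim] at h
      congr 1
      exact Fin.ext (by omega)

/-- the coefficients of the form -/
noncomputable def cc {m : ℕ} (i j : Option (Fin m)) (k l : ℕ) : ℂ :=
  if i = j then (if l = k + 1 ∧ Even k then 1 else if k = l + 1 ∧ Even l then -1 else 0)
  else if k = l then (if od i < od j then 1 else -1) else 0

theorem cc_anti {m : ℕ} (i j : Option (Fin m)) (k l : ℕ) : cc j i l k = -cc i j k l := by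
  unfold cc
  by_cases hij : i = j
  · subst hij
    simp only [if_true]
    by_cases h1 : l = k + 1 ∧ Even k
    · have h2 : ¬ (k = l + 1 ∧ Even l) := by omega
      rw [if_neg h2, if_pos h1, if_pos h1]
    · by_cases h2 : k = l + 1 ∧ Even l
      · rw [if_pos h2, if_neg h1, if_pos h2, neg_neg]
      · rw [if_neg h2, if_neg h1, if_neg h1, if_neg h2, neg_zero]
  · have hji : ¬ j = i := fun h => hij h.symm
    rw [if_neg hij, if_neg hji]
    by_cases hk : k = l
    · rw [if_pos hk, if_pos hk.symm]
      have hne : od i ≠ od j := fun h => hij (od_inj h)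
      by_cases h1 : od i < od j
      · rw [if_pos h1, if_neg (by omega)]
      · rw [if_neg h1, if_pos (by omega), neg_neg]
    · rw [if_neg hk, if_neg (fun h => hk h.symm), neg_zero]

/-- the partner of an index -/
theorem partner {m : ℕ} (μ : Option (Fin m) → Option (Fin m) → ℕ) (hμ : ∀ i, Even (μ i i))
    (i j : Option (Fin m)) (k : Fin (μ i j)) (hk : (k : ℕ) < μ j i) :
    ∃ l : Fin (μ j i), (l : ℕ) < μ i j ∧ cc i j k l ≠ 0 ∧
      ∀ k' : Fin (μ i j), k' ≠ k → cc i j k' l = 0 := by
  by_cases hij : i = j
  · subst hij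
    have he := hμ i
    have hk1 := k.2
    by_cases hke : Even (k : ℕ)
    · have hlt : (k : ℕ) + 1 < μ i i := by
        rcases he with ⟨a, ha⟩
        rcases hke with ⟨b, hb⟩
        omega
      refine ⟨⟨k + 1, hlt⟩, hlt, ?_, fun k' hk' => ?_⟩
      · unfold cc
        rw [if_pos rfl, if_pos ⟨rfl, hke⟩]
        exact one_ne_zero
      · have h0 : (k' : ℕ) ≠ k := fun h => hk' (Fin.ext h)
        unfold cc
        rw [if_pos rfl, if_neg (by rintro ⟨h1, -⟩; simp only at h1; omega),
          if_neg (by
            rintro ⟨-, h1⟩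
            simp only at h1
            exact (Nat.not_even_iff_odd.2 hke.add_one) h1)]
    · have hko : Odd (k : ℕ) := Nat.not_even_iff_odd.1 hke
      obtain ⟨a, ha⟩ := hko
      refine ⟨⟨k - 1, by omega⟩, by simp only; omega, ?_, fun k' hk' => ?_⟩
      · unfold cc
        rw [if_pos rfl, if_neg (by rintro ⟨-, h1⟩; exact hke h1),
          if_pos ⟨by simp only; omega, by simp only; exact ⟨a, by omega⟩⟩]
        exact neg_ne_zero.2 one_ne_zero
      · have h0 : (k' : ℕ) ≠ k := fun h => hk' (Fin.ext h)
        unfold cc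
        rw [if_pos rfl, if_neg (by
            rintro ⟨h1, h2⟩
            simp only at h1
            obtain ⟨c, hc⟩ := h2
            omega), if_neg (by rintro ⟨h1, -⟩; simp only at h1; omega)]
  · refine ⟨⟨k, hk⟩, k.2, ?_, fun k' hk' => ?_⟩
    · unfold cc
      rw [if_neg hij, if_pos rfl]
      split_ifs
      · exact one_ne_zero
      · exact neg_ne_zero.2 one_ne_zero
    · have h0 : (k' : ℕ) ≠ k := fun h => hk' (Fin.ext h)
      unfold cc
      rw [if_neg hij, if_neg h0]

section
variable {m : ℕ} (n : Fin m → ℕ) (μ : Option (Fin m) → Option (Fin m) → ℕ)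

/-- the form -/
noncomputable def bet : GM n μ →ₗ[ℂ] GM n μ →ₗ[ℂ] ℂ :=
  LinearMap.mk₂ ℂ (fun x y => ∑ i, ∑ j, ∑ k : Fin (μ i j), ∑ l : Fin (μ j i),
      cc i j k l * trace (x i j k * y j i l))
    (fun x x' y => by
      simp only [Pi.add_apply, Matrix.add_mul, trace_add, mul_add, Finset.sum_add_distrib])
    (fun c x y => by
      simp only [Pi.smul_apply, Matrix.smul_mul, trace_smul, smul_eq_mul, Finset.mul_sum,
        mul_left_comm])
    (fun x y y' => by
      simp only [Pi.add_apply, Matrix.mul_add, trace_add, mul_add, Finset.sum_add_distrib])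
    (fun c x y => by
      simp only [Pi.smul_apply, Matrix.mul_smul, trace_smul, smul_eq_mul, Finset.mul_sum,
        mul_left_comm])

theorem bet_apply (x y : GM n μ) : bet n μ x y = ∑ i, ∑ j, ∑ k : Fin (μ i j), ∑ l : Fin (μ j i),
    cc i j k l * trace (x i j k * y j i l) := rfl

theorem bet_anti (x y : GM n μ) : bet n μ x y = -bet n μ y x := by
  rw [bet_apply, bet_apply]
  conv_rhs => rw [Finset.sum_comm]
  rw [← Finset.sum_neg_distrib]
  refine Finset.sum_congr rfl fun i _ => ?_
  rw [← Finset.sum_neg_distrib]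
  refine Finset.sum_congr rfl fun j _ => ?_
  conv_rhs => rw [Finset.sum_comm]
  rw [← Finset.sum_neg_distrib]
  refine Finset.sum_congr rfl fun k _ => ?_
  rw [← Finset.sum_neg_distrib]
  refine Finset.sum_congr rfl fun l _ => ?_
  rw [cc_anti i j k l, trace_mul_comm (x i j k)]
  ring

theorem bet_inv (s : PS n) (x y : GM n μ) :
    bet n μ ((gm n μ).L s x) y = bet n μ x ((gm n μ).R s y) := by
  rw [bet_apply, bet_apply]
  refine Finset.sum_congr rfl fun i _ => Finset.sum_congr rfl fun j _ =>
    Finset.sum_congr rfl fun k _ => Finset.sum_congr rfl fun l _ => ?_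
  congr 1
  show trace (act s i * x i j k * y j i l) = trace (x i j k * (y j i l * act s i))
  rw [← Matrix.mul_assoc, trace_mul_comm (x i j k * y j i l), Matrix.mul_assoc]

/-- the symmetric part -/
def W1 : Submodule ℂ (GM n μ) where
  carrier := {x | ∀ i j (k : Fin (μ i j)), μ j i ≤ (k : ℕ) → x i j k = 0}
  zero_mem' := fun i j k _ => rfl
  add_mem' := by
    intro x y hx hy i j k h
    show x i j k + y i j k = 0
    rw [hx i j k h, hy i j k h, add_zero]
  smul_mem' := by
    intro c x hx i j k h
    show c • x i j k = 0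
    rw [hx i j k h, smul_zero]

/-- the skew part -/
def W2 : Submodule ℂ (GM n μ) where
  carrier := {x | ∀ i j (k : Fin (μ i j)), (k : ℕ) < μ j i → x i j k = 0}
  zero_mem' := fun i j k _ => rfl
  add_mem' := by
    intro x y hx hy i j k h
    show x i j k + y i j k = 0
    rw [hx i j k h, hy i j k h, add_zero]
  smul_mem' := by
    intro c x hx i j k h
    show c • x i j k = 0
    rw [hx i j k h, smul_zero]

theorem sub1 : (gm n μ).Sub (W1 n μ) := by
  intro s x hx
  refine ⟨fun i j k h => ?_, fun i j k h => ?_⟩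
  · show act s i * x i j k = 0
    rw [hx i j k h, Matrix.mul_zero]
  · show x i j k * act s j = 0
    rw [hx i j k h, Matrix.zero_mul]

theorem sub2 : (gm n μ).Sub (W2 n μ) := by
  intro s x hx
  refine ⟨fun i j k h => ?_, fun i j k h => ?_⟩
  · show act s i * x i j k = 0
    rw [hx i j k h, Matrix.mul_zero]
  · show x i j k * act s j = 0
    rw [hx i j k h, Matrix.zero_mul]

theorem compl : IsCompl (W1 n μ) (W2 n μ) := by
  refine ⟨?_, ?_⟩
  · rw [Submodule.disjoint_def]
    intro x h1 h2
    funext i j k
    rcases lt_or_ge (k : ℕ) (μ j i) with h | h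
    · exact h2 i j k h
    · exact h1 i j k h
  · rw [codisjoint_iff, eq_top_iff]
    intro x _
    refine Submodule.mem_sup.2 ⟨fun i j k => if (k : ℕ) < μ j i then x i j k else 0, ?_,
      fun i j k => if (k : ℕ) < μ j i then 0 else x i j k, ?_, ?_⟩
    · intro i j k h
      exact if_neg (not_lt.2 h)
    · intro i j k h
      exact if_pos h
    · funext i j k
      show (if (k : ℕ) < μ j i then x i j k else 0) + (if (k : ℕ) < μ j i then 0 else x i j k) =
        x i j k
      split_ifs
      · rw [add_zero]
      · rw [zero_add]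

theorem bet_single (x : GM n μ) (i j : Option (Fin m)) (l : Fin (μ j i))
    (Y : Matrix (Fin (NN n j)) (Fin (NN n i)) ℂ) :
    bet n μ x (Pi.single j (Pi.single i (Pi.single l Y))) =
      ∑ k : Fin (μ i j), cc i j k l * trace (x i j k * Y) := by
  rw [bet_apply, Finset.sum_eq_single_of_mem i (Finset.mem_univ _),
    Finset.sum_eq_single_of_mem j (Finset.mem_univ _)]
  · refine Finset.sum_congr rfl fun k _ => ?_
    rw [Finset.sum_eq_single_of_mem l (Finset.mem_univ _)]
    · rw [Pi.single_eq_same, Pi.single_eq_same, Pi.single_eq_same]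
    · intro l' _ hl'
      rw [Pi.single_eq_same, Pi.single_eq_same, Pi.single_eq_of_ne hl', Matrix.mul_zero, trace_zero,
        mul_zero]
  · intro j' _ hj'
    refine Finset.sum_eq_zero fun k _ => Finset.sum_eq_zero fun l' _ => ?_
    rw [Pi.single_eq_of_ne hj']
    simp
  · intro i' _ hi'
    refine Finset.sum_eq_zero fun j' _ => Finset.sum_eq_zero fun k _ =>
      Finset.sum_eq_zero fun l' _ => ?_
    by_cases hj : j' = j
    · subst hj
      rw [Pi.single_eq_same, Pi.single_eq_of_ne hi']
      simp
    · rw [Pi.single_eq_of_ne hj]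
      simp

theorem sympl (hμ : ∀ i, Even (μ i i)) : (gm n μ).Sympl (W1 n μ) := by
  refine ⟨bet n μ, fun x _ y _ => bet_anti n μ x y, fun s x _ y _ => bet_inv n μ s x y, ?_⟩
  intro x hx h
  funext i j k
  rcases lt_or_ge (k : ℕ) (μ j i) with hk | hk
  · obtain ⟨l, hl1, hl2, hl3⟩ := partner μ hμ i j k hk
    have h1 : ∀ Y : Matrix (Fin (NN n j)) (Fin (NN n i)) ℂ, trace (x i j k * Y) = 0 := by
      intro Y
      have h2 := h (Pi.single j (Pi.single i (Pi.single l Y))) (by
        intro j' i' l' hl'
        by_cases hj : j' = j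
        · subst hj
          by_cases hi : i' = i
          · subst hi
            have hne : l' ≠ l := by
              intro he
              rw [he] at hl'
              omega
            rw [Pi.single_eq_same, Pi.single_eq_same, Pi.single_eq_of_ne hne]
          · rw [Pi.single_eq_same, Pi.single_eq_of_ne hi]
            rfl
        · rw [Pi.single_eq_of_ne hj]
          rfl)
      rw [bet_single, Finset.sum_eq_single_of_mem k (Finset.mem_univ _)
        (fun k' _ hk' => by rw [hl3 k' hk', zero_mul])] at h2
      exact (mul_eq_zero.1 h2).resolve_left hl2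
    have h3 : x i j k = 0 := by
      refine Matrix.ext_iff_trace_mul_right.2 fun Y => ?_
      rw [h1 Y, Matrix.zero_mul, trace_zero]
    exact h3
  · exact hx i j k hk

/-- the embedding of the model of the skew part -/
noncomputable def emb : GM n (skew μ) →ₗ[ℂ] GM n μ where
  toFun z := fun i j k => if h : μ j i ≤ (k : ℕ) then z i j ⟨k - μ j i, by
    have := k.2
    unfold skew
    omega⟩ else 0
  map_add' := by
    intro z z'
    funext i j k
    simp only [Pi.add_apply]
    split_ifs
    · rfl
    · rw [add_zero]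
  map_smul' := by
    intro c z
    funext i j k
    simp only [Pi.smul_apply, RingHom.id_apply]
    split_ifs
    · rfl
    · rw [smul_zero]

theorem emb_apply (z : GM n (skew μ)) (i j : Option (Fin m)) (k : Fin (μ i j)) :
    emb n μ z i j k = if h : μ j i ≤ (k : ℕ) then z i j ⟨k - μ j i, by
      have := k.2
      unfold skew
      omega⟩ else 0 := rfl

theorem emb_inj : Function.Injective (emb n μ) := by
  intro z z' h
  funext i j k
  have hk := k.2
  unfold skew at hk
  have h1 := congrFun (congrFun (congrFun h i) j) ⟨k + μ j i, by omega⟩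
  rw [emb_apply, emb_apply, dif_pos (by simp), dif_pos (by simp)] at h1
  have h2 : (⟨(k : ℕ) + μ j i - μ j i, by unfold skew; omega⟩ : Fin (skew μ i j)) = k :=
    Fin.ext (by simp)
  simp only [h2] at h1
  exact h1

theorem emb_L (s : PS n) (z : GM n (skew μ)) :
    emb n μ ((gm n (skew μ)).L s z) = (gm n μ).L s (emb n μ z) := by
  funext i j k
  show _ = act s i * emb n μ z i j k
  rw [emb_apply, emb_apply]
  split_ifs
  · rfl
  · rw [Matrix.mul_zero]

theorem emb_R (s : PS n) (z : GM n (skew μ)) :
    emb n μ ((gm n (skew μ)).R s z) = (gm n μ).R s (emb n μ z) := by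
  funext i j k
  show _ = emb n μ z i j k * act s j
  rw [emb_apply, emb_apply]
  split_ifs
  · rfl
  · rw [Matrix.zero_mul]

theorem emb_range : LinearMap.range (emb n μ) = W2 n μ := by
  ext x
  constructor
  · rintro ⟨z, rfl⟩ i j k h
    rw [emb_apply, dif_neg (by omega)]
  · intro hx
    refine ⟨fun i j k => x i j ⟨k + μ j i, by
      have := k.2
      unfold skew at this
      omega⟩, ?_⟩
    funext i j k
    rw [emb_apply]
    split_ifs with h
    · congr 1
      exact Fin.ext (by simp only; omega)
    · exact (hx i j k (by omega)).symm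

end

end GBLD

theorem t_GBLD : S_GBLDimp := by
  intro hTRF m n μ hμ hF
  have h1 : (gm n μ).Frob (GBLD.W2 n μ) := by
    rw [← GBLD.emb_range n μ]
    exact (hTRF _ _ _ (gm n (skew μ)) (gm n μ) (GBLD.emb n μ) (GBLD.emb_inj n μ)
      (GBLD.emb_L n μ) (GBLD.emb_R n μ)).2 hF
  exact t_BD2 _ _ (gm n μ) (GBLD.W1 n μ) (GBLD.W2 n μ) (GBLD.sub1 n μ) (GBLD.sub2 n μ)
    (GBLD.compl n μ) (GBLD.sympl n μ hμ) h1

end Pool.Agent.N917.AF
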