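import Pool.Agent.N917.AF.Stm6

/-!
Project AF (helper917), sixth part, leaf GCYC: no loops and no oriented 2-cycles in the Frobenius part (helper487).
-/

set_option autoImplicit false

namespace Pool.Agent.N917.AF

open Matrix

namespace GCYC

/-- every functional on matrices is a trace functional -/
theorem tr_fun {a c : ℕ} (φ : Matrix (Fin a) (Fin c) ℂ →ₗ[ℂ] ℂ) :
    ∃ A : Matrix (Fin c) (Fin a) ℂ, ∀ X, φ X = trace (A * X) := by
  refine ⟨Matrix.of fun j i => φ (Matrix.single i j 1), fun X => ?_⟩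
  conv_lhs => rw [Matrix.matrix_eq_sum_single X]
  rw [map_sum]
  simp only [Matrix.trace, Matrix.diag_apply, Matrix.mul_apply, Matrix.of_apply]
  rw [Finset.sum_comm]
  refine Finset.sum_congr rfl fun i _ => ?_
  rw [map_sum]
  refine Finset.sum_congr rfl fun j _ => ?_
  have e : Matrix.single i j (X i j) = X i j • (Matrix.single i j (1 : ℂ)) := by
    rw [Matrix.smul_single, smul_eq_mul, mul_one]
  rw [e, map_smul, smul_eq_mul, mul_comm]

variable {m : ℕ} {n : Fin m → ℕ} {μ : Option (Fin m) → Option (Fin m) → ℕ}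

/-- the component `(a, b, k)` of the model -/
noncomputable def sg (a b : Option (Fin m)) (k : Fin (μ a b)) :
    Matrix (Fin (NN n a)) (Fin (NN n b)) ℂ →ₗ[ℂ] GM n μ :=
  LinearMap.single ℂ
      (fun i => (j : Option (Fin m)) → Fin (μ i j) → Matrix (Fin (NN n i)) (Fin (NN n j)) ℂ) a ∘ₗ
    LinearMap.single ℂ
      (fun j => Fin (μ a j) → Matrix (Fin (NN n a)) (Fin (NN n j)) ℂ) b ∘ₗ
    LinearMap.single ℂ (fun _ : Fin (μ a b) => Matrix (Fin (NN n a)) (Fin (NN n b)) ℂ) k

theorem sg_apply (a b : Option (Fin m)) (k : Fin (μ a b))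
    (X : Matrix (Fin (NN n a)) (Fin (NN n b)) ℂ) :
    sg a b k X = Pi.single a (Pi.single b (Pi.single k X)) := rfl

theorem sg_same (a b : Option (Fin m)) (k : Fin (μ a b))
    (X : Matrix (Fin (NN n a)) (Fin (NN n b)) ℂ) : sg a b k X a b k = X := by
  rw [sg_apply, Pi.single_eq_same, Pi.single_eq_same, Pi.single_eq_same]

theorem sg_ne (a b : Option (Fin m)) (k : Fin (μ a b))
    (X : Matrix (Fin (NN n a)) (Fin (NN n b)) ℂ) (c d : Option (Fin m)) (k' : Fin (μ c d))
    (h : c ≠ a) : sg a b k X c d k' = 0 := by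
  rw [sg_apply, Pi.single_eq_of_ne h]
  rfl

theorem L_sg (s : PS n) (a b : Option (Fin m)) (k : Fin (μ a b))
    (X : Matrix (Fin (NN n a)) (Fin (NN n b)) ℂ) :
    (gm n μ).L s (sg a b k X) = sg a b k (act s a * X) := by
  funext i j k'
  show act s i * sg a b k X i j k' = sg a b k (act s a * X) i j k'
  by_cases hi : i = a
  · subst hi
    by_cases hj : j = b
    · subst hj
      by_cases hk : k' = k
      · subst hk
        rw [sg_same, sg_same]
      · simp only [sg_apply, Pi.single_eq_same, Pi.single_eq_of_ne hk, Matrix.mul_zero]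
    · simp only [sg_apply, Pi.single_eq_same, Pi.single_eq_of_ne hj, Pi.zero_apply, Matrix.mul_zero]
  · rw [sg_ne _ _ _ _ _ _ _ hi, sg_ne _ _ _ _ _ _ _ hi, Matrix.mul_zero]

theorem R_sg (s : PS n) (a b : Option (Fin m)) (k : Fin (μ a b))
    (X : Matrix (Fin (NN n a)) (Fin (NN n b)) ℂ) :
    (gm n μ).R s (sg a b k X) = sg a b k (X * act s b) := by
  funext i j k'
  show sg a b k X i j k' * act s j = sg a b k (X * act s b) i j k'
  by_cases hi : i = a
  · subst hi
    by_cases hj : j = b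
    · subst hj
      by_cases hk : k' = k
      · subst hk
        rw [sg_same, sg_same]
      · simp only [sg_apply, Pi.single_eq_same, Pi.single_eq_of_ne hk, Matrix.zero_mul]
    · simp only [sg_apply, Pi.single_eq_same, Pi.single_eq_of_ne hj, Pi.zero_apply, Matrix.zero_mul]
  · rw [sg_ne _ _ _ _ _ _ _ hi, sg_ne _ _ _ _ _ _ _ hi, Matrix.zero_mul]

theorem ker (l : PS n × GM n μ →ₗ[ℂ] ℂ)
    (hl : ∀ x : PS n × GM n μ, x.2 ∈ (⊤ : Submodule ℂ (GM n μ)) →
      (∀ y : PS n × GM n μ, y.2 ∈ (⊤ : Submodule ℂ (GM n μ)) →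
        l ((gm n μ).mul x y - (gm n μ).mul y x) = 0) → x = 0) (w : GM n μ)
    (h : ∀ s : PS n, l (0, (gm n μ).R s w - (gm n μ).L s w) = 0) : w = 0 := by
  have h1 := hl (0, w) trivial (fun y _ => by
    have e : (gm n μ).mul (0, w) y - (gm n μ).mul y (0, w) =
        (0, (gm n μ).R y.1 w - (gm n μ).L y.1 w) := by
      refine Prod.ext ?_ ?_
      · show (0 : PS n) * y.1 - y.1 * 0 = 0
        rw [zero_mul, mul_zero, sub_zero]
      · show (gm n μ).L 0 y.2 + (gm n μ).R y.1 w - ((gm n μ).L y.1 w + (gm n μ).R 0 y.2) =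
          (gm n μ).R y.1 w - (gm n μ).L y.1 w
        rw [map_zero, map_zero, LinearMap.zero_apply, zero_add, add_zero]
    rw [e]
    exact h y.1)
  exact (Prod.ext_iff.1 h1).2

theorem NN_pos [∀ i, NeZero (n i)] (a : Option (Fin m)) : 0 < NN n a := by
  cases a with
  | none => exact Nat.one_pos
  | some i => exact Nat.pos_of_ne_zero (NeZero.ne (n i))

end GCYC

open GCYC

theorem t_GCYC : S_GCYC := by
  intro m n _ μ hF i j
  obtain ⟨l, hl⟩ := hF
  have hfun : ∀ (a b : Option (Fin m)) (k : Fin (μ a b)),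
      ∃ A : Matrix (Fin (NN n b)) (Fin (NN n a)) ℂ,
        ∀ X, l (0, sg a b k X) = trace (A * X) := fun a b k =>
    tr_fun (l ∘ₗ LinearMap.inr ℂ (PS n) (GM n μ) ∘ₗ sg a b k)
  have hne : ∀ (a b : Option (Fin m)) (k : Fin (μ a b)) (A : Matrix (Fin (NN n b)) (Fin (NN n a)) ℂ),
      (∀ X, l (0, sg a b k X) = trace (A * X)) → A ≠ 0 := by
    intro a b k A hA h0
    have h1 := ker l hl (sg a b k (Matrix.of fun _ _ => 1)) (fun s => by
      rw [R_sg, L_sg, ← map_sub, hA, h0, Matrix.zero_mul, Matrix.trace_zero])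
    have h2 := sg_same (n := n) a b k (Matrix.of fun _ _ => (1 : ℂ))
    rw [h1] at h2
    have h3 := congrFun (congrFun h2 ⟨0, NN_pos a⟩) ⟨0, NN_pos b⟩
    exact zero_ne_one h3
  by_contra hcon
  push Not at hcon
  obtain ⟨h1, h2⟩ := hcon
  let k0 : Fin (μ i j) := ⟨0, Nat.pos_of_ne_zero h1⟩
  let k1 : Fin (μ j i) := ⟨0, Nat.pos_of_ne_zero h2⟩
  by_cases hij : i = j
  · subst hij
    obtain ⟨A, hA⟩ := hfun i i k0
    have h3 := ker l hl (sg i i k0 A) (fun s => by
      rw [R_sg, L_sg, ← map_sub, hA, Matrix.mul_sub, Matrix.trace_sub, ← Matrix.mul_assoc,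
        ← Matrix.mul_assoc, Matrix.trace_mul_comm (A * act s i) A, ← Matrix.mul_assoc, sub_self])
    have h4 := sg_same i i k0 A
    rw [h3] at h4
    exact hne i i k0 A hA h4.symm
  · obtain ⟨A, hA⟩ := hfun i j k0
    obtain ⟨A', hA'⟩ := hfun j i k1
    have h3 := ker l hl (sg i j k0 A' + sg j i k1 A) (fun s => by
      have e : (gm n μ).R s (sg i j k0 A' + sg j i k1 A) -
          (gm n μ).L s (sg i j k0 A' + sg j i k1 A) =
          sg i j k0 (A' * act s j - act s i * A') + sg j i k1 (A * act s i - act s j * A) := by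
        rw [map_add, map_add, R_sg, R_sg, L_sg, L_sg, map_sub, map_sub]
        abel
      have e2 : ((0 : PS n), sg i j k0 (A' * act s j - act s i * A') +
          sg j i k1 (A * act s i - act s j * A)) =
          ((0 : PS n), sg i j k0 (A' * act s j - act s i * A')) +
            ((0 : PS n), sg j i k1 (A * act s i - act s j * A)) := by
        rw [Prod.mk_add_mk, add_zero]
      rw [e, e2, map_add, hA, hA', Matrix.mul_sub, Matrix.mul_sub, Matrix.trace_sub,
        Matrix.trace_sub, Matrix.trace_mul_comm A (act s i * A'),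
        Matrix.trace_mul_comm A' (act s j * A), Matrix.mul_assoc, Matrix.mul_assoc,
        Matrix.trace_mul_comm (act s i) (A' * A), Matrix.trace_mul_comm (act s j) (A * A'),
        Matrix.mul_assoc, Matrix.mul_assoc]
      ring)
    have h4 := congrFun (congrFun (congrFun h3 j) i) k1
    have h5 : sg i j k0 A' j i k1 + sg j i k1 A j i k1 = 0 := h4
    rw [sg_ne i j k0 A' j i k1 (Ne.symm hij), sg_same, zero_add] at h5
    exact hne i j k0 A hA h5

end Pool.Agent.N917.AF
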