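import Pool.Agent.N917.AF.Stm6

/-! Project AF (helper917): transport to an arbitrary semisimple algebra. -/

set_option autoImplicit false

namespace Pool.Agent.N917.AF

open Matrix

/-- a bimodule over `S` as a bimodule over the isomorphic algebra `S'` -/
noncomputable def Bim.tr {S S' M : Type} [Ring S] [Algebra ℂ S] [Ring S'] [Algebra ℂ S']
    [AddCommGroup M] [Module ℂ M] (b : Bim S M) (φ : S ≃ₐ[ℂ] S') : Bim S' M where
  L := b.L ∘ₗ φ.symm.toLinearMap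
  R := b.R ∘ₗ φ.symm.toLinearMap
  mulL := by intro s s' x; simp [b.mulL]
  mulR := by intro s s' x; simp [b.mulR]
  comm := by intro s s' x; simp [b.comm]

theorem t_GENS (hISO : S_ISO) (hGEN : S_GEN) (S : Type) [Ring S] [Algebra ℂ S]
    [Module.Finite ℂ S] [IsSemisimpleRing S] (M : Type) [AddCommGroup M] [Module ℂ M]
    [Module.Finite ℂ M] (b : Bim S M) :
    ∃ (m : ℕ) (n : Fin m → ℕ) (_ : ∀ i, NeZero (n i)) (φ : S ≃ₐ[ℂ] PS n),
      (AF (S × M) b.mul ↔ (∀ i, Even (mu (b.tr φ) i i)) ∧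
        (gm n (skew (mu (b.tr φ)))).Frob ⊤) := by
  obtain ⟨m, n, hn, ⟨φ⟩⟩ := IsSemisimpleRing.exists_algEquiv_pi_matrix_of_isAlgClosed ℂ S
  refine ⟨m, n, hn, φ, ?_⟩
  rw [← hGEN m n M (b.tr φ)]
  apply hISO _ _ _ _ (φ.toLinearEquiv.prodCongr (LinearEquiv.refl ℂ M))
  rintro ⟨s, x⟩ ⟨s', y⟩
  refine Prod.ext ?_ ?_
  · simp [Bim.mul]
  · simp [Bim.mul, Bim.tr]

end Pool.Agent.N917.AF
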