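import Pool.Agent.N917.AF.Stm3

/-!
# Project AF (helper917), leaf MOR: structure of the bimodules (helper881)
-/

set_option autoImplicit false
set_option linter.unusedSectionVars false

namespace Pool.Agent.N917.AF

namespace MOR

open Matrix

section alg

variable {m : ℕ} {n : Fin m → ℕ}

/-- the matrix units -/
def El (i : Fin m) (c d : Fin (n i)) : PS n := Pi.single i (Matrix.single c d (1 : ℂ))

theorem El_mul_same (i : Fin m) (a c d f : Fin (n i)) :
    (El i a c : PS n) * El i d f = if c = d then El i a f else 0 := by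
  unfold El
  rw [← Pi.single_mul]
  split_ifs with h
  · subst h
    rw [Matrix.single_mul_single_same, one_mul]
  · rw [Matrix.single_mul_single_of_ne (h := h)]
    exact Pi.single_zero i

theorem El_mul_ne {i j : Fin m} (h : i ≠ j) (a c : Fin (n i)) (d f : Fin (n j)) :
    (El i a c : PS n) * El j d f = 0 := by
  unfold El
  funext k
  rw [Pi.mul_apply, Pi.zero_apply]
  by_cases hk : k = i
  · subst hk
    rw [Pi.single_eq_of_ne (i := j) (i' := k) h, mul_zero]
  · rw [Pi.single_eq_of_ne (i := i) (i' := k) hk, zero_mul]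

theorem mul_El (s : PS n) (i : Fin m) (d f : Fin (n i)) :
    s * El i d f = ∑ d', s i d' d • (El i d' f : PS n) := by
  funext k
  rw [Pi.mul_apply, Finset.sum_apply]
  by_cases hk : k = i
  · subst hk
    simp only [Pi.smul_apply, El, Pi.single_eq_same]
    ext a g
    rw [Matrix.sum_apply]
    simp only [Matrix.smul_apply, Matrix.single_apply, Matrix.mul_apply, smul_eq_mul]
    simp only [mul_ite, mul_one, mul_zero]
    rw [Finset.sum_eq_single d, Finset.sum_eq_single a]
    · simp
    · intro x _ hx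
      simp [hx]
    · intro h; exact absurd (Finset.mem_univ _) h
    · intro x _ hx
      simp [Ne.symm hx]
    · intro h; exact absurd (Finset.mem_univ _) h
  · simp only [Pi.smul_apply, El, Pi.single_eq_of_ne (i := i) (i' := k) hk, mul_zero, smul_zero,
      Finset.sum_const_zero]

theorem El_mul (s : PS n) (i : Fin m) (a c : Fin (n i)) :
    El i a c * s = ∑ c', s i c c' • (El i a c' : PS n) := by
  funext k
  rw [Pi.mul_apply, Finset.sum_apply]
  by_cases hk : k = i
  · subst hk
    simp only [Pi.smul_apply, El, Pi.single_eq_same]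
    ext f g
    rw [Matrix.sum_apply]
    simp only [Matrix.smul_apply, Matrix.single_apply, Matrix.mul_apply, smul_eq_mul]
    rw [Finset.sum_eq_single c, Finset.sum_eq_single g]
    · simp
    · intro x _ hx
      simp [hx]
    · intro h; exact absurd (Finset.mem_univ _) h
    · intro x _ hx
      simp [Ne.symm hx]
    · intro h; exact absurd (Finset.mem_univ _) h
  · simp only [Pi.smul_apply, El, Pi.single_eq_of_ne (i := i) (i' := k) hk, zero_mul, smul_zero,
      Finset.sum_const_zero]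

theorem single_one (i : Fin m) : (Pi.single i 1 : PS n) = ∑ c, El i c c := by
  funext k
  rw [Finset.sum_apply]
  by_cases hk : k = i
  · subst hk
    simp only [El, Pi.single_eq_same]
    ext a g
    rw [Matrix.sum_apply]
    simp only [Matrix.single_apply, Matrix.one_apply]
    rw [Finset.sum_eq_single a]
    · simp
    · intro x _ hx
      simp [hx]
    · intro h; exact absurd (Finset.mem_univ _) h
  · simp only [El, Pi.single_eq_of_ne (i := i) (i' := k) hk, Finset.sum_const_zero]

theorem one_eq : (1 : PS n) = ∑ i, (Pi.single i 1 : PS n) := by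
  exact (Finset.univ_sum_single (1 : PS n)).symm

end alg

section bim

variable {m : ℕ} {n : Fin m → ℕ} {M : Type} [AddCommGroup M] [Module ℂ M] (b : Bim (PS n) M)

theorem LL (s s' : PS n) (x : M) : b.L s (b.L s' x) = b.L (s * s') x := (b.mulL s s' x).symm

theorem RR (s s' : PS n) (x : M) : b.R s' (b.R s x) = b.R (s * s') x := (b.mulR s s' x).symm

/-- a sum over matrix units, left action -/
theorem sumL (i : Fin m) (a c : Fin (n i)) (d : (j : Fin m) → Fin (n j))
    (z : (j : Fin m) → Fin (n j) → M) :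
    ∑ j, ∑ c', b.L (El i a c * El j c' (d j)) (z j c') = b.L (El i a (d i)) (z i c) := by
  rw [Finset.sum_eq_single i, Finset.sum_eq_single c]
  · rw [El_mul_same, if_pos rfl]
  · intro x _ hx
    rw [El_mul_same, if_neg (Ne.symm hx), map_zero, LinearMap.zero_apply]
  · intro h; exact absurd (Finset.mem_univ _) h
  · intro j _ hj
    refine Finset.sum_eq_zero fun x _ => ?_
    rw [El_mul_ne (Ne.symm hj), map_zero, LinearMap.zero_apply]
  · intro h; exact absurd (Finset.mem_univ _) h

/-- a sum over matrix units, right action -/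
theorem sumR (i : Fin m) (a c : Fin (n i)) (d : (j : Fin m) → Fin (n j))
    (z : (j : Fin m) → Fin (n j) → M) :
    ∑ j, ∑ c', b.R (El j (d j) c' * El i c a) (z j c') = b.R (El i (d i) a) (z i c) := by
  rw [Finset.sum_eq_single i, Finset.sum_eq_single c]
  · rw [El_mul_same, if_pos rfl]
  · intro x _ hx
    rw [El_mul_same, if_neg hx, map_zero, LinearMap.zero_apply]
  · intro h; exact absurd (Finset.mem_univ _) h
  · intro j _ hj
    refine Finset.sum_eq_zero fun x _ => ?_
    rw [El_mul_ne hj, map_zero, LinearMap.zero_apply]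
  · intro h; exact absurd (Finset.mem_univ _) h

variable [∀ i, NeZero (n i)]

/-- the space `P i` -/
abbrev PP (i : Fin m) : Submodule ℂ M := LinearMap.range (b.L (ee n i) ∘ₗ b.R (ee n i))
/-- the space `Q i` -/
abbrev QQ (i : Fin m) : Submodule ℂ M :=
  LinearMap.range (b.L (ee n i) ∘ₗ (LinearMap.id - b.R 1))
/-- the space `U i` -/
abbrev UU (i : Fin m) : Submodule ℂ M :=
  LinearMap.range (b.R (ee n i) ∘ₗ (LinearMap.id - b.L 1))
/-- the space `Z` -/
abbrev ZZ : Submodule ℂ M :=
  LinearMap.range ((LinearMap.id - b.L 1) ∘ₗ (LinearMap.id - b.R 1))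

theorem ee_eq (i : Fin m) : ee n i = El i 0 0 := rfl

theorem PP_L {i : Fin m} {x : M} (hx : x ∈ PP b i) : b.L (El i 0 0) x = x := by
  obtain ⟨y, rfl⟩ := hx
  rw [LinearMap.comp_apply, ee_eq, LL, El_mul_same, if_pos rfl]

theorem PP_R {i : Fin m} {x : M} (hx : x ∈ PP b i) : b.R (El i 0 0) x = x := by
  obtain ⟨y, rfl⟩ := hx
  rw [LinearMap.comp_apply, ee_eq, ← b.comm, RR, El_mul_same, if_pos rfl]

theorem QQ_L {i : Fin m} {x : M} (hx : x ∈ QQ b i) : b.L (El i 0 0) x = x := by
  obtain ⟨y, rfl⟩ := hx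
  rw [LinearMap.comp_apply, ee_eq, LL, El_mul_same, if_pos rfl]

theorem QQ_R {i : Fin m} {x : M} (hx : x ∈ QQ b i) (s : PS n) : b.R s x = 0 := by
  obtain ⟨y, rfl⟩ := hx
  rw [LinearMap.comp_apply, ← b.comm, LinearMap.sub_apply, LinearMap.id_apply, map_sub, RR,
    one_mul, sub_self, map_zero]

theorem UU_R {i : Fin m} {x : M} (hx : x ∈ UU b i) : b.R (El i 0 0) x = x := by
  obtain ⟨y, rfl⟩ := hx
  rw [LinearMap.comp_apply, ee_eq, RR, El_mul_same, if_pos rfl]

theorem UU_L {i : Fin m} {x : M} (hx : x ∈ UU b i) (s : PS n) : b.L s x = 0 := by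
  obtain ⟨y, rfl⟩ := hx
  rw [LinearMap.comp_apply, b.comm, LinearMap.sub_apply, LinearMap.id_apply, map_sub, LL,
    mul_one, sub_self, map_zero]

theorem ZZ_L {x : M} (hx : x ∈ ZZ b) (s : PS n) : b.L s x = 0 := by
  obtain ⟨y, rfl⟩ := hx
  rw [LinearMap.comp_apply, LinearMap.sub_apply, LinearMap.id_apply, map_sub, LL,
    mul_one, sub_self]

theorem ZZ_R {x : M} (hx : x ∈ ZZ b) (s : PS n) : b.R s x = 0 := by
  obtain ⟨y, rfl⟩ := hx
  rw [LinearMap.comp_apply, LinearMap.sub_apply, LinearMap.id_apply, map_sub, ← b.comm,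
    LinearMap.sub_apply, LinearMap.id_apply, map_sub, RR, one_mul, sub_self, map_zero, sub_zero]

/-- the first component -/
noncomputable def A1 (i : Fin m) (c d : Fin (n i)) : M →ₗ[ℂ] PP b i :=
  (b.L (ee n i) ∘ₗ b.R (ee n i)).rangeRestrict ∘ₗ b.L (El i 0 c) ∘ₗ b.R (El i d 0)

/-- the second component -/
noncomputable def A2 (i : Fin m) (c : Fin (n i)) : M →ₗ[ℂ] QQ b i :=
  (b.L (ee n i) ∘ₗ (LinearMap.id - b.R 1)).rangeRestrict ∘ₗ b.L (El i 0 c)

/-- the third component -/
noncomputable def A3 (i : Fin m) (d : Fin (n i)) : M →ₗ[ℂ] UU b i :=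
  (b.R (ee n i) ∘ₗ (LinearMap.id - b.L 1)).rangeRestrict ∘ₗ b.R (El i d 0)

/-- the fourth component -/
noncomputable def A4 : M →ₗ[ℂ] ZZ b :=
  ((LinearMap.id - b.L 1) ∘ₗ (LinearMap.id - b.R 1)).rangeRestrict

theorem A1_val (i : Fin m) (c d : Fin (n i)) (x : M) :
    (A1 b i c d x : M) = b.L (El i 0 c) (b.R (El i d 0) x) := by
  show b.L (ee n i) (b.R (ee n i) (b.L (El i 0 c) (b.R (El i d 0) x))) = _
  rw [ee_eq, ← b.comm, RR, LL, El_mul_same, El_mul_same, if_pos rfl, if_pos rfl]

theorem A2_val (i : Fin m) (c : Fin (n i)) (x : M) :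
    (A2 b i c x : M) = b.L (El i 0 c) (x - b.R 1 x) := by
  show b.L (ee n i) (b.L (El i 0 c) x - b.R 1 (b.L (El i 0 c) x)) = _
  rw [ee_eq, ← b.comm, ← map_sub, LL, El_mul_same, if_pos rfl]

theorem A3_val (i : Fin m) (d : Fin (n i)) (x : M) :
    (A3 b i d x : M) = b.R (El i d 0) (x - b.L 1 x) := by
  show b.R (ee n i) (b.R (El i d 0) x - b.L 1 (b.R (El i d 0) x)) = _
  rw [ee_eq, b.comm, ← map_sub, RR, El_mul_same, if_pos rfl]

theorem A4_val (x : M) : (A4 b x : M) = (x - b.R 1 x) - b.L 1 (x - b.R 1 x) := rfl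

/-- the element with given components -/
noncomputable def G (a : (i : Fin m) → Fin (n i) → Fin (n i) → PP b i)
    (v : (i : Fin m) → Fin (n i) → QQ b i) (u : (i : Fin m) → Fin (n i) → UU b i)
    (w : ZZ b) : M :=
  ∑ j, ∑ c', b.L (El j c' 0) (∑ d', b.R (El j 0 d') (a j c' d' : M))
  + ∑ j, ∑ c', b.L (El j c' 0) (v j c' : M) + ∑ j, ∑ d', b.R (El j 0 d') (u j d' : M) + w

section G

variable (a : (i : Fin m) → Fin (n i) → Fin (n i) → PP b i)
    (v : (i : Fin m) → Fin (n i) → QQ b i) (u : (i : Fin m) → Fin (n i) → UU b i)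
    (w : ZZ b)

/-- first summand -/
noncomputable def g1 : M :=
  ∑ j, ∑ c', b.L (El j c' 0) (∑ d', b.R (El j 0 d') (a j c' d' : M))

/-- second summand -/
noncomputable def g2 : M := ∑ j, ∑ c', b.L (El j c' 0) (v j c' : M)

/-- third summand -/
noncomputable def g3 : M := ∑ j, ∑ d', b.R (El j 0 d') (u j d' : M)

theorem G_eq : G b a v u w = g1 b a + g2 b v + g3 b u + w := rfl

theorem g1_L (s : PS n) : b.L s (g1 b a) =
    ∑ j, ∑ c', b.L (s * El j c' 0) (∑ d', b.R (El j 0 d') (a j c' d' : M)) := by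
  unfold g1
  simp only [map_sum]
  refine Finset.sum_congr rfl fun j _ => Finset.sum_congr rfl fun c' _ => ?_
  refine Finset.sum_congr rfl fun d' _ => ?_
  rw [LL]

theorem g1_R (s : PS n) : b.R s (g1 b a) =
    ∑ j, ∑ c', b.L (El j c' 0) (∑ d', b.R (El j 0 d' * s) (a j c' d' : M)) := by
  unfold g1
  simp only [map_sum]
  refine Finset.sum_congr rfl fun j _ => Finset.sum_congr rfl fun c' _ => ?_
  refine Finset.sum_congr rfl fun d' _ => ?_
  rw [← b.comm, RR]

theorem g1_L_one : b.L 1 (g1 b a) = g1 b a := by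
  rw [g1_L]
  simp only [one_mul]
  rfl

theorem g1_R_one : b.R 1 (g1 b a) = g1 b a := by
  rw [g1_R]
  simp only [mul_one]
  rfl

theorem g2_R (s : PS n) : b.R s (g2 b v) = 0 := by
  unfold g2
  simp only [map_sum]
  refine Finset.sum_eq_zero fun j _ => Finset.sum_eq_zero fun c' _ => ?_
  rw [← b.comm, QQ_R b (v j c').2, map_zero]

theorem g2_L (s : PS n) : b.L s (g2 b v) = ∑ j, ∑ c', b.L (s * El j c' 0) (v j c' : M) := by
  unfold g2
  simp only [map_sum]
  refine Finset.sum_congr rfl fun j _ => Finset.sum_congr rfl fun c' _ => ?_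
  rw [LL]

theorem g2_L_one : b.L 1 (g2 b v) = g2 b v := by
  rw [g2_L]
  simp only [one_mul]
  rfl

theorem g3_L (s : PS n) : b.L s (g3 b u) = 0 := by
  unfold g3
  simp only [map_sum]
  refine Finset.sum_eq_zero fun j _ => Finset.sum_eq_zero fun c' _ => ?_
  rw [b.comm, UU_L b (u j c').2, map_zero]

theorem g3_R (s : PS n) : b.R s (g3 b u) = ∑ j, ∑ c', b.R (El j 0 c' * s) (u j c' : M) := by
  unfold g3
  simp only [map_sum]
  refine Finset.sum_congr rfl fun j _ => Finset.sum_congr rfl fun c' _ => ?_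
  rw [RR]

theorem g3_R_one : b.R 1 (g3 b u) = g3 b u := by
  rw [g3_R]
  simp only [mul_one]
  rfl

theorem g1_LR (i : Fin m) (c d : Fin (n i)) :
    b.L (El i 0 c) (b.R (El i d 0) (g1 b a)) = a i c d := by
  rw [g1_R]
  simp only [map_sum]
  have h1 : ∀ (j : Fin m) (c' d' : Fin (n j)),
      b.L (El i 0 c) (b.L (El j c' 0) (b.R (El j 0 d' * El i d 0) (a j c' d' : M))) =
      b.L (El i 0 c * El j c' 0) (b.R (El j 0 d' * El i d 0) (a j c' d' : M)) :=
    fun j c' d' => LL b _ _ _
  simp only [h1]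
  have h2 : ∀ (j : Fin m) (c' : Fin (n j)),
      ∑ d', b.L (El i 0 c * El j c' 0) (b.R (El j 0 d' * El i d 0) (a j c' d' : M)) =
      b.L (El i 0 c * El j c' 0) (∑ d', b.R (El j 0 d' * El i d 0) (a j c' d' : M)) :=
    fun j c' => (map_sum _ _ _).symm
  simp only [h2]
  rw [sumL b i 0 c (fun _ => 0) (fun j c' => ∑ d', b.R (El j 0 d' * El i d 0) (a j c' d' : M))]
  rw [Finset.sum_eq_single d]
  · rw [El_mul_same, if_pos rfl, PP_R b (a i c d).2, PP_L b (a i c d).2]
  · intro x _ hx
    rw [El_mul_same, if_neg hx, map_zero, LinearMap.zero_apply]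
  · intro h; exact absurd (Finset.mem_univ _) h

theorem g2_LL (i : Fin m) (c : Fin (n i)) : b.L (El i 0 c) (g2 b v) = v i c := by
  rw [g2_L, sumL b i 0 c (fun _ => 0) (fun j c' => (v j c' : M)), QQ_L b (v i c).2]

theorem g3_RR (i : Fin m) (d : Fin (n i)) : b.R (El i d 0) (g3 b u) = u i d := by
  rw [g3_R, sumR b i 0 d (fun _ => 0) (fun j c' => (u j c' : M)), UU_R b (u i d).2]

theorem A1_G (i : Fin m) (c d : Fin (n i)) : A1 b i c d (G b a v u w) = a i c d := by
  apply Subtype.ext
  rw [A1_val, G_eq]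
  simp only [map_add]
  rw [g2_R, ZZ_R b w.2, b.comm (El i 0 c) (El i d 0) (g3 b u), g3_L, g1_LR]
  simp

theorem A2_G (i : Fin m) (c : Fin (n i)) : A2 b i c (G b a v u w) = v i c := by
  apply Subtype.ext
  rw [A2_val, G_eq]
  have h : g1 b a + g2 b v + g3 b u + (w : M) - b.R 1 (g1 b a + g2 b v + g3 b u + (w : M)) =
      g2 b v + w := by
    simp only [map_add]
    rw [g1_R_one, g2_R, g3_R_one, ZZ_R b w.2]
    abel
  rw [h, map_add, g2_LL, ZZ_L b w.2, add_zero]

theorem A3_G (i : Fin m) (d : Fin (n i)) : A3 b i d (G b a v u w) = u i d := by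
  apply Subtype.ext
  rw [A3_val, G_eq]
  have h : g1 b a + g2 b v + g3 b u + (w : M) - b.L 1 (g1 b a + g2 b v + g3 b u + (w : M)) =
      g3 b u + w := by
    simp only [map_add]
    rw [g1_L_one, g2_L_one, g3_L, ZZ_L b w.2]
    abel
  rw [h, map_add, g3_RR, ZZ_R b w.2, add_zero]

theorem A4_G : A4 b (G b a v u w) = w := by
  apply Subtype.ext
  rw [A4_val, G_eq]
  have h : g1 b a + g2 b v + g3 b u + (w : M) - b.R 1 (g1 b a + g2 b v + g3 b u + (w : M)) =
      g2 b v + w := by
    simp only [map_add]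
    rw [g1_R_one, g2_R, g3_R_one, ZZ_R b w.2]
    abel
  rw [h, map_add, g2_L_one, ZZ_L b w.2]
  abel

end G

theorem sum_L_one (x : M) : ∑ j, ∑ c', b.L (El j c' 0) (b.L (El j 0 c') x) = b.L 1 x := by
  have h : ∀ j : Fin m, ∑ c', b.L (El j c' 0) (b.L (El j 0 c') x) = b.L (Pi.single j 1) x := by
    intro j
    rw [single_one, map_sum, LinearMap.sum_apply]
    refine Finset.sum_congr rfl fun c _ => ?_
    rw [LL, El_mul_same, if_pos rfl]
  simp only [h]
  rw [one_eq, map_sum, LinearMap.sum_apply]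

theorem sum_R_one (x : M) : ∑ j, ∑ c', b.R (El j 0 c') (b.R (El j c' 0) x) = b.R 1 x := by
  have h : ∀ j : Fin m, ∑ c', b.R (El j 0 c') (b.R (El j c' 0) x) = b.R (Pi.single j 1) x := by
    intro j
    rw [single_one, map_sum, LinearMap.sum_apply]
    refine Finset.sum_congr rfl fun c _ => ?_
    rw [RR, El_mul_same, if_pos rfl]
  simp only [h]
  rw [one_eq, map_sum, LinearMap.sum_apply]

theorem sum_LR_one (hb : Unmixed b) (x : M) :
    ∑ j, ∑ c', b.L (El j c' 0) (∑ d', b.R (El j 0 d') (b.L (El j 0 c') (b.R (El j d' 0) x))) =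
      b.L 1 (b.R 1 x) := by
  have h : ∀ (j : Fin m) (c' : Fin (n j)),
      ∑ d', b.R (El j 0 d') (b.L (El j 0 c') (b.R (El j d' 0) x)) =
        b.L (El j 0 c') (b.R (Pi.single j 1) x) := by
    intro j c'
    rw [single_one, map_sum, LinearMap.sum_apply, map_sum]
    refine Finset.sum_congr rfl fun d _ => ?_
    rw [← b.comm, RR, El_mul_same, if_pos rfl]
  simp only [h]
  have h2 : ∀ j : Fin m, ∑ c', b.L (El j c' 0) (b.L (El j 0 c') (b.R (Pi.single j 1) x)) =
      b.L (Pi.single j 1) (b.R (Pi.single j 1) x) := by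
    intro j
    generalize b.R (Pi.single j 1) x = y
    rw [single_one, map_sum, LinearMap.sum_apply]
    refine Finset.sum_congr rfl fun c _ => ?_
    rw [LL, El_mul_same, if_pos rfl]
  simp only [h2]
  rw [one_eq, map_sum, LinearMap.sum_apply]
  refine Finset.sum_congr rfl fun j _ => ?_
  rw [map_sum, LinearMap.sum_apply, map_sum, Finset.sum_eq_single j]
  · intro k _ hk
    exact hb j k (Ne.symm hk) x
  · intro h; exact absurd (Finset.mem_univ _) h

theorem G_A (hb : Unmixed b) (x : M) :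
    G b (fun i c d => A1 b i c d x) (fun i c => A2 b i c x) (fun i d => A3 b i d x) (A4 b x) = x := by
  unfold G
  simp only [A1_val, A2_val, A3_val, A4_val]
  rw [sum_LR_one b hb, sum_L_one, sum_R_one, map_sub, map_sub, b.comm 1 1 x]
  abel

section mult

variable (s : PS n) (x : M)

theorem A1_L (i : Fin m) (c d : Fin (n i)) :
    A1 b i c d (b.L s x) = ∑ c', s i c c' • A1 b i c' d x := by
  apply Subtype.ext
  rw [A1_val, ← b.comm, LL, El_mul, map_sum, LinearMap.sum_apply, Submodule.coe_sum]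
  refine Finset.sum_congr rfl fun c' _ => ?_
  rw [map_smul, LinearMap.smul_apply, Submodule.coe_smul, A1_val]

theorem A1_R (i : Fin m) (c d : Fin (n i)) :
    A1 b i c d (b.R s x) = ∑ d', s i d' d • A1 b i c d' x := by
  apply Subtype.ext
  rw [A1_val, RR, mul_El, map_sum, LinearMap.sum_apply, map_sum, Submodule.coe_sum]
  refine Finset.sum_congr rfl fun c' _ => ?_
  rw [map_smul, LinearMap.smul_apply, map_smul, Submodule.coe_smul, A1_val]

theorem A2_L (i : Fin m) (c : Fin (n i)) :
    A2 b i c (b.L s x) = ∑ c', s i c c' • A2 b i c' x := by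
  apply Subtype.ext
  rw [A2_val, ← b.comm, ← map_sub, LL, El_mul, map_sum, LinearMap.sum_apply, Submodule.coe_sum]
  refine Finset.sum_congr rfl fun c' _ => ?_
  rw [map_smul, LinearMap.smul_apply, Submodule.coe_smul, A2_val]

theorem A2_R (i : Fin m) (c : Fin (n i)) : A2 b i c (b.R s x) = 0 := by
  apply Subtype.ext
  rw [A2_val, RR, mul_one, sub_self, map_zero]
  rfl

theorem A3_R (i : Fin m) (d : Fin (n i)) :
    A3 b i d (b.R s x) = ∑ d', s i d' d • A3 b i d' x := by
  apply Subtype.ext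
  rw [A3_val, b.comm, ← map_sub, RR, mul_El, map_sum, LinearMap.sum_apply, Submodule.coe_sum]
  refine Finset.sum_congr rfl fun c' _ => ?_
  rw [map_smul, LinearMap.smul_apply, Submodule.coe_smul, A3_val]

theorem A3_L (i : Fin m) (d : Fin (n i)) : A3 b i d (b.L s x) = 0 := by
  apply Subtype.ext
  rw [A3_val, LL, one_mul, sub_self, map_zero]
  rfl

theorem A4_L : A4 b (b.L s x) = 0 := by
  apply Subtype.ext
  rw [A4_val, ← b.comm, map_sub, LL, LL, one_mul, sub_self]
  rfl

theorem A4_R : A4 b (b.R s x) = 0 := by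
  apply Subtype.ext
  rw [A4_val, RR, mul_one, sub_self, map_zero, sub_zero]
  rfl

end mult

section e

variable [Module.Finite ℂ M]

/-- coordinates on `P i` -/
noncomputable def cP (i : Fin m) : PP b i ≃ₗ[ℂ] (Fin (pp b i) → ℂ) :=
  (Module.finBasis ℂ (PP b i)).equivFun
/-- coordinates on `Q i` -/
noncomputable def cQ (i : Fin m) : QQ b i ≃ₗ[ℂ] (Fin (qq b i) → ℂ) :=
  (Module.finBasis ℂ (QQ b i)).equivFun
/-- coordinates on `U i` -/
noncomputable def cU (i : Fin m) : UU b i ≃ₗ[ℂ] (Fin (rr b i) → ℂ) :=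
  (Module.finBasis ℂ (UU b i)).equivFun
/-- coordinates on `Z` -/
noncomputable def cZ : ZZ b ≃ₗ[ℂ] (Fin (tt b) → ℂ) :=
  (Module.finBasis ℂ (ZZ b)).equivFun

/-- the isomorphism -/
noncomputable def eqv (hb : Unmixed b) :
    (PS n × M) ≃ₗ[ℂ] T n (pp b) (qq b) (rr b) (tt b) where
  toFun z := (fun i => (z.1 i, fun k => Matrix.of fun c d => cP b i (A1 b i c d z.2) k,
    fun k c => cQ b i (A2 b i c z.2) k, fun k d => cU b i (A3 b i d z.2) k), cZ b (A4 b z.2))
  map_add' z z' := by
    refine Prod.ext (funext fun i => Prod.ext ?_ (Prod.ext ?_ (Prod.ext ?_ ?_))) ?_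
    · rfl
    · funext k
      ext c d
      simp
    · funext k c
      simp
    · funext k c
      simp
    · simp
  map_smul' r z := by
    refine Prod.ext (funext fun i => Prod.ext ?_ (Prod.ext ?_ (Prod.ext ?_ ?_))) ?_
    · rfl
    · funext k
      ext c d
      simp
    · funext k c
      simp
    · funext k c
      simp
    · simp
  invFun t := (fun i => (t.1 i).1,
    G b (fun i c d => (cP b i).symm (fun k => (t.1 i).2.1 k c d))
      (fun i c => (cQ b i).symm (fun k => (t.1 i).2.2.1 k c))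
      (fun i d => (cU b i).symm (fun k => (t.1 i).2.2.2 k d)) ((cZ b).symm t.2))
  left_inv z := by
    refine Prod.ext rfl ?_
    have h := G_A b hb z.2
    have e1 : ∀ (i : Fin m) (c d : Fin (n i)),
        (cP b i).symm (fun k => cP b i (A1 b i c d z.2) k) = A1 b i c d z.2 :=
      fun i c d => (cP b i).symm_apply_apply _
    have e2 : ∀ (i : Fin m) (c : Fin (n i)),
        (cQ b i).symm (fun k => cQ b i (A2 b i c z.2) k) = A2 b i c z.2 :=
      fun i c => (cQ b i).symm_apply_apply _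
    have e3 : ∀ (i : Fin m) (c : Fin (n i)),
        (cU b i).symm (fun k => cU b i (A3 b i c z.2) k) = A3 b i c z.2 :=
      fun i c => (cU b i).symm_apply_apply _
    have e4 : (cZ b).symm (cZ b (A4 b z.2)) = A4 b z.2 := (cZ b).symm_apply_apply _
    simp only [Matrix.of_apply, e1, e2, e3, e4]
    exact h
  right_inv t := by
    refine Prod.ext (funext fun i => Prod.ext ?_ (Prod.ext ?_ (Prod.ext ?_ ?_))) ?_
    · rfl
    · funext k
      ext c d
      simp only [Matrix.of_apply, A1_G, LinearEquiv.apply_symm_apply]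
    · funext k c
      simp only [A2_G, LinearEquiv.apply_symm_apply]
    · funext k c
      simp only [A3_G, LinearEquiv.apply_symm_apply]
    · simp only [A4_G, LinearEquiv.apply_symm_apply]

theorem eqv_mul (hb : Unmixed b) (x y : PS n × M) :
    eqv b hb (b.mul x y) = mulT (eqv b hb x) (eqv b hb y) := by
  refine Prod.ext (funext fun i => Prod.ext ?_ (Prod.ext ?_ (Prod.ext ?_ ?_))) ?_
  · rfl
  · funext k
    ext c d
    show cP b i (A1 b i c d (b.L x.1 y.2 + b.R y.1 x.2)) k =
      (x.1 i * Matrix.of (fun c d => cP b i (A1 b i c d y.2) k) +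
        Matrix.of (fun c d => cP b i (A1 b i c d x.2) k) * y.1 i) c d
    rw [map_add, map_add, A1_L, A1_R, Matrix.add_apply, Matrix.mul_apply, Matrix.mul_apply,
      Pi.add_apply]
    simp only [map_sum, map_smul, Finset.sum_apply, Pi.smul_apply, smul_eq_mul, Matrix.of_apply]
    congr 1
    exact Finset.sum_congr rfl fun d' _ => mul_comm _ _
  · funext k c
    show cQ b i (A2 b i c (b.L x.1 y.2 + b.R y.1 x.2)) k =
      (x.1 i *ᵥ (fun c => cQ b i (A2 b i c y.2) k)) c
    rw [map_add, A2_L, A2_R, add_zero]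
    simp only [map_sum, map_smul, Finset.sum_apply, Pi.smul_apply, smul_eq_mul, Matrix.mulVec,
      dotProduct]
  · funext k d
    show cU b i (A3 b i d (b.L x.1 y.2 + b.R y.1 x.2)) k =
      ((fun d => cU b i (A3 b i d x.2) k) ᵥ* y.1 i) d
    rw [map_add, A3_L, A3_R, zero_add]
    simp only [map_sum, map_smul, Finset.sum_apply, Pi.smul_apply, smul_eq_mul, Matrix.vecMul,
      dotProduct]
    exact Finset.sum_congr rfl fun d' _ => mul_comm _ _
  · show cZ b (A4 b (b.L x.1 y.2 + b.R y.1 x.2)) = 0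
    rw [map_add, A4_L, A4_R, add_zero, map_zero]

end e

end bim

end MOR

/-- The theorem of the leaf. -/
theorem t_MOR : S_MOR := by
  intro m n _ M _ _ _ b hb
  exact ⟨MOR.eqv b hb, MOR.eqv_mul b hb⟩

end Pool.Agent.N917.AF
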