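import Pool.Agent.N917.AF.Stm6
import Pool.Agent.N917.AF.MOR

/-!
# Project AF (helper917), leaf GMOR: structure of bimodules (helper601)
-/

set_option autoImplicit false
set_option linter.unusedSectionVars false

namespace Pool.Agent.N917.AF

namespace GMOR

open Matrix MOR

variable {m : ℕ} {n : Fin m → ℕ} {M : Type} [AddCommGroup M] [Module ℂ M]

/-- a system of matrix units acting on `M` -/
structure Sys (n : Fin m → ℕ) (E : Option (Fin m) → M →ₗ[ℂ] M)
    (D U : (i : Option (Fin m)) → Fin (NN n i) → M →ₗ[ℂ] M) : Prop where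
  same : ∀ i c x, D i c (U i c x) = E i x
  diff : ∀ i c c' x, c ≠ c' → D i c (U i c' x) = 0
  ne : ∀ i i' c c' x, i ≠ i' → D i c (U i' c' x) = 0
  one : ∀ x, ∑ i, ∑ c, U i c (D i c x) = x
  proj : ∀ i c x, E i (D i c x) = D i c x
  idem : ∀ i x, E i (E i x) = E i x

theorem Sys.sum {E : Option (Fin m) → M →ₗ[ℂ] M}
    {D U : (i : Option (Fin m)) → Fin (NN n i) → M →ₗ[ℂ] M} (h : Sys n E D U)
    (i : Option (Fin m)) (c : Fin (NN n i)) (v : (i : Option (Fin m)) → Fin (NN n i) → M) :
    D i c (∑ i', ∑ c', U i' c' (v i' c')) = E i (v i c) := by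
  rw [map_sum, Finset.sum_eq_single i, map_sum, Finset.sum_eq_single c, h.same]
  · intro c' _ hc
    exact h.diff i c c' _ (Ne.symm hc)
  · intro hc; exact absurd (Finset.mem_univ _) hc
  · intro i' _ hi
    rw [map_sum]
    exact Finset.sum_eq_zero fun c' _ => h.ne i i' c c' _ (Ne.symm hi)
  · intro hi; exact absurd (Finset.mem_univ _) hi

variable [∀ i, NeZero (n i)] (b : Bim (PS n) M)

/-- left operators, down -/
noncomputable def Ld : (i : Option (Fin m)) → Fin (NN n i) → M →ₗ[ℂ] M
  | none, _ => LinearMap.id - b.L 1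
  | some i, c => b.L (El i 0 c)

/-- left operators, up -/
noncomputable def Lu : (i : Option (Fin m)) → Fin (NN n i) → M →ₗ[ℂ] M
  | none, _ => LinearMap.id - b.L 1
  | some i, c => b.L (El i c 0)

/-- right operators, down -/
noncomputable def Rd : (i : Option (Fin m)) → Fin (NN n i) → M →ₗ[ℂ] M
  | none, _ => LinearMap.id - b.R 1
  | some i, c => b.R (El i c 0)

/-- right operators, up -/
noncomputable def Ru : (i : Option (Fin m)) → Fin (NN n i) → M →ₗ[ℂ] M
  | none, _ => LinearMap.id - b.R 1
  | some i, c => b.R (El i 0 c)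

/-- the left projection -/
noncomputable def pL : M →ₗ[ℂ] M := LinearMap.id - b.L 1

/-- the right projection -/
noncomputable def pR : M →ₗ[ℂ] M := LinearMap.id - b.R 1

theorem sub_L (s : PS n) (x : M) : pL b (b.L s x) = 0 := by
  rw [pL, LinearMap.sub_apply, LinearMap.id_apply, LL, one_mul, sub_self]

theorem L_sub (s : PS n) (x : M) : b.L s (pL b x) = 0 := by
  rw [pL, LinearMap.sub_apply, LinearMap.id_apply, map_sub, LL, mul_one, sub_self]

theorem sub_R (s : PS n) (x : M) : pR b (b.R s x) = 0 := by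
  rw [pR, LinearMap.sub_apply, LinearMap.id_apply, RR, mul_one, sub_self]

theorem R_sub (s : PS n) (x : M) : b.R s (pR b x) = 0 := by
  rw [pR, LinearMap.sub_apply, LinearMap.id_apply, map_sub, RR, one_mul, sub_self]

theorem pL_eq (x : M) : pL b x = x - b.L 1 x := rfl

theorem pR_eq (x : M) : pR b x = x - b.R 1 x := rfl

theorem subL_idem (x : M) : pL b (pL b x) = pL b x := by
  rw [pL_eq b (pL b x), L_sub, sub_zero]

theorem subR_idem (x : M) : pR b (pR b x) = pR b x := by
  rw [pR_eq b (pR b x), R_sub, sub_zero]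

theorem L_same (i : Fin m) (c : Fin (n i)) (x : M) :
    b.L (El i 0 c) (b.L (El i c 0) x) = b.L (El i 0 0) x := by
  rw [LL, El_mul_same, if_pos rfl]

theorem L_diff (i : Fin m) (c c' : Fin (n i)) (x : M) (hc : c ≠ c') :
    b.L (El i 0 c) (b.L (El i c' 0) x) = 0 := by
  rw [LL, El_mul_same, if_neg hc, map_zero, LinearMap.zero_apply]

theorem L_ne (i i' : Fin m) (c : Fin (n i)) (c' : Fin (n i')) (x : M) (h : i ≠ i') :
    b.L (El i 0 c) (b.L (El i' c' 0) x) = 0 := by
  rw [LL, El_mul_ne h, map_zero, LinearMap.zero_apply]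

theorem L_proj (i : Fin m) (c : Fin (n i)) (x : M) :
    b.L (El i 0 0) (b.L (El i 0 c) x) = b.L (El i 0 c) x := by
  rw [LL, El_mul_same, if_pos rfl]

theorem R_same (i : Fin m) (c : Fin (n i)) (x : M) :
    b.R (El i c 0) (b.R (El i 0 c) x) = b.R (El i 0 0) x := by
  rw [RR, El_mul_same, if_pos rfl]

theorem R_diff (i : Fin m) (c c' : Fin (n i)) (x : M) (hc : c ≠ c') :
    b.R (El i c 0) (b.R (El i 0 c') x) = 0 := by
  rw [RR, El_mul_same, if_neg (Ne.symm hc), map_zero, LinearMap.zero_apply]

theorem R_ne (i i' : Fin m) (c : Fin (n i)) (c' : Fin (n i')) (x : M) (h : i ≠ i') :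
    b.R (El i c 0) (b.R (El i' 0 c') x) = 0 := by
  rw [RR, El_mul_ne (Ne.symm h), map_zero, LinearMap.zero_apply]

theorem R_proj (i : Fin m) (c : Fin (n i)) (x : M) :
    b.R (El i 0 0) (b.R (El i c 0) x) = b.R (El i c 0) x := by
  rw [RR, El_mul_same, if_pos rfl]

theorem sum1L (x : M) : ∑ _c : Fin 1, pL b (pL b x) = x - b.L 1 x := by
  rw [subL_idem, Fin.sum_univ_one, pL_eq]

theorem sum1R (x : M) : ∑ _c : Fin 1, pR b (pR b x) = x - b.R 1 x := by
  rw [subR_idem, Fin.sum_univ_one, pR_eq]

theorem fin1 (c c' : Fin 1) : c = c' := Subsingleton.elim c c'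

theorem sysL : Sys n (lE b) (Ld b) (Lu b) where
  same := by
    rintro (_ | i) c x
    · exact subL_idem b x
    · exact L_same b i c x
  diff := by
    rintro (_ | i) c c' x hc
    · exact absurd (fin1 c c') hc
    · exact L_diff b i c c' x hc
  ne := by
    rintro (_ | i) (_ | i') c c' x h
    · exact absurd rfl h
    · exact sub_L b _ x
    · exact L_sub b _ x
    · exact L_ne b i i' c c' x fun e => h (congrArg some e)
  one := by
    intro x
    rw [Fintype.sum_option]
    have h1 : ∑ c : Fin (NN n none), Lu b none c (Ld b none c x) = x - b.L 1 x := sum1L b x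
    have h2 : ∑ i : Fin m, ∑ c : Fin (NN n (some i)), Lu b (some i) c (Ld b (some i) c x) =
        b.L 1 x := sum_L_one b x
    rw [h1, h2]
    abel
  proj := by
    rintro (_ | i) c x
    · exact subL_idem b x
    · exact L_proj b i c x
  idem := by
    rintro (_ | i) x
    · exact subL_idem b x
    · exact L_same b i 0 x

theorem sysR : Sys n (rE b) (Rd b) (Ru b) where
  same := by
    rintro (_ | i) c x
    · exact subR_idem b x
    · exact R_same b i c x
  diff := by
    rintro (_ | i) c c' x hc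
    · exact absurd (fin1 c c') hc
    · exact R_diff b i c c' x hc
  ne := by
    rintro (_ | i) (_ | i') c c' x h
    · exact absurd rfl h
    · exact sub_R b _ x
    · exact R_sub b _ x
    · exact R_ne b i i' c c' x fun e => h (congrArg some e)
  one := by
    intro x
    rw [Fintype.sum_option]
    have h1 : ∑ c : Fin (NN n none), Ru b none c (Rd b none c x) = x - b.R 1 x := sum1R b x
    have h2 : ∑ i : Fin m, ∑ c : Fin (NN n (some i)), Ru b (some i) c (Rd b (some i) c x) =
        b.R 1 x := sum_R_one b x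
    rw [h1, h2]
    abel
  proj := by
    rintro (_ | i) c x
    · exact subR_idem b x
    · exact R_proj b i c x
  idem := by
    rintro (_ | i) x
    · exact subR_idem b x
    · exact R_same b i 0 x

/-! ### left and right operators commute -/

/-- commutes with the right action -/
def CR (F : M →ₗ[ℂ] M) : Prop := ∀ s x, F (b.R s x) = b.R s (F x)

theorem cr_L (s : PS n) : CR b (b.L s) := fun s' x => b.comm s s' x

theorem cr_sub : CR b (pL b) := fun s x => by
  rw [pL_eq, pL_eq, map_sub, b.comm]

theorem cr_Ld (i : Option (Fin m)) (c : Fin (NN n i)) : CR b (Ld b i c) := by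
  rcases i with _ | i
  · exact cr_sub b
  · exact cr_L b _

theorem cr_Lu (i : Option (Fin m)) (c : Fin (NN n i)) : CR b (Lu b i c) := by
  rcases i with _ | i
  · exact cr_sub b
  · exact cr_L b _

theorem cr_lE (i : Option (Fin m)) : CR b (lE b i) := by
  rcases i with _ | i
  · exact cr_sub b
  · exact cr_L b _

/-- commutes with all operators that commute with the right action -/
def CC (G : M →ₗ[ℂ] M) : Prop := ∀ F : M →ₗ[ℂ] M, CR b F → ∀ x, F (G x) = G (F x)

theorem cc_R (s : PS n) : CC b (b.R s) := fun _ h x => h s x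

theorem cc_sub : CC b (pR b) := fun F h x => by
  rw [pR_eq, pR_eq, map_sub, h]

theorem cc_Rd (i : Option (Fin m)) (c : Fin (NN n i)) : CC b (Rd b i c) := by
  rcases i with _ | i
  · exact cc_sub b
  · exact cc_R b _

theorem cc_Ru (i : Option (Fin m)) (c : Fin (NN n i)) : CC b (Ru b i c) := by
  rcases i with _ | i
  · exact cc_sub b
  · exact cc_R b _

theorem cc_rE (i : Option (Fin m)) : CC b (rE b i) := by
  rcases i with _ | i
  · exact cc_sub b
  · exact cc_R b _

/-! ### the action -/

theorem Ld_L0 (s : PS n) (x : M) (c : Fin 1) :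
    pL b (b.L s x) = ∑ c' : Fin 1, (0 : Matrix (Fin 1) (Fin 1) ℂ) c c' • pL b x := by
  rw [sub_L]
  simp

theorem Ld_L1 (i : Fin m) (c : Fin (n i)) (s : PS n) (x : M) :
    b.L (El i 0 c) (b.L s x) = ∑ c' : Fin (n i), s i c c' • b.L (El i 0 c') x := by
  rw [LL, El_mul, map_sum, LinearMap.sum_apply]
  refine Finset.sum_congr rfl fun c' _ => ?_
  rw [map_smul, LinearMap.smul_apply]

theorem Rd_R0 (s : PS n) (x : M) (c : Fin 1) :
    pR b (b.R s x) = ∑ c' : Fin 1, (0 : Matrix (Fin 1) (Fin 1) ℂ) c' c • pR b x := by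
  rw [sub_R]
  simp

theorem Rd_R1 (i : Fin m) (c : Fin (n i)) (s : PS n) (x : M) :
    b.R (El i c 0) (b.R s x) = ∑ c' : Fin (n i), s i c' c • b.R (El i c' 0) x := by
  rw [RR, mul_El, map_sum, LinearMap.sum_apply]
  refine Finset.sum_congr rfl fun c' _ => ?_
  rw [map_smul, LinearMap.smul_apply]

theorem Ld_L (i : Option (Fin m)) (c : Fin (NN n i)) (s : PS n) (x : M) :
    Ld b i c (b.L s x) = ∑ c', act s i c c' • Ld b i c' x := by
  rcases i with _ | i
  · exact Ld_L0 b s x c
  · exact Ld_L1 b i c s x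

theorem Rd_R (i : Option (Fin m)) (c : Fin (NN n i)) (s : PS n) (x : M) :
    Rd b i c (b.R s x) = ∑ c', act s i c' c • Rd b i c' x := by
  rcases i with _ | i
  · exact Rd_R0 b s x c
  · exact Rd_R1 b i c s x

/-! ### components -/

/-- the multiplicity space -/
noncomputable abbrev V (i j : Option (Fin m)) : Submodule ℂ M := LinearMap.range (lE b i ∘ₗ rE b j)

/-- the components -/
noncomputable def co (i j : Option (Fin m)) (c : Fin (NN n i)) (d : Fin (NN n j)) :
    M →ₗ[ℂ] V b i j :=
  (lE b i ∘ₗ rE b j).rangeRestrict ∘ₗ Ld b i c ∘ₗ Rd b j d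

theorem co_val (i j : Option (Fin m)) (c : Fin (NN n i)) (d : Fin (NN n j)) (x : M) :
    (co b i j c d x : M) = Ld b i c (Rd b j d x) := by
  change lE b i (rE b j (Ld b i c (Rd b j d x))) = _
  rw [← cc_rE b j _ (cr_Ld b i c), (sysR b).proj, (sysL b).proj]

theorem fix {i j : Option (Fin m)} {x : M} (hx : x ∈ V b i j) : lE b i (rE b j x) = x := by
  obtain ⟨y, rfl⟩ := hx
  rw [LinearMap.comp_apply, ← cc_rE b j _ (cr_lE b i), (sysL b).idem, (sysR b).idem]

/-- the element with the given components -/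
noncomputable def el (a : (i j : Option (Fin m)) → Fin (NN n i) → Fin (NN n j) → V b i j) : M :=
  ∑ i, ∑ c, Lu b i c (∑ j, ∑ d, Ru b j d (a i j c d : M))

theorem el_co (x : M) : el b (fun i j c d => co b i j c d x) = x := by
  unfold el
  simp only [co_val]
  have h : ∀ (i : Option (Fin m)) (c : Fin (NN n i)),
      ∑ j, ∑ d, Ru b j d (Ld b i c (Rd b j d x)) = Ld b i c x := by
    intro i c
    have h1 : ∀ (j : Option (Fin m)) (d : Fin (NN n j)),
        Ru b j d (Ld b i c (Rd b j d x)) = Ld b i c (Ru b j d (Rd b j d x)) :=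
      fun j d => (cc_Ru b j d _ (cr_Ld b i c) _).symm
    simp only [h1, ← map_sum]
    rw [(sysR b).one]
  simp only [h]
  exact (sysL b).one x

theorem co_el (a : (i j : Option (Fin m)) → Fin (NN n i) → Fin (NN n j) → V b i j)
    (i j : Option (Fin m)) (c : Fin (NN n i)) (d : Fin (NN n j)) :
    co b i j c d (el b a) = a i j c d := by
  apply Subtype.ext
  rw [co_val]
  unfold el
  have h : Rd b j d (∑ i, ∑ c, Lu b i c (∑ j, ∑ d, Ru b j d (a i j c d : M))) =
      ∑ i, ∑ c, Lu b i c (rE b j (a i j c d : M)) := by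
    rw [map_sum]
    refine Finset.sum_congr rfl fun i _ => ?_
    rw [map_sum]
    refine Finset.sum_congr rfl fun c _ => ?_
    rw [← cc_Rd b j d _ (cr_Lu b i c)]
    congr 1
    exact (sysR b).sum j d (fun j d => (a i j c d : M))
  rw [h, (sysL b).sum i c (fun i c => rE b j (a i j c d : M))]
  exact fix b (a i j c d).2

theorem co_L (i j : Option (Fin m)) (c : Fin (NN n i)) (d : Fin (NN n j)) (s : PS n) (x : M) :
    co b i j c d (b.L s x) = ∑ c', act s i c c' • co b i j c' d x := by
  apply Subtype.ext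
  rw [co_val, ← cc_Rd b j d _ (cr_L b s), Ld_L, Submodule.coe_sum]
  refine Finset.sum_congr rfl fun c' _ => ?_
  rw [Submodule.coe_smul, co_val]

theorem co_R (i j : Option (Fin m)) (c : Fin (NN n i)) (d : Fin (NN n j)) (s : PS n) (x : M) :
    co b i j c d (b.R s x) = ∑ d', act s j d' d • co b i j c d' x := by
  apply Subtype.ext
  rw [co_val, Rd_R, map_sum, Submodule.coe_sum]
  refine Finset.sum_congr rfl fun c' _ => ?_
  rw [map_smul, Submodule.coe_smul, co_val]

section fin

variable [Module.Finite ℂ M]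

/-- coordinates -/
noncomputable def cB (i j : Option (Fin m)) : V b i j ≃ₗ[ℂ] (Fin (mu b i j) → ℂ) :=
  (Module.finBasis ℂ (V b i j)).equivFun

/-- the isomorphism -/
noncomputable def eqv : M ≃ₗ[ℂ] GM n (mu b) where
  toFun x := fun i j k => Matrix.of fun c d => cB b i j (co b i j c d x) k
  map_add' x y := by
    funext i j k
    ext c d
    simp
  map_smul' r x := by
    funext i j k
    ext c d
    simp
  invFun X := el b fun i j c d => (cB b i j).symm fun k => X i j k c d
  left_inv x := by
    have e1 : ∀ (i j : Option (Fin m)) (c : Fin (NN n i)) (d : Fin (NN n j)),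
        (cB b i j).symm (fun k => cB b i j (co b i j c d x) k) = co b i j c d x :=
      fun i j c d => (cB b i j).symm_apply_apply _
    simp only [Matrix.of_apply, e1]
    exact el_co b x
  right_inv X := by
    funext i j k
    ext c d
    simp only [Matrix.of_apply, co_el, LinearEquiv.apply_symm_apply]

theorem eqv_apply (x : M) (i j : Option (Fin m)) (k : Fin (mu b i j)) (c : Fin (NN n i))
    (d : Fin (NN n j)) : eqv b x i j k c d = cB b i j (co b i j c d x) k := rfl

theorem eqv_L (s : PS n) (x : M) : eqv b (b.L s x) = (gm n (mu b)).L s (eqv b x) := by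
  funext i j k
  ext c d
  change cB b i j (co b i j c d (b.L s x)) k = (act s i * eqv b x i j k) c d
  rw [co_L, Matrix.mul_apply]
  simp only [map_sum, map_smul, Finset.sum_apply, Pi.smul_apply, smul_eq_mul, eqv_apply]

theorem eqv_R (s : PS n) (x : M) : eqv b (b.R s x) = (gm n (mu b)).R s (eqv b x) := by
  funext i j k
  ext c d
  change cB b i j (co b i j c d (b.R s x)) k = (eqv b x i j k * act s j) c d
  rw [co_R, Matrix.mul_apply]
  simp only [map_sum, map_smul, Finset.sum_apply, Pi.smul_apply, smul_eq_mul, eqv_apply]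
  exact Finset.sum_congr rfl fun d' _ => mul_comm _ _

end fin

end GMOR

/-- The theorem of the leaf. -/
theorem t_GMOR : S_GMOR := by
  intro m n _ M _ _ _ b
  exact ⟨GMOR.eqv b, GMOR.eqv_L b, GMOR.eqv_R b⟩

end Pool.Agent.N917.AF
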