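import Pool.Agent.N917.AF.Stm6

/-!
Project AF (helper917), leaf GSUB: structure of sub-bimodules (helper92 for helper917).
-/

set_option autoImplicit false

namespace Pool.Agent.N917.AF

namespace GSUB

variable {m : ℕ} {n : Fin m → ℕ} {M : Type} [AddCommGroup M] [Module ℂ M]

/-- the restriction of a bimodule to a sub-bimodule -/
noncomputable def bW (b : Bim (PS n) M) (W : Submodule ℂ M) (hW : b.Sub W) : Bim (PS n) W where
  L := LinearMap.mk₂ ℂ (fun s w => (⟨b.L s w, (hW s w w.2).1⟩ : W))
    (by intro s s' x; apply Subtype.ext; simp)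
    (by intro c s x; apply Subtype.ext; simp)
    (by intro s x y; apply Subtype.ext; simp)
    (by intro c s x; apply Subtype.ext; simp)
  R := LinearMap.mk₂ ℂ (fun s w => (⟨b.R s w, (hW s w w.2).2⟩ : W))
    (by intro s s' x; apply Subtype.ext; simp)
    (by intro c s x; apply Subtype.ext; simp)
    (by intro s x y; apply Subtype.ext; simp)
    (by intro c s x; apply Subtype.ext; simp)
  mulL := by intro s s' x; apply Subtype.ext; exact b.mulL s s' x
  mulR := by intro s s' x; apply Subtype.ext; exact b.mulR s s' x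
  comm := by intro s s' x; apply Subtype.ext; exact b.comm s s' x

variable (b : Bim (PS n) M) (W : Submodule ℂ M) (hW : b.Sub W)

theorem coe_L (s : PS n) (w : W) : (((bW b W hW).L s w : W) : M) = b.L s w := rfl

theorem coe_R (s : PS n) (w : W) : (((bW b W hW).R s w : W) : M) = b.R s w := rfl

variable [∀ i, NeZero (n i)]

theorem coe_lE (i : Option (Fin m)) (w : W) : ((lE (bW b W hW) i w : W) : M) = lE b i w := by
  cases i with
  | none => rfl
  | some i => rfl

theorem coe_rE (j : Option (Fin m)) (w : W) : ((rE (bW b W hW) j w : W) : M) = rE b j w := by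
  cases j with
  | none => rfl
  | some j => rfl

theorem map_eq (i j : Option (Fin m)) : W.map (lE b i ∘ₗ rE b j) =
    (LinearMap.range (lE (bW b W hW) i ∘ₗ rE (bW b W hW) j)).map W.subtype := by
  ext x
  constructor
  · rintro ⟨w, hw, rfl⟩
    refine ⟨_, ⟨⟨w, hw⟩, rfl⟩, ?_⟩
    simp only [Submodule.subtype_apply, LinearMap.comp_apply, coe_lE, coe_rE]
  · rintro ⟨_, ⟨w, rfl⟩, rfl⟩
    refine ⟨w, w.2, ?_⟩
    simp only [Submodule.subtype_apply, LinearMap.comp_apply, coe_lE, coe_rE]

theorem mu_eq : mW b W = mu (bW b W hW) := by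
  funext i j
  unfold mu mW
  rw [map_eq b W hW]
  exact Submodule.finrank_map_subtype_eq W _

theorem aux (hM : S_GMOR) [Module.Finite ℂ M] (ν : Option (Fin m) → Option (Fin m) → ℕ)
    (h : ν = mu (bW b W hW)) : ∃ f : GM n ν →ₗ[ℂ] M, Function.Injective f ∧
      LinearMap.range f = W ∧ (∀ s x, f ((gm n ν).L s x) = b.L s (f x)) ∧
      ∀ s x, f ((gm n ν).R s x) = b.R s (f x) := by
  subst h
  obtain ⟨e, hL, hR⟩ := hM m n W (bW b W hW)
  refine ⟨W.subtype ∘ₗ e.symm.toLinearMap, ?_, ?_, ?_, ?_⟩
  · exact (Submodule.injective_subtype W).comp e.symm.injective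
  · rw [LinearMap.range_comp, LinearEquiv.range, Submodule.map_top, Submodule.range_subtype]
  · intro s x
    have h1 := hL s (e.symm x)
    rw [LinearEquiv.apply_symm_apply] at h1
    show ((e.symm ((gm n (mu (bW b W hW))).L s x) : W) : M) = b.L s ((e.symm x : W) : M)
    rw [← h1, LinearEquiv.symm_apply_apply, coe_L]
  · intro s x
    have h1 := hR s (e.symm x)
    rw [LinearEquiv.apply_symm_apply] at h1
    show ((e.symm ((gm n (mu (bW b W hW))).R s x) : W) : M) = b.R s ((e.symm x : W) : M)
    rw [← h1, LinearEquiv.symm_apply_apply, coe_R]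

end GSUB

theorem t_GSUB : S_GSUBimp := by
  intro hM m n _ M _ _ _ b W hW
  exact GSUB.aux b W hW hM (mW b W) (GSUB.mu_eq b W hW)

end Pool.Agent.N917.AF
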