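import Pool.Agent.N917.AF.Stm6

/-!
Project AF, leaf GSYM (helper999): symmetry and parity of the multiplicities of a symplectic bimodule.
-/

set_option autoImplicit false

namespace Pool.Agent.N917.AF

namespace GSYM

open Module

section
variable {m : ℕ} {n : Fin m → ℕ} [∀ i, NeZero (n i)] {M : Type} [AddCommGroup M] [Module ℂ M]
  (b : Bim (PS n) M)

lemma ee_mul (i : Fin m) : ee n i * ee n i = ee n i := by
  unfold ee
  rw [← Pi.single_mul, Matrix.single_mul_single_same, mul_one]

lemma lE_none (x : M) : lE b none x = x - b.L 1 x := rfl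
lemma lE_some (i : Fin m) (x : M) : lE b (some i) x = b.L (ee n i) x := rfl
lemma rE_none (x : M) : rE b none x = x - b.R 1 x := rfl
lemma rE_some (i : Fin m) (x : M) : rE b (some i) x = b.R (ee n i) x := rfl

lemma lE_idem (i : Option (Fin m)) (x : M) : lE b i (lE b i x) = lE b i x := by
  cases i with
  | none =>
    rw [lE_none, lE_none, map_sub, ← b.mulL, mul_one]
    abel
  | some i => rw [lE_some, lE_some, ← b.mulL, ee_mul]

lemma rE_idem (i : Option (Fin m)) (x : M) : rE b i (rE b i x) = rE b i x := by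
  cases i with
  | none =>
    rw [rE_none, rE_none, map_sub, ← b.mulR, mul_one]
    abel
  | some i => rw [rE_some, rE_some, ← b.mulR, ee_mul]

lemma lr_comm (i j : Option (Fin m)) (x : M) : lE b i (rE b j x) = rE b j (lE b i x) := by
  cases i with
  | none =>
    cases j with
    | none => rw [lE_none, rE_none, rE_none, lE_none, map_sub, map_sub, b.comm]; abel
    | some j => rw [lE_none, rE_some, rE_some, lE_none, map_sub, b.comm]
  | some i =>
    cases j with
    | none => rw [lE_some, rE_none, rE_none, lE_some, map_sub, b.comm]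
    | some j => rw [lE_some, rE_some, rE_some, lE_some, b.comm]

lemma lE_mem (W : Submodule ℂ M) (hW : b.Sub W) (i : Option (Fin m)) {x : M} (hx : x ∈ W) :
    lE b i x ∈ W := by
  cases i with
  | none => exact W.sub_mem hx (hW 1 x hx).1
  | some i => exact (hW _ x hx).1

lemma rE_mem (W : Submodule ℂ M) (hW : b.Sub W) (i : Option (Fin m)) {x : M} (hx : x ∈ W) :
    rE b i x ∈ W := by
  cases i with
  | none => exact W.sub_mem hx (hW 1 x hx).2
  | some i => exact (hW _ x hx).2

variable (β : M →ₗ[ℂ] M →ₗ[ℂ] ℂ) (W : Submodule ℂ M)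
  (h1 : ∀ x ∈ W, ∀ y ∈ W, β x y = -β y x)
  (h2 : ∀ s, ∀ x ∈ W, ∀ y ∈ W, β (b.L s x) y = β x (b.R s y))

include h2 in
lemma lE_adj (i : Option (Fin m)) {x y : M} (hx : x ∈ W) (hy : y ∈ W) :
    β (lE b i x) y = β x (rE b i y) := by
  cases i with
  | none => rw [lE_none, rE_none, map_sub, map_sub, LinearMap.sub_apply, h2 1 x hx y hy]
  | some i => rw [lE_some, rE_some, h2 _ x hx y hy]

include h1 h2 in
lemma rE_adj (hW : b.Sub W) (i : Option (Fin m)) {x y : M} (hx : x ∈ W) (hy : y ∈ W) :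
    β (rE b i x) y = β x (lE b i y) := by
  rw [h1 _ (rE_mem b W hW i hx) y hy, ← lE_adj b β W h2 i hy hx, ← h1 x hx _ (lE_mem b W hW i hy)]

include h1 h2 in
lemma P_adj (hW : b.Sub W) (i j : Option (Fin m)) {x y : M} (hx : x ∈ W) (hy : y ∈ W) :
    β ((lE b i ∘ₗ rE b j) x) y = β x ((lE b j ∘ₗ rE b i) y) := by
  rw [LinearMap.comp_apply, LinearMap.comp_apply, lE_adj b β W h2 i (rE_mem b W hW j hx) hy,
    rE_adj b β W h1 h2 hW j hx (rE_mem b W hW i hy)]

lemma P_idem (i j : Option (Fin m)) (x : M) :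
    (lE b i ∘ₗ rE b j) ((lE b i ∘ₗ rE b j) x) = (lE b i ∘ₗ rE b j) x := by
  simp only [LinearMap.comp_apply]
  rw [← lr_comm b i j (rE b j x), rE_idem, lE_idem]

lemma P_fix (i j : Option (Fin m)) {z : M} (hz : z ∈ W.map (lE b i ∘ₗ rE b j)) :
    (lE b i ∘ₗ rE b j) z = z := by
  obtain ⟨x, -, rfl⟩ := hz
  exact P_idem b i j x

lemma P_mem (hW : b.Sub W) (i j : Option (Fin m)) {z : M} (hz : z ∈ W.map (lE b i ∘ₗ rE b j)) :
    z ∈ W := by
  obtain ⟨x, hx, rfl⟩ := hz
  exact lE_mem b W hW i (rE_mem b W hW j hx)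

include h1 h2 in
lemma ndeg (hW : b.Sub W) (h3 : ∀ x ∈ W, (∀ y ∈ W, β x y = 0) → x = 0) (i j : Option (Fin m)) {z : M}
    (hz : z ∈ W.map (lE b i ∘ₗ rE b j)) (h : ∀ w ∈ W.map (lE b j ∘ₗ rE b i), β z w = 0) : z = 0 := by
  refine h3 z (P_mem b W hW i j hz) fun y hy => ?_
  rw [← P_fix b W i j hz, P_adj b β W h1 h2 hW i j (P_mem b W hW i j hz) hy]
  exact h _ (Submodule.mem_map_of_mem hy)

include h1 h2 in
lemma le_rank [Module.Finite ℂ M] (hW : b.Sub W) (h3 : ∀ x ∈ W, (∀ y ∈ W, β x y = 0) → x = 0)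
    (i j : Option (Fin m)) : mW b W i j ≤ mW b W j i := by
  unfold mW
  have hinj : Function.Injective
      (β.domRestrict₁₂ (W.map (lE b i ∘ₗ rE b j)) (W.map (lE b j ∘ₗ rE b i))) := by
    rw [injective_iff_map_eq_zero]
    intro z hz
    apply Subtype.ext
    refine ndeg b β W h1 h2 hW h3 i j z.2 fun w hw => ?_
    exact LinearMap.congr_fun hz ⟨w, hw⟩
  have h4 := LinearMap.finrank_le_finrank_of_injective hinj
  exact h4.trans (le_of_eq (Subspace.dual_finrank_eq (K := ℂ)))

include h1 h2 in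
lemma even_rank [Module.Finite ℂ M] (hW : b.Sub W) (h3 : ∀ x ∈ W, (∀ y ∈ W, β x y = 0) → x = 0)
    (i : Option (Fin m)) : Even (mW b W i i) := by
  unfold mW
  set V := W.map (lE b i ∘ₗ rE b i) with hV
  set N := Module.finrank ℂ V with hN
  let bs : Basis (Fin N) ℂ V := Module.finBasis ℂ V
  let A : Matrix (Fin N) (Fin N) ℂ := fun k l => β (bs k : M) (bs l : M)
  have hT : A.transpose = -A := by
    ext k l
    exact h1 _ (P_mem b W hW i i (bs l).2) _ (P_mem b W hW i i (bs k).2)
  have hdet : A.det ≠ 0 := by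
    intro h0
    obtain ⟨v, hv, hAv⟩ := Matrix.exists_mulVec_eq_zero_iff.2 h0
    apply hv
    have hz : ∑ l, v l • bs l = 0 := by
      apply Subtype.ext
      refine ndeg b β W h1 h2 hW h3 i i (∑ l, v l • bs l).2 fun w hw => ?_
      have h5 : ∀ k, β (bs k : M) ((∑ l, v l • bs l : V) : M) = 0 := by
        intro k
        have h6 := congrFun hAv k
        rw [Matrix.mulVec, dotProduct, Pi.zero_apply] at h6
        rw [Submodule.coe_sum, map_sum]
        rw [← h6]
        refine Finset.sum_congr rfl fun l _ => ?_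
        rw [Submodule.coe_smul, map_smul, smul_eq_mul, mul_comm]
      have h7 : w = ((∑ k, (bs.repr ⟨w, hw⟩) k • bs k : V) : M) := by
        rw [bs.sum_repr]
      rw [h1 _ (P_mem b W hW i i (∑ l, v l • bs l).2) w (P_mem b W hW i i hw), h7, Submodule.coe_sum,
        map_sum, LinearMap.sum_apply, neg_eq_zero]
      refine Finset.sum_eq_zero fun k _ => ?_
      rw [Submodule.coe_smul, map_smul, LinearMap.smul_apply, h5, smul_zero]
    exact funext fun l => (Fintype.linearIndependent_iff.1 bs.linearIndependent v hz l)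
  by_contra hodd
  rw [Nat.not_even_iff_odd] at hodd
  have h8 : A.det = -A.det := by
    calc A.det = A.transpose.det := (Matrix.det_transpose A).symm
      _ = (-A).det := by rw [hT]
      _ = (-1) ^ N * A.det := by rw [Matrix.det_neg, Fintype.card_fin]
      _ = -A.det := by rw [hodd.neg_one_pow]; ring
  apply hdet
  have h9 : (2 : ℂ) * A.det = 0 := by linear_combination h8
  simpa using h9

end

end GSYM

open GSYM in
theorem t_GSYM : S_GSYM := by
  intro m n _ M _ _ _ b W hW hS
  obtain ⟨β, h1, h2, h3⟩ := hS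
  exact ⟨fun i j => le_antisymm (le_rank b β W h1 h2 hW h3 i j) (le_rank b β W h1 h2 hW h3 j i),
    fun i => even_rank b β W h1 h2 hW h3 i⟩

end Pool.Agent.N917.AF
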