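import Pool.Agent.N917.AF.Stm6

/-!
Project AF (helper917), leaf GTRF: transport of the Frobenius property (helper409).
-/

set_option autoImplicit false

namespace Pool.Agent.N917.AF

namespace GTRF

section
variable {S M₁ M₂ : Type} [Ring S] [Algebra ℂ S] [AddCommGroup M₁] [Module ℂ M₁]
  [AddCommGroup M₂] [Module ℂ M₂]

/-- the map `(s, x) ↦ (s, f x)` -/
def Ph (S : Type) [Ring S] [Algebra ℂ S] (f : M₁ →ₗ[ℂ] M₂) : S × M₁ →ₗ[ℂ] S × M₂ :=
  LinearMap.prodMap LinearMap.id f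

theorem Ph_mul {b₁ : Bim S M₁} {b₂ : Bim S M₂} {f : M₁ →ₗ[ℂ] M₂}
    (hL : ∀ s x, f (b₁.L s x) = b₂.L s (f x)) (hR : ∀ s x, f (b₁.R s x) = b₂.R s (f x))
    (x y : S × M₁) : Ph S f (b₁.mul x y - b₁.mul y x) =
      b₂.mul (Ph S f x) (Ph S f y) - b₂.mul (Ph S f y) (Ph S f x) := by
  have h : ∀ x y : S × M₁, Ph S f (b₁.mul x y) = b₂.mul (Ph S f x) (Ph S f y) := by
    intro x y
    refine Prod.ext rfl ?_
    change f (b₁.L x.1 y.2 + b₁.R y.1 x.2) = b₂.L x.1 (f y.2) + b₂.R y.1 (f x.2)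
    rw [map_add, hL, hR]
  rw [map_sub, h, h]

end

end GTRF

open GTRF in
theorem t_GTRF : S_GTRF := by
  intro S M₁ M₂ _ _ _ _ _ _ b₁ b₂ f hf hL hR
  constructor
  · rintro ⟨l, hl⟩
    refine ⟨l.comp (Ph S f), fun x _ hx => ?_⟩
    have h1 : Ph S f x = 0 := by
      refine hl (Ph S f x) ⟨x.2, rfl⟩ fun y hy => ?_
      obtain ⟨u, hu⟩ := hy
      have h2 := hx (y.1, u) trivial
      rw [LinearMap.comp_apply, Ph_mul hL hR] at h2
      have h3 : Ph S f (y.1, u) = y := Prod.ext rfl hu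
      rw [h3] at h2
      exact h2
    have h4 : x.1 = 0 := congrArg Prod.fst h1
    have h5 : f x.2 = 0 := congrArg Prod.snd h1
    exact Prod.ext h4 (hf (h5.trans (map_zero f).symm))
  · rintro ⟨l, hl⟩
    obtain ⟨g, hg⟩ := LinearMap.exists_leftInverse_of_injective f (LinearMap.ker_eq_bot.2 hf)
    have hgf : ∀ x, g (f x) = x := fun x => LinearMap.congr_fun hg x
    have hPh : ∀ z : S × M₁, l (Ph S g (Ph S f z)) = l z := by
      intro z
      congr 1
      exact Prod.ext rfl (hgf z.2)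
    refine ⟨l.comp (Ph S g), fun x hx0 hx => ?_⟩
    obtain ⟨u, hu⟩ := hx0
    have hxu : Ph S f (x.1, u) = x := Prod.ext rfl hu
    have h1 : ((x.1, u) : S × M₁) = 0 := by
      refine hl (x.1, u) trivial fun y _ => ?_
      have h2 := hx (Ph S f y) ⟨y.2, rfl⟩
      rw [← hxu, ← Ph_mul hL hR, LinearMap.comp_apply, hPh] at h2
      exact h2
    rw [← hxu, h1, map_zero]

end Pool.Agent.N917.AF
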