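import Pool.Agent.N917.AF.Stm

/-!
Project AF (helper917), second part: the reduction for arbitrary semisimple `S` and arbitrary
bimodules `M` (page MP_9890f7_al).  Statements of the leaves.
-/

set_option autoImplicit false

namespace Pool.Agent.N917.AF

open TensorProduct

/-- A bimodule, not required to be unital: `L s m = s m`, `R s m = m s`. -/
structure Bim (S M : Type) [Ring S] [Algebra ℂ S] [AddCommGroup M] [Module ℂ M] where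
  L : S →ₗ[ℂ] M →ₗ[ℂ] M
  R : S →ₗ[ℂ] M →ₗ[ℂ] M
  mulL : ∀ s s' m, L (s * s') m = L s (L s' m)
  mulR : ∀ s s' m, R (s * s') m = R s' (R s m)
  comm : ∀ s s' m, L s (R s' m) = R s' (L s m)

section
variable {S M : Type} [Ring S] [Algebra ℂ S] [AddCommGroup M] [Module ℂ M]

/-- The product `(s, m) (s', m') = (s s', s m' + m s')` of `S ⊕ M`. -/
def Bim.mul (b : Bim S M) (x y : S × M) : S × M := (x.1 * y.1, b.L x.1 y.2 + b.R y.1 x.2)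

/-- `W` is a sub-bimodule. -/
def Bim.Sub (b : Bim S M) (W : Submodule ℂ M) : Prop :=
  ∀ s, ∀ m ∈ W, b.L s m ∈ W ∧ b.R s m ∈ W

/-- `W` carries a nondegenerate antisymmetric form `β` with `β (s x, y) = β (x, y s)`. -/
def Bim.Sympl (b : Bim S M) (W : Submodule ℂ M) : Prop :=
  ∃ β : M →ₗ[ℂ] M →ₗ[ℂ] ℂ, (∀ x ∈ W, ∀ y ∈ W, β x y = -β y x) ∧
    (∀ s, ∀ x ∈ W, ∀ y ∈ W, β (b.L s x) y = β x (b.R s y)) ∧
    ∀ x ∈ W, (∀ y ∈ W, β x y = 0) → x = 0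

/-- The algebra `S ⊕ W` has a linear functional `l` for which `l (x y - y x)` is nondegenerate. -/
def Bim.Frob (b : Bim S M) (W : Submodule ℂ M) : Prop :=
  ∃ l : S × M →ₗ[ℂ] ℂ, ∀ x : S × M, x.2 ∈ W →
    (∀ y : S × M, y.2 ∈ W → l (b.mul x y - b.mul y x) = 0) → x = 0

/-- a separability element `∑ x_i ⊗ y_i` -/
def Sep (S : Type) [Ring S] [Algebra ℂ S] {N : ℕ} (x y : Fin N → S) : Prop :=
  ∑ i, x i * y i = 1 ∧ ∀ s : S, ∑ i, (s * x i) ⊗ₜ[ℂ] y i = ∑ i, x i ⊗ₜ[ℂ] (y i * s)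

end

/-- SEP -/
def S_SEP : Prop := ∀ (S : Type) [Ring S] [Algebra ℂ S] [Module.Finite ℂ S] [IsSemisimpleRing S],
  ∃ (N : ℕ) (x y : Fin N → S), Sep S x y

/-- CO2 -/
def S_CO2 : Prop := ∀ (S M : Type) [Ring S] [Algebra ℂ S] [AddCommGroup M] [Module ℂ M]
  (b : Bim S M) (N : ℕ) (x y : Fin N → S), Sep S x y →
  ∀ ω : (S × M) →ₗ[ℂ] (S × M) →ₗ[ℂ] ℂ, Coc b.mul ω →
  ∃ l : (S × M) →ₗ[ℂ] ℂ, ∀ (s : S) (z : S × M),
    ω (s, 0) z = l (b.mul (s, 0) z - b.mul z (s, 0))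

/-- CPL: complements of sub-bimodules -/
def S_CPL : Prop := ∀ (S M : Type) [Ring S] [Algebra ℂ S] [AddCommGroup M] [Module ℂ M]
  (b : Bim S M) (N : ℕ) (x y : Fin N → S), Sep S x y → ∀ W : Submodule ℂ M, b.Sub W →
  ∃ W' : Submodule ℂ M, b.Sub W' ∧ IsCompl W' W

/-- RD2: symplectic reduction -/
def S_RD2 : Prop := ∀ (S M : Type) [Ring S] [Algebra ℂ S] [AddCommGroup M] [Module ℂ M]
  [Module.Finite ℂ M] (b : Bim S M) (l : (S × M) →ₗ[ℂ] ℂ) (β : M →ₗ[ℂ] M →ₗ[ℂ] ℂ)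
  (W' W : Submodule ℂ M), (∀ x y, β x y = -β y x) → (∀ s x y, β (b.L s x) y = β x (b.R s y)) →
  b.Sub W' → IsCompl W' W → (∀ m, m ∈ W ↔ ∀ y, β m y = 0) →
  NDeg (fun x y : S × M => l (b.mul x y - b.mul y x) + β x.2 y.2) →
  b.Sympl W' ∧ b.Frob W

/-- BD2: the converse -/
def S_BD2 : Prop := ∀ (S M : Type) [Ring S] [Algebra ℂ S] [AddCommGroup M] [Module ℂ M]
  (b : Bim S M) (W' W : Submodule ℂ M), b.Sub W' → b.Sub W → IsCompl W' W →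
  b.Sympl W' → b.Frob W → AF (S × M) b.mul

/-- RES2: the reduction theorem -/
def S_RES2 : Prop := ∀ (S M : Type) [Ring S] [Algebra ℂ S] [Module.Finite ℂ S]
  [IsSemisimpleRing S] [AddCommGroup M] [Module ℂ M] [Module.Finite ℂ M] (b : Bim S M),
  AF (S × M) b.mul ↔ ∃ M' M'' : Submodule ℂ M, b.Sub M' ∧ b.Sub M'' ∧ IsCompl M' M'' ∧
    b.Sympl M' ∧ b.Frob M''

/-- ASM2 -/
def S_ASM2 : Prop := S_SEP → S_CO2 → S_CPL → S_RD2 → S_BD2 → S_RES2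

end Pool.Agent.N917.AF
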