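import Mathlib
import Pool.Agent.N917.AF.Stm2

/-!
Project AF (helper917), second part: symplectic reduction.
-/

set_option autoImplicit false

namespace Pool.Agent.N917.AF

theorem t_RD2 : S_RD2 := by
  intro S M _ _ _ _ _ b l β W' W hanti hB hW' hc hW hnd
  have hB' : ∀ s x y, β (b.R s x) y = β x (b.L s y) := by
    intro s x y
    rw [hanti (b.R s x) y, ← hB s y x, hanti x (b.L s y)]
  have hrad : ∀ w ∈ W, ∀ y, β w y = 0 := fun w hw => (hW w).1 hw
  have hrad' : ∀ w ∈ W, ∀ x, β x w = 0 := by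
    intro w hw x
    rw [hanti, hrad w hw, neg_zero]
  have hdec : ∀ y : M, ∃ y' ∈ W', ∃ w ∈ W, y' + w = y := by
    intro y
    have h1 : y ∈ W' ⊔ W := by
      rw [hc.sup_eq_top]
      exact Submodule.mem_top
    exact Submodule.mem_sup.1 h1
  have hinj : ∀ x ∈ W', (∀ y ∈ W', β x y = 0) → x = 0 := by
    intro x hx h
    have h1 : x ∈ W := (hW x).2 fun y => by
      obtain ⟨y', hy', w, hw, rfl⟩ := hdec y
      rw [map_add, h y' hy', hrad' w hw, add_zero]
    exact Submodule.disjoint_def.1 hc.disjoint x hx h1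
  -- the representing vector
  let T : W' →ₗ[ℂ] Module.Dual ℂ W' := β.domRestrict₁₂ W' W'
  have hT : Function.Injective T := by
    rw [injective_iff_map_eq_zero]
    intro x hx
    apply Subtype.ext
    exact hinj x x.2 fun y hy => LinearMap.congr_fun hx ⟨y, hy⟩
  have hTs : Function.Surjective T :=
    (LinearMap.injective_iff_surjective_of_finrank_eq_finrank
      (by rw [Subspace.dual_finrank_eq])).1 hT
  obtain ⟨⟨ξ, hξm⟩, hξ⟩ := hTs ((l.comp (LinearMap.inr ℂ S M)).comp W'.subtype)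
  have hξ' : ∀ m ∈ W', l (0, m) = β ξ m := fun m hm => (LinearMap.congr_fun hξ ⟨m, hm⟩).symm
  obtain ⟨ph, hph0⟩ : ∃ ph : S → M, ∀ s, ph s = b.R s ξ - b.L s ξ := ⟨_, fun _ => rfl⟩
  have hph : ∀ s, ph s ∈ W' := fun s => by
    rw [hph0]
    exact W'.sub_mem (hW' s ξ hξm).2 (hW' s ξ hξm).1
  have ha : ∀ s, ∀ m ∈ W', β (ph s) m = l (0, b.L s m) - l (0, b.R s m) := by
    intro s m hm
    rw [hph0, map_sub, LinearMap.sub_apply, hB', hB, hξ' _ (hW' s m hm).1,
      hξ' _ (hW' s m hm).2]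
  let mu : S →ₗ[ℂ] ℂ := (β ξ).comp (b.R.flip ξ)
  have hmu : ∀ s, mu s = β ξ (b.R s ξ) := fun s => rfl
  have hb : ∀ s s', β (ph s) (ph s') = mu (s * s') - mu (s' * s) := by
    intro s s'
    have e1 : β (b.L s ξ) (b.R s' ξ) = mu (s' * s) := by rw [hB, hmu, b.mulR]
    have e2 : β (b.R s ξ) (b.L s' ξ) = -mu (s * s') := by
      rw [hB', ← b.mulL, hanti, hB, hmu]
    have e3 : β (b.L s ξ) (b.L s' ξ) = -β (b.R s ξ) (b.R s' ξ) := by
      rw [hB, hanti, ← b.comm, hB]
    rw [hph0, hph0]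
    simp only [map_sub, LinearMap.sub_apply]
    rw [e1, e2, e3]
    ring
  obtain ⟨l0, hl0⟩ : ∃ l0 : M →ₗ[ℂ] ℂ, ∀ v, l (0, v) = l0 v :=
    ⟨l.comp (LinearMap.inr ℂ S M), fun _ => rfl⟩
  obtain ⟨l1, hl1⟩ : ∃ l1 : S →ₗ[ℂ] ℂ, ∀ t, l (t, 0) = l1 t :=
    ⟨l.comp (LinearMap.inl ℂ S M), fun _ => rfl⟩
  have el : ∀ (t : S) (v : M), l (t, v) = l1 t + l0 v := by
    intro t v
    rw [← hl0, ← hl1, ← map_add, Prod.mk_add_mk, add_zero, zero_add]
  refine ⟨⟨β, fun x _ y _ => hanti x y, fun s x _ y _ => hB s x y, hinj⟩,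
    l - mu.comp (LinearMap.fst ℂ S M), ?_⟩
  rintro ⟨s, w⟩ hw hx
  change w ∈ W at hw
  have hz : ((s, w - ph s) : S × M) = 0 := by
    apply hnd
    rintro ⟨s', m⟩
    obtain ⟨m', hm', w', hw', rfl⟩ := hdec m
    have h1 := hx (s', w') hw'
    have h2 := ha s m' hm'
    have h3 := ha s' (ph s) (hph s)
    rw [hb] at h3
    simp only [hl0] at h2 h3
    have e1 : (l - mu.comp (LinearMap.fst ℂ S M)) (b.mul (s, w) (s', w') - b.mul (s', w') (s, w)) =
        l1 (s * s') - l1 (s' * s) + (l0 (b.L s w') + l0 (b.R s' w) -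
          (l0 (b.L s' w) + l0 (b.R s w'))) - (mu (s * s') - mu (s' * s)) := by
      have e0 : b.mul (s, w) (s', w') - b.mul (s', w') (s, w) =
          (s * s' - s' * s, b.L s w' + b.R s' w - (b.L s' w + b.R s w')) := rfl
      rw [e0, LinearMap.sub_apply, el, LinearMap.comp_apply, LinearMap.fst_apply]
      simp only [map_add, map_sub]
    rw [e1] at h1
    have e2 : l (b.mul (s, w - ph s) (s', m' + w') - b.mul (s', m' + w') (s, w - ph s)) =
        l1 (s * s') - l1 (s' * s) + (l0 (b.L s m') + l0 (b.L s w') +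
          (l0 (b.R s' w) - l0 (b.R s' (ph s))) - ((l0 (b.L s' w) - l0 (b.L s' (ph s))) +
          (l0 (b.R s m') + l0 (b.R s w')))) := by
      have e0 : b.mul (s, w - ph s) (s', m' + w') - b.mul (s', m' + w') (s, w - ph s) =
          (s * s' - s' * s, b.L s (m' + w') + b.R s' (w - ph s) -
            (b.L s' (w - ph s) + b.R s (m' + w'))) := rfl
      rw [e0, el]
      simp only [map_add, map_sub]
    show l (b.mul (s, w - ph s) (s', m' + w') - b.mul (s', m' + w') (s, w - ph s)) +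
      β (w - ph s) (m' + w') = 0
    have e3 : β (w - ph s) (m' + w') = -β (ph s) m' := by
      rw [map_sub, LinearMap.sub_apply, hrad w hw, map_add, hrad' w' hw']
      ring
    rw [e2, e3]
    linear_combination h1 - h2 - h3
  have hs : s = 0 := congrArg Prod.fst hz
  have hw2 : w - ph s = 0 := congrArg Prod.snd hz
  have hp0 : ph 0 = 0 := by
    rw [hph0, map_zero, map_zero, LinearMap.zero_apply, sub_zero]
  rw [hs, hp0, sub_zero] at hw2
  rw [hs, hw2]
  rfl

end Pool.Agent.N917.AF
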