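import Mathlib
import Pool.Agent.N917.AF.Stm2

/-!
Project AF (helper917), leaf SEP (helper572): the separability element of a semisimple algebra.
-/

set_option autoImplicit false

namespace Pool.Agent.N917.AF

open TensorProduct

namespace SEP

lemma mA {m : ℕ} (M : Matrix (Fin m) (Fin m) ℂ) (a z : Fin m) :
    M * Matrix.single a z (1 : ℂ) = ∑ c, M c a • Matrix.single c z (1 : ℂ) := by
  ext r t
  rw [Matrix.mul_apply, Matrix.sum_apply]
  simp only [Matrix.single_apply, Matrix.smul_apply, smul_eq_mul]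
  by_cases hz : z = t
  · simp [hz]
  · simp [hz]

lemma mB {m : ℕ} (M : Matrix (Fin m) (Fin m) ℂ) (z c : Fin m) :
    Matrix.single z c (1 : ℂ) * M = ∑ a, M c a • Matrix.single z a (1 : ℂ) := by
  ext r t
  rw [Matrix.mul_apply, Matrix.sum_apply]
  simp only [Matrix.single_apply, Matrix.smul_apply, smul_eq_mul]
  by_cases hz : z = r
  · simp [hz]
  · simp [hz]

section

variable {n : ℕ} (d : Fin n → ℕ) [∀ i, NeZero (d i)]

/-- the product of the matrix algebras -/
abbrev A : Type := ∀ i : Fin n, Matrix (Fin (d i)) (Fin (d i)) ℂ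

/-- the first factors -/
noncomputable def X (p : Σ i : Fin n, Fin (d i)) : A d :=
  Pi.single p.1 (Matrix.single p.2 0 1)

/-- the second factors -/
noncomputable def Y (p : Σ i : Fin n, Fin (d i)) : A d :=
  Pi.single p.1 (Matrix.single 0 p.2 1)

lemma mulX (s : A d) (i : Fin n) (a : Fin (d i)) :
    s * X d ⟨i, a⟩ = ∑ c, s i c a • X d ⟨i, c⟩ := by
  have h1 : s * X d ⟨i, a⟩ = LinearMap.single ℂ _ i (s i * Matrix.single a 0 (1 : ℂ)) := by
    show s * Pi.single i (Matrix.single a 0 1) = Pi.single i (s i * Matrix.single a 0 (1 : ℂ))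
    funext j
    by_cases h : j = i
    · subst h
      simp
    · simp [Pi.single_eq_of_ne h]
  rw [h1, mA, map_sum]
  refine Finset.sum_congr rfl fun c _ => ?_
  rw [map_smul]
  rfl

lemma Ymul (s : A d) (i : Fin n) (c : Fin (d i)) :
    Y d ⟨i, c⟩ * s = ∑ a, s i c a • Y d ⟨i, a⟩ := by
  have h1 : Y d ⟨i, c⟩ * s = LinearMap.single ℂ _ i (Matrix.single 0 c (1 : ℂ) * s i) := by
    show Pi.single i (Matrix.single 0 c 1) * s = Pi.single i (Matrix.single 0 c (1 : ℂ) * s i)
    funext j
    by_cases h : j = i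
    · subst h
      simp
    · simp [Pi.single_eq_of_ne h]
  rw [h1, mB, map_sum]
  refine Finset.sum_congr rfl fun a _ => ?_
  rw [map_smul]
  rfl

lemma sum_one : ∑ p, X d p * Y d p = 1 := by
  have h1 : ∀ p : Σ i : Fin n, Fin (d i), X d p * Y d p =
      Pi.single p.1 (Matrix.single p.2 p.2 (1 : ℂ)) := by
    intro p
    unfold X Y
    rw [← Pi.single_mul, Matrix.single_mul_single_same, mul_one]
  simp only [h1]
  rw [Fintype.sum_sigma]
  funext j
  rw [Finset.sum_apply, Finset.sum_eq_single j]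
  · rw [Finset.sum_apply]
    simp only [Pi.single_eq_same, Pi.one_apply]
    exact Matrix.sum_single_one
  · intro i _ hi
    rw [Finset.sum_apply]
    refine Finset.sum_eq_zero fun a _ => ?_
    exact Pi.single_eq_of_ne hi.symm _
  · intro h
    exact absurd (Finset.mem_univ _) h

lemma tens (s : A d) : ∑ p, (s * X d p) ⊗ₜ[ℂ] Y d p = ∑ p, X d p ⊗ₜ[ℂ] (Y d p * s) := by
  rw [Fintype.sum_sigma, Fintype.sum_sigma]
  refine Finset.sum_congr rfl fun i _ => ?_
  simp only [mulX, Ymul, TensorProduct.sum_tmul, TensorProduct.tmul_sum]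
  rw [Finset.sum_comm]
  refine Finset.sum_congr rfl fun c _ => Finset.sum_congr rfl fun a _ => ?_
  rw [TensorProduct.smul_tmul]

end

end SEP

open SEP in
theorem t_SEP : S_SEP := by
  intro S _ _ _ _
  obtain ⟨n, d, hd, ⟨e⟩⟩ := IsSemisimpleRing.exists_algEquiv_pi_matrix_of_isAlgClosed ℂ S
  haveI := hd
  set I : Type := Σ i : Fin n, Fin (d i) with hI
  set f : I ≃ Fin (Fintype.card I) := Fintype.equivFin I with hf
  refine ⟨Fintype.card I, fun k => e.symm (X d (f.symm k)), fun k => e.symm (Y d (f.symm k)),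
    ?_, fun s => ?_⟩
  · rw [f.symm.sum_comp (fun p => e.symm (X d p) * e.symm (Y d p))]
    simp only [← map_mul]
    rw [← map_sum, sum_one, map_one]
  · rw [f.symm.sum_comp (fun p => (s * e.symm (X d p)) ⊗ₜ[ℂ] e.symm (Y d p)),
      f.symm.sum_comp (fun p => e.symm (X d p) ⊗ₜ[ℂ] (e.symm (Y d p) * s))]
    have h := congrArg (TensorProduct.map e.symm.toLinearMap e.symm.toLinearMap) (tens d (e s))
    simp only [map_sum, TensorProduct.map_tmul, AlgEquiv.toLinearMap_apply, map_mul,
      AlgEquiv.symm_apply_apply] at h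
    exact h

end Pool.Agent.N917.AF
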