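import Pool.Agent.N917.AF.Stm4

/-!
Project AF, leaf STB (helper999): the stabilizer criterion.
-/

set_option autoImplicit false

namespace Pool.Agent.N917.AF

namespace STB

section
variable {S M : Type} [Ring S] [Algebra ℂ S] [AddCommGroup M] [Module ℂ M]

lemma form_eq (b : Bim S M) (l : S × M →ₗ[ℂ] ℂ) (s s' : S) (w w' : M) :
    l (b.mul (s, w) (s', w') - b.mul (s', w') (s, w)) =
      l (s * s' - s' * s, 0) + l (0, b.L s w' - b.R s w') - l (0, b.L s' w - b.R s' w) := by
  rw [← map_add, ← map_sub]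
  congr 1
  unfold Bim.mul
  refine Prod.ext ?_ ?_
  · simp
  · simp only [Prod.snd_sub, Prod.snd_add]
    abel

/-- `ψ(s)(w) = lam (s w - w s)` on `W` -/
noncomputable def psi (b : Bim S M) (W : Submodule ℂ M) (lam : M →ₗ[ℂ] ℂ) :
    S →ₗ[ℂ] Module.Dual ℂ W where
  toFun s := (lam ∘ₗ (b.L s - b.R s)) ∘ₗ W.subtype
  map_add' s s' := by
    ext w
    simp only [LinearMap.comp_apply, LinearMap.sub_apply, map_add, LinearMap.add_apply, map_sub]
    ring
  map_smul' c s := by
    ext w
    simp only [LinearMap.comp_apply, LinearMap.sub_apply, map_smul, LinearMap.smul_apply, map_sub,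
      RingHom.id_apply]
    rw [smul_sub]

lemma psi_apply (b : Bim S M) (W : Submodule ℂ M) (lam : M →ₗ[ℂ] ℂ) (s : S) (w : W) :
    psi b W lam s w = lam (b.L s w - b.R s w) := rfl

lemma dual_point (b : Bim S M) [Module.Finite ℂ M] (W : Submodule ℂ M) (lam : M →ₗ[ℂ] ℂ)
    (f : S →ₗ[ℂ] ℂ) (hf : ∀ s, b.Stab W lam s → f s = 0) :
    ∃ w ∈ W, ∀ s, f s = lam (b.L s w - b.R s w) := by
  have h1 : f ∈ (LinearMap.ker (psi b W lam)).dualAnnihilator := by
    rw [Submodule.mem_dualAnnihilator]
    intro s hs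
    refine hf s fun w hw => ?_
    have h2 := LinearMap.congr_fun (LinearMap.mem_ker.1 hs) ⟨w, hw⟩
    rw [psi_apply] at h2
    exact h2
  rw [← LinearMap.range_dualMap_eq_dualAnnihilator_ker] at h1
  obtain ⟨g, hg⟩ := h1
  obtain ⟨w, hw⟩ := (Module.evalEquiv ℂ W).surjective g
  refine ⟨w, w.2, fun s => ?_⟩
  rw [← hg, LinearMap.dualMap_apply, ← hw]
  rfl

end

end STB

open STB in
theorem t_STB : S_STB := by
  intro S M _ _ _ _ _ _ b W hW
  constructor
  · rintro ⟨l, hl⟩
    have hpair : ∀ (s : S) (w : M), w ∈ W → (∀ (s' : S) (w' : M), w' ∈ W →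
        l (s * s' - s' * s, 0) + l (0, b.L s w' - b.R s w') - l (0, b.L s' w - b.R s' w) = 0) →
        s = 0 ∧ w = 0 := by
      intro s w hw h
      have h1 := hl (s, w) hw fun y hy => by
        obtain ⟨s', w'⟩ := y
        rw [form_eq]
        exact h s' w' hy
      exact ⟨congrArg Prod.fst h1, congrArg Prod.snd h1⟩
    refine ⟨l ∘ₗ LinearMap.inr ℂ S M, l ∘ₗ LinearMap.inl ℂ S M, fun w hw h => ?_, fun s hs h => ?_⟩
    · refine (hpair 0 w hw fun s' w' _ => ?_).2
      have h1 := h s'
      rw [LinearMap.comp_apply, LinearMap.inr_apply] at h1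
      rw [h1, zero_mul, mul_zero, sub_zero, map_zero, map_zero, LinearMap.zero_apply,
        sub_zero, sub_zero]
      have h0 : l ((0 : S), (0 : M)) = 0 := map_zero l
      rw [h0, add_zero]
    · let f : S →ₗ[ℂ] ℂ := (l ∘ₗ LinearMap.inl ℂ S M) ∘ₗ (LinearMap.mulLeft ℂ s - LinearMap.mulRight ℂ s)
      obtain ⟨w, hw, hfw⟩ := dual_point b W (l ∘ₗ LinearMap.inr ℂ S M) f fun s' hs' => h s' hs'
      refine (hpair s w hw fun s' w' hw' => ?_).1
      have h1 : l (s * s' - s' * s, 0) = l (0, b.L s' w - b.R s' w) := hfw s'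
      have h2 : l (0, b.L s w' - b.R s w') = 0 := hs w' hw'
      rw [h2, ← h1, add_zero, sub_self]
  · rintro ⟨lam, mu, h1, h2⟩
    refine ⟨mu.coprod lam, fun x hx h => ?_⟩
    obtain ⟨s, w⟩ := x
    have hx' : w ∈ W := hx
    have hform : ∀ (s' : S) (w' : M), w' ∈ W → mu (s * s' - s' * s) + lam (b.L s w' - b.R s w') -
        lam (b.L s' w - b.R s' w) = 0 := by
      intro s' w' hw'
      have h3 := h (s', w') hw'
      rw [form_eq] at h3
      simp only [LinearMap.coprod_apply, map_zero, add_zero, zero_add] at h3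
      exact h3
    have hs : s = 0 := by
      refine h2 s (fun w' hw' => ?_) fun s' hs' => ?_
      · have h3 := hform 0 w' hw'
        simpa using h3
      · have h3 := hform s' 0 W.zero_mem
        have h4 := hs' w hx'
        rw [h4] at h3
        simpa using h3
    subst hs
    have hw : w = 0 := by
      refine h1 w hx' fun s' => ?_
      have h3 := hform s' 0 W.zero_mem
      rw [zero_mul, mul_zero, sub_zero, map_zero, map_zero, map_zero, sub_zero, map_zero,
        zero_add, zero_sub, neg_eq_zero] at h3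
      exact h3
    rw [hw]
    rfl

end Pool.Agent.N917.AF
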