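import Pool.Agent.N917.AF.Stm5

/-!
Project AF (helper917), leaf TRE (helper94): characters of a tree.
-/

set_option autoImplicit false

namespace Pool.Agent.N917.AF

namespace TRE

variable {m : ℕ}

lemma walk_const (R : Option (Fin m) → Option (Fin m) → Prop) (s : Fin m → ℂ)
    (hs : ∀ i j, R i j → hat s i = hat s j) {u v : Option (Fin m)}
    (p : (SimpleGraph.fromRel R).Walk u v) : hat s u = hat s v := by
  induction p with
  | nil => rfl
  | cons h p ih =>
    rw [SimpleGraph.fromRel_adj] at h
    rcases h.2 with h1 | h1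
    · rw [hs _ _ h1, ih]
    · rw [← hs _ _ h1, ih]

lemma part1 (R : Option (Fin m) → Option (Fin m) → Prop)
    (hT : (SimpleGraph.fromRel R).IsTree) (s : Fin m → ℂ)
    (hs : ∀ i j, R i j → hat s i = hat s j) : s = 0 := by
  funext i
  obtain ⟨p⟩ := hT.connected.preconnected (some i) none
  have h := walk_const R s hs p
  exact h

/-- differences along the pairs of `R` -/
noncomputable def phi (R : Option (Fin m) → Option (Fin m) → Prop) :
    (Fin m → ℂ) →ₗ[ℂ] ({p : Option (Fin m) × Option (Fin m) // R p.1 p.2} → ℂ) where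
  toFun s := fun p => hat s p.1.1 - hat s p.1.2
  map_add' s t := by
    funext p
    have h : ∀ i : Option (Fin m), hat (s + t) i = hat s i + hat t i := by
      intro i
      cases i <;> simp [hat]
    simp only [h, Pi.add_apply]
    ring
  map_smul' c s := by
    funext p
    have h : ∀ i : Option (Fin m), hat (c • s) i = c * hat s i := by
      intro i
      cases i <;> simp [hat]
    simp only [h, Pi.smul_apply, RingHom.id_apply, smul_eq_mul]
    ring

lemma card_pairs (R : Option (Fin m) → Option (Fin m) → Prop)
    [Fintype {p : Option (Fin m) × Option (Fin m) // R p.1 p.2}]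
    (hR : ∀ i j, R i j → ¬ R j i) (hT : (SimpleGraph.fromRel R).IsTree) :
    Fintype.card {p : Option (Fin m) × Option (Fin m) // R p.1 p.2} ≤ m := by
  classical
  have h1 := hT.card_edgeFinset
  rw [Fintype.card_option, Fintype.card_fin] at h1
  have h2 : Fintype.card {p : Option (Fin m) × Option (Fin m) // R p.1 p.2} ≤
      Fintype.card (SimpleGraph.fromRel R).edgeSet := by
    have hmem : ∀ p : {p : Option (Fin m) × Option (Fin m) // R p.1 p.2},
        s(p.1.1, p.1.2) ∈ (SimpleGraph.fromRel R).edgeSet := by
      intro p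
      rw [SimpleGraph.mem_edgeSet, SimpleGraph.fromRel_adj]
      refine ⟨fun h => ?_, Or.inl p.2⟩
      have h3 := p.2
      rw [h] at h3
      exact hR _ _ h3 h3
    refine Fintype.card_le_of_injective (fun p => ⟨s(p.1.1, p.1.2), hmem p⟩) ?_
    rintro ⟨⟨a, b⟩, h⟩ ⟨⟨c, d⟩, h'⟩ he
    have he' : s(a, b) = s(c, d) := congrArg Subtype.val he
    rw [Sym2.eq_iff] at he'
    rcases he' with ⟨rfl, rfl⟩ | ⟨rfl, rfl⟩
    · rfl
    · exact absurd h' (hR _ _ h)
  have h3 : (SimpleGraph.fromRel R).edgeFinset.card =
      Fintype.card (SimpleGraph.fromRel R).edgeSet := SimpleGraph.edgeFinset_card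
  omega

end TRE

open TRE in
theorem t_TRE : S_TRE := by
  classical
  intro m R _ hR hT
  refine ⟨part1 R hT, ?_⟩
  intro c hc a b hab
  have hinj : Function.Injective (phi R) := by
    rw [← LinearMap.ker_eq_bot, LinearMap.ker_eq_bot']
    intro s hs
    refine part1 R hT s fun i j hij => ?_
    have := congrFun hs ⟨(i, j), hij⟩
    exact sub_eq_zero.1 this
  have hf1 : Module.finrank ℂ (Fin m → ℂ) = m := Module.finrank_fin_fun ℂ
  have hf2 : Module.finrank ℂ ({p : Option (Fin m) × Option (Fin m) // R p.1 p.2} → ℂ) =
      Fintype.card {p : Option (Fin m) × Option (Fin m) // R p.1 p.2} := Module.finrank_pi ℂ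
  have hle := LinearMap.finrank_le_finrank_of_injective hinj
  have hcard := card_pairs R hR hT
  have hsurj : Function.Surjective (phi R) :=
    (LinearMap.injective_iff_surjective_of_finrank_eq_finrank (by omega)).1 hinj
  obtain ⟨s, hs⟩ := hsurj (Pi.single ⟨(a, b), hab⟩ 1)
  have h1 := hc s
  have h2 : ∀ i j : Option (Fin m), (if R i j then (hat s i - hat s j) * c i j else 0) =
      if i = a then (if j = b then c a b else 0) else 0 := by
    intro i j
    by_cases hij : R i j
    · rw [if_pos hij]
      have h3 : hat s i - hat s j = (Pi.single ⟨(a, b), hab⟩ 1 :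
          {p : Option (Fin m) × Option (Fin m) // R p.1 p.2} → ℂ) ⟨(i, j), hij⟩ :=
        congrFun hs ⟨(i, j), hij⟩
      rw [h3]
      by_cases hi : i = a
      · by_cases hj : j = b
        · subst hi hj
          rw [Pi.single_eq_same, one_mul, if_pos rfl, if_pos rfl]
        · rw [Pi.single_eq_of_ne, zero_mul, if_pos hi, if_neg hj]
          intro h
          exact hj (congrArg (fun q => q.1.2) h)
      · rw [Pi.single_eq_of_ne, zero_mul, if_neg hi]
        intro h
        exact hi (congrArg (fun q => q.1.1) h)
    · rw [if_neg hij]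
      by_cases hi : i = a
      · by_cases hj : j = b
        · subst hi hj
          exact absurd hab hij
        · rw [if_pos hi, if_neg hj]
      · rw [if_neg hi]
  simp only [h2] at h1
  rw [Finset.sum_eq_single a, Finset.sum_eq_single b] at h1
  · simpa using h1
  · intro j _ hj
    rw [if_pos rfl, if_neg hj]
  · intro h
    exact absurd (Finset.mem_univ _) h
  · intro i _ hi
    exact Finset.sum_eq_zero fun j _ => if_neg hi
  · intro h
    exact absurd (Finset.mem_univ _) h

end Pool.Agent.N917.AF
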