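import Pool.Agent.N917.AF.UNM
import Pool.Agent.N917.AF.CASM
import Pool.Agent.N917.AF.CMOR
import Pool.Agent.N917.AF.CADD
import Pool.Agent.N917.AF.CSYM
import Pool.Agent.N917.AF.CFRO
import Pool.Agent.N917.AF.TRE
import Pool.Agent.N917.AF.CSUF
import Pool.Agent.N917.AF.STB
import Pool.Agent.N917.AF.EUC
import Pool.Agent.N917.AF.CS1
import Pool.Agent.N917.AF.CS2
import Pool.Agent.N917.AF.ASM2
import Pool.Agent.N917.AF.SEP
import Pool.Agent.N917.AF.CO2
import Pool.Agent.N917.AF.CPL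
import Pool.Agent.N917.AF.RD2
import Pool.Agent.N917.AF.BD2
import Pool.Agent.N917.AF.GENS
import Pool.Agent.N917.AF.GMOR
import Pool.Agent.N917.AF.GSUB
import Pool.Agent.N917.AF.GADD
import Pool.Agent.N917.AF.GSYM
import Pool.Agent.N917.AF.GCYC
import Pool.Agent.N917.AF.GTRF
import Pool.Agent.N917.AF.GBLD

/-!
# Anti-Frobenius algebras `S ⊕ M` (page MP_9890f7_al)

Notation (all definitions are in `Pool/Agent/N917/AF/Stm*.lean` and `GENS.lean`):

* `Bim S M`: `M` is an `S`-bimodule, not required to be unital, `b.L s m = s m`, `b.R s m = m s`;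
  `b.mul` is the product `(s, m) (s', m') = (s s', s m' + m s')` of `S ⊕ M = S × M`;
* `AF V mul`: the algebra `V` with product `mul` is anti-Frobenius;
* `b.Sub W`: `W` is a sub-bimodule; `b.Sympl W`: `W` has a nondegenerate antisymmetric form with
  `β (s x, y) = β (x, y s)`; `b.Frob W`: for some functional `l` the form `l (x y - y x)` is
  nondegenerate on `S ⊕ W`; `b.OpenFrob W`: some functional on `W` has an open orbit and its
  stabilizer is a Frobenius Lie algebra;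
* `PS n = ∏ Mat_(n i)`, `b.tr φ` is `b` as a bimodule over the isomorphic algebra, `ee n i` is the
  matrix unit `E_00` of the factor `i`, `mu b i j = dim e_i M e_j` for
  `i, j ∈ {none, 0, …, m-1}`, `e_i = ee n i`, `e_none = 1 - 1_S`, the multiplicities of `M`;
  `gm n μ` is the bimodule with multiplicities `μ` (the sum of `μ i j` copies of the
  `n i × n j` matrices, `n none = 1`, zero action on the side `none`);
  `skew μ i j = max (μ i j - μ j i) 0`; `Unmixed b`: `e_i M e_j = 0` for factors `i ≠ j`;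
* `mm b i j` is `mu b i j` for `S = ℂ^m`;
* `snk b ρ hρ n` is the bimodule `M ⊕ Mat_(n × ν)` over `S × Mat_n` with
  `(s, g) (w, Y) = (s w, g Y)`, `(w, Y) (s, g) = (w s, Y ρ(s))`, `src b ρ hρ n` the bimodule
  `M ⊕ Mat_(ν × n)` with `(s, g) (w, Y) = (s w, ρ(s) Y)`, `(w, Y) (s, g) = (w s, Y g)`.
-/

set_option autoImplicit false

namespace Pool.Agent.N917.AF

theorem t_RES2 : S_RES2 := t_ASM2 t_SEP t_CO2 t_CPL t_RD2 t_BD2

theorem t_GEN' : S_GEN :=
  t_GEN t_RES2 t_ISO t_GMOR (t_GSUB t_GMOR) t_GADD t_GSYM t_GCYC t_GTRF (t_GBLD t_GTRF)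

theorem rr_eq {m : ℕ} {n : Fin m → ℕ} [∀ i, NeZero (n i)] {M : Type} [AddCommGroup M]
    [Module ℂ M] (b : Bim (PS n) M) (i : Fin m) : rr b i = mu b none (some i) := by
  have h : b.R (ee n i) ∘ₗ (LinearMap.id - b.L 1) = lE b none ∘ₗ rE b (some i) := by
    ext x
    simp [lE, rE, b.comm]
  unfold rr mu
  rw [h]

/-- The results on the page. -/
theorem all_results :
    -- (1) reduction, for every semisimple `S` and every `M`
    (∀ (S M : Type) [Ring S] [Algebra ℂ S] [Module.Finite ℂ S] [IsSemisimpleRing S]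
      [AddCommGroup M] [Module ℂ M] [Module.Finite ℂ M] (b : Bim S M),
      (AF (S × M) b.mul ↔ ∃ M' M'' : Submodule ℂ M, b.Sub M' ∧ b.Sub M'' ∧ IsCompl M' M'' ∧
        b.Sympl M' ∧ b.Frob M'') ∧
      (∀ W, b.Sub W → (b.Frob W ↔ b.OpenFrob W)) ∧
      -- the canonical form of the reduction
      ∃ (m : ℕ) (n : Fin m → ℕ) (_ : ∀ i, NeZero (n i)) (φ : S ≃ₐ[ℂ] PS n),
        (AF (S × M) b.mul ↔ (∀ i, Even (mu (b.tr φ) i i)) ∧
          (gm n (skew (mu (b.tr φ)))).Frob ⊤)) ∧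
    -- (2) the canonical form for `S = ∏ Mat_(n i)`, and `M ≅ gm n (mu b)`
    (∀ (m : ℕ) (n : Fin m → ℕ) [∀ i, NeZero (n i)] (M : Type) [AddCommGroup M]
      [Module ℂ M] [Module.Finite ℂ M] (b : Bim (PS n) M),
      (∃ e : M ≃ₗ[ℂ] GM n (mu b), (∀ s x, e (b.L s x) = (gm n (mu b)).L s (e x)) ∧
        ∀ s x, e (b.R s x) = (gm n (mu b)).R s (e x)) ∧
      (AF (PS n × M) b.mul ↔
        (∀ i, Even (mu b i i)) ∧ (gm n (skew (mu b))).Frob ⊤) ∧
      ((gm n (skew (mu b))).Frob ⊤ ↔ (gm n (skew (mu b))).OpenFrob ⊤)) ∧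
    -- (3) no components between different simple factors
    (∀ (m : ℕ) (n : Fin m → ℕ) [∀ i, NeZero (n i)] (M : Type) [AddCommGroup M]
      [Module ℂ M] [Module.Finite ℂ M] (b : Bim (PS n) M), Unmixed b →
      (AF (PS n × M) b.mul ↔ (∀ i, Even (mu b i i)) ∧ ∀ i : Fin m, ∃ a : ℕ, 1 ≤ a ∧ a ∣ n i ∧
        (mu b (some i) none = mu b none (some i) + a ∨
          mu b none (some i) = mu b (some i) none + a))) ∧
    -- (4) `S = ℂ^m`
    (∀ (m : ℕ) (M : Type) [AddCommGroup M] [Module ℂ M] [Module.Finite ℂ M]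
      (b : Bim (Fin m → ℂ) M),
      AF ((Fin m → ℂ) × M) b.mul ↔ (∀ i, Even (mm b i i)) ∧ (∀ i j, mm b i j ≤ mm b j i + 1) ∧
        (SimpleGraph.fromRel (fun i j => mm b i j ≠ mm b j i)).IsTree) ∧
    -- (5) Euclidean step and castling
    (∀ (S M : Type) [Ring S] [Algebra ℂ S] [AddCommGroup M] [Module ℂ M]
      [Module.Finite ℂ S] [Module.Finite ℂ M] (b : Bim S M) (ν : ℕ)
      (ρ : S →ₗ[ℂ] Matrix (Fin ν) (Fin ν) ℂ) (hρ : ∀ s s', ρ (s * s') = ρ s * ρ s') (n : ℕ),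
      ((snk b ρ hρ (ν + n)).Frob ⊤ ↔ (snk b ρ hρ n).Frob ⊤) ∧
      ∀ n', n + n' = ν → ((snk b ρ hρ n).Frob ⊤ ↔ (src b ρ hρ n').Frob ⊤)) := by
  refine ⟨fun S M _ _ _ _ _ _ _ b => ⟨t_RES2 S M b, fun W hW => t_STB S M b W hW,
    t_GENS t_ISO t_GEN' S M b⟩, fun m n _ M _ _ _ b => ⟨t_GMOR m n M b, t_GEN' m n M b,
      t_STB _ _ _ ⊤ (fun _ _ _ => ⟨trivial, trivial⟩)⟩, fun m n _ M _ _ _ b hU => ?_,
    fun m M _ _ _ b => ?_, fun S M _ _ _ _ _ _ b ν ρ hρ n => ⟨t_EUC S M b ν ρ hρ n,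
      fun n' hn => (t_CS1 S M b ν ρ hρ n n' hn).trans (t_CS2 S M b ν ρ hρ n n' hn).symm⟩⟩
  · rw [unm m n M b hU]
    have h1 : tt b = mu b none none := rfl
    have h2 : ∀ i, pp b i = mu b (some i) (some i) := fun i => rfl
    have h3 : ∀ i, qq b i = mu b (some i) none := fun i => rfl
    have h4 : ∀ i, rr b i = mu b none (some i) := fun i => rr_eq b i
    simp only [h1, h2, h3, h4]
    constructor
    · rintro ⟨h5, h6⟩
      refine ⟨fun i => ?_, fun i => (h6 i).2⟩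
      cases i with
      | none => exact h5
      | some i => exact (h6 i).1
    · rintro ⟨h5, h6⟩
      exact ⟨h5 none, fun i => ⟨h5 (some i), h6 i⟩⟩
  · exact t_COMM t_RES2 t_ISO t_CMOR t_CADD t_CSYM t_CFRO (t_CSUF t_TRE) m M b

end Pool.Agent.N917.AF
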