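import Pool.Agent.N917.AF.Stm

/-!
Project AF, leaf BC (helper973): base change in the column vectors.
-/

set_option autoImplicit false

namespace Pool.Agent.N917.AF

open Matrix

namespace BC

variable {n p q r : ℕ}

/-- base change of a family of vectors -/
noncomputable def cb (P : Matrix (Fin q) (Fin q) ℂ) (w : Fin q → Fin n → ℂ) : Fin q → Fin n → ℂ :=
  fun j => ∑ i, P i j • w i

theorem cb_cb (P P' : Matrix (Fin q) (Fin q) ℂ) (h : P' * P = 1) (w : Fin q → Fin n → ℂ) :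
    cb P (cb P' w) = w := by
  funext j
  unfold cb
  have e1 : ∀ i, P i j • ∑ k, P' k i • w k = ∑ k, (P' k i * P i j) • w k := by
    intro i
    rw [Finset.smul_sum]
    refine Finset.sum_congr rfl fun k _ => ?_
    rw [smul_smul, mul_comm]
  simp only [e1]
  rw [Finset.sum_comm]
  have e2 : ∀ k, ∑ i, (P' k i * P i j) • w k = (if k = j then w k else 0) := by
    intro k
    rw [← Finset.sum_smul, ← Matrix.mul_apply, h, Matrix.one_apply]
    split_ifs <;> simp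
  simp only [e2, Finset.sum_ite_eq', Finset.mem_univ, if_true]

/-- base change of the elements of `B` -/
noncomputable def tau (P : Matrix (Fin q) (Fin q) ℂ) (x : B n p q r) : B n p q r :=
  (x.1, x.2.1, cb P x.2.2.1, x.2.2.2)

theorem tau_tau (P P' : Matrix (Fin q) (Fin q) ℂ) (h : P' * P = 1) (x : B n p q r) :
    tau P (tau P' x) = x := by
  unfold tau
  rw [cb_cb P P' h]

theorem tau_zero (P : Matrix (Fin q) (Fin q) ℂ) : tau P (0 : B n p q r) = 0 := by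
  unfold tau
  have : cb P (0 : Fin q → Fin n → ℂ) = 0 := by
    funext j
    simp [cb]
  change ((0 : Matrix (Fin n) (Fin n) ℂ), (0 : Fin p → Matrix (Fin n) (Fin n) ℂ),
    cb P (0 : Fin q → Fin n → ℂ), (0 : Fin r → Fin n → ℂ)) = 0
  rw [this]
  rfl

theorem term3 (P : Matrix (Fin q) (Fin q) ℂ) (ξ : Fin q → Fin n → ℂ)
    (s t : Matrix (Fin n) (Fin n) ℂ) (v w : Fin q → Fin n → ℂ) :
    ∑ k, (∑ j, P k j • ξ j) ⬝ᵥ (s *ᵥ w k - t *ᵥ v k) =
      ∑ k, ξ k ⬝ᵥ (s *ᵥ cb P w k - t *ᵥ cb P v k) := by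
  have e1 : ∀ k, (∑ j, P k j • ξ j) ⬝ᵥ (s *ᵥ w k - t *ᵥ v k) =
      ∑ j, P k j * (ξ j ⬝ᵥ (s *ᵥ w k - t *ᵥ v k)) := by
    intro k
    rw [sum_dotProduct]
    refine Finset.sum_congr rfl fun j _ => ?_
    rw [smul_dotProduct, smul_eq_mul]
  have e2 : ∀ k, ξ k ⬝ᵥ (s *ᵥ cb P w k - t *ᵥ cb P v k) =
      ∑ j, P j k * (ξ k ⬝ᵥ (s *ᵥ w j - t *ᵥ v j)) := by
    intro k
    have e3 : s *ᵥ cb P w k - t *ᵥ cb P v k = ∑ j, P j k • (s *ᵥ w j - t *ᵥ v j) := by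
      unfold cb
      rw [mulVec_sum, mulVec_sum, ← Finset.sum_sub_distrib]
      refine Finset.sum_congr rfl fun j _ => ?_
      rw [mulVec_smul, mulVec_smul, smul_sub]
    rw [e3, dotProduct_sum]
    refine Finset.sum_congr rfl fun j _ => ?_
    rw [dotProduct_smul, smul_eq_mul]
  simp only [e1, e2]
  rw [Finset.sum_comm]

theorem term6 (P : Matrix (Fin q) (Fin q) ℂ) (κ : Matrix (Fin q) (Fin r) ℂ)
    (v w : Fin q → Fin n → ℂ) (u t : Fin r → Fin n → ℂ) :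
    ∑ j, ∑ k, (P * κ) j k * (v j ⬝ᵥ t k - u k ⬝ᵥ w j) =
      ∑ j, ∑ k, κ j k * (cb P v j ⬝ᵥ t k - u k ⬝ᵥ cb P w j) := by
  have e1 : ∀ j k, (P * κ) j k * (v j ⬝ᵥ t k - u k ⬝ᵥ w j) =
      ∑ i, P j i * κ i k * (v j ⬝ᵥ t k - u k ⬝ᵥ w j) := by
    intro j k
    rw [Matrix.mul_apply, Finset.sum_mul]
  have e2 : ∀ i k, κ i k * (cb P v i ⬝ᵥ t k - u k ⬝ᵥ cb P w i) =
      ∑ j, P j i * κ i k * (v j ⬝ᵥ t k - u k ⬝ᵥ w j) := by
    intro i k
    unfold cb
    rw [sum_dotProduct, dotProduct_sum, ← Finset.sum_sub_distrib, Finset.mul_sum]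
    refine Finset.sum_congr rfl fun j _ => ?_
    rw [smul_dotProduct, dotProduct_smul, smul_eq_mul, smul_eq_mul]
    ring
  simp only [e1, e2]
  rw [Finset.sum_comm]
  conv_rhs => rw [Finset.sum_comm]
  refine Finset.sum_congr rfl fun k _ => ?_
  rw [Finset.sum_comm]

theorem std_tau (Λ : Matrix (Fin n) (Fin n) ℂ)
    (l : Fin p → Matrix (Fin n) (Fin n) ℂ) (ξ : Fin q → Fin n → ℂ) (η : Fin r → Fin n → ℂ)
    (β : Matrix (Fin p) (Fin p) ℂ) (κ : Matrix (Fin q) (Fin r) ℂ) (P : Matrix (Fin q) (Fin q) ℂ)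
    (x y : B n p q r) :
    std Λ l (fun i => ∑ j, P i j • ξ j) η β (P * κ) x y = std Λ l ξ η β κ (tau P x) (tau P y) := by
  unfold std
  rw [term3, term6]
  rfl

end BC

open BC

theorem t_BC : S_BC := by
  intro n p q r Λ l ξ η β κ P hP hND x hx
  have h1 : P * P⁻¹ = 1 := Matrix.mul_nonsing_inv P hP
  have h2 : P⁻¹ * P = 1 := Matrix.nonsing_inv_mul P hP
  have h3 : tau P x = 0 := by
    refine hND _ fun y => ?_
    have h4 := hx (tau P⁻¹ y)
    rw [std_tau, tau_tau P P⁻¹ h2] at h4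
    exact h4
  rw [← tau_tau P⁻¹ P h1 x, h3, tau_zero]

end Pool.Agent.N917.AF
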