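import Pool.Agent.N917.AF.Stm

set_option autoImplicit false

namespace Pool.Agent.N917.AF

open Matrix

namespace BLD

/-- the standard symplectic form -/
noncomputable def bet (p : ℕ) : Matrix (Fin (p + p)) (Fin (p + p)) ℂ := fun i j =>
  Fin.addCases (fun i' => Fin.addCases (fun _ => (0 : ℂ)) (fun j' => if i' = j' then 1 else 0) j)
    (fun i' => Fin.addCases (fun j' => if i' = j' then (-1 : ℂ) else 0) (fun _ => 0) j) i

theorem bet_ll {p : ℕ} (i j : Fin p) : bet p (Fin.castAdd p i) (Fin.castAdd p j) = 0 := by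
  simp only [bet, Fin.addCases_left]

theorem bet_lr {p : ℕ} (i j : Fin p) : bet p (Fin.castAdd p i) (Fin.natAdd p j) = if i = j then 1 else 0 := by
  simp only [bet, Fin.addCases_left, Fin.addCases_right]

theorem bet_rl {p : ℕ} (i j : Fin p) : bet p (Fin.natAdd p i) (Fin.castAdd p j) = if i = j then -1 else 0 := by
  simp only [bet, Fin.addCases_left, Fin.addCases_right]

theorem bet_rr {p : ℕ} (i j : Fin p) : bet p (Fin.natAdd p i) (Fin.natAdd p j) = 0 := by
  simp only [bet, Fin.addCases_right]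

theorem bet_anti (p : ℕ) (j k : Fin (p + p)) : bet p j k = -bet p k j := by
  refine Fin.addCases (fun j => ?_) (fun j => ?_) j <;> refine Fin.addCases (fun k => ?_) (fun k => ?_) k
  · rw [bet_ll, bet_ll]; simp
  · rw [bet_lr, bet_rl]
    by_cases h : j = k
    · subst h; simp
    · rw [if_neg h, if_neg (fun h' => h h'.symm)]; simp
  · rw [bet_lr, bet_rl]
    by_cases h : j = k
    · subst h; simp
    · rw [if_neg h, if_neg (fun h' => h h'.symm)]; simp
  · rw [bet_rr, bet_rr]; simp

theorem mat_zero {n : ℕ} {A : Matrix (Fin n) (Fin n) ℂ} (h : ∀ C, trace (A * C) = 0) : A = 0 := by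
  ext i j
  have h1 := h (Matrix.single j i 1)
  rw [Matrix.trace_mul_comm] at h1
  rw [Matrix.zero_apply, ← h1]
  simp [Matrix.trace, Matrix.mul_apply, Matrix.single, Finset.sum_ite_eq, ite_and]

theorem vec_zero {n : ℕ} {v : Fin n → ℂ} (h : ∀ w : Fin n → ℂ, v ⬝ᵥ w = 0) : v = 0 := by
  ext i
  have h1 := h (Pi.single i 1)
  simpa using h1

end BLD

open BLD in
theorem t_BLD : S_BLD := by
  intro n a p r Λ ξ hND
  refine ⟨Fin.append (fun _ => 0) ξ, bet p, bet_anti p, ?_⟩
  rintro ⟨s, m, v, u⟩ hx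
  -- the matrices
  have hm : ∀ m' : Fin (p + p) → Matrix (Fin n) (Fin n) ℂ, ∑ j, ∑ k, bet p j k * trace (m j * m' k) = 0 := by
    intro m'
    have h := hx (0, m', 0, 0)
    simpa [std] using h
  have hm1 : ∀ k0 C, ∑ j, bet p j k0 * trace (m j * C) = 0 := by
    intro k0 C
    have h := hm (Pi.single k0 C)
    rw [← h]
    refine Finset.sum_congr rfl fun j _ => ?_
    rw [Finset.sum_eq_single k0]
    · rw [Pi.single_eq_same]
    · intro b _ hb
      rw [Pi.single_eq_of_ne hb]
      simp
    · intro hk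
      exact absurd (Finset.mem_univ _) hk
  have m0 : m = 0 := by
    funext j
    refine Fin.addCases (fun j0 => ?_) (fun j0 => ?_) j
    · refine mat_zero fun C => ?_
      have h := hm1 (Fin.natAdd p j0) C
      rw [Fin.sum_univ_add] at h
      simp only [bet_lr, bet_rr] at h
      simpa [-Fin.natAdd_eq_addNat] using h
    · refine mat_zero fun C => ?_
      have h := hm1 (Fin.castAdd p j0) C
      rw [Fin.sum_univ_add] at h
      simp only [bet_ll, bet_rl] at h
      simpa [-Fin.natAdd_eq_addNat] using h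
  subst m0
  have hκ : ∀ (k0 : Fin r) (f : Fin (r + a) → ℂ), ∑ j, kst r a j k0 * f j = f (Fin.castAdd a k0) := by
    intro k0 f
    rw [Finset.sum_eq_single (Fin.castAdd a k0)]
    · simp [kst]
    · intro b _ hb
      have : (b : ℕ) ≠ (k0 : ℕ) := fun h => hb (Fin.ext (by simpa using h))
      simp [kst, this]
    · intro hk
      exact absurd (Finset.mem_univ _) hk
  -- the first column vectors
  have hv : ∀ k0, v (Fin.castAdd a k0) = 0 := by
    intro k0
    refine vec_zero fun w => ?_
    have h := hx (0, 0, 0, Pi.single k0 w)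
    have h1 : ∑ j, ∑ k, kst r a j k * (v j ⬝ᵥ (Pi.single k0 w : Fin r → Fin n → ℂ) k) = 0 := by
      simpa [std] using h
    have h2 : ∀ j, ∑ k, kst r a j k * (v j ⬝ᵥ (Pi.single k0 w : Fin r → Fin n → ℂ) k) = kst r a j k0 * (v j ⬝ᵥ w) := by
      intro j
      rw [Finset.sum_eq_single k0]
      · rw [Pi.single_eq_same]
      · intro b _ hb
        rw [Pi.single_eq_of_ne hb]
        simp
      · intro hk
        exact absurd (Finset.mem_univ _) hk
    simp only [h2] at h1
    rw [hκ k0 (fun j => v j ⬝ᵥ w)] at h1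
    exact h1
  -- the row vectors
  have hu : u = 0 := by
    funext k0
    refine vec_zero fun w => ?_
    have h := hx (0, 0, Pi.single (Fin.castAdd a k0) w, 0)
    have h1 : ∑ k, (Fin.append (fun _ => 0) ξ : Fin (r + a) → Fin n → ℂ) k ⬝ᵥ
        (s *ᵥ (Pi.single (Fin.castAdd a k0) w : Fin (r + a) → Fin n → ℂ) k) -
        ∑ j, ∑ k, kst r a j k * (u k ⬝ᵥ (Pi.single (Fin.castAdd a k0) w : Fin (r + a) → Fin n → ℂ) j) = 0 := by
      simpa [std, sub_eq_add_neg] using h
    have h2 : ∑ k, (Fin.append (fun _ => 0) ξ : Fin (r + a) → Fin n → ℂ) k ⬝ᵥ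
        (s *ᵥ (Pi.single (Fin.castAdd a k0) w : Fin (r + a) → Fin n → ℂ) k) = 0 := by
      rw [Fin.sum_univ_add]
      have e1 : ∀ i : Fin a, (Pi.single (Fin.castAdd a k0) w : Fin (r + a) → Fin n → ℂ) (Fin.natAdd r i) = 0 := by
        intro i
        rw [Pi.single_eq_of_ne]
        intro hh
        have := congrArg Fin.val hh
        simp at this
        omega
      simp [e1, Fin.append_left]
    rw [h2, zero_sub, neg_eq_zero, Finset.sum_comm] at h1
    have h3 : ∀ k, ∑ j, kst r a j k * (u k ⬝ᵥ (Pi.single (Fin.castAdd a k0) w : Fin (r + a) → Fin n → ℂ) j) =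
        u k ⬝ᵥ (Pi.single (Fin.castAdd a k0) w : Fin (r + a) → Fin n → ℂ) (Fin.castAdd a k) := fun k =>
      hκ k (fun j => u k ⬝ᵥ (Pi.single (Fin.castAdd a k0) w : Fin (r + a) → Fin n → ℂ) j)
    simp only [h3] at h1
    rw [Finset.sum_eq_single k0] at h1
    · rwa [Pi.single_eq_same] at h1
    · intro b _ hb
      rw [Pi.single_eq_of_ne (fun hh => hb (Fin.castAdd_injective _ _ hh))]
      simp
    · intro hk
      exact absurd (Finset.mem_univ _) hk
  subst hu
  -- the rest
  have key := hND s (fun k => v (Fin.natAdd r k)) (by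
    intro s' v'
    have h := hx (s', 0, Fin.append (fun _ => 0) v', 0)
    have h1 : trace (Λ * (s * s' - s' * s)) + ∑ k, (Fin.append (fun _ => 0) ξ : Fin (r + a) → Fin n → ℂ) k ⬝ᵥ
        (s *ᵥ (Fin.append (fun _ => 0) v' : Fin (r + a) → Fin n → ℂ) k - s' *ᵥ v k) = 0 := by
      simpa [std] using h
    rw [Fin.sum_univ_add] at h1
    simpa using h1)
  obtain ⟨hs, hv2⟩ := key
  subst hs
  have hv0 : v = 0 := by
    funext j
    refine Fin.addCases (fun j0 => ?_) (fun j0 => ?_) j
    · exact hv j0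
    · exact congrFun hv2 j0
  subst hv0
  rfl

end Pool.Agent.N917.AF
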