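import Pool.Agent.N917.AF.Stm

/-!
The standard form is a cocycle.
-/

set_option autoImplicit false

namespace Pool.Agent.N917.AF

open Matrix

namespace COC

variable {n p q r : ℕ}

/-- linear on the left, antisymmetric, cyclic -/
structure IsC (f : B n p q r → B n p q r → ℂ) : Prop where
  add : ∀ x x' y, f (x + x') y = f x y + f x' y
  smul : ∀ (c : ℂ) x y, f (c • x) y = c * f x y
  anti : ∀ x y, f x y = -f y x
  cyc : ∀ x y z, f x (mulB y z) + f y (mulB z x) + f z (mulB x y) = 0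

theorem IsC.plus {f g : B n p q r → B n p q r → ℂ} (hf : IsC f) (hg : IsC g) :
    IsC (fun x y => f x y + g x y) where
  add := fun x x' y => by
    show f (x + x') y + g (x + x') y = _
    rw [hf.add, hg.add]; ring
  smul := fun c x y => by
    show f (c • x) y + g (c • x) y = _
    rw [hf.smul, hg.smul]; ring
  anti := fun x y => by
    show f x y + g x y = _
    rw [hf.anti, hg.anti]; ring
  cyc := fun x y z => by
    have h1 := hf.cyc x y z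
    have h2 := hg.cyc x y z
    linear_combination h1 + h2

theorem IsC.scal {f : B n p q r → B n p q r → ℂ} (hf : IsC f) (a : ℂ) :
    IsC (fun x y => a * f x y) where
  add := fun x x' y => by
    show a * f (x + x') y = _
    rw [hf.add]; ring
  smul := fun c x y => by
    show a * f (c • x) y = _
    rw [hf.smul]; ring
  anti := fun x y => by
    show a * f x y = _
    rw [hf.anti]; ring
  cyc := fun x y z => by
    have h1 := hf.cyc x y z
    linear_combination a * h1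

theorem IsC.sum {ι : Type} (s : Finset ι) {f : ι → B n p q r → B n p q r → ℂ}
    (hf : ∀ i, IsC (f i)) : IsC (fun x y => ∑ i ∈ s, f i x y) where
  add := fun x x' y => by
    show ∑ i ∈ s, f i (x + x') y = _
    rw [← Finset.sum_add_distrib]
    exact Finset.sum_congr rfl fun i _ => (hf i).add x x' y
  smul := fun c x y => by
    show ∑ i ∈ s, f i (c • x) y = _
    rw [Finset.mul_sum]
    exact Finset.sum_congr rfl fun i _ => (hf i).smul c x y
  anti := fun x y => by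
    show ∑ i ∈ s, f i x y = -∑ i ∈ s, f i y x
    rw [← Finset.sum_neg_distrib]
    exact Finset.sum_congr rfl fun i _ => (hf i).anti x y
  cyc := fun x y z => by
    show ∑ i ∈ s, f i x (mulB y z) + ∑ i ∈ s, f i y (mulB z x) + ∑ i ∈ s, f i z (mulB x y) = 0
    rw [← Finset.sum_add_distrib, ← Finset.sum_add_distrib]
    exact Finset.sum_eq_zero fun i _ => (hf i).cyc x y z

theorem t1 (Λ : Matrix (Fin n) (Fin n) ℂ) :
    IsC (fun x y : B n p q r => trace (Λ * (x.1 * y.1 - y.1 * x.1))) where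
  add := fun x x' y => by
    show trace (Λ * ((x.1 + x'.1) * y.1 - y.1 * (x.1 + x'.1))) = _
    rw [← trace_add]; congr 1; noncomm_ring
  smul := fun c x y => by
    show trace (Λ * ((c • x.1) * y.1 - y.1 * (c • x.1))) = _
    rw [Matrix.smul_mul, Matrix.mul_smul, ← smul_sub, Matrix.mul_smul, trace_smul, smul_eq_mul]
  anti := fun x y => by
    show trace (Λ * (x.1 * y.1 - y.1 * x.1)) = _
    rw [← trace_neg]; congr 1; noncomm_ring
  cyc := fun x y z => by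
    show trace (Λ * (x.1 * (y.1 * z.1) - (y.1 * z.1) * x.1))
      + trace (Λ * (y.1 * (z.1 * x.1) - (z.1 * x.1) * y.1))
      + trace (Λ * (z.1 * (x.1 * y.1) - (x.1 * y.1) * z.1)) = 0
    rw [← trace_add, ← trace_add, ← Matrix.trace_zero (n := Fin n)]; congr 1; noncomm_ring

theorem t2 (l : Matrix (Fin n) (Fin n) ℂ) (k : Fin p) :
    IsC (fun x y : B n p q r =>
      trace (l * (x.1 * y.2.1 k + x.2.1 k * y.1 - y.1 * x.2.1 k - y.2.1 k * x.1))) where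
  add := fun x x' y => by
    show trace (l * ((x.1 + x'.1) * y.2.1 k + (x.2.1 k + x'.2.1 k) * y.1
      - y.1 * (x.2.1 k + x'.2.1 k) - y.2.1 k * (x.1 + x'.1))) = _
    rw [← trace_add]; congr 1; noncomm_ring
  smul := fun c x y => by
    show trace (l * ((c • x.1) * y.2.1 k + (c • x.2.1 k) * y.1
      - y.1 * (c • x.2.1 k) - y.2.1 k * (c • x.1))) = _
    rw [Matrix.smul_mul, Matrix.smul_mul, Matrix.mul_smul, Matrix.mul_smul, ← smul_add,
      ← smul_sub, ← smul_sub, Matrix.mul_smul, trace_smul, smul_eq_mul]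
  anti := fun x y => by
    show trace (l * (x.1 * y.2.1 k + x.2.1 k * y.1 - y.1 * x.2.1 k - y.2.1 k * x.1)) = _
    rw [← trace_neg]; congr 1; noncomm_ring
  cyc := fun x y z => by
    show trace (l * (x.1 * (y.1 * z.2.1 k + y.2.1 k * z.1) + x.2.1 k * (y.1 * z.1)
        - (y.1 * z.1) * x.2.1 k - (y.1 * z.2.1 k + y.2.1 k * z.1) * x.1))
      + trace (l * (y.1 * (z.1 * x.2.1 k + z.2.1 k * x.1) + y.2.1 k * (z.1 * x.1)
        - (z.1 * x.1) * y.2.1 k - (z.1 * x.2.1 k + z.2.1 k * x.1) * y.1))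
      + trace (l * (z.1 * (x.1 * y.2.1 k + x.2.1 k * y.1) + z.2.1 k * (x.1 * y.1)
        - (x.1 * y.1) * z.2.1 k - (x.1 * y.2.1 k + x.2.1 k * y.1) * z.1)) = 0
    rw [← trace_add, ← trace_add, ← Matrix.trace_zero (n := Fin n)]; congr 1; noncomm_ring

theorem t3 (ξ : Fin n → ℂ) (k : Fin q) :
    IsC (fun x y : B n p q r => ξ ⬝ᵥ (x.1 *ᵥ y.2.2.1 k - y.1 *ᵥ x.2.2.1 k)) where
  add := fun x x' y => by
    show ξ ⬝ᵥ ((x.1 + x'.1) *ᵥ y.2.2.1 k - y.1 *ᵥ (x.2.2.1 k + x'.2.2.1 k)) = _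
    rw [← dotProduct_add, add_mulVec, mulVec_add]; congr 1; abel
  smul := fun c x y => by
    show ξ ⬝ᵥ ((c • x.1) *ᵥ y.2.2.1 k - y.1 *ᵥ (c • x.2.2.1 k)) = _
    rw [smul_mulVec, mulVec_smul, ← smul_sub, dotProduct_smul, smul_eq_mul]
  anti := fun x y => by
    show ξ ⬝ᵥ (x.1 *ᵥ y.2.2.1 k - y.1 *ᵥ x.2.2.1 k) = _
    rw [← dotProduct_neg]; congr 1; abel
  cyc := fun x y z => by
    show ξ ⬝ᵥ (x.1 *ᵥ (y.1 *ᵥ z.2.2.1 k) - (y.1 * z.1) *ᵥ x.2.2.1 k)
      + ξ ⬝ᵥ (y.1 *ᵥ (z.1 *ᵥ x.2.2.1 k) - (z.1 * x.1) *ᵥ y.2.2.1 k)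
      + ξ ⬝ᵥ (z.1 *ᵥ (x.1 *ᵥ y.2.2.1 k) - (x.1 * y.1) *ᵥ z.2.2.1 k) = 0
    rw [← dotProduct_add, ← dotProduct_add, mulVec_mulVec, mulVec_mulVec, mulVec_mulVec]
    have : (x.1 * y.1) *ᵥ z.2.2.1 k - (y.1 * z.1) *ᵥ x.2.2.1 k
        + ((y.1 * z.1) *ᵥ x.2.2.1 k - (z.1 * x.1) *ᵥ y.2.2.1 k)
        + ((z.1 * x.1) *ᵥ y.2.2.1 k - (x.1 * y.1) *ᵥ z.2.2.1 k) = 0 := by abel
    rw [this, dotProduct_zero]

theorem t4 (η : Fin n → ℂ) (k : Fin r) :
    IsC (fun x y : B n p q r => η ⬝ᵥ (x.2.2.2 k ᵥ* y.1 - y.2.2.2 k ᵥ* x.1)) where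
  add := fun x x' y => by
    show η ⬝ᵥ ((x.2.2.2 k + x'.2.2.2 k) ᵥ* y.1 - y.2.2.2 k ᵥ* (x.1 + x'.1)) = _
    rw [← dotProduct_add, add_vecMul, vecMul_add]; congr 1; abel
  smul := fun c x y => by
    show η ⬝ᵥ ((c • x.2.2.2 k) ᵥ* y.1 - y.2.2.2 k ᵥ* (c • x.1)) = _
    rw [smul_vecMul, vecMul_smul, ← smul_sub, dotProduct_smul, smul_eq_mul]
  anti := fun x y => by
    show η ⬝ᵥ (x.2.2.2 k ᵥ* y.1 - y.2.2.2 k ᵥ* x.1) = _
    rw [← dotProduct_neg]; congr 1; abel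
  cyc := fun x y z => by
    show η ⬝ᵥ (x.2.2.2 k ᵥ* (y.1 * z.1) - (y.2.2.2 k ᵥ* z.1) ᵥ* x.1)
      + η ⬝ᵥ (y.2.2.2 k ᵥ* (z.1 * x.1) - (z.2.2.2 k ᵥ* x.1) ᵥ* y.1)
      + η ⬝ᵥ (z.2.2.2 k ᵥ* (x.1 * y.1) - (x.2.2.2 k ᵥ* y.1) ᵥ* z.1) = 0
    rw [← dotProduct_add, ← dotProduct_add, vecMul_vecMul, vecMul_vecMul, vecMul_vecMul]
    have : x.2.2.2 k ᵥ* (y.1 * z.1) - y.2.2.2 k ᵥ* (z.1 * x.1)
        + (y.2.2.2 k ᵥ* (z.1 * x.1) - z.2.2.2 k ᵥ* (x.1 * y.1))
        + (z.2.2.2 k ᵥ* (x.1 * y.1) - x.2.2.2 k ᵥ* (y.1 * z.1)) = 0 := by abel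
    rw [this, dotProduct_zero]

theorem t5 (β : Matrix (Fin p) (Fin p) ℂ) (hβ : ∀ j k, β j k = -β k j) :
    IsC (fun x y : B n p q r => ∑ j, ∑ k, β j k * trace (x.2.1 j * y.2.1 k)) where
  add := fun x x' y => by
    show ∑ j, ∑ k, β j k * trace ((x.2.1 j + x'.2.1 j) * y.2.1 k) = _
    simp only [add_mul, trace_add, mul_add, Finset.sum_add_distrib]
  smul := fun c x y => by
    show ∑ j, ∑ k, β j k * trace ((c • x.2.1 j) * y.2.1 k) = _
    simp only [Matrix.smul_mul, trace_smul, smul_eq_mul, Finset.mul_sum]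
    refine Finset.sum_congr rfl fun j _ => Finset.sum_congr rfl fun k _ => ?_
    ring
  anti := fun x y => by
    show ∑ j, ∑ k, β j k * trace (x.2.1 j * y.2.1 k)
      = -∑ j, ∑ k, β j k * trace (y.2.1 j * x.2.1 k)
    rw [Finset.sum_comm, ← Finset.sum_neg_distrib]
    refine Finset.sum_congr rfl fun k _ => ?_
    rw [← Finset.sum_neg_distrib]
    refine Finset.sum_congr rfl fun j _ => ?_
    rw [hβ j k, trace_mul_comm (x.2.1 j) (y.2.1 k)]
    ring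
  cyc := fun x y z => by
    have key : ∀ (f g s : B n p q r), ∑ j, ∑ k, β j k * trace (f.2.1 j * (s.1 * g.2.1 k))
        + ∑ j, ∑ k, β j k * trace (g.2.1 j * (f.2.1 k * s.1)) = 0 := by
      intro f g s
      rw [Finset.sum_comm, ← Finset.sum_add_distrib]
      refine Finset.sum_eq_zero fun k _ => ?_
      rw [← Finset.sum_add_distrib]
      refine Finset.sum_eq_zero fun j _ => ?_
      have e : trace (f.2.1 j * (s.1 * g.2.1 k)) = trace (g.2.1 k * (f.2.1 j * s.1)) := by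
        rw [← Matrix.mul_assoc, trace_mul_comm]
      rw [e, hβ j k]
      ring
    show ∑ j, ∑ k, β j k * trace (x.2.1 j * (y.1 * z.2.1 k + y.2.1 k * z.1))
      + ∑ j, ∑ k, β j k * trace (y.2.1 j * (z.1 * x.2.1 k + z.2.1 k * x.1))
      + ∑ j, ∑ k, β j k * trace (z.2.1 j * (x.1 * y.2.1 k + x.2.1 k * y.1)) = 0
    simp only [mul_add, trace_add, Finset.sum_add_distrib]
    have h1 := key x z y
    have h2 := key y x z
    have h3 := key z y x
    linear_combination h1 + h2 + h3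

theorem t6 (j : Fin q) (k : Fin r) :
    IsC (fun x y : B n p q r => x.2.2.1 j ⬝ᵥ y.2.2.2 k - x.2.2.2 k ⬝ᵥ y.2.2.1 j) where
  add := fun x x' y => by
    show (x.2.2.1 j + x'.2.2.1 j) ⬝ᵥ y.2.2.2 k - (x.2.2.2 k + x'.2.2.2 k) ⬝ᵥ y.2.2.1 j = _
    rw [add_dotProduct, add_dotProduct]; ring
  smul := fun c x y => by
    show (c • x.2.2.1 j) ⬝ᵥ y.2.2.2 k - (c • x.2.2.2 k) ⬝ᵥ y.2.2.1 j = _
    rw [smul_dotProduct, smul_dotProduct, smul_eq_mul, smul_eq_mul]; ring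
  anti := fun x y => by
    show x.2.2.1 j ⬝ᵥ y.2.2.2 k - x.2.2.2 k ⬝ᵥ y.2.2.1 j = _
    rw [dotProduct_comm (x.2.2.1 j), dotProduct_comm (x.2.2.2 k)]; ring
  cyc := fun x y z => by
    show (x.2.2.1 j ⬝ᵥ (y.2.2.2 k ᵥ* z.1) - x.2.2.2 k ⬝ᵥ (y.1 *ᵥ z.2.2.1 j))
      + (y.2.2.1 j ⬝ᵥ (z.2.2.2 k ᵥ* x.1) - y.2.2.2 k ⬝ᵥ (z.1 *ᵥ x.2.2.1 j))
      + (z.2.2.1 j ⬝ᵥ (x.2.2.2 k ᵥ* y.1) - z.2.2.2 k ⬝ᵥ (x.1 *ᵥ y.2.2.1 j)) = 0
    rw [dotProduct_comm (x.2.2.1 j), dotProduct_comm (y.2.2.1 j), dotProduct_comm (z.2.2.1 j),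
      ← dotProduct_mulVec, ← dotProduct_mulVec, ← dotProduct_mulVec]
    ring

end COC

open COC in
theorem t_COC : S_COC := by
  intro n p q r Λ l ξ η β κ hβ
  have hC : IsC (std Λ l ξ η β κ) := by
    have h := (((((t1 (p := p) (q := q) (r := r) Λ).plus
      (IsC.sum Finset.univ fun k => t2 (q := q) (r := r) (l k) k)).plus
      (IsC.sum Finset.univ fun k => t3 (p := p) (r := r) (ξ k) k)).plus
      (IsC.sum Finset.univ fun k => t4 (p := p) (q := q) (η k) k)).plus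
      (t5 (n := n) (q := q) (r := r) β hβ)).plus
      (IsC.sum Finset.univ fun j => IsC.sum Finset.univ fun k =>
        (t6 (n := n) (p := p) j k).scal (κ j k))
    exact h
  have hadd2 : ∀ x y y', std Λ l ξ η β κ x (y + y')
      = std Λ l ξ η β κ x y + std Λ l ξ η β κ x y' := by
    intro x y y'
    rw [hC.anti, hC.add, hC.anti y, hC.anti y']; ring
  have hsmul2 : ∀ (c : ℂ) x y, std Λ l ξ η β κ x (c • y) = c * std Λ l ξ η β κ x y := by
    intro c x y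
    rw [hC.anti, hC.smul, hC.anti y]; ring
  refine ⟨LinearMap.mk₂ ℂ (std Λ l ξ η β κ) hC.add hC.smul hadd2 hsmul2, ⟨?_, ?_⟩, ?_⟩
  · intro x y
    rw [LinearMap.mk₂_apply, LinearMap.mk₂_apply]
    exact hC.anti x y
  · intro x y z
    rw [LinearMap.mk₂_apply, LinearMap.mk₂_apply, LinearMap.mk₂_apply]
    exact hC.cyc x y z
  · intro x y
    rw [LinearMap.mk₂_apply]

end Pool.Agent.N917.AF
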