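import Pool.Agent.N917.AF.Stm

/-!
Project AF (helper917), leaf CORE: symplectic reduction (helper300).
-/

set_option autoImplicit false

namespace Pool.Agent.N917.AF

open Matrix

namespace CORE

theorem kst_sum {r a : ℕ} (F : Fin (r + a) → Fin r → ℂ) :
    ∑ j, ∑ k, kst r a j k * F j k = ∑ k, F (Fin.castAdd a k) k := by
  rw [Fin.sum_univ_add]
  have h1 : ∀ i : Fin r, ∑ k, kst r a (Fin.castAdd a i) k * F (Fin.castAdd a i) k =
      F (Fin.castAdd a i) i := by
    intro i
    rw [Finset.sum_eq_single i]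
    · simp [kst]
    · intro k _ hk
      have h : kst r a (Fin.castAdd a i) k = 0 := by
        unfold kst
        rw [if_neg]
        intro h
        apply hk
        apply Fin.ext
        simpa using h.symm
      rw [h, zero_mul]
    · simp
  have h2 : ∀ i : Fin a, ∑ k, kst r a (Fin.natAdd r i) k * F (Fin.natAdd r i) k = 0 := by
    intro i
    refine Finset.sum_eq_zero fun k _ => ?_
    have h : kst r a (Fin.natAdd r i) k = 0 := by
      unfold kst
      rw [if_neg]
      intro h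
      have h3 := k.2
      rw [Fin.val_natAdd] at h
      omega
    rw [h, zero_mul]
  rw [Finset.sum_congr rfl fun i _ => h1 i, Finset.sum_congr rfl fun i _ => h2 i]
  simp

theorem std_split {n p q r : ℕ} (Λ : Matrix (Fin n) (Fin n) ℂ)
    (l : Fin p → Matrix (Fin n) (Fin n) ℂ) (ξ : Fin q → Fin n → ℂ) (η : Fin r → Fin n → ℂ)
    (β : Matrix (Fin p) (Fin p) ℂ) (κ : Matrix (Fin q) (Fin r) ℂ)
    (s s' : Matrix (Fin n) (Fin n) ℂ) (m m' : Fin p → Matrix (Fin n) (Fin n) ℂ)
    (v v' : Fin q → Fin n → ℂ) (u u' : Fin r → Fin n → ℂ) :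
    std Λ l ξ η β κ (s, m, v, u) (s', m', v', u') =
      (trace (Λ * (s * s' - s' * s)) + ∑ k, trace (l k * (m k * s' - s' * m k)) -
        ∑ k, ξ k ⬝ᵥ (s' *ᵥ v k) + ∑ k, η k ⬝ᵥ (u k ᵥ* s')) +
      (∑ k, trace (l k * (s * m' k - m' k * s)) + ∑ j, ∑ k, β j k * trace (m j * m' k)) +
      (∑ k, ξ k ⬝ᵥ (s *ᵥ v' k) - ∑ j, ∑ k, κ j k * (u k ⬝ᵥ v' j)) +
      (∑ j, ∑ k, κ j k * (v j ⬝ᵥ u' k) - ∑ k, η k ⬝ᵥ (u' k ᵥ* s)) := by
  unfold std
  have e1 : ∀ k, trace (l k * (s * m' k + m k * s' - s' * m k - m' k * s)) =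
      trace (l k * (m k * s' - s' * m k)) + trace (l k * (s * m' k - m' k * s)) := by
    intro k
    rw [← trace_add, ← mul_add]
    congr 2
    abel
  simp only [e1]
  simp only [dotProduct_sub, mul_sub, Finset.sum_add_distrib, Finset.sum_sub_distrib]
  ring

theorem anti_sum {p : ℕ} (γ b : Fin p → Fin p → ℂ) (hγ : ∀ i k, γ i k = -γ k i)
    (hb : ∀ i k, b i k = b k i) : ∑ i, ∑ k, γ i k * b i k = 0 := by
  have h1 : ∑ i, ∑ k, γ i k * b i k = -∑ i, ∑ k, γ i k * b i k := by
    conv_lhs => rw [Finset.sum_comm]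
    rw [← Finset.sum_neg_distrib]
    refine Finset.sum_congr rfl fun i _ => ?_
    rw [← Finset.sum_neg_distrib]
    refine Finset.sum_congr rfl fun k _ => ?_
    rw [hγ k i, hb k i]
    ring
  have h2 : (2 : ℂ) * ∑ i, ∑ k, γ i k * b i k = 0 := by
    linear_combination h1
  exact (mul_eq_zero.1 h2).resolve_left two_ne_zero

theorem inv_anti {p : ℕ} (β : Matrix (Fin p) (Fin p) ℂ) (hβ : ∀ j k, β j k = -β k j)
    (hd : IsUnit β.det) : ∀ i k, β⁻¹ i k = -β⁻¹ k i := by
  have h1 : βᵀ = -β := by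
    ext i k
    rw [transpose_apply, neg_apply, hβ]
  have h2 : (β⁻¹)ᵀ = -β⁻¹ := by
    rw [transpose_nonsing_inv, h1]
    apply inv_eq_right_inv
    rw [neg_mul_neg, mul_nonsing_inv β hd]
  intro i k
  have h3 := congrFun (congrFun h2 k) i
  rw [transpose_apply, neg_apply] at h3
  exact h3

theorem cyc {n : ℕ} (A B C D : Matrix (Fin n) (Fin n) ℂ) :
    trace (A * B * C * D) = trace (D * A * B * C) := by
  rw [trace_mul_comm (A * B * C) D]
  congr 1
  simp only [mul_assoc]

theorem symm_id {n : ℕ} (a b s s' : Matrix (Fin n) (Fin n) ℂ) :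
    trace (b * ((s * a - a * s) * s' - s' * (s * a - a * s))) + trace (b * a * (s * s' - s' * s)) =
    trace (a * ((s * b - b * s) * s' - s' * (s * b - b * s))) + trace (a * b * (s * s' - s' * s)) := by
  have e1 := cyc b s a s'
  have e1' := cyc s' b s a
  have e2 := cyc a s b s'
  have e2' := cyc s' a s b
  have e3 := cyc b s' s a
  have e4 := cyc a s' s b
  simp only [mul_sub, sub_mul, ← mul_assoc, trace_sub] at *
  linear_combination e1 + e1' - e2 - e2' - e3 + e4

end CORE

open CORE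

theorem t_CORE : S_CORE := by
  intro n p r a Λ l ξ η β hβ hd hN
  obtain ⟨γ, hγd⟩ : ∃ γ : Matrix (Fin p) (Fin p) ℂ, γ = β⁻¹ := ⟨_, rfl⟩
  have hγ : ∀ i k, γ i k = -γ k i := by
    rw [hγd]
    exact inv_anti β hβ hd
  have hγβ : γ * β = 1 := by
    rw [hγd]
    exact nonsing_inv_mul β hd
  refine ⟨Λ - ∑ i, ∑ k, γ i k • (l k * l i) +
    ∑ k, vecMulVec (η k) (ξ (Fin.castAdd a k)), ?_⟩
  intro s w h0
  obtain ⟨m, hm⟩ : ∃ m : Fin p → Matrix (Fin n) (Fin n) ℂ,
      ∀ k, m k = ∑ i, γ i k • (s * l i - l i * s) := ⟨fun k => ∑ i, γ i k • (s * l i - l i * s),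
        fun _ => rfl⟩
  obtain ⟨v, hv1, hv2⟩ : ∃ v : Fin (r + a) → Fin n → ℂ,
      (∀ k : Fin r, v (Fin.castAdd a k) = s *ᵥ η k) ∧ ∀ k : Fin a, v (Fin.natAdd r k) = w k :=
    ⟨Fin.append (fun k => s *ᵥ η k) w, fun k => Fin.append_left _ _ k,
      fun k => Fin.append_right _ _ k⟩
  obtain ⟨u, hu⟩ : ∃ u : Fin r → Fin n → ℂ, ∀ k, u k = ξ (Fin.castAdd a k) ᵥ* s :=
    ⟨fun k => ξ (Fin.castAdd a k) ᵥ* s, fun _ => rfl⟩
  have hx : (s, m, v, u) = (0 : B n p (r + a) r) := by
    apply hN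
    rintro ⟨s', m', v', u'⟩
    rw [std_split, kst_sum (fun j k => u k ⬝ᵥ v' j), kst_sum (fun j k => v j ⬝ᵥ u' k)]
    -- the part of `s'`
    have pA : trace (Λ * (s * s' - s' * s)) + ∑ k, trace (l k * (m k * s' - s' * m k)) -
        ∑ k, ξ k ⬝ᵥ (s' *ᵥ v k) + ∑ k, η k ⬝ᵥ (u k ᵥ* s') = 0 := by
      have h1 := h0 s' 0
      have k1 : ∑ k, trace (l k * (m k * s' - s' * m k)) =
          ∑ i, ∑ k, γ i k * trace (l k * ((s * l i - l i * s) * s' - s' * (s * l i - l i * s))) := by
        rw [Finset.sum_comm]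
        refine Finset.sum_congr rfl fun k _ => ?_
        rw [hm, Finset.sum_mul, Finset.mul_sum, ← Finset.sum_sub_distrib, Finset.mul_sum, trace_sum]
        refine Finset.sum_congr rfl fun i _ => ?_
        rw [smul_mul_assoc, mul_smul_comm, ← smul_sub, mul_smul_comm, trace_smul, smul_eq_mul]
      have k2 : trace ((∑ i, ∑ k, γ i k • (l k * l i)) * (s * s' - s' * s)) =
          ∑ i, ∑ k, γ i k * trace (l k * l i * (s * s' - s' * s)) := by
        rw [Finset.sum_mul, trace_sum]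
        refine Finset.sum_congr rfl fun i _ => ?_
        rw [Finset.sum_mul, trace_sum]
        refine Finset.sum_congr rfl fun k _ => ?_
        rw [smul_mul_assoc, trace_smul, smul_eq_mul]
      have k3 := anti_sum γ (fun i k =>
        trace (l k * ((s * l i - l i * s) * s' - s' * (s * l i - l i * s))) +
          trace (l k * l i * (s * s' - s' * s))) hγ fun i k => symm_id _ _ _ _
      simp only [mul_add, Finset.sum_add_distrib] at k3
      have k4 : trace ((∑ k, vecMulVec (η k) (ξ (Fin.castAdd a k))) * (s * s' - s' * s)) =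
          ∑ k, η k ⬝ᵥ (u k ᵥ* s') - ∑ k, ξ (Fin.castAdd a k) ⬝ᵥ (s' *ᵥ v (Fin.castAdd a k)) := by
        rw [Finset.sum_mul, trace_sum, ← Finset.sum_sub_distrib]
        refine Finset.sum_congr rfl fun k _ => ?_
        rw [vecMulVec_mul, trace_vecMulVec, vecMul_sub, dotProduct_sub, hu, hv1, vecMul_vecMul,
          mulVec_mulVec, dotProduct_mulVec (ξ (Fin.castAdd a k)),
          dotProduct_comm (η k) (ξ (Fin.castAdd a k) ᵥ* (s' * s))]
      have k5 : ∑ k, ξ k ⬝ᵥ (s' *ᵥ v k) =
          ∑ k, ξ (Fin.castAdd a k) ⬝ᵥ (s' *ᵥ v (Fin.castAdd a k)) +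
            ∑ k, ξ (Fin.natAdd r k) ⬝ᵥ (s' *ᵥ w k) := by
        rw [Fin.sum_univ_add]
        congr 1
        refine Finset.sum_congr rfl fun k _ => ?_
        rw [hv2]
      have k6 : ∑ k : Fin a, ξ (Fin.natAdd r k) ⬝ᵥ (s *ᵥ (0 : Fin a → Fin n → ℂ) k - s' *ᵥ w k) =
          -∑ k, ξ (Fin.natAdd r k) ⬝ᵥ (s' *ᵥ w k) := by
        rw [← Finset.sum_neg_distrib]
        refine Finset.sum_congr rfl fun k _ => ?_
        rw [Pi.zero_apply, mulVec_zero, zero_sub, dotProduct_neg]
      rw [k6, add_mul, sub_mul, trace_add, trace_sub, k2, k4] at h1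
      rw [k1, k5]
      linear_combination h1 + k3
    -- the part of `m'`
    have pB : ∑ k, trace (l k * (s * m' k - m' k * s)) +
        ∑ j, ∑ k, β j k * trace (m j * m' k) = 0 := by
      rw [Finset.sum_comm, ← Finset.sum_add_distrib]
      refine Finset.sum_eq_zero fun k _ => ?_
      have k1 : ∑ j, β j k • m j = s * l k - l k * s := by
        have k2 : ∀ j, β j k • m j = ∑ i, (γ i j * β j k) • (s * l i - l i * s) := by
          intro j
          rw [hm, Finset.smul_sum]
          refine Finset.sum_congr rfl fun i _ => ?_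
          rw [smul_smul, mul_comm]
        rw [Finset.sum_congr rfl fun j _ => k2 j, Finset.sum_comm]
        have k3 : ∀ i, ∑ j, (γ i j * β j k) • (s * l i - l i * s) =
            (if i = k then (1 : ℂ) else 0) • (s * l i - l i * s) := by
          intro i
          rw [← Finset.sum_smul]
          congr 1
          have k4 := congrFun (congrFun hγβ i) k
          rw [mul_apply, one_apply] at k4
          exact k4
        rw [Finset.sum_congr rfl fun i _ => k3 i]
        simp
      have k2 : ∑ j, β j k * trace (m j * m' k) = trace ((s * l k - l k * s) * m' k) := by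
        rw [← k1, Finset.sum_mul, trace_sum]
        refine Finset.sum_congr rfl fun j _ => ?_
        rw [smul_mul_assoc, trace_smul, smul_eq_mul]
      rw [k2, mul_sub, sub_mul, trace_sub, trace_sub]
      have k5 : trace (s * l k * m' k) = trace (l k * (m' k * s)) := by
        rw [mul_assoc, trace_mul_comm, mul_assoc]
      have k6 : trace (l k * s * m' k) = trace (l k * (s * m' k)) := by rw [mul_assoc]
      rw [k5, k6]
      ring
    -- the part of `v'`
    have pC : ∑ k, ξ k ⬝ᵥ (s *ᵥ v' k) - ∑ k, u k ⬝ᵥ v' (Fin.castAdd a k) = 0 := by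
      have h1 := h0 0 (fun k => v' (Fin.natAdd r k))
      simp only [mul_zero, zero_mul, sub_zero, trace_zero, zero_add, zero_mulVec] at h1
      rw [Fin.sum_univ_add, h1, add_zero, ← Finset.sum_sub_distrib]
      refine Finset.sum_eq_zero fun k _ => ?_
      rw [hu, dotProduct_mulVec, sub_self]
    -- the part of `u'`
    have pD : ∑ k, v (Fin.castAdd a k) ⬝ᵥ u' k - ∑ k, η k ⬝ᵥ (u' k ᵥ* s) = 0 := by
      rw [← Finset.sum_sub_distrib]
      refine Finset.sum_eq_zero fun k _ => ?_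
      rw [hv1, dotProduct_comm (η k), ← dotProduct_mulVec, dotProduct_comm (u' k), sub_self]
    rw [pA, pB, pC, pD]
    ring
  have hs : s = 0 := congrArg (fun x => x.1) hx
  have hv : v = 0 := congrArg (fun x => x.2.2.1) hx
  refine ⟨hs, ?_⟩
  ext k i
  rw [← hv2 k, hv]
  rfl

end Pool.Agent.N917.AF
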