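import Pool.Agent.N917.AF.Stm

/-!
# The Euclidean step `(n + a, a) → (n, a)`
-/

set_option autoImplicit false

namespace Pool.Agent.N917.AF

open Matrix

namespace DOWN

/-- the block matrix `(0 0 / B C)` -/
def mk {n a : ℕ} (C : Matrix (Fin n) (Fin n) ℂ) (B : Fin a → Fin n → ℂ) :
    Matrix (Fin (a + n)) (Fin (a + n)) ℂ := fun i j =>
  Fin.addCases (motive := fun _ => ℂ) (fun _ => 0)
    (fun i' => Fin.addCases (motive := fun _ => ℂ) (fun k => B k i') (fun j' => C i' j') j) i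

variable {n a : ℕ}

theorem mk_l (C : Matrix (Fin n) (Fin n) ℂ) (B : Fin a → Fin n → ℂ) (k : Fin a) (j : Fin (a + n)) :
    mk C B (Fin.castAdd n k) j = 0 := by
  simp [mk]

theorem mk_rl (C : Matrix (Fin n) (Fin n) ℂ) (B : Fin a → Fin n → ℂ) (k : Fin a) (i : Fin n) :
    mk C B (Fin.natAdd a i) (Fin.castAdd n k) = B k i := by
  simp [mk]

theorem mk_rr (C : Matrix (Fin n) (Fin n) ℂ) (B : Fin a → Fin n → ℂ) (i j : Fin n) :
    mk C B (Fin.natAdd a i) (Fin.natAdd a j) = C i j := by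
  simp [mk]

theorem mul_mk (C C' : Matrix (Fin n) (Fin n) ℂ) (B B' : Fin a → Fin n → ℂ) :
    mk C B * mk C' B' = mk (C * C') (fun k => C *ᵥ B' k) := by
  ext i j
  rw [Matrix.mul_apply, Fin.sum_univ_add]
  refine Fin.addCases (fun k => ?_) (fun i' => ?_) i
  · simp [mk_l]
  · refine Fin.addCases (fun k => ?_) (fun j' => ?_) j
    · simp [mk_l, mk_rl, mk_rr, Matrix.mulVec, dotProduct]
    · simp [mk_l, mk_rl, mk_rr, Matrix.mul_apply]

theorem trace_mk (L : Matrix (Fin (a + n)) (Fin (a + n)) ℂ) (T : Matrix (Fin n) (Fin n) ℂ)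
    (hT : ∀ i j, T i j = L (Fin.natAdd a i) (Fin.natAdd a j)) (Q : Fin a → Fin n → ℂ)
    (hQ : ∀ k j, Q k j = L (Fin.castAdd n k) (Fin.natAdd a j)) (C : Matrix (Fin n) (Fin n) ℂ)
    (B : Fin a → Fin n → ℂ) : trace (L * mk C B) = trace (T * C) + ∑ k, Q k ⬝ᵥ B k := by
  simp only [Matrix.trace, Matrix.diag_apply, Matrix.mul_apply, Fin.sum_univ_add, mk_l, mk_rl, mk_rr,
    mul_zero, Finset.sum_const_zero, zero_add, dotProduct, hT, hQ]
  rw [add_comm]

theorem trace_br (L : Matrix (Fin (a + n)) (Fin (a + n)) ℂ) (T : Matrix (Fin n) (Fin n) ℂ)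
    (hT : ∀ i j, T i j = L (Fin.natAdd a i) (Fin.natAdd a j)) (Q : Fin a → Fin n → ℂ)
    (hQ : ∀ k j, Q k j = L (Fin.castAdd n k) (Fin.natAdd a j)) (C C' : Matrix (Fin n) (Fin n) ℂ)
    (B B' : Fin a → Fin n → ℂ) : trace (L * (mk C B * mk C' B' - mk C' B' * mk C B)) =
      trace (T * (C * C' - C' * C)) + ∑ k, Q k ⬝ᵥ (C *ᵥ B' k - C' *ᵥ B k) := by
  rw [Matrix.mul_sub, Matrix.trace_sub, mul_mk, mul_mk, trace_mk L T hT Q hQ, trace_mk L T hT Q hQ,
    Matrix.mul_sub, Matrix.trace_sub]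
  simp only [dotProduct_sub, Finset.sum_sub_distrib]
  ring

theorem eq_mk (s : Matrix (Fin (a + n)) (Fin (a + n)) ℂ) (h : ∀ k j, s (Fin.castAdd n k) j = 0) :
    ∃ C B, s = mk C B := by
  refine ⟨Matrix.of fun i j => s (Fin.natAdd a i) (Fin.natAdd a j),
    fun k i => s (Fin.natAdd a i) (Fin.castAdd n k), ?_⟩
  ext i j
  refine Fin.addCases (fun k => ?_) (fun i' => ?_) i
  · exact (h k j).trans (mk_l _ _ k j).symm
  · refine Fin.addCases (fun k => ?_) (fun j' => ?_) j
    · exact (mk_rl (Matrix.of fun i j => s (Fin.natAdd a i) (Fin.natAdd a j))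
        (fun k i => s (Fin.natAdd a i) (Fin.castAdd n k)) k i').symm
    · exact (mk_rr (Matrix.of fun i j => s (Fin.natAdd a i) (Fin.natAdd a j))
        (fun k i => s (Fin.natAdd a i) (Fin.castAdd n k)) i' j').symm

theorem trace_comm' (L s s' : Matrix (Fin (a + n)) (Fin (a + n)) ℂ) :
    trace (L * (s * s' - s' * s)) = trace ((L * s - s * L) * s') := by
  rw [Matrix.mul_sub, Matrix.sub_mul, Matrix.trace_sub, Matrix.trace_sub, Matrix.mul_assoc,
    ← Matrix.mul_assoc L s' s, Matrix.trace_mul_comm (L * s') s, Matrix.mul_assoc s L s']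

end DOWN

open DOWN

theorem t_DOWN : S_DOWN := by
  intro n a L hL C B h
  have key : ∀ s' : Matrix (Fin (a + n)) (Fin (a + n)) ℂ, (∀ k j, s' (Fin.castAdd n k) j = 0) →
      trace ((L * mk C B - mk C B * L) * s') = 0 := by
    intro s' hs'
    obtain ⟨C', B', rfl⟩ := eq_mk s' hs'
    rw [← trace_comm']
    exact (trace_br L _ (fun _ _ => rfl) _ (fun _ _ => rfl) C C' B B').trans (h C' B')
  have hY : ∀ (j : Fin (a + n)) (i : Fin n), (L * mk C B - mk C B * L) j (Fin.natAdd a i) = 0 := by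
    intro j i
    have := key (Matrix.single (Fin.natAdd a i) j 1) (by
      intro k j'
      rw [Matrix.single_apply_of_ne]
      rintro ⟨h1, -⟩
      have := congrArg Fin.val h1
      simp at this
      omega)
    rw [Matrix.trace_mul_single] at this
    simpa using this
  obtain ⟨hs, -⟩ := hL (mk C B) (fun k i => (L * mk C B - mk C B * L) i (Fin.castAdd n k)) (by
    intro s' v'
    rw [trace_comm']
    set Y := L * mk C B - mk C B * L with hYd
    have e1 : ∀ k : Fin a, (Pi.single (Fin.castAdd n k) (1 : ℂ) : Fin (a + n) → ℂ) ⬝ᵥ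
        (mk C B *ᵥ v' k - s' *ᵥ fun i => Y i (Fin.castAdd n k)) =
        - ∑ j, s' (Fin.castAdd n k) j * Y j (Fin.castAdd n k) := by
      intro k
      rw [single_dotProduct, one_mul, Pi.sub_apply]
      simp [Matrix.mulVec, dotProduct, mk_l]
    simp only [e1, Finset.sum_neg_distrib]
    rw [Matrix.trace_mul_comm]
    simp only [Matrix.trace, Matrix.diag_apply, Matrix.mul_apply]
    rw [Fin.sum_univ_add]
    have e2 : ∑ i : Fin n, ∑ j, s' (Fin.natAdd a i) j * Y j (Fin.natAdd a i) = 0 := by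
      refine Finset.sum_eq_zero fun i _ => Finset.sum_eq_zero fun j _ => ?_
      rw [hY, mul_zero]
    rw [e2, add_zero, add_neg_cancel])
  constructor
  · ext i j
    have := congrFun (congrFun hs (Fin.natAdd a i)) (Fin.natAdd a j)
    rwa [mk_rr] at this
  · ext k i
    have := congrFun (congrFun hs (Fin.natAdd a i)) (Fin.castAdd n k)
    rwa [mk_rl] at this

end Pool.Agent.N917.AF
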