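import Pool.Agent.N917.AF.Stm

/-!
Project AF (helper917), leaf FORM: the normal form of a cocycle on `Mat_n ⊕ M`.
-/

set_option autoImplicit false

namespace Pool.Agent.N917.AF

open Matrix

namespace FORM

theorem fun_mat {n : ℕ} (L : Matrix (Fin n) (Fin n) ℂ →ₗ[ℂ] ℂ) :
    ∃ Λ : Matrix (Fin n) (Fin n) ℂ, ∀ A, L A = trace (Λ * A) := by
  refine ⟨fun i j => L (Matrix.single j i 1), fun A => ?_⟩
  have h1 : ∀ i j : Fin n, L (Matrix.single i j (A i j)) = A i j * L (Matrix.single i j 1) := by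
    intro i j
    have : Matrix.single i j (A i j) = A i j • (Matrix.single i j 1 : Matrix (Fin n) (Fin n) ℂ) := by
      rw [Matrix.smul_single, smul_eq_mul, mul_one]
    rw [this, map_smul, smul_eq_mul]
  conv_lhs => rw [Matrix.matrix_eq_sum_single A]
  simp only [map_sum, h1, Matrix.trace, Matrix.diag_apply, Matrix.mul_apply]
  rw [Finset.sum_comm]
  exact Finset.sum_congr rfl fun i _ => Finset.sum_congr rfl fun j _ => mul_comm _ _

theorem fun_vec {n : ℕ} (L : (Fin n → ℂ) →ₗ[ℂ] ℂ) :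
    ∃ ξ : Fin n → ℂ, ∀ v, L v = ξ ⬝ᵥ v := by
  refine ⟨fun i => L (Pi.single i 1), fun v => ?_⟩
  have h1 : ∀ i : Fin n, L (Pi.single i (v i)) = L (Pi.single i 1) * v i := by
    intro i
    have : (Pi.single i (v i) : Fin n → ℂ) = v i • (Pi.single i 1 : Fin n → ℂ) := by
      rw [← Pi.single_smul, smul_eq_mul, mul_one]
    rw [this, map_smul, smul_eq_mul, mul_comm]
  conv_lhs => rw [← Finset.univ_sum_single v]
  rw [map_sum]
  exact Finset.sum_congr rfl fun i _ => h1 i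

theorem fun_pi {p : ℕ} {E : Type} [AddCommGroup E] [Module ℂ E] (L : (Fin p → E) →ₗ[ℂ] ℂ)
    (M : Fin p → E) : L M = ∑ k, (L.comp (LinearMap.single ℂ (fun _ : Fin p => E) k)) (M k) := by
  conv_lhs => rw [← Finset.univ_sum_single M]
  rw [map_sum]
  rfl

theorem fun_B {n p q r : ℕ} (L : B n p q r →ₗ[ℂ] ℂ) :
    ∃ (Λ : Matrix (Fin n) (Fin n) ℂ) (l : Fin p → Matrix (Fin n) (Fin n) ℂ)
      (ξ : Fin q → Fin n → ℂ) (η : Fin r → Fin n → ℂ),
      ∀ (A : Matrix (Fin n) (Fin n) ℂ) (M : Fin p → Matrix (Fin n) (Fin n) ℂ)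
        (V : Fin q → Fin n → ℂ) (U : Fin r → Fin n → ℂ),
        L (A, M, V, U) = trace (Λ * A) + ∑ k, trace (l k * M k) + ∑ k, ξ k ⬝ᵥ V k
          + ∑ k, η k ⬝ᵥ U k := by
  let L1 : Matrix (Fin n) (Fin n) ℂ →ₗ[ℂ] ℂ := L.comp (LinearMap.inl ℂ _ _)
  let L2 : (Fin p → Matrix (Fin n) (Fin n) ℂ) →ₗ[ℂ] ℂ :=
    L.comp ((LinearMap.inr ℂ _ _).comp (LinearMap.inl ℂ _ _))
  let L3 : (Fin q → Fin n → ℂ) →ₗ[ℂ] ℂ :=
    L.comp ((LinearMap.inr ℂ _ _).comp ((LinearMap.inr ℂ _ _).comp (LinearMap.inl ℂ _ _)))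
  let L4 : (Fin r → Fin n → ℂ) →ₗ[ℂ] ℂ :=
    L.comp ((LinearMap.inr ℂ _ _).comp ((LinearMap.inr ℂ _ _).comp (LinearMap.inr ℂ _ _)))
  obtain ⟨Λ, hΛ⟩ := fun_mat L1
  choose l hl using fun k => fun_mat
    (L2.comp (LinearMap.single ℂ (fun _ : Fin p => Matrix (Fin n) (Fin n) ℂ) k))
  choose ξ hξ using fun k => fun_vec (L3.comp (LinearMap.single ℂ (fun _ : Fin q => Fin n → ℂ) k))
  choose η hη using fun k => fun_vec (L4.comp (LinearMap.single ℂ (fun _ : Fin r => Fin n → ℂ) k))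
  refine ⟨Λ, l, ξ, η, fun A M V U => ?_⟩
  have h0 : (A, M, V, U) = ((A, 0, 0, 0) : B n p q r) + (0, M, 0, 0) + (0, 0, V, 0) + (0, 0, 0, U) := by
    simp
  rw [h0, map_add, map_add, map_add]
  have e1 : L (A, 0, 0, 0) = trace (Λ * A) := hΛ A
  have e2 : L (0, M, 0, 0) = ∑ k, trace (l k * M k) := by
    have h := fun_pi L2 M
    simp only [hl] at h
    exact h
  have e3 : L (0, 0, V, 0) = ∑ k, ξ k ⬝ᵥ V k := by
    have h := fun_pi L3 V
    simp only [hξ] at h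
    exact h
  have e4 : L (0, 0, 0, U) = ∑ k, η k ⬝ᵥ U k := by
    have h := fun_pi L4 U
    simp only [hη] at h
    exact h
  rw [e1, e2, e3, e4]

end FORM

open FORM

theorem t_FORM : S_FORMimp := by
  intro hC hM n p q r ω hn hω
  obtain ⟨L, hL⟩ := hC n p q r ω hn hω
  obtain ⟨β, κ, hβ, hMM⟩ := hM n p q r ω hn hω
  obtain ⟨Λ, l, ξ, η, hB⟩ := fun_B L
  refine ⟨Λ, l, ξ, η, β, κ, hβ, ?_⟩
  rintro ⟨s, m, v, u⟩ ⟨s', m', v', u'⟩
  have hx : ((s, m, v, u) : B n p q r) = (s, 0, 0, 0) + (0, m, v, u) := by simp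
  have hy : ((s', m', v', u') : B n p q r) = (s', 0, 0, 0) + (0, m', v', u') := by simp
  have e1 : ω (s, m, v, u) (s', m', v', u') = ω (s, 0, 0, 0) (s', m', v', u')
      + (ω (0, m, v, u) (s', 0, 0, 0) + ω (0, m, v, u) (0, m', v', u')) := by
    rw [hx, map_add, LinearMap.add_apply, ← map_add, ← hy]
  have e2 : ω (0, m, v, u) (s', 0, 0, 0) = - ω (s', 0, 0, 0) (0, m, v, u) := hω.1 _ _
  have e3 : (mulB ((s, 0, 0, 0) : B n p q r) (s', m', v', u')
      - mulB (s', m', v', u') ((s, 0, 0, 0) : B n p q r)) =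
      (s * s' - s' * s, fun k => s * m' k - m' k * s, fun k => s *ᵥ v' k,
        fun k => - (u' k ᵥ* s)) := by
    refine Prod.ext rfl (Prod.ext ?_ (Prod.ext ?_ ?_)) <;> funext k <;> simp [mulB]
  have e4 : (mulB ((s', 0, 0, 0) : B n p q r) (0, m, v, u)
      - mulB (0, m, v, u) ((s', 0, 0, 0) : B n p q r)) =
      (0, fun k => s' * m k - m k * s', fun k => s' *ᵥ v k, fun k => - (u k ᵥ* s')) := by
    refine Prod.ext ?_ (Prod.ext ?_ (Prod.ext ?_ ?_))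
    · simp [mulB]
    all_goals funext k; simp [mulB]
  rw [e1, e2, hL, hL, hMM, e3, e4, hB, hB]
  simp only [std, mul_sub, mul_add, trace_sub, trace_add, dotProduct_sub, dotProduct_neg,
    Finset.sum_sub_distrib, Finset.sum_add_distrib, Finset.sum_neg_distrib, mul_zero, trace_zero]
  ring

end Pool.Agent.N917.AF
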