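import Pool.Agent.N917.AF.Stm

/-!
Project AF (helper917), leaf KK (helper43): `κ` is injective if `r ≤ q`.
-/

set_option autoImplicit false

namespace Pool.Agent.N917.AF

open Matrix

namespace KK

lemma exists_left {q r : ℕ} (κ : Matrix (Fin q) (Fin r) ℂ) (hrq : r ≤ q) (c : Fin r → ℂ) (hc : c ≠ 0)
    (hκ : κ *ᵥ c = 0) : ∃ b : Fin q → ℂ, b ≠ 0 ∧ b ᵥ* κ = 0 := by
  have h1 := κ.mulVecLin.finrank_range_add_finrank_ker
  have h2 := κᵀ.mulVecLin.finrank_range_add_finrank_ker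
  have h3 : κᵀ.rank = κ.rank := Matrix.rank_transpose κ
  rw [Module.finrank_fintype_fun_eq_card, Fintype.card_fin] at h1 h2
  have h4 : 0 < Module.finrank ℂ (LinearMap.ker κ.mulVecLin) := by
    rw [Module.finrank_pos_iff]
    refine ⟨⟨⟨c, ?_⟩, 0, fun h => hc (congrArg Subtype.val h)⟩⟩
    rw [LinearMap.mem_ker, Matrix.mulVecLin_apply]
    exact hκ
  unfold Matrix.rank at h3
  have h5 : 0 < Module.finrank ℂ (LinearMap.ker κᵀ.mulVecLin) := by omega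
  rw [Module.finrank_pos_iff] at h5
  obtain ⟨x, hx⟩ := exists_ne (0 : LinearMap.ker κᵀ.mulVecLin)
  refine ⟨x.1, fun h => hx (Subtype.ext h), ?_⟩
  have h6 := x.2
  rw [LinearMap.mem_ker, Matrix.mulVecLin_apply, Matrix.mulVec_transpose] at h6
  exact h6

lemma comp {n p q r : ℕ} (Λ : Matrix (Fin n) (Fin n) ℂ)
    (l : Fin p → Matrix (Fin n) (Fin n) ℂ) (ξ : Fin q → Fin n → ℂ) (η : Fin r → Fin n → ℂ)
    (β : Matrix (Fin p) (Fin p) ℂ) (κ : Matrix (Fin q) (Fin r) ℂ) (b : Fin q → ℂ) (c : Fin r → ℂ)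
    (hb : b ᵥ* κ = 0) (hc : κ *ᵥ c = 0) (h g : Fin n → ℂ) (y : B n p q r) :
    std Λ l ξ η β κ ((0 : Matrix (Fin n) (Fin n) ℂ), (0 : Fin p → Matrix (Fin n) (Fin n) ℂ),
      (fun j => b j • h), (fun k => c k • g)) y =
      -((∑ j, b j • ξ j) ⬝ᵥ (y.1 *ᵥ h)) + (∑ k, c k • η k) ⬝ᵥ (g ᵥ* y.1) := by
  have e3 : ∑ k, ξ k ⬝ᵥ ((0 : Matrix (Fin n) (Fin n) ℂ) *ᵥ y.2.2.1 k - y.1 *ᵥ (b k • h)) =
      -((∑ j, b j • ξ j) ⬝ᵥ (y.1 *ᵥ h)) := by
    rw [sum_dotProduct, ← Finset.sum_neg_distrib]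
    refine Finset.sum_congr rfl fun k _ => ?_
    rw [zero_mulVec, zero_sub, dotProduct_neg, mulVec_smul, dotProduct_smul, smul_dotProduct]
  have e4 : ∑ k, η k ⬝ᵥ ((c k • g) ᵥ* y.1 - y.2.2.2 k ᵥ* (0 : Matrix (Fin n) (Fin n) ℂ)) =
      (∑ k, c k • η k) ⬝ᵥ (g ᵥ* y.1) := by
    rw [sum_dotProduct]
    refine Finset.sum_congr rfl fun k _ => ?_
    rw [vecMul_zero, sub_zero, smul_vecMul, dotProduct_smul, smul_dotProduct]
  have e6 : ∑ j, ∑ k, κ j k * ((b j • h) ⬝ᵥ y.2.2.2 k - (c k • g) ⬝ᵥ y.2.2.1 j) = 0 := by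
    have e7 : ∑ j, ∑ k, κ j k * ((b j • h) ⬝ᵥ y.2.2.2 k) = 0 := by
      rw [Finset.sum_comm]
      refine Finset.sum_eq_zero fun k _ => ?_
      have h1 : ∑ j, κ j k * ((b j • h) ⬝ᵥ y.2.2.2 k) = (b ᵥ* κ) k * (h ⬝ᵥ y.2.2.2 k) := by
        unfold vecMul
        rw [dotProduct, Finset.sum_mul]
        refine Finset.sum_congr rfl fun j _ => ?_
        rw [smul_dotProduct, smul_eq_mul]
        ring
      rw [h1, hb]
      simp
    have e8 : ∑ j, ∑ k, κ j k * ((c k • g) ⬝ᵥ y.2.2.1 j) = 0 := by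
      refine Finset.sum_eq_zero fun j _ => ?_
      have h1 : ∑ k, κ j k * ((c k • g) ⬝ᵥ y.2.2.1 j) = (κ *ᵥ c) j * (g ⬝ᵥ y.2.2.1 j) := by
        unfold mulVec
        rw [dotProduct, Finset.sum_mul]
        refine Finset.sum_congr rfl fun k _ => ?_
        rw [smul_dotProduct, smul_eq_mul]
        ring
      rw [h1, hc]
      simp
    simp only [mul_sub, Finset.sum_sub_distrib]
    rw [e7, e8, sub_zero]
  unfold std
  simp only
  rw [e3, e4, e6]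
  simp

end KK

theorem t_KK : S_KK := by
  intro n p q r Λ l ξ η β κ hn hrq hND c hc
  by_contra hc0
  obtain ⟨b, hb0, hb⟩ := KK.exists_left κ hrq c hc0 hc
  obtain ⟨j, hj⟩ := Function.ne_iff.1 hb0
  obtain ⟨k, hk⟩ := Function.ne_iff.1 hc0
  obtain ⟨xb, hxb⟩ : ∃ xb, xb = ∑ j, b j • ξ j := ⟨_, rfl⟩
  obtain ⟨ec, hec⟩ : ∃ ec, ec = ∑ k, c k • η k := ⟨_, rfl⟩
  have key : ∀ h g : Fin n → ℂ, (∀ s : Matrix (Fin n) (Fin n) ℂ,
      -(xb ⬝ᵥ (s *ᵥ h)) + ec ⬝ᵥ (g ᵥ* s) = 0) → h = 0 ∧ g = 0 := by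
    intro h g hs
    have h1 := hND _ (fun y => by
      rw [KK.comp Λ l ξ η β κ b c hb hc h g y, ← hxb, ← hec]
      exact hs y.1)
    have h2 := congrFun (congrArg (fun x : B n p q r => x.2.2.1) h1) j
    have h3 := congrFun (congrArg (fun x : B n p q r => x.2.2.2) h1) k
    constructor
    · have h4 : b j • h = 0 := h2
      exact (smul_eq_zero.1 h4).resolve_left hj
    · have h4 : c k • g = 0 := h3
      exact (smul_eq_zero.1 h4).resolve_left hk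
  obtain ⟨h1, h2⟩ := key ec xb (fun s => by
    rw [dotProduct_mulVec, dotProduct_comm ec (xb ᵥ* s)]
    ring)
  obtain ⟨h3, -⟩ := key (fun _ => 1) 0 (fun s => by
    rw [h1, h2]
    simp)
  have h4 := congrFun h3 ⟨0, by omega⟩
  simp at h4

end Pool.Agent.N917.AF
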