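import Pool.Agent.N917.AF.Stm

/-!
Project AF (helper917), leaf LE (helper505): linear independence.
-/

set_option autoImplicit false

namespace Pool.Agent.N917.AF

open Matrix

theorem t_LE : S_LE := by
  intro n a Λ ξ hn h
  have hli : LinearIndependent ℂ ξ := by
    rw [Fintype.linearIndependent_iff]
    intro g hg
    obtain ⟨e, he⟩ : ∃ e : Fin n → ℂ, e = Pi.single ⟨0, hn⟩ 1 := ⟨_, rfl⟩
    have h1 := h 0 (fun k => g k • e) (by
      intro s' v'
      have h2 : ∑ k, ξ k ⬝ᵥ ((0 : Matrix (Fin n) (Fin n) ℂ) *ᵥ v' k - s' *ᵥ (g k • e)) =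
          -((∑ k, g k • ξ k) ⬝ᵥ (s' *ᵥ e)) := by
        rw [sum_dotProduct, ← Finset.sum_neg_distrib]
        refine Finset.sum_congr rfl fun k _ => ?_
        rw [Matrix.zero_mulVec, zero_sub, dotProduct_neg, Matrix.mulVec_smul, dotProduct_smul,
          smul_dotProduct]
      rw [h2, hg, zero_dotProduct, neg_zero, Matrix.zero_mul, Matrix.mul_zero, sub_zero,
        Matrix.mul_zero, Matrix.trace_zero, add_zero])
    intro k
    have h3 := congrFun (congrFun h1.2 k) ⟨0, hn⟩
    simpa [he] using h3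
  refine ⟨?_, ?_, hli⟩
  · by_contra ha
    obtain rfl : a = 0 := by omega
    have h1 := h 1 (fun _ => 0) (by
      intro s' v'
      simp)
    have h2 := congrFun (congrFun h1.1 ⟨0, hn⟩) ⟨0, hn⟩
    simp at h2
  · have h1 := hli.fintype_card_le_finrank
    rwa [Fintype.card_fin, Module.finrank_fintype_fun_eq_card, Fintype.card_fin] at h1

end Pool.Agent.N917.AF
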