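import Pool.Agent.N917.AF.Stm

set_option autoImplicit false

namespace Pool.Agent.N917.AF

open Matrix

namespace MM

variable {n p q r : ℕ} {ω : B n p q r →ₗ[ℂ] B n p q r →ₗ[ℂ] ℂ}

lemma mul_ms (s : Matrix (Fin n) (Fin n) ℂ) (m : Fin p → Matrix (Fin n) (Fin n) ℂ)
    (v : Fin q → Fin n → ℂ) (u : Fin r → Fin n → ℂ) :
    mulB ((0, m, v, u) : B n p q r) (s, 0, 0, 0) = (0, fun k => m k * s, 0, fun k => u k ᵥ* s) := by
  unfold mulB
  simp only [zero_mul, Pi.zero_apply, mul_zero, zero_add, Matrix.mulVec_zero]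
  rfl

lemma mul_sm (s : Matrix (Fin n) (Fin n) ℂ) (m : Fin p → Matrix (Fin n) (Fin n) ℂ)
    (v : Fin q → Fin n → ℂ) (u : Fin r → Fin n → ℂ) :
    mulB ((s, 0, 0, 0) : B n p q r) (0, m, v, u) = (0, fun k => s * m k, fun k => s *ᵥ v k, 0) := by
  unfold mulB
  simp only [Pi.zero_apply, mul_zero, add_zero, Matrix.vecMul_zero]
  rfl

lemma mul_mm (m m' : Fin p → Matrix (Fin n) (Fin n) ℂ)
    (v v' : Fin q → Fin n → ℂ) (u u' : Fin r → Fin n → ℂ) :
    mulB ((0, m, v, u) : B n p q r) (0, m', v', u') = 0 := by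
  unfold mulB
  simp only [zero_mul, mul_zero, add_zero, Matrix.vecMul_zero, Matrix.zero_mulVec]
  rfl

/-- `ω (x, y s) = ω (s x, y)` -/
lemma star (h : Coc mulB ω) (s : Matrix (Fin n) (Fin n) ℂ) (m m' : Fin p → Matrix (Fin n) (Fin n) ℂ)
    (v v' : Fin q → Fin n → ℂ) (u u' : Fin r → Fin n → ℂ) :
    ω (0, m, v, u) (0, fun k => m' k * s, 0, fun k => u' k ᵥ* s) =
      ω (0, fun k => s * m k, fun k => s *ᵥ v k, 0) (0, m', v', u') := by
  have c := h.2 (0, m, v, u) (0, m', v', u') (s, 0, 0, 0)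
  rw [mul_ms, mul_sm, mul_mm, map_zero] at c
  have a := h.1 (0, m', v', u') (0, fun k => s * m k, fun k => s *ᵥ v k, 0)
  rw [a] at c
  linear_combination c

/-- `ω (x s, y) = ω (x, s y)` -/
lemma star' (h : Coc mulB ω) (s : Matrix (Fin n) (Fin n) ℂ) (m m' : Fin p → Matrix (Fin n) (Fin n) ℂ)
    (v v' : Fin q → Fin n → ℂ) (u u' : Fin r → Fin n → ℂ) :
    ω (0, fun k => m k * s, 0, fun k => u k ᵥ* s) (0, m', v', u') =
      ω (0, m, v, u) (0, fun k => s * m' k, fun k => s *ᵥ v' k, 0) := by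
  rw [h.1, star h s m' m v' v u' u, h.1 (0, m, v, u)]

/-- a trace form -/
lemma trace_form (φ : Matrix (Fin n) (Fin n) ℂ →ₗ[ℂ] ℂ) (i : Fin n) (h : ∀ A C, φ (A * C) = φ (C * A))
    (X : Matrix (Fin n) (Fin n) ℂ) : φ X = φ (Matrix.single i i 1) * trace X := by
  have key : ∀ a b : Fin n, φ (Matrix.single a b 1) = if a = b then φ (Matrix.single i i 1) else 0 := by
    intro a b
    have h1 : (Matrix.single a b (1 : ℂ)) = Matrix.single a i 1 * Matrix.single i b 1 := by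
      rw [Matrix.single_mul_single_same, one_mul]
    rw [h1, h]
    by_cases hab : a = b
    · subst hab
      rw [Matrix.single_mul_single_same, one_mul, if_pos rfl]
    · rw [Matrix.single_mul_single_of_ne (h := Ne.symm hab), map_zero, if_neg hab]
  conv_lhs => rw [Matrix.matrix_eq_sum_single X]
  rw [map_sum]
  simp only [map_sum]
  have h2 : ∀ a b : Fin n, φ (Matrix.single a b (X a b)) =
      X a b * (if a = b then φ (Matrix.single i i 1) else 0) := by
    intro a b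
    rw [← key, ← smul_eq_mul, ← map_smul, Matrix.smul_single, smul_eq_mul, mul_one]
  simp only [h2, mul_ite, mul_zero, Finset.sum_ite_eq, Finset.mem_univ, if_true]
  rw [Matrix.trace, Finset.mul_sum]
  exact Finset.sum_congr rfl fun a _ => by rw [Matrix.diag_apply, mul_comm]

/-- embeddings -/
def iM : (Fin p → Matrix (Fin n) (Fin n) ℂ) →ₗ[ℂ] B n p q r :=
  (LinearMap.inr ℂ _ _).comp (LinearMap.inl ℂ _ _)

def iV : (Fin q → Fin n → ℂ) →ₗ[ℂ] B n p q r :=
  (LinearMap.inr ℂ _ _).comp ((LinearMap.inr ℂ _ _).comp (LinearMap.inl ℂ _ _))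

def iU : (Fin r → Fin n → ℂ) →ₗ[ℂ] B n p q r :=
  (LinearMap.inr ℂ _ _).comp ((LinearMap.inr ℂ _ _).comp (LinearMap.inr ℂ _ _))

lemma iM_apply (m : Fin p → Matrix (Fin n) (Fin n) ℂ) : (iM m : B n p q r) = (0, m, 0, 0) := rfl
lemma iV_apply (v : Fin q → Fin n → ℂ) : (iV v : B n p q r) = (0, 0, v, 0) := rfl
lemma iU_apply (u : Fin r → Fin n → ℂ) : (iU u : B n p q r) = (0, 0, 0, u) := rfl

lemma split (m : Fin p → Matrix (Fin n) (Fin n) ℂ) (v : Fin q → Fin n → ℂ) (u : Fin r → Fin n → ℂ) :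
    ((0, m, v, u) : B n p q r) = iM m + iV v + iU u := by
  rw [iM_apply, iV_apply, iU_apply]
  simp

lemma z1 (h : Coc mulB ω) (m : Fin p → Matrix (Fin n) (Fin n) ℂ) (v : Fin q → Fin n → ℂ) :
    ω (iM m) (iV v) = 0 := by
  have c := star h 1 m 0 0 v 0 0
  have e1 : ((0, fun k => (0 : Fin p → Matrix (Fin n) (Fin n) ℂ) k * (1 : Matrix (Fin n) (Fin n) ℂ), 0,
      fun k => (0 : Fin r → Fin n → ℂ) k ᵥ* (1 : Matrix (Fin n) (Fin n) ℂ)) : B n p q r) = 0 := by
    simp only [Pi.zero_apply, zero_mul, Matrix.zero_vecMul]; rfl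
  have e2 : ((0, fun k => (1 : Matrix (Fin n) (Fin n) ℂ) * m k,
      fun k => (1 : Matrix (Fin n) (Fin n) ℂ) *ᵥ (0 : Fin q → Fin n → ℂ) k, 0) : B n p q r) = iM m := by
    simp only [Pi.zero_apply, one_mul, Matrix.mulVec_zero]; rfl
  rw [e1, map_zero, e2] at c
  exact c.symm

lemma z2 (h : Coc mulB ω) (v v' : Fin q → Fin n → ℂ) : ω (iV v) (iV v') = 0 := by
  have c := star h 1 0 0 v v' 0 0
  have e1 : ((0, fun k => (0 : Fin p → Matrix (Fin n) (Fin n) ℂ) k * (1 : Matrix (Fin n) (Fin n) ℂ), 0,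
      fun k => (0 : Fin r → Fin n → ℂ) k ᵥ* (1 : Matrix (Fin n) (Fin n) ℂ)) : B n p q r) = 0 := by
    simp only [Pi.zero_apply, zero_mul, Matrix.zero_vecMul]; rfl
  have e2 : ((0, fun k => (1 : Matrix (Fin n) (Fin n) ℂ) * (0 : Fin p → Matrix (Fin n) (Fin n) ℂ) k,
      fun k => (1 : Matrix (Fin n) (Fin n) ℂ) *ᵥ v k, 0) : B n p q r) = iV v := by
    simp only [Pi.zero_apply, mul_zero, Matrix.one_mulVec]; rfl
  rw [e1, map_zero, e2] at c
  exact c.symm

lemma z3 (h : Coc mulB ω) (m : Fin p → Matrix (Fin n) (Fin n) ℂ) (u : Fin r → Fin n → ℂ) :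
    ω (iM m) (iU u) = 0 := by
  have c := star' h 1 m 0 0 0 0 u
  have e1 : ((0, fun k => (1 : Matrix (Fin n) (Fin n) ℂ) * (0 : Fin p → Matrix (Fin n) (Fin n) ℂ) k,
      fun k => (1 : Matrix (Fin n) (Fin n) ℂ) *ᵥ (0 : Fin q → Fin n → ℂ) k, 0) : B n p q r) = 0 := by
    simp only [Pi.zero_apply, mul_zero, Matrix.mulVec_zero]; rfl
  have e2 : ((0, fun k => m k * (1 : Matrix (Fin n) (Fin n) ℂ), 0,
      fun k => (0 : Fin r → Fin n → ℂ) k ᵥ* (1 : Matrix (Fin n) (Fin n) ℂ)) : B n p q r) = iM m := by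
    simp only [Pi.zero_apply, mul_one, Matrix.zero_vecMul]; rfl
  rw [e1, map_zero, e2] at c
  exact c

lemma z4 (h : Coc mulB ω) (u u' : Fin r → Fin n → ℂ) : ω (iU u) (iU u') = 0 := by
  have c := star' h 1 0 0 0 0 u u'
  have e1 : ((0, fun k => (1 : Matrix (Fin n) (Fin n) ℂ) * (0 : Fin p → Matrix (Fin n) (Fin n) ℂ) k,
      fun k => (1 : Matrix (Fin n) (Fin n) ℂ) *ᵥ (0 : Fin q → Fin n → ℂ) k, 0) : B n p q r) = 0 := by
    simp only [Pi.zero_apply, mul_zero, Matrix.mulVec_zero]; rfl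
  have e2 : ((0, fun k => (0 : Fin p → Matrix (Fin n) (Fin n) ℂ) k * (1 : Matrix (Fin n) (Fin n) ℂ), 0,
      fun k => u k ᵥ* (1 : Matrix (Fin n) (Fin n) ℂ)) : B n p q r) = iU u := by
    simp only [Pi.zero_apply, zero_mul, Matrix.vecMul_one]; rfl
  rw [e1, map_zero, e2] at c
  exact c

/-- the functionals `f(A, C)` -/
lemma mm1 (h : Coc mulB ω) (j k : Fin p) (A C : Matrix (Fin n) (Fin n) ℂ) :
    ω (iM (Pi.single j A)) (iM (Pi.single k C)) = ω (iM (Pi.single j 1)) (iM (Pi.single k (C * A))) := by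
  have c := star h A (Pi.single j 1) (Pi.single k C) 0 0 0 0
  have e1 : ((0, fun i => (Pi.single k C : Fin p → Matrix (Fin n) (Fin n) ℂ) i * A, 0,
      fun i => (0 : Fin r → Fin n → ℂ) i ᵥ* A) : B n p q r) = iM (Pi.single k (C * A)) := by
    rw [iM_apply]
    have : (fun i => (Pi.single k C : Fin p → Matrix (Fin n) (Fin n) ℂ) i * A) = Pi.single k (C * A) := by
      funext i
      by_cases hi : i = k
      · subst hi; simp
      · simp [Pi.single_eq_of_ne hi]
    rw [this]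
    simp only [Pi.zero_apply, Matrix.zero_vecMul]; rfl
  have e2 : ((0, fun i => A * (Pi.single j 1 : Fin p → Matrix (Fin n) (Fin n) ℂ) i,
      fun i => A *ᵥ (0 : Fin q → Fin n → ℂ) i, 0) : B n p q r) = iM (Pi.single j A) := by
    rw [iM_apply]
    have : (fun i => A * (Pi.single j 1 : Fin p → Matrix (Fin n) (Fin n) ℂ) i) = Pi.single j A := by
      funext i
      by_cases hi : i = j
      · subst hi; simp
      · simp [Pi.single_eq_of_ne hi]
    rw [this]
    simp only [Pi.zero_apply, Matrix.mulVec_zero]; rfl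
  rw [e1, e2] at c
  exact c.symm

lemma mm2 (h : Coc mulB ω) (j k : Fin p) (A C : Matrix (Fin n) (Fin n) ℂ) :
    ω (iM (Pi.single j A)) (iM (Pi.single k C)) = ω (iM (Pi.single j 1)) (iM (Pi.single k (A * C))) := by
  have c := star' h A (Pi.single j 1) (Pi.single k C) 0 0 0 0
  have e1 : ((0, fun i => (Pi.single j 1 : Fin p → Matrix (Fin n) (Fin n) ℂ) i * A, 0,
      fun i => (0 : Fin r → Fin n → ℂ) i ᵥ* A) : B n p q r) = iM (Pi.single j A) := by
    rw [iM_apply]
    have : (fun i => (Pi.single j 1 : Fin p → Matrix (Fin n) (Fin n) ℂ) i * A) = Pi.single j A := by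
      funext i
      by_cases hi : i = j
      · subst hi; simp
      · simp [Pi.single_eq_of_ne hi]
    rw [this]
    simp only [Pi.zero_apply, Matrix.zero_vecMul]; rfl
  have e2 : ((0, fun i => A * (Pi.single k C : Fin p → Matrix (Fin n) (Fin n) ℂ) i,
      fun i => A *ᵥ (0 : Fin q → Fin n → ℂ) i, 0) : B n p q r) = iM (Pi.single k (A * C)) := by
    rw [iM_apply]
    have : (fun i => A * (Pi.single k C : Fin p → Matrix (Fin n) (Fin n) ℂ) i) = Pi.single k (A * C) := by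
      funext i
      by_cases hi : i = k
      · subst hi; simp
      · simp [Pi.single_eq_of_ne hi]
    rw [this]
    simp only [Pi.zero_apply, Matrix.mulVec_zero]; rfl
  rw [e1, e2] at c
  exact c

/-- `g(h, w)` -/
lemma vu (h : Coc mulB ω) (i₀ : Fin n) (j : Fin q) (k : Fin r) (a w : Fin n → ℂ) :
    ω (iV (Pi.single j a)) (iU (Pi.single k w)) =
      (w ⬝ᵥ a) * ω (iV (Pi.single j (Pi.single i₀ 1))) (iU (Pi.single k (Pi.single i₀ 1))) := by
  have c := star h (Matrix.vecMulVec a (Pi.single i₀ 1)) 0 0 (Pi.single j (Pi.single i₀ 1)) 0 0 (Pi.single k w)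
  have e1 : ((0, fun i => (0 : Fin p → Matrix (Fin n) (Fin n) ℂ) i * Matrix.vecMulVec a (Pi.single i₀ 1), 0,
      fun i => (Pi.single k w : Fin r → Fin n → ℂ) i ᵥ* Matrix.vecMulVec a (Pi.single i₀ 1)) : B n p q r) =
      (w ⬝ᵥ a) • iU (Pi.single k (Pi.single i₀ 1)) := by
    have : (fun i => (Pi.single k w : Fin r → Fin n → ℂ) i ᵥ* Matrix.vecMulVec a (Pi.single i₀ 1)) =
        (w ⬝ᵥ a) • Pi.single k (Pi.single i₀ 1) := by
      funext i
      by_cases hi : i = k
      · subst hi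
        rw [Pi.smul_apply, Pi.single_eq_same, Pi.single_eq_same, Matrix.vecMul_vecMulVec]
      · rw [Pi.smul_apply, Pi.single_eq_of_ne hi, Pi.single_eq_of_ne hi, Matrix.zero_vecMul, smul_zero]
    rw [this, ← map_smul, iU_apply]
    simp only [Pi.zero_apply, zero_mul]; rfl
  have e2 : ((0, fun i => Matrix.vecMulVec a (Pi.single i₀ 1) * (0 : Fin p → Matrix (Fin n) (Fin n) ℂ) i,
      fun i => Matrix.vecMulVec a (Pi.single i₀ 1) *ᵥ (Pi.single j (Pi.single i₀ 1) : Fin q → Fin n → ℂ) i, 0) :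
      B n p q r) = iV (Pi.single j a) := by
    have : (fun i => Matrix.vecMulVec a (Pi.single i₀ 1) *ᵥ (Pi.single j (Pi.single i₀ 1) : Fin q → Fin n → ℂ) i) =
        Pi.single j a := by
      funext i
      by_cases hi : i = j
      · subst hi
        rw [Pi.single_eq_same, Pi.single_eq_same, Matrix.vecMulVec_mulVec]
        simp
      · rw [Pi.single_eq_of_ne hi, Pi.single_eq_of_ne hi, Matrix.mulVec_zero]
    rw [this, iV_apply]
    simp only [Pi.zero_apply, mul_zero]; rfl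
  rw [e1, e2, map_smul, smul_eq_mul] at c
  exact c.symm

end MM

open MM in
/-- a cocycle on `M × M` -/
theorem t_MM : S_MM := by
  intro n p q r ω hn h
  let i₀ : Fin n := ⟨0, hn⟩
  refine ⟨fun j k => ω (iM (Pi.single j 1)) (iM (Pi.single k (Matrix.single i₀ i₀ 1))),
    fun j k => ω (iV (Pi.single j (Pi.single i₀ 1))) (iU (Pi.single k (Pi.single i₀ 1))), ?_, ?_⟩
  · intro j k
    have h1 : ω (iM (Pi.single k 1)) (iM (Pi.single j (Matrix.single i₀ i₀ 1))) =
        ω (iM (Pi.single k (Matrix.single i₀ i₀ 1))) (iM (Pi.single j 1)) := by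
      rw [mm1 h k j (Matrix.single i₀ i₀ 1) 1, one_mul]
    show ω (iM (Pi.single j 1)) (iM (Pi.single k (Matrix.single i₀ i₀ 1))) =
      - ω (iM (Pi.single k 1)) (iM (Pi.single j (Matrix.single i₀ i₀ 1)))
    rw [h1, h.1]
  · intro m m' v v' u u'
    have hmm : ω (iM m) (iM m') = ∑ j, ∑ k, ω (iM (Pi.single j 1)) (iM (Pi.single k (Matrix.single i₀ i₀ 1))) *
        trace (m j * m' k) := by
      have e1 : m = ∑ j, Pi.single j (m j) := (Finset.univ_sum_single m).symm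
      have e2 : m' = ∑ k, Pi.single k (m' k) := (Finset.univ_sum_single m').symm
      conv_lhs => rw [e1, e2]
      simp only [map_sum, LinearMap.sum_apply]
      refine Eq.trans Finset.sum_comm ?_
      refine Finset.sum_congr rfl fun j _ => Finset.sum_congr rfl fun k _ => ?_
      rw [mm2 h j k (m j) (m' k)]
      let φ : Matrix (Fin n) (Fin n) ℂ →ₗ[ℂ] ℂ :=
        (ω (iM (Pi.single j 1))).comp (iM.comp
          (LinearMap.single ℂ (fun _ : Fin p => Matrix (Fin n) (Fin n) ℂ) k))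
      have hφ : ∀ A C, φ (A * C) = φ (C * A) := by
        intro A C
        show ω (iM (Pi.single j 1)) (iM (Pi.single k (A * C))) = ω (iM (Pi.single j 1)) (iM (Pi.single k (C * A)))
        rw [← mm2 h j k A C, mm1 h j k A C]
      exact trace_form φ i₀ hφ (m j * m' k)
    have hvu : ∀ (v : Fin q → Fin n → ℂ) (u : Fin r → Fin n → ℂ), ω (iV v) (iU u) =
        ∑ j, ∑ k, ω (iV (Pi.single j (Pi.single i₀ 1))) (iU (Pi.single k (Pi.single i₀ 1))) * (v j ⬝ᵥ u k) := by
      intro v u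
      have e1 : v = ∑ j, Pi.single j (v j) := (Finset.univ_sum_single v).symm
      have e2 : u = ∑ k, Pi.single k (u k) := (Finset.univ_sum_single u).symm
      conv_lhs => rw [e1, e2]
      simp only [map_sum, LinearMap.sum_apply]
      refine Eq.trans Finset.sum_comm ?_
      refine Finset.sum_congr rfl fun j _ => Finset.sum_congr rfl fun k _ => ?_
      rw [vu h i₀ j k (v j) (u k), dotProduct_comm, mul_comm]
    rw [split m v u, split m' v' u']
    simp only [map_add, LinearMap.add_apply]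
    rw [z1 h, z2 h, z3 h, z4 h, h.1 (iV v) (iM m'), z1 h, h.1 (iU u) (iM m'), z3 h, h.1 (iU u) (iV v'), hmm,
      hvu, hvu]
    simp only [mul_sub, Finset.sum_sub_distrib]
    have e3 : ∑ j, ∑ k, ω (iV (Pi.single j (Pi.single i₀ 1))) (iU (Pi.single k (Pi.single i₀ 1))) * (v' j ⬝ᵥ u k) =
      ∑ j, ∑ k, ω (iV (Pi.single j (Pi.single i₀ 1))) (iU (Pi.single k (Pi.single i₀ 1))) * (u k ⬝ᵥ v' j) := by
      refine Finset.sum_congr rfl fun j _ => Finset.sum_congr rfl fun k _ => ?_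
      rw [dotProduct_comm]
    rw [e3]
    ring

end Pool.Agent.N917.AF
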