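import Pool.Agent.N917.AF.Stm

/-!
Leaf OP of project AF: the opposite of `B n p q r` is `B n p r q` (transposition).
-/

set_option autoImplicit false

namespace Pool.Agent.N917.AF

open Matrix

namespace OP

/-- transposition, as a linear map `B n p r q → B n p q r` -/
def tau (n p q r : ℕ) : B n p r q →ₗ[ℂ] B n p q r where
  toFun x := (x.1ᵀ, fun k => (x.2.1 k)ᵀ, x.2.2.2, x.2.2.1)
  map_add' x y := by
    refine Prod.ext ?_ (Prod.ext ?_ (Prod.ext ?_ ?_))
    · simp [Matrix.transpose_add]
    · funext k
      simp [Matrix.transpose_add]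
    · rfl
    · rfl
  map_smul' c x := by
    refine Prod.ext ?_ (Prod.ext ?_ (Prod.ext ?_ ?_))
    · simp [Matrix.transpose_smul]
    · funext k
      simp [Matrix.transpose_smul]
    · rfl
    · rfl

theorem tau_apply {n p q r : ℕ} (x : B n p r q) :
    tau n p q r x = (x.1ᵀ, fun k => (x.2.1 k)ᵀ, x.2.2.2, x.2.2.1) := rfl

theorem tau_tau {n p q r : ℕ} (x : B n p q r) :
    tau n p q r (tau n p r q x) = x := by
  simp only [tau_apply, Matrix.transpose_transpose]

theorem tau_mul {n p q r : ℕ} (x y : B n p r q) :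
    tau n p q r (mulB x y) = mulB (tau n p q r y) (tau n p q r x) := by
  simp only [tau_apply, mulB]
  refine Prod.ext ?_ (Prod.ext ?_ (Prod.ext ?_ ?_))
  · simp only [Matrix.transpose_mul]
  · funext k
    simp only [Matrix.transpose_add, Matrix.transpose_mul]
    exact add_comm _ _
  · funext k
    simp only [Matrix.mulVec_transpose]
  · funext k
    simp only [Matrix.vecMul_transpose]

end OP

theorem t_OP : S_OP := by
  intro n p q r h
  obtain ⟨ω, ⟨hanti, hcyc⟩, hnd⟩ := h
  refine ⟨ω.compl₁₂ (OP.tau n p q r) (OP.tau n p q r), ⟨?_, ?_⟩, ?_⟩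
  · intro x y
    simp only [LinearMap.compl₁₂_apply]
    exact hanti _ _
  · intro x y z
    simp only [LinearMap.compl₁₂_apply, OP.tau_mul]
    have h1 := hcyc (OP.tau n p q r x) (OP.tau n p q r z) (OP.tau n p q r y)
    linear_combination h1
  · intro x hx
    have h0 : OP.tau n p q r x = 0 := by
      apply hnd
      intro y
      have h1 := hx (OP.tau n p r q y)
      simp only [LinearMap.compl₁₂_apply] at h1
      rwa [OP.tau_tau] at h1
    have h2 := OP.tau_tau (n := n) (p := p) (q := r) (r := q) x
    rw [h0, map_zero] at h2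
    exact h2.symm

end Pool.Agent.N917.AF
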