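import Pool.Agent.N917.AF.Stm

set_option autoImplicit false

/-!
Project AF (helper917), leaf PEV (helper627): the matrix `β` of a nondegenerate standard form is
invertible, hence `p` is even.
-/

namespace Pool.Agent.N917.AF

open Matrix

theorem t_PEV : S_PEV := by
  intro n p q r Λ l ξ η β κ hn hβ hnd
  have hdet : β.det ≠ 0 := by
    intro h0
    obtain ⟨c, hc, hcβ⟩ := Matrix.exists_vecMul_eq_zero_iff.2 h0
    have hx : ((0, fun k => c k • (1 : Matrix (Fin n) (Fin n) ℂ), 0, 0) : B n p q r) = 0 := by
      apply hnd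
      intro y
      have h5 : ∑ j, ∑ k, β j k * trace ((c j • (1 : Matrix (Fin n) (Fin n) ℂ)) * y.2.1 k) = 0 := by
        rw [Finset.sum_comm]
        refine Finset.sum_eq_zero fun k _ => ?_
        have h6 : ∑ j, c j * β j k = 0 := congrFun hcβ k
        calc ∑ j, β j k * trace ((c j • (1 : Matrix (Fin n) (Fin n) ℂ)) * y.2.1 k)
            = ∑ j, (c j * β j k) * trace (y.2.1 k) := by
              refine Finset.sum_congr rfl fun j _ => ?_
              rw [Matrix.smul_mul, Matrix.one_mul, Matrix.trace_smul, smul_eq_mul]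
              ring
          _ = 0 := by rw [← Finset.sum_mul, h6, zero_mul]
      simp only [std, h5]
      simp
    apply hc
    funext k
    have h7 : (fun k => c k • (1 : Matrix (Fin n) (Fin n) ℂ)) = 0 :=
      congrArg (fun z : B n p q r => z.2.1) hx
    have h8 : c k • (1 : Matrix (Fin n) (Fin n) ℂ) = 0 := congrFun h7 k
    have h9 := congrFun (congrFun h8 ⟨0, hn⟩) ⟨0, hn⟩
    simpa using h9
  refine ⟨isUnit_iff_ne_zero.2 hdet, ?_⟩
  by_contra hp
  rw [Nat.not_even_iff_odd] at hp
  have hT : βᵀ = -β := by
    ext i j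
    rw [Matrix.transpose_apply, Matrix.neg_apply]
    exact hβ j i
  have h1 : β.det = -β.det := by
    calc β.det = βᵀ.det := (Matrix.det_transpose β).symm
      _ = (-β).det := by rw [hT]
      _ = (-1) ^ p * β.det := by rw [Matrix.det_neg, Fintype.card_fin]
      _ = -β.det := by rw [hp.neg_one_pow]; ring
  apply hdet
  have h2 : (2 : ℂ) * β.det = 0 := by linear_combination h1
  simpa using h2

end Pool.Agent.N917.AF
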