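import Pool.Agent.N917.AF.Stm

/-!
Project AF, leaf STD (helper360): normalising the row vectors `ξ` by conjugation.
-/

set_option autoImplicit false

namespace Pool.Agent.N917.AF

open Matrix

namespace STD

/-- linearly independent vectors are the first rows of an invertible matrix -/
theorem exists_rows (n a : ℕ) (ξ : Fin a → Fin (a + n) → ℂ) (h : LinearIndependent ℂ ξ) :
    ∃ X g : Matrix (Fin (a + n)) (Fin (a + n)) ℂ, X * g = 1 ∧ g * X = 1 ∧
      ∀ k, X (Fin.castAdd n k) = ξ k := by
  classical
  let b := Module.Basis.sumExtend h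
  have : Finite (Fin a ⊕ _) := Module.Finite.finite_basis b
  have hJ : Finite (Module.Basis.sumExtendIndex h) :=
    Finite.of_injective (Sum.inr : _ → Fin a ⊕ Module.Basis.sumExtendIndex h) Sum.inr_injective
  have := Fintype.ofFinite (Module.Basis.sumExtendIndex h)
  have hc : Fintype.card (Module.Basis.sumExtendIndex h) = n := by
    have h1 := Module.finrank_eq_card_basis b
    rw [Fintype.card_sum, Fintype.card_fin] at h1
    simp only [Module.finrank_fintype_fun_eq_card, Fintype.card_fin] at h1
    omega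
  let e : Module.Basis.sumExtendIndex h ≃ Fin n := Fintype.equivFinOfCardEq hc
  let b' : Module.Basis (Fin (a + n)) ℂ (Fin (a + n) → ℂ) :=
    b.reindex ((Equiv.sumCongr (Equiv.refl _) e).trans finSumFinEquiv)
  have hb : ∀ k, b' (Fin.castAdd n k) = ξ k := by
    intro k
    simp only [b', Module.Basis.reindex_apply]
    have : ((Equiv.sumCongr (Equiv.refl (Fin a)) e).trans finSumFinEquiv).symm (Fin.castAdd n k)
        = Sum.inl k := by
      rw [Equiv.symm_apply_eq]
      simp
    rw [this]
    have h7 : Module.Basis.sumExtend h (Sum.inl k) = ξ k := by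
      simp only [Module.Basis.sumExtend, Module.Basis.reindex_apply, Equiv.symm_symm,
        Module.Basis.extend_apply_self]
      rfl
    exact h7
  let X : Matrix (Fin (a + n)) (Fin (a + n)) ℂ := fun i => b' i
  have hX : IsUnit X := by
    rw [← Matrix.linearIndependent_rows_iff_isUnit]
    exact b'.linearIndependent
  have hd : IsUnit X.det := (Matrix.isUnit_iff_isUnit_det X).1 hX
  exact ⟨X, X⁻¹, Matrix.mul_nonsing_inv X hd, Matrix.nonsing_inv_mul X hd, hb⟩

end STD

theorem t_STD : S_STD := by
  intro n a Λ ξ hli hND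
  obtain ⟨X, g, hXg, hgX, hrow⟩ := STD.exists_rows n a ξ hli
  have hxi : ∀ (k : Fin a) (w : Fin (a + n) → ℂ),
      (Pi.single (Fin.castAdd n k) (1 : ℂ) : Fin (a + n) → ℂ) ⬝ᵥ w = ξ k ⬝ᵥ (g *ᵥ w) := by
    intro k w
    have h1 : ξ k ᵥ* g = Pi.single (Fin.castAdd n k) (1 : ℂ) := by
      rw [← hrow k]
      funext j
      have h2 : (X * g) (Fin.castAdd n k) j = (1 : Matrix _ _ ℂ) (Fin.castAdd n k) j := by
        rw [hXg]
      rw [Matrix.mul_apply] at h2
      simp only [Matrix.vecMul, dotProduct]
      rw [h2, Matrix.one_apply, Pi.single_apply]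
      by_cases h3 : j = Fin.castAdd n k
      · simp [h3]
      · simp [h3, Ne.symm h3]
    rw [← h1, Matrix.dotProduct_mulVec]
  refine ⟨X * Λ * g, ?_⟩
  intro s v hsv
  have key := hND (g * s * X) (fun k => g *ᵥ v k) ?_
  · obtain ⟨k1, k2⟩ := key
    constructor
    · calc s = (X * g) * s * (X * g) := by rw [hXg]; simp
        _ = X * (g * s * X) * g := by simp only [Matrix.mul_assoc]
        _ = 0 := by rw [k1]; simp
    · funext k
      have h4 : g *ᵥ v k = 0 := congrFun k2 k
      calc v k = (X * g) *ᵥ v k := by rw [hXg]; simp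
        _ = X *ᵥ (g *ᵥ v k) := by rw [Matrix.mulVec_mulVec]
        _ = 0 := by rw [h4]; simp
  · intro S' V'
    have h5 := hsv (X * S' * g) (fun k => X *ᵥ V' k)
    rw [← h5]
    congr 1
    · have e1 : X * Λ * g * (s * (X * S' * g) - X * S' * g * s)
          = X * (Λ * ((g * s * X) * S' - S' * (g * s * X))) * g := by
        have e2 : ∀ M : Matrix (Fin (a + n)) (Fin (a + n)) ℂ, g * (X * M) = M := by
          intro M
          rw [← Matrix.mul_assoc, hgX, Matrix.one_mul]
        have e3 : ∀ M : Matrix (Fin (a + n)) (Fin (a + n)) ℂ, X * (g * M) = M := by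
          intro M
          rw [← Matrix.mul_assoc, hXg, Matrix.one_mul]
        simp only [Matrix.mul_sub, Matrix.sub_mul, Matrix.mul_assoc, e2, hXg, Matrix.mul_one]
      rw [e1, Matrix.trace_mul_comm (X * _) g, ← Matrix.mul_assoc g X, hgX, Matrix.one_mul]
    · refine Finset.sum_congr rfl fun k _ => ?_
      rw [hxi]
      congr 1
      rw [Matrix.mulVec_sub]
      simp only [Matrix.mulVec_mulVec, Matrix.mul_assoc]
      congr 1
      rw [← Matrix.mul_assoc g X, hgX, Matrix.one_mul]

end Pool.Agent.N917.AF
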