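import Pool.Agent.N917.AF.Stm

set_option autoImplicit false

/-! # AF/UP: the inverse step -/

namespace Pool.Agent.N917.AF

open Matrix

namespace UP

variable {n a : ℕ}

/-- the matrix with the blocks `0`, `Q`, `0`, `T` -/
def Lp (Λ : Matrix (Fin n) (Fin n) ℂ) (ξ : Fin a → Fin n → ℂ) :
    Matrix (Fin (a + n)) (Fin (a + n)) ℂ := fun i j =>
  Fin.addCases (fun k : Fin a => Fin.addCases (fun _ : Fin a => (0 : ℂ)) (fun j' : Fin n => ξ k j') j)
    (fun i' : Fin n => Fin.addCases (fun _ : Fin a => (0 : ℂ)) (fun j' : Fin n => Λ i' j') j) i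

/-- the matrix with the blocks `0`, `0`, `B'`, `C'` -/
def Sp (C : Matrix (Fin n) (Fin n) ℂ) (v : Fin a → Fin n → ℂ) :
    Matrix (Fin (a + n)) (Fin (a + n)) ℂ := fun i j =>
  Fin.addCases (fun _ : Fin a => (0 : ℂ))
    (fun i' : Fin n => Fin.addCases (fun k : Fin a => v k i') (fun j' : Fin n => C i' j') j) i

variable (Λ : Matrix (Fin n) (Fin n) ℂ) (ξ : Fin a → Fin n → ℂ)

lemma Lp_cc (k l : Fin a) : Lp Λ ξ (Fin.castAdd n k) (Fin.castAdd n l) = 0 := by simp [Lp]

lemma Lp_cn (k : Fin a) (j : Fin n) : Lp Λ ξ (Fin.castAdd n k) (Fin.natAdd a j) = ξ k j := by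
  simp [Lp]

lemma Lp_nc (i : Fin n) (l : Fin a) : Lp Λ ξ (Fin.natAdd a i) (Fin.castAdd n l) = 0 := by simp [Lp]

lemma Lp_nn (i j : Fin n) : Lp Λ ξ (Fin.natAdd a i) (Fin.natAdd a j) = Λ i j := by simp [Lp]

variable (C : Matrix (Fin n) (Fin n) ℂ) (v : Fin a → Fin n → ℂ)

lemma Sp_c (k : Fin a) (j : Fin (a + n)) : Sp C v (Fin.castAdd n k) j = 0 := by simp [Sp]

lemma Sp_nc (i : Fin n) (k : Fin a) : Sp C v (Fin.natAdd a i) (Fin.castAdd n k) = v k i := by
  simp [Sp]

lemma Sp_nn (i j : Fin n) : Sp C v (Fin.natAdd a i) (Fin.natAdd a j) = C i j := by simp [Sp]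

lemma trace_Lp (M : Matrix (Fin (a + n)) (Fin (a + n)) ℂ) :
    trace (Lp Λ ξ * M) = ∑ k : Fin a, ∑ j : Fin n, ξ k j * M (Fin.natAdd a j) (Fin.castAdd n k)
      + ∑ i : Fin n, ∑ j : Fin n, Λ i j * M (Fin.natAdd a j) (Fin.natAdd a i) := by
  unfold trace
  rw [Fin.sum_univ_add]
  congr 1
  · refine Finset.sum_congr rfl fun k _ => ?_
    rw [diag_apply, mul_apply, Fin.sum_univ_add]
    have h : ∑ l : Fin a, Lp Λ ξ (Fin.castAdd n k) (Fin.castAdd n l) *
        M (Fin.castAdd n l) (Fin.castAdd n k) = 0 :=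
      Finset.sum_eq_zero fun l _ => by rw [Lp_cc, zero_mul]
    rw [h, zero_add]
    exact Finset.sum_congr rfl fun j _ => by rw [Lp_cn]
  · refine Finset.sum_congr rfl fun i _ => ?_
    rw [diag_apply, mul_apply, Fin.sum_univ_add]
    have h : ∑ l : Fin a, Lp Λ ξ (Fin.natAdd a i) (Fin.castAdd n l) *
        M (Fin.castAdd n l) (Fin.natAdd a i) = 0 :=
      Finset.sum_eq_zero fun l _ => by rw [Lp_nc, zero_mul]
    rw [h, zero_add]
    exact Finset.sum_congr rfl fun j _ => by rw [Lp_nn]

/-- if the first rows of `y` vanish, then entries of a product reduce -/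
lemma mul_red (x y : Matrix (Fin (a + n)) (Fin (a + n)) ℂ)
    (hy : ∀ (k : Fin a) (j : Fin (a + n)), y (Fin.castAdd n k) j = 0) (i j : Fin (a + n)) :
    (x * y) i j = ∑ l : Fin n, x i (Fin.natAdd a l) * y (Fin.natAdd a l) j := by
  rw [mul_apply, Fin.sum_univ_add]
  have h : ∑ l : Fin a, x i (Fin.castAdd n l) * y (Fin.castAdd n l) j = 0 :=
    Finset.sum_eq_zero fun l _ => by rw [hy, mul_zero]
  rw [h, zero_add]

end UP

open UP in
theorem t_UP : S_UP := by
  classical
  intro n a Λ ξ hND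
  refine ⟨Lp Λ ξ, fun k => Pi.single (Fin.castAdd n k) 1, ?_⟩
  intro s v h
  have hdot : ∀ (k : Fin a) (w : Fin (a + n) → ℂ),
      (Pi.single (Fin.castAdd n k) (1 : ℂ) : Fin (a + n) → ℂ) ⬝ᵥ w = w (Fin.castAdd n k) := by
    intro k w
    rw [single_dotProduct, one_mul]
  -- the first rows of `s` vanish
  have hs1 : ∀ (k : Fin a) (j : Fin (a + n)), s (Fin.castAdd n k) j = 0 := by
    intro k j
    have h1 := h 0 (Pi.single k (Pi.single j 1))
    simp only [hdot, mul_zero, zero_mul, sub_zero, trace_zero, zero_add, zero_mulVec] at h1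
    rw [Finset.sum_eq_single k] at h1
    · rw [Pi.single_eq_same, mulVec_single_one] at h1
      simpa using h1
    · intro k' _ hk'
      rw [Pi.single_eq_of_ne hk', mulVec_zero]
      rfl
    · intro hk
      exact absurd (Finset.mem_univ k) hk
  -- reduction to the small matrices
  obtain ⟨hC, hB⟩ := hND (fun i j => s (Fin.natAdd a i) (Fin.natAdd a j))
    (fun k i => s (Fin.natAdd a i) (Fin.castAdd n k)) (by
      intro C' v'
      have h1 := h (Sp C' v') 0
      have hz : ∑ k : Fin a, (Pi.single (Fin.castAdd n k) (1 : ℂ) : Fin (a + n) → ℂ) ⬝ᵥ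
          (s *ᵥ (0 : Fin a → Fin (a + n) → ℂ) k - Sp C' v' *ᵥ v k) = 0 := by
        refine Finset.sum_eq_zero fun k _ => ?_
        rw [hdot, Pi.zero_apply, mulVec_zero, zero_sub, Pi.neg_apply, neg_eq_zero]
        simp only [mulVec, dotProduct]
        exact Finset.sum_eq_zero fun j _ => by rw [Sp_c, zero_mul]
      rw [hz, add_zero, trace_Lp] at h1
      rw [← h1, add_comm]
      congr 1
      · refine Finset.sum_congr rfl fun k _ => ?_
        unfold dotProduct
        refine Finset.sum_congr rfl fun j _ => ?_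
        congr 1
        rw [Matrix.sub_apply, mul_red s (Sp C' v') (Sp_c C' v'), mul_red (Sp C' v') s hs1, Pi.sub_apply]
        simp only [mulVec, dotProduct]
        congr 1
        · exact Finset.sum_congr rfl fun l _ => by rw [Sp_nc]
        · exact Finset.sum_congr rfl fun l _ => by rw [Sp_nn]
      · unfold trace
        refine Finset.sum_congr rfl fun i _ => ?_
        rw [diag_apply, mul_apply]
        refine Finset.sum_congr rfl fun j _ => ?_
        congr 1
        rw [Matrix.sub_apply, Matrix.sub_apply, mul_red s (Sp C' v') (Sp_c C' v'), mul_red (Sp C' v') s hs1]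
        change (∑ l : Fin n, s (Fin.natAdd a j) (Fin.natAdd a l) * C' l i)
          - (∑ l : Fin n, C' j l * s (Fin.natAdd a l) (Fin.natAdd a i)) = _
        congr 1
        · exact Finset.sum_congr rfl fun l _ => by rw [Sp_nn]
        · exact Finset.sum_congr rfl fun l _ => by rw [Sp_nn])
  have hs : s = 0 := by
    ext i j
    refine Fin.addCases (fun k => ?_) (fun i' => ?_) i
    · exact hs1 k j
    · refine Fin.addCases (fun k => ?_) (fun j' => ?_) j
      · exact congrFun (congrFun hB k) i'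
      · exact congrFun (congrFun hC i') j'
  refine ⟨hs, ?_⟩
  funext k j
  have h1 := h (Matrix.single (Fin.castAdd n k) j 1) 0
  rw [hs] at h1
  simp only [hdot, zero_mul, mul_zero, sub_zero, trace_zero, zero_add, zero_mulVec,
    zero_sub, Pi.neg_apply] at h1
  rw [Finset.sum_eq_single k] at h1
  · have h2 : (Matrix.single (Fin.castAdd n k) j (1 : ℂ) *ᵥ v k) (Fin.castAdd n k) = v k j := by
      simp only [mulVec, dotProduct]
      rw [Finset.sum_eq_single j]
      · simp
      · intro l _ hl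
        have h3 : Matrix.single (Fin.castAdd n k) j (1 : ℂ) (Fin.castAdd n k) l = 0 :=
          Matrix.single_apply_of_ne _ _ _ _ _ (fun hh => hl hh.2.symm)
        rw [h3, zero_mul]
      · intro hj
        exact absurd (Finset.mem_univ j) hj
    rw [h2] at h1
    simpa using h1
  · intro k' _ hk'
    rw [neg_eq_zero]
    simp only [mulVec, dotProduct]
    refine Finset.sum_eq_zero fun l _ => ?_
    have h3 : Matrix.single (Fin.castAdd n k) j (1 : ℂ) (Fin.castAdd n k') l = 0 :=
      Matrix.single_apply_of_ne _ _ _ _ _ (fun hh => hk' (Fin.castAdd_injective a n hh.1).symm)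
    rw [h3, zero_mul]
  · intro hk
    exact absurd (Finset.mem_univ k) hk

end Pool.Agent.N917.AF
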