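import Pool.Agent.N917.AF.COB
import Pool.Agent.N917.AF.MM
import Pool.Agent.N917.AF.FORM
import Pool.Agent.N917.AF.COC
import Pool.Agent.N917.AF.PEV
import Pool.Agent.N917.AF.KK
import Pool.Agent.N917.AF.OP
import Pool.Agent.N917.AF.RK
import Pool.Agent.N917.AF.BC
import Pool.Agent.N917.AF.CORE
import Pool.Agent.N917.AF.LE
import Pool.Agent.N917.AF.STD
import Pool.Agent.N917.AF.DOWN
import Pool.Agent.N917.AF.UP
import Pool.Agent.N917.AF.BLD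

set_option autoImplicit false

namespace Pool.Agent.N917.AF

open Matrix

/-- the Euclidean algorithm -/
theorem nd_dvd (a : ℕ) : ∀ (n : ℕ) (Λ : Matrix (Fin n) (Fin n) ℂ) (ξ : Fin a → Fin n → ℂ),
    ND n a Λ ξ → a ∣ n := by
  intro n
  induction n using Nat.strong_induction_on with
  | _ n ih =>
    intro Λ ξ h
    rcases Nat.eq_zero_or_pos n with h0 | h0
    · rw [h0]
      exact dvd_zero a
    · obtain ⟨ha, han, hli⟩ := t_LE n a Λ ξ h0 h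
      obtain ⟨n', rfl⟩ := Nat.exists_eq_add_of_le han
      obtain ⟨Λ', h'⟩ := t_STD n' a Λ ξ hli h
      have h2 := t_DOWN n' a Λ' h'
      have h3 := ih n' (by omega) _ _ h2
      exact (Nat.dvd_add_right (dvd_refl a)).2 h3

theorem nd_exists (a k : ℕ) : ∃ (Λ : Matrix (Fin (a * k)) (Fin (a * k)) ℂ)
    (ξ : Fin a → Fin (a * k) → ℂ), ND (a * k) a Λ ξ := by
  induction k with
  | zero =>
    refine ⟨0, 0, ?_⟩
    intro s v _
    refine ⟨?_, ?_⟩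
    · ext i j
      exact absurd i.2 (by simp)
    · funext k i
      exact absurd i.2 (by simp)
  | succ k ih =>
    obtain ⟨Λ, ξ, h⟩ := ih
    have h2 : ∃ (Λ' : Matrix (Fin (a + a * k)) (Fin (a + a * k)) ℂ)
        (ξ' : Fin a → Fin (a + a * k) → ℂ), ND (a + a * k) a Λ' ξ' := t_UP _ _ Λ ξ h
    have e : a * (k + 1) = a + a * k := by ring
    rw [e]
    exact h2

theorem blk_fwd {n p q r : ℕ} (hn : 1 ≤ n) (hrq : r ≤ q) (h : AF (B n p q r) mulB) :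
    Even p ∧ ∃ a, 1 ≤ a ∧ a ∣ n ∧ q = r + a := by
  obtain ⟨ω, hc, hnd⟩ := h
  obtain ⟨Λ, l, ξ, η, β, κ, hβ, hω⟩ := t_FORM t_COB t_MM n p q r ω hn hc
  have hN : NDeg (std Λ l ξ η β κ) := by
    intro x hx
    exact hnd x (fun y => by rw [hω]; exact hx y)
  obtain ⟨hdet, hp⟩ := t_PEV n p q r Λ l ξ η β κ hn hβ hN
  refine ⟨hp, ?_⟩
  have hκ := t_KK n p q r Λ l ξ η β κ hn hrq hN
  obtain ⟨a, rfl, P, hP, hPk⟩ := t_RK q r κ hκ
  have h2 := t_BC n p (r + a) r Λ l ξ η β κ P hP hN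
  have hPk' : P * κ = kst r a := by
    rw [← hPk]
    rfl
  rw [hPk'] at h2
  obtain ⟨Λ', h3⟩ := t_CORE n p r a Λ l _ η β hβ hdet h2
  obtain ⟨h4, -, -⟩ := t_LE n a Λ' _ hn h3
  exact ⟨a, h4, nd_dvd a n _ _ h3, rfl⟩

theorem blk {n p q r : ℕ} (hn : 1 ≤ n) :
    AF (B n p q r) mulB ↔ Even p ∧ ∃ a, 1 ≤ a ∧ a ∣ n ∧ (q = r + a ∨ r = q + a) := by
  constructor
  · intro h
    rcases Nat.le_total r q with hrq | hrq
    · obtain ⟨h1, a, h2, h3, h4⟩ := blk_fwd hn hrq h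
      exact ⟨h1, a, h2, h3, Or.inl h4⟩
    · obtain ⟨h1, a, h2, h3, h4⟩ := blk_fwd hn hrq (t_OP n p q r h)
      exact ⟨h1, a, h2, h3, Or.inr h4⟩
  · rintro ⟨⟨p0, rfl⟩, a, ha, ⟨k, rfl⟩, h⟩
    have key : ∀ r : ℕ, AF (B (a * k) (p0 + p0) (r + a) r) mulB := by
      intro r
      obtain ⟨Λ, ξ, h1⟩ := nd_exists a k
      obtain ⟨ξ', β, hβ, hN⟩ := t_BLD (a * k) a p0 r Λ ξ h1
      obtain ⟨ω, hc, hω⟩ := t_COC (a * k) (p0 + p0) (r + a) r Λ (fun _ => 0) ξ' (fun _ => 0) β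
        (kst r a) hβ
      refine ⟨ω, hc, fun x hx => hN x (fun y => ?_)⟩
      rw [← hω]
      exact hx y
    rcases h with rfl | rfl
    · exact key r
    · exact t_OP _ _ _ _ (key q)

end Pool.Agent.N917.AF
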