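import Pool.Agent.N917.AF.Stm

/-!
# COB: on `S × (S ⊕ M)` a cocycle is a coboundary
-/

set_option autoImplicit false

namespace Pool.Agent.N917.AF

open Matrix

namespace COB

variable {n p q r : ℕ}

/-- the element `(s, 0, 0, 0)` -/
def J (s : Matrix (Fin n) (Fin n) ℂ) : B n p q r := (s, 0, 0, 0)

lemma mulB_left (s : Matrix (Fin n) (Fin n) ℂ) (x : B n p q r) :
    mulB (J s) x = (s * x.1, fun k => s * x.2.1 k, fun k => s *ᵥ x.2.2.1 k, 0) := by
  refine Prod.ext rfl (Prod.ext (funext fun k => ?_) (Prod.ext rfl (funext fun k => ?_)))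
  · simp [mulB, J]
  · simp [mulB, J]

lemma mulB_right (s : Matrix (Fin n) (Fin n) ℂ) (x : B n p q r) :
    mulB x (J s) = (x.1 * s, fun k => x.2.1 k * s, 0, fun k => x.2.2.2 k ᵥ* s) := by
  refine Prod.ext rfl (Prod.ext (funext fun k => ?_) (Prod.ext (funext fun k => ?_) rfl))
  · simp [mulB, J]
  · simp [mulB, J]

lemma assoc1 (s t : Matrix (Fin n) (Fin n) ℂ) (x : B n p q r) :
    mulB (J s) (mulB (J t) x) = mulB (J (s * t)) x := by
  rw [mulB_left, mulB_left, mulB_left]
  refine Prod.ext ?_ (Prod.ext (funext fun k => ?_) (Prod.ext (funext fun k => ?_) rfl))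
  · simp [Matrix.mul_assoc]
  · simp [Matrix.mul_assoc]
  · simp [Matrix.mulVec_mulVec]

lemma assoc2 (s t : Matrix (Fin n) (Fin n) ℂ) (x : B n p q r) :
    mulB (mulB (J s) x) (J t) = mulB (J s) (mulB x (J t)) := by
  rw [mulB_left, mulB_right, mulB_left, mulB_right]
  refine Prod.ext ?_ (Prod.ext (funext fun k => ?_) (Prod.ext (funext fun k => ?_)
    (funext fun k => ?_)))
  · simp [Matrix.mul_assoc]
  · simp [Matrix.mul_assoc]
  · simp
  · simp

lemma mulB_J (s t : Matrix (Fin n) (Fin n) ℂ) :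
    mulB (J s : B n p q r) (J t) = J (s * t) := by
  rw [mulB_left]
  refine Prod.ext rfl (Prod.ext (funext fun k => ?_) (Prod.ext (funext fun k => ?_) rfl))
  · simp [J]
  · simp [J]

/-- left multiplication by `J s` -/
def Lm (s : Matrix (Fin n) (Fin n) ℂ) : B n p q r →ₗ[ℂ] B n p q r where
  toFun x := mulB (J s) x
  map_add' x y := by
    rw [mulB_left, mulB_left, mulB_left]
    refine Prod.ext ?_ (Prod.ext (funext fun k => ?_) (Prod.ext (funext fun k => ?_)
      (funext fun k => ?_)))
    · simp [Matrix.mul_add]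
    · simp [Matrix.mul_add]
    · simp [Matrix.mulVec_add]
    · simp
  map_smul' c x := by
    rw [mulB_left, mulB_left]
    refine Prod.ext ?_ (Prod.ext (funext fun k => ?_) (Prod.ext (funext fun k => ?_)
      (funext fun k => ?_)))
    · simp
    · simp
    · simp [Matrix.mulVec_smul]
    · simp

/-- right multiplication by `J s` -/
def Rm (s : Matrix (Fin n) (Fin n) ℂ) : B n p q r →ₗ[ℂ] B n p q r where
  toFun x := mulB x (J s)
  map_add' x y := by
    rw [mulB_right, mulB_right, mulB_right]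
    refine Prod.ext ?_ (Prod.ext (funext fun k => ?_) (Prod.ext (funext fun k => ?_)
      (funext fun k => ?_)))
    · simp [Matrix.add_mul]
    · simp [Matrix.add_mul]
    · simp
    · simp [Matrix.add_vecMul]
  map_smul' c x := by
    rw [mulB_right, mulB_right]
    refine Prod.ext ?_ (Prod.ext (funext fun k => ?_) (Prod.ext (funext fun k => ?_)
      (funext fun k => ?_)))
    · simp
    · simp
    · simp
    · simp [Matrix.smul_vecMul]

/-- `s ↦ mulB (J s) x` -/
def Jm (x : B n p q r) : Matrix (Fin n) (Fin n) ℂ →ₗ[ℂ] B n p q r where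
  toFun s := mulB (J s) x
  map_add' s t := by
    rw [mulB_left, mulB_left, mulB_left]
    refine Prod.ext ?_ (Prod.ext (funext fun k => ?_) (Prod.ext (funext fun k => ?_)
      (funext fun k => ?_)))
    · simp [Matrix.add_mul]
    · simp [Matrix.add_mul]
    · simp [Matrix.add_mulVec]
    · simp
  map_smul' c s := by
    rw [mulB_left, mulB_left]
    refine Prod.ext ?_ (Prod.ext (funext fun k => ?_) (Prod.ext (funext fun k => ?_)
      (funext fun k => ?_)))
    · simp
    · simp
    · simp [Matrix.smul_mulVec]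
    · simp

/-- `J` as a linear map -/
def Jl : Matrix (Fin n) (Fin n) ℂ →ₗ[ℂ] B n p q r where
  toFun s := J s
  map_add' s t := by
    refine Prod.ext rfl (Prod.ext ?_ (Prod.ext ?_ ?_))
    · simp [J]
    · simp [J]
    · simp [J]
  map_smul' c s := by
    refine Prod.ext rfl (Prod.ext ?_ (Prod.ext ?_ ?_))
    · simp [J]
    · simp [J]
    · simp [J]

lemma Lm_apply (s : Matrix (Fin n) (Fin n) ℂ) (x : B n p q r) : Lm s x = mulB (J s) x := rfl

lemma Rm_apply (s : Matrix (Fin n) (Fin n) ℂ) (x : B n p q r) : Rm s x = mulB x (J s) := rfl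

lemma Jm_apply (s : Matrix (Fin n) (Fin n) ℂ) (x : B n p q r) : Jm x s = mulB (J s) x := rfl

lemma Jl_apply (s : Matrix (Fin n) (Fin n) ℂ) : (Jl s : B n p q r) = J s := rfl

/-- the matrix unit -/
abbrev e (a b : Fin n) : Matrix (Fin n) (Fin n) ℂ := Matrix.single a b 1

lemma e_mul (i a : Fin n) (s : Matrix (Fin n) (Fin n) ℂ) : e i a * s = ∑ b, s a b • e i b := by
  ext x y
  rw [Matrix.mul_apply, Matrix.sum_apply]
  by_cases hx : i = x
  · subst hx
    simp [Matrix.single_apply]
  · simp [hx]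

lemma mul_e (i b : Fin n) (s : Matrix (Fin n) (Fin n) ℂ) : s * e b i = ∑ a, s a b • e a i := by
  ext x y
  rw [Matrix.mul_apply, Matrix.sum_apply]
  by_cases hx : i = y
  · subst hx
    simp [Matrix.single_apply]
  · simp [hx]

lemma sum_e (i : Fin n) : ∑ a, e a i * e i a = 1 := by
  ext x y
  rw [Matrix.sum_apply]
  simp only [Matrix.single_mul_single_same, mul_one]
  by_cases hx : x = y
  · subst hx
    simp [Matrix.single_apply]
  · rw [Matrix.one_apply_ne hx]
    refine Finset.sum_eq_zero fun a _ => ?_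
    rw [Matrix.single_apply, if_neg]
    rintro ⟨h1, h2⟩
    exact hx (h1.symm.trans h2)

end COB

open COB in
theorem t_COB : S_COB := by
  intro n p q r ω hn hω
  obtain ⟨ha, hc⟩ := hω
  let i : Fin n := ⟨0, hn⟩
  let l : B n p q r →ₗ[ℂ] ℂ :=
    ∑ a, (ω (J (e a i))).comp (Lm (e i a)) - (ω (J 1)).comp (LinearMap.id - Lm 1)
  have hl : ∀ x, l x = ∑ a, ω (J (e a i)) (mulB (J (e i a)) x) -
      ω (J 1) (x - mulB (J 1) x) := by
    intro x
    simp only [l, LinearMap.sub_apply, LinearMap.sum_apply, LinearMap.comp_apply, Lm_apply,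
      LinearMap.id_apply]
  refine ⟨l, fun s x => ?_⟩
  change ω (J s) x = l (mulB (J s) x - mulB x (J s))
  -- (i)
  have h1 : ∑ a, ω (J (e a i)) (mulB (J (e i a)) (mulB (J s) x)) =
      ∑ a, ω (mulB (J s) (J (e a i))) (mulB (J (e i a)) x) := by
    have hL : ∀ a, ω (J (e a i)) (mulB (J (e i a)) (mulB (J s) x)) =
        ∑ b, s a b * ω (J (e a i)) (mulB (J (e i b)) x) := by
      intro a
      rw [assoc1, e_mul, ← Jm_apply, map_sum, map_sum]
      refine Finset.sum_congr rfl fun b _ => ?_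
      rw [map_smul, map_smul, smul_eq_mul, Jm_apply]
    have hR : ∀ b, ω (mulB (J s) (J (e b i))) (mulB (J (e i b)) x) =
        ∑ a, s a b * ω (J (e a i)) (mulB (J (e i b)) x) := by
      intro b
      rw [mulB_J, mul_e, ← Jl_apply, map_sum, map_sum, LinearMap.sum_apply]
      refine Finset.sum_congr rfl fun a _ => ?_
      rw [map_smul, map_smul, LinearMap.smul_apply, smul_eq_mul, Jl_apply]
    rw [Finset.sum_congr rfl fun a _ => hL a, Finset.sum_congr rfl fun b _ => hR b,
      Finset.sum_comm]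
  -- (ii)
  have h2 : ∑ a, ω (mulB (J s) (J (e a i))) (mulB (J (e i a)) x) =
      ω (J s) (mulB (J 1) x) + ∑ a, ω (J (e a i)) (mulB (J (e i a)) (mulB x (J s))) := by
    have h3 : ∀ a, ω (mulB (J s) (J (e a i))) (mulB (J (e i a)) x) =
        ω (J s) (mulB (J (e a i * e i a)) x) +
          ω (J (e a i)) (mulB (J (e i a)) (mulB x (J s))) := by
      intro a
      have h4 := hc (mulB (J (e i a)) x) (J s) (J (e a i))
      rw [assoc1, assoc2] at h4
      rw [ha (mulB (J s) (J (e a i))) (mulB (J (e i a)) x)]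
      linear_combination -h4
    rw [Finset.sum_congr rfl fun a _ => h3 a, Finset.sum_add_distrib]
    congr 1
    rw [← map_sum]
    congr 1
    have h5 : ∑ a, mulB (J (e a i * e i a)) x = Jm x (∑ a, e a i * e i a) := by
      rw [map_sum]
      rfl
    rw [h5, sum_e, Jm_apply]
  -- (iii)
  have h6 : mulB (J s) x - mulB (J 1) (mulB (J s) x) = 0 := by
    rw [assoc1, Matrix.one_mul, sub_self]
  -- (iv)
  set z : B n p q r := x - mulB (J 1) x with hz
  have h7 : mulB (J 1) z = 0 := by
    rw [hz, ← Lm_apply, map_sub, Lm_apply, Lm_apply, assoc1, Matrix.one_mul, sub_self]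
  have h8 : mulB z (J s) = mulB x (J s) - mulB (J 1) (mulB x (J s)) := by
    rw [hz, ← Rm_apply, map_sub, Rm_apply, Rm_apply, assoc2]
  have h9 : ω (J 1) (mulB z (J s)) = ω (J s) z := by
    have h10 := hc (J s) (J 1) z
    rw [h7, map_zero, mulB_J, Matrix.mul_one, ha z (J s)] at h10
    linear_combination h10
  have h11 : ω (J s) x = ω (J s) (mulB (J 1) x) + ω (J s) z := by
    rw [hz, map_sub]
    ring
  rw [map_sub, hl, hl, h6, map_zero, h1, h2, h11, ← h9, h8]
  ring

end Pool.Agent.N917.AF
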