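import Pool.Agent.N917.AF.Stm2

/-!
Project AF (helper917), leaf CPL (helper954): complements of sub-bimodules.
-/

set_option autoImplicit false

namespace Pool.Agent.N917.AF

open TensorProduct

namespace CPL

variable {S M : Type} [Ring S] [Algebra ℂ S] [AddCommGroup M] [Module ℂ M]

/-- averaging over the left multiplications -/
noncomputable def phiL (b : Bim S M) {N : ℕ} (x y : Fin N → S) (f : M →ₗ[ℂ] M) : M →ₗ[ℂ] M :=
  ∑ i, (b.L (x i)) ∘ₗ f ∘ₗ (b.L (y i)) +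
    (LinearMap.id - b.L 1) ∘ₗ f ∘ₗ (LinearMap.id - b.L 1)

/-- averaging over the right multiplications -/
noncomputable def phiR (b : Bim S M) {N : ℕ} (x y : Fin N → S) (f : M →ₗ[ℂ] M) : M →ₗ[ℂ] M :=
  ∑ i, (b.R (y i)) ∘ₗ f ∘ₗ (b.R (x i)) +
    (LinearMap.id - b.R 1) ∘ₗ f ∘ₗ (LinearMap.id - b.R 1)

theorem phiL_apply (b : Bim S M) {N : ℕ} (x y : Fin N → S) (f : M →ₗ[ℂ] M) (m : M) :
    phiL b x y f m = ∑ i, b.L (x i) (f (b.L (y i) m)) +
      (f (m - b.L 1 m) - b.L 1 (f (m - b.L 1 m))) := by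
  simp [phiL, LinearMap.sum_apply]

theorem phiR_apply (b : Bim S M) {N : ℕ} (x y : Fin N → S) (f : M →ₗ[ℂ] M) (m : M) :
    phiR b x y f m = ∑ i, b.R (y i) (f (b.R (x i) m)) +
      (f (m - b.R 1 m) - b.R 1 (f (m - b.R 1 m))) := by
  simp [phiR, LinearMap.sum_apply]

theorem phiL_comm (b : Bim S M) {N : ℕ} {x y : Fin N → S} (h : Sep S x y) (f : M →ₗ[ℂ] M)
    (s : S) (m : M) : phiL b x y f (b.L s m) = b.L s (phiL b x y f m) := by
  rw [phiL_apply, phiL_apply]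
  have h1 : b.L s m - b.L 1 (b.L s m) = 0 := by
    rw [← b.mulL, one_mul, sub_self]
  have h2 : ∀ m' : M, b.L s (m' - b.L 1 m') = 0 := by
    intro m'
    rw [map_sub, ← b.mulL, mul_one, sub_self]
  rw [h1, map_add, h2, map_zero, map_zero, sub_zero, add_zero, add_zero, map_sum]
  -- the bilinear map
  let B : S →ₗ[ℂ] S →ₗ[ℂ] M := LinearMap.mk₂ ℂ (fun a c => b.L a (f (b.L c m)))
    (fun a a' c => by simp) (fun r a c => by simp) (fun a c c' => by simp) (fun r a c => by simp)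
  have h3 := congrArg (TensorProduct.lift B) (h.2 s)
  rw [map_sum, map_sum] at h3
  simp only [TensorProduct.lift.tmul] at h3
  have h4 : ∀ a c : S, B a c = b.L a (f (b.L c m)) := fun a c => rfl
  simp only [h4] at h3
  calc ∑ i, b.L (x i) (f (b.L (y i) (b.L s m))) = ∑ i, b.L (x i) (f (b.L (y i * s) m)) :=
        Finset.sum_congr rfl fun i _ => by rw [b.mulL]
    _ = ∑ i, b.L (s * x i) (f (b.L (y i) m)) := h3.symm
    _ = ∑ i, b.L s (b.L (x i) (f (b.L (y i) m))) :=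
        Finset.sum_congr rfl fun i _ => by rw [b.mulL]

theorem phiR_comm (b : Bim S M) {N : ℕ} {x y : Fin N → S} (h : Sep S x y) (f : M →ₗ[ℂ] M)
    (s : S) (m : M) : phiR b x y f (b.R s m) = b.R s (phiR b x y f m) := by
  rw [phiR_apply, phiR_apply]
  have h1 : b.R s m - b.R 1 (b.R s m) = 0 := by
    rw [← b.mulR, mul_one, sub_self]
  have h2 : ∀ m' : M, b.R s (m' - b.R 1 m') = 0 := by
    intro m'
    rw [map_sub, ← b.mulR, one_mul, sub_self]
  rw [h1, map_add, h2, map_zero, map_zero, sub_zero, add_zero, add_zero, map_sum]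
  let B : S →ₗ[ℂ] S →ₗ[ℂ] M := LinearMap.mk₂ ℂ (fun a c => b.R c (f (b.R a m)))
    (fun a a' c => by simp) (fun r a c => by simp) (fun a c c' => by simp) (fun r a c => by simp)
  have h3 := congrArg (TensorProduct.lift B) (h.2 s)
  rw [map_sum, map_sum] at h3
  simp only [TensorProduct.lift.tmul] at h3
  have h4 : ∀ a c : S, B a c = b.R c (f (b.R a m)) := fun a c => rfl
  simp only [h4] at h3
  calc ∑ i, b.R (y i) (f (b.R (x i) (b.R s m))) = ∑ i, b.R (y i) (f (b.R (s * x i) m)) :=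
        Finset.sum_congr rfl fun i _ => by rw [b.mulR]
    _ = ∑ i, b.R (y i * s) (f (b.R (x i) m)) := h3
    _ = ∑ i, b.R s (b.R (y i) (f (b.R (x i) m))) :=
        Finset.sum_congr rfl fun i _ => by rw [b.mulR]

theorem phiL_id (b : Bim S M) {N : ℕ} {x y : Fin N → S} (h : Sep S x y) {f : M →ₗ[ℂ] M}
    {W : Submodule ℂ M} (hW : b.Sub W) (hf : ∀ m ∈ W, f m = m) : ∀ m ∈ W, phiL b x y f m = m := by
  intro m hm
  rw [phiL_apply]
  have h1 : ∀ i, b.L (x i) (f (b.L (y i) m)) = b.L (x i * y i) m := by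
    intro i
    rw [hf _ (hW (y i) m hm).1, b.mulL]
  have h2 : m - b.L 1 m ∈ W := W.sub_mem hm (hW 1 m hm).1
  have h3 : ∑ i, b.L (x i * y i) m = b.L 1 m := by
    rw [← h.1, map_sum, LinearMap.sum_apply]
  have h4 : b.L 1 (b.L 1 m) = b.L 1 m := by rw [← b.mulL, one_mul]
  simp only [h1]
  rw [h3, hf _ h2, map_sub, h4]
  abel

theorem phiR_id (b : Bim S M) {N : ℕ} {x y : Fin N → S} (h : Sep S x y) {f : M →ₗ[ℂ] M}
    {W : Submodule ℂ M} (hW : b.Sub W) (hf : ∀ m ∈ W, f m = m) : ∀ m ∈ W, phiR b x y f m = m := by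
  intro m hm
  rw [phiR_apply]
  have h1 : ∀ i, b.R (y i) (f (b.R (x i) m)) = b.R (x i * y i) m := by
    intro i
    rw [hf _ (hW (x i) m hm).2, b.mulR]
  have h2 : m - b.R 1 m ∈ W := W.sub_mem hm (hW 1 m hm).2
  have h3 : ∑ i, b.R (x i * y i) m = b.R 1 m := by
    rw [← h.1, map_sum, LinearMap.sum_apply]
  have h4 : b.R 1 (b.R 1 m) = b.R 1 m := by rw [← b.mulR, one_mul]
  simp only [h1]
  rw [h3, hf _ h2, map_sub, h4]
  abel

theorem phiL_mem (b : Bim S M) {N : ℕ} (x y : Fin N → S) {f : M →ₗ[ℂ] M}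
    {W : Submodule ℂ M} (hW : b.Sub W) (hf : ∀ m, f m ∈ W) : ∀ m, phiL b x y f m ∈ W := by
  intro m
  rw [phiL_apply]
  refine W.add_mem (W.sum_mem fun i _ => (hW _ _ (hf _)).1) (W.sub_mem (hf _) ?_)
  exact (hW _ _ (hf _)).1

theorem phiR_mem (b : Bim S M) {N : ℕ} (x y : Fin N → S) {f : M →ₗ[ℂ] M}
    {W : Submodule ℂ M} (hW : b.Sub W) (hf : ∀ m, f m ∈ W) : ∀ m, phiR b x y f m ∈ W := by
  intro m
  rw [phiR_apply]
  refine W.add_mem (W.sum_mem fun i _ => (hW _ _ (hf _)).2) (W.sub_mem (hf _) ?_)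
  exact (hW _ _ (hf _)).2

theorem phiR_left (b : Bim S M) {N : ℕ} (x y : Fin N → S) {f : M →ₗ[ℂ] M}
    (hf : ∀ s m, f (b.L s m) = b.L s (f m)) (s : S) (m : M) :
    phiR b x y f (b.L s m) = b.L s (phiR b x y f m) := by
  rw [phiR_apply, phiR_apply]
  have h1 : ∀ i, b.R (y i) (f (b.R (x i) (b.L s m))) = b.L s (b.R (y i) (f (b.R (x i) m))) := by
    intro i
    rw [← b.comm, hf, ← b.comm]
  have h2 : b.L s m - b.R 1 (b.L s m) = b.L s (m - b.R 1 m) := by
    rw [map_sub, b.comm]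
  have h3 : b.R 1 (f (b.L s (m - b.R 1 m))) = b.L s (b.R 1 (f (m - b.R 1 m))) := by
    rw [hf, b.comm]
  simp only [h1]
  rw [h2, h3, hf, map_add, map_sum, ← map_sub (b.L s)]

end CPL

open CPL in
theorem t_CPL : S_CPL := by
  intro S M _ _ _ _ b N x y h W hW
  obtain ⟨g, hg⟩ := LinearMap.exists_leftInverse_of_injective W.subtype W.ker_subtype
  let π : M →ₗ[ℂ] M := W.subtype ∘ₗ g
  have hπ1 : ∀ m, π m ∈ W := fun m => (g m).2
  have hπ2 : ∀ m ∈ W, π m = m := by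
    intro m hm
    have h1 := LinearMap.congr_fun hg ⟨m, hm⟩
    have h2 : g m = ⟨m, hm⟩ := h1
    show ((g m : W) : M) = m
    rw [h2]
  let P : M →ₗ[ℂ] M := phiR b x y (phiL b x y π)
  have hP1 : ∀ m, P m ∈ W := phiR_mem b x y hW (phiL_mem b x y hW hπ1)
  have hP2 : ∀ m ∈ W, P m = m := phiR_id b h hW (phiL_id b h hW hπ2)
  have hPL : ∀ s m, P (b.L s m) = b.L s (P m) :=
    fun s m => phiR_left b x y (fun s m => phiL_comm b h π s m) s m
  have hPR : ∀ s m, P (b.R s m) = b.R s (P m) := fun s m => phiR_comm b h _ s m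
  refine ⟨LinearMap.ker P, ?_, ?_⟩
  · intro s m hm
    rw [LinearMap.mem_ker] at hm
    constructor
    · rw [LinearMap.mem_ker, hPL, hm, map_zero]
    · rw [LinearMap.mem_ker, hPR, hm, map_zero]
  · constructor
    · rw [Submodule.disjoint_def]
      intro m hm hmW
      rw [LinearMap.mem_ker, hP2 m hmW] at hm
      exact hm
    · rw [codisjoint_iff, eq_top_iff]
      intro m _
      rw [Submodule.mem_sup]
      refine ⟨m - P m, ?_, P m, hP1 m, by abel⟩
      rw [LinearMap.mem_ker, map_sub, hP2 _ (hP1 m), sub_self]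

end Pool.Agent.N917.AF
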