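import Pool.Agent.N917.AF.Stm7
import Pool.Agent.N917.AF.EUC

/-!
Project AF (helper917), leaf EUCS: the Euclidean step at a source, from the one at a sink by passing
to the opposite algebras (helper531).
-/

set_option autoImplicit false

namespace Pool.Agent.N917.AF

open Matrix

namespace EUCS

section
variable {S₁ M₁ S₂ M₂ : Type} [Ring S₁] [Algebra ℂ S₁] [AddCommGroup M₁] [Module ℂ M₁]
  [Ring S₂] [Algebra ℂ S₂] [AddCommGroup M₂] [Module ℂ M₂]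

/-- transport of the Frobenius property along an anti-isomorphism -/
theorem anti (b₁ : Bim S₁ M₁) (b₂ : Bim S₂ M₂) (f : S₁ ≃ₗ[ℂ] S₂) (g : M₁ ≃ₗ[ℂ] M₂)
    (hf : ∀ s s', f (s * s') = f s' * f s) (hL : ∀ s w, g (b₁.L s w) = b₂.R (f s) (g w))
    (hR : ∀ s w, g (b₁.R s w) = b₂.L (f s) (g w)) (h : b₂.Frob ⊤) : b₁.Frob ⊤ := by
  obtain ⟨l, hl⟩ := h
  have hm : ∀ x y : S₁ × M₁, f.prodCongr g (b₁.mul x y) =
      b₂.mul (f.prodCongr g y) (f.prodCongr g x) := by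
    intro x y
    refine Prod.ext (hf _ _) ?_
    change g (b₁.L x.1 y.2 + b₁.R y.1 x.2) = b₂.L (f y.1) (g x.2) + b₂.R (f x.1) (g y.2)
    rw [map_add, hL, hR, add_comm]
  refine ⟨l.comp (f.prodCongr g).toLinearMap, fun x _ hx => ?_⟩
  have h1 : f.prodCongr g x = 0 := by
    refine hl _ trivial fun y _ => ?_
    have h2 := hx ((f.prodCongr g).symm y) trivial
    rw [LinearMap.comp_apply, LinearEquiv.coe_coe, map_sub, hm, hm,
      LinearEquiv.apply_symm_apply, map_sub] at h2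
    rw [map_sub]
    linear_combination -h2
  exact (LinearEquiv.map_eq_zero_iff _).1 h1

theorem anti_iff (b₁ : Bim S₁ M₁) (b₂ : Bim S₂ M₂) (f : S₁ ≃ₗ[ℂ] S₂) (g : M₁ ≃ₗ[ℂ] M₂)
    (hf : ∀ s s', f (s * s') = f s' * f s) (hL : ∀ s w, g (b₁.L s w) = b₂.R (f s) (g w))
    (hR : ∀ s w, g (b₁.R s w) = b₂.L (f s) (g w)) : b₁.Frob ⊤ ↔ b₂.Frob ⊤ := by
  refine ⟨anti b₂ b₁ f.symm g.symm ?_ ?_ ?_, anti b₁ b₂ f g hf hL hR⟩
  · intro s s'
    rw [LinearEquiv.symm_apply_eq, hf, LinearEquiv.apply_symm_apply, LinearEquiv.apply_symm_apply]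
  · intro s w
    rw [LinearEquiv.symm_apply_eq, hR, LinearEquiv.apply_symm_apply, LinearEquiv.apply_symm_apply]
  · intro s w
    rw [LinearEquiv.symm_apply_eq, hL, LinearEquiv.apply_symm_apply, LinearEquiv.apply_symm_apply]

end

section
variable {S M : Type} [Ring S] [Algebra ℂ S] [AddCommGroup M] [Module ℂ M]

/-- the bimodule over the opposite algebra -/
def op (b : Bim S M) : Bim Sᵐᵒᵖ M where
  L := b.R.comp (MulOpposite.opLinearEquiv ℂ).symm.toLinearMap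
  R := b.L.comp (MulOpposite.opLinearEquiv ℂ).symm.toLinearMap
  mulL s s' m := b.mulR s'.unop s.unop m
  mulR s s' m := b.mulL s'.unop s.unop m
  comm s s' m := (b.comm s'.unop s.unop m).symm

/-- the transposed representation -/
def tr {ν : ℕ} (ρ : S →ₗ[ℂ] Matrix (Fin ν) (Fin ν) ℂ) : Sᵐᵒᵖ →ₗ[ℂ] Matrix (Fin ν) (Fin ν) ℂ :=
  (Matrix.transposeLinearEquiv (Fin ν) (Fin ν) ℂ ℂ).toLinearMap.comp
    (ρ.comp (MulOpposite.opLinearEquiv ℂ).symm.toLinearMap)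

theorem tr_mul {ν : ℕ} (ρ : S →ₗ[ℂ] Matrix (Fin ν) (Fin ν) ℂ)
    (hρ : ∀ s s', ρ (s * s') = ρ s * ρ s') (s s' : Sᵐᵒᵖ) : tr ρ (s * s') = tr ρ s * tr ρ s' := by
  change (ρ (s'.unop * s.unop))ᵀ = (ρ s.unop)ᵀ * (ρ s'.unop)ᵀ
  rw [hρ, Matrix.transpose_mul]

theorem src_iff (b : Bim S M) {ν : ℕ} (ρ : S →ₗ[ℂ] Matrix (Fin ν) (Fin ν) ℂ)
    (hρ : ∀ s s', ρ (s * s') = ρ s * ρ s') (n : ℕ) :
    (src b ρ hρ n).Frob ⊤ ↔ (snk (op b) (tr ρ) (tr_mul ρ hρ) n).Frob ⊤ := by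
  refine anti_iff _ _
    ((MulOpposite.opLinearEquiv ℂ).prodCongr (Matrix.transposeLinearEquiv (Fin n) (Fin n) ℂ ℂ))
    ((LinearEquiv.refl ℂ M).prodCongr (Matrix.transposeLinearEquiv (Fin ν) (Fin n) ℂ ℂ)) ?_ ?_ ?_
  · intro s s'
    refine Prod.ext rfl ?_
    change (s.2 * s'.2)ᵀ = s'.2ᵀ * s.2ᵀ
    rw [Matrix.transpose_mul]
  · intro s w
    refine Prod.ext rfl ?_
    change (ρ s.1 * w.2)ᵀ = w.2ᵀ * (ρ s.1)ᵀ
    rw [Matrix.transpose_mul]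
  · intro s w
    refine Prod.ext rfl ?_
    change (w.2 * s.2)ᵀ = s.2ᵀ * w.2ᵀ
    rw [Matrix.transpose_mul]

end

end EUCS

open EUCS in
theorem t_EUCS : S_EUCS := by
  intro S M _ _ _ _ _ _ b ν ρ hρ n
  have : Module.Finite ℂ Sᵐᵒᵖ := Module.Finite.equiv (MulOpposite.opLinearEquiv ℂ)
  rw [src_iff, src_iff]
  exact t_EUC Sᵐᵒᵖ M (op b) ν (tr ρ) (tr_mul ρ hρ) n

end Pool.Agent.N917.AF
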