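import Pool.Agent.N917.AF.Stm7

/-!
Leaf AF/GA (helper280), project AF (helper917): Euclid for type A.
-/

set_option autoImplicit false

namespace Pool.Agent.N917.AF

open Matrix

namespace GA

theorem iso1 {S₁ M₁ S₂ M₂ : Type} [Ring S₁] [Algebra ℂ S₁] [AddCommGroup M₁] [Module ℂ M₁]
    [Ring S₂] [Algebra ℂ S₂] [AddCommGroup M₂] [Module ℂ M₂] (b₁ : Bim S₁ M₁) (b₂ : Bim S₂ M₂)
    (e : (S₁ × M₁) ≃ₗ[ℂ] (S₂ × M₂)) (he : ∀ x y, e (b₁.mul x y) = b₂.mul (e x) (e y))
    (h : b₁.Frob ⊤) : b₂.Frob ⊤ := by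
  obtain ⟨l, hl⟩ := h
  refine ⟨l ∘ₗ e.symm.toLinearMap, fun x _ hx => ?_⟩
  have h1 : e.symm x = 0 := by
    refine hl _ trivial fun y _ => ?_
    have h2 := hx (e y) trivial
    have h3 : b₂.mul x (e y) - b₂.mul (e y) x =
        e (b₁.mul (e.symm x) y - b₁.mul y (e.symm x)) := by
      rw [map_sub, he, he, e.apply_symm_apply]
    rw [h3] at h2
    simpa using h2
  have h4 := congrArg e h1
  rwa [e.apply_symm_apply, map_zero] at h4

theorem iso {S₁ M₁ S₂ M₂ : Type} [Ring S₁] [Algebra ℂ S₁] [AddCommGroup M₁] [Module ℂ M₁]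
    [Ring S₂] [Algebra ℂ S₂] [AddCommGroup M₂] [Module ℂ M₂] (b₁ : Bim S₁ M₁) (b₂ : Bim S₂ M₂)
    (e : (S₁ × M₁) ≃ₗ[ℂ] (S₂ × M₂)) (he : ∀ x y, e (b₁.mul x y) = b₂.mul (e x) (e y)) :
    b₁.Frob ⊤ ↔ b₂.Frob ⊤ := by
  refine ⟨iso1 b₁ b₂ e he, iso1 b₂ b₁ e.symm fun x y => ?_⟩
  apply e.injective
  rw [he, e.apply_symm_apply, e.apply_symm_apply, e.apply_symm_apply]

/-- the zero bimodule -/
def b0 (S : Type) [Ring S] [Algebra ℂ S] : Bim S PUnit where
  L := 0
  R := 0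
  mulL := by intros; rfl
  mulR := by intros; rfl
  comm := by intros; rfl

/-- `h ↦ diag(0, h)` -/
def rh (y : ℕ) : Matrix (Fin y) (Fin y) ℂ →ₗ[ℂ] Matrix (Fin (y + 1)) (Fin (y + 1)) ℂ where
  toFun h := Matrix.of (Fin.cons 0 fun i => Fin.cons 0 (h i))
  map_add' a b := by
    ext i j
    refine Fin.cases ?_ (fun i => ?_) i <;> refine Fin.cases ?_ (fun j => ?_) j <;> simp
  map_smul' c a := by
    ext i j
    refine Fin.cases ?_ (fun i => ?_) i <;> refine Fin.cases ?_ (fun j => ?_) j <;> simp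

theorem rh_mul (y : ℕ) (s s' : Matrix (Fin y) (Fin y) ℂ) : rh y (s * s') = rh y s * rh y s' := by
  ext i j
  refine Fin.cases ?_ (fun i => ?_) i <;> refine Fin.cases ?_ (fun j => ?_) j <;>
    simp [rh, Matrix.mul_apply, Fin.sum_univ_succ]

/-- the matrix `[v Z]` -/
def cat (x y : ℕ) : ((Fin x → ℂ) × Matrix (Fin x) (Fin y) ℂ) ≃ₗ[ℂ]
    Matrix (Fin x) (Fin (y + 1)) ℂ where
  toFun w := Matrix.of fun i => Fin.cons (w.1 i) (w.2 i)
  invFun Y := (fun i => Y i 0, Matrix.of fun i j => Y i j.succ)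
  left_inv w := by
    refine Prod.ext ?_ ?_
    · funext i; simp
    · ext i j; simp
  right_inv Y := by
    ext i j
    refine Fin.cases ?_ (fun j => ?_) j <;> simp
  map_add' a b := by
    ext i j
    refine Fin.cases ?_ (fun j => ?_) j <;> simp
  map_smul' c a := by
    ext i j
    refine Fin.cases ?_ (fun j => ?_) j <;> simp

theorem cat_L (x y : ℕ) (g : Matrix (Fin x) (Fin x) ℂ) (v : Fin x → ℂ)
    (Z : Matrix (Fin x) (Fin y) ℂ) : cat x y (g *ᵥ v, g * Z) = g * cat x y (v, Z) := by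
  ext i j
  refine Fin.cases ?_ (fun j => ?_) j <;> simp [cat, Matrix.mul_apply, Matrix.mulVec, dotProduct]

theorem cat_R (x y : ℕ) (h : Matrix (Fin y) (Fin y) ℂ) (v : Fin x → ℂ)
    (Z : Matrix (Fin x) (Fin y) ℂ) : cat x y (0, Z * h) = cat x y (v, Z) * rh y h := by
  ext i j
  refine Fin.cases ?_ (fun j => ?_) j <;>
    simp [cat, rh, Matrix.mul_apply, Fin.sum_univ_succ]

/-- the isomorphism with the sink form -/
def eqv (x y : ℕ) : ((Matrix (Fin x) (Fin x) ℂ × Matrix (Fin y) (Fin y) ℂ) ×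
      ((Fin x → ℂ) × Matrix (Fin x) (Fin y) ℂ)) ≃ₗ[ℂ]
    ((Matrix (Fin y) (Fin y) ℂ × Matrix (Fin x) (Fin x) ℂ) ×
      (PUnit × Matrix (Fin x) (Fin (y + 1)) ℂ)) where
  toFun a := ((a.1.2, a.1.1), (PUnit.unit, cat x y a.2))
  invFun a := ((a.1.2, a.1.1), (cat x y).symm a.2.2)
  left_inv a := by simp
  right_inv a := by simp
  map_add' a b := by
    simp
  map_smul' c a := by
    simp

theorem sink (x y : ℕ) : (bA x y).Frob ⊤ ↔ (snk (b0 _) (rh y) (rh_mul y) x).Frob ⊤ := by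
  refine iso _ _ (eqv x y) ?_
  rintro ⟨⟨g, h⟩, v, Z⟩ ⟨⟨g', h'⟩, v', Z'⟩
  refine Prod.ext rfl (Prod.ext rfl ?_)
  show cat x y ((g *ᵥ v', g * Z') + (0, Z * h')) = g * cat x y (v', Z') + cat x y (v, Z) * rh y h'
  rw [map_add, cat_L, cat_R]

/-- the bimodule `C^x` -/
noncomputable def b1 (x : ℕ) : Bim (Matrix (Fin x) (Fin x) ℂ) (Fin x → ℂ) where
  L := LinearMap.mk₂ ℂ (fun s w => s *ᵥ w)
    (by intros; simp [Matrix.add_mulVec])
    (by intros; simp [Matrix.smul_mulVec])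
    (by intros; simp [Matrix.mulVec_add])
    (by intros; simp [Matrix.mulVec_smul])
  R := 0
  mulL := by intros; simp
  mulR := by intros; simp
  comm := by intros; simp

theorem source (x y : ℕ) :
    (bA x y).Frob ⊤ ↔ (src (b1 x) LinearMap.id (fun _ _ => rfl) y).Frob ⊤ :=
  iso (bA x y) (src (b1 x) LinearMap.id (fun _ _ => rfl) y) (LinearEquiv.refl ℂ _)
    fun _ _ => rfl

theorem zero (y : ℕ) : (bA 0 y).Frob ⊤ ↔ Nat.Coprime 0 (y + 1) := by
  rw [Nat.coprime_zero_left]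
  constructor
  · rintro ⟨l, hl⟩
    by_contra hy
    have hy1 : y ≠ 0 := by omega
    obtain ⟨z, rfl⟩ := Nat.exists_eq_succ_of_ne_zero hy1
    have h1 := hl ((0, 1), 0) trivial (by
      rintro ⟨⟨g, h⟩, v, Z⟩ _
      have h2 : (bA 0 (z + 1)).mul ((0, 1), 0) ((g, h), (v, Z)) -
          (bA 0 (z + 1)).mul ((g, h), (v, Z)) ((0, 1), 0) = 0 := by
        refine Prod.ext (Prod.ext ?_ ?_) ?_
        · exact Subsingleton.elim _ _
        · show (1 : Matrix (Fin (z + 1)) (Fin (z + 1)) ℂ) * h - h * 1 = 0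
          simp
        · exact Subsingleton.elim _ _
      rw [h2, map_zero])
    have h3 : (1 : Matrix (Fin (z + 1)) (Fin (z + 1)) ℂ) = 0 := congrArg (fun a => a.1.2) h1
    exact one_ne_zero h3
  · intro h
    obtain rfl : y = 0 := by omega
    exact ⟨0, fun x _ _ => Subsingleton.elim _ _⟩

end GA

theorem t_GA : S_GAimp := by
  intro hE hES
  have key : ∀ N x y : ℕ, x + y ≤ N → ((bA x y).Frob ⊤ ↔ Nat.Coprime x (y + 1)) := by
    intro N
    induction N with
    | zero =>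
      intro x y h
      obtain rfl : x = 0 := by omega
      exact GA.zero y
    | succ N ih =>
      intro x y h
      rcases Nat.eq_zero_or_pos x with rfl | hx
      · exact GA.zero y
      · rcases le_total (y + 1) x with h1 | h1
        · obtain ⟨n, rfl⟩ := Nat.exists_eq_add_of_le h1
          rw [GA.sink, hE, ← GA.sink, ih n y (by omega)]
          simp
        · by_cases h2 : x = y + 1
          · subst h2
            have h3 := hE _ _ (GA.b0 _) (y + 1) (GA.rh y) (GA.rh_mul y) 0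
            rw [add_zero] at h3
            rw [GA.sink, h3, ← GA.sink, ih 0 y (by omega)]
            simp
          · obtain ⟨n, rfl⟩ := Nat.exists_eq_add_of_le (show x ≤ y by omega)
            rw [GA.source, hES, ← GA.source, ih x n (by omega), add_assoc]
            simp
  exact fun x y => key _ x y le_rfl

end Pool.Agent.N917.AF
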