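import Pool.Agent.N917.AF.Stm7

/-!
Project AF (helper917), leaf GB: castling for type B (helper706).
-/

set_option autoImplicit false

namespace Pool.Agent.N917.AF

open Matrix

namespace GB

/-- the bimodule `ℂ^x` with the left action of matrices and zero right action -/
noncomputable def b1 (x : ℕ) : Bim (Matrix (Fin x) (Fin x) ℂ) (Fin x → ℂ) where
  L := LinearMap.mk₂ ℂ (fun s w => s *ᵥ w)
    (by intros; simp [Matrix.add_mulVec])
    (by intros; simp [Matrix.smul_mulVec])
    (by intros; simp [Matrix.mulVec_add])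
    (by intros; simp [Matrix.mulVec_smul])
  R := 0
  mulL := by intros; simp
  mulR := by intros; simp
  comm := by intros; simp

theorem hid (x : ℕ) : ∀ s s' : Matrix (Fin x) (Fin x) ℂ,
    (LinearMap.id : Matrix (Fin x) (Fin x) ℂ →ₗ[ℂ] Matrix (Fin x) (Fin x) ℂ) (s * s') =
      (LinearMap.id : Matrix (Fin x) (Fin x) ℂ →ₗ[ℂ] Matrix (Fin x) (Fin x) ℂ) s *
        (LinearMap.id : Matrix (Fin x) (Fin x) ℂ →ₗ[ℂ] Matrix (Fin x) (Fin x) ℂ) s' :=
  fun _ _ => rfl

theorem frob_congr' {S M : Type} [Ring S] [Algebra ℂ S] [AddCommGroup M] [Module ℂ M]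
    (b c : Bim S M) (h : ∀ x y, b.mul x y = c.mul x y) (W : Submodule ℂ M) :
    b.Frob W ↔ c.Frob W := by
  unfold Bim.Frob
  simp only [h]

theorem snk_iff (x y : ℕ) :
    (bB x y).Frob ⊤ ↔ (snk (b1 x) LinearMap.id (hid x) y).Frob ⊤ := by
  refine frob_congr' _ _ (fun u v => ?_) ⊤
  rfl

theorem src_iff (x y : ℕ) :
    (bA x y).Frob ⊤ ↔ (src (b1 x) LinearMap.id (hid x) y).Frob ⊤ := by
  refine frob_congr' _ _ (fun u v => ?_) ⊤
  rfl

end GB

open GB in
theorem t_GB : S_GBimp := by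
  intro hE h1 h2 hA x y hx
  induction y using Nat.strong_induction_on with
  | _ y ih =>
    by_cases hy : x ≤ y
    · obtain ⟨n, rfl⟩ := Nat.exists_eq_add_of_le hy
      have h3 := ih n (by omega)
      rw [snk_iff, hE _ _ (b1 x) x LinearMap.id (hid x) n, ← snk_iff, h3]
      have h4 : (((x + n : ℕ) : ℤ) - 1) = ((n : ℤ) - 1) + (x : ℤ) * 1 := by push_cast; ring
      rw [h4, IsCoprime.add_mul_left_right_iff]
    · push Not at hy
      have h3 := h1 _ _ (b1 x) x LinearMap.id (hid x) y (x - y) (by omega)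
      have h4 := h2 _ _ (b1 x) x LinearMap.id (hid x) y (x - y) (by omega)
      rw [snk_iff, h3, ← h4, ← src_iff, hA, ← Nat.isCoprime_iff_coprime]
      have h5 : (((x - y + 1 : ℕ) : ℤ)) = -((y : ℤ) - 1) + (x : ℤ) * 1 := by
        push_cast [Nat.cast_sub hy.le]; ring
      rw [h5, IsCoprime.add_mul_left_right_iff, IsCoprime.neg_right_iff]

end Pool.Agent.N917.AF
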