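import Pool.Agent.N917.AF.Stm7

/-!
Project AF (helper917), leaf GGA: the model `gm` with two arrows is `bA` (helper55).
-/

set_option autoImplicit false

namespace Pool.Agent.N917.AF

open Matrix

namespace GGA

/-- transport of the Frobenius property by a bijective homomorphism -/
theorem transport {S₁ M₁ S₂ M₂ : Type} [Ring S₁] [Algebra ℂ S₁] [AddCommGroup M₁] [Module ℂ M₁]
    [Ring S₂] [Algebra ℂ S₂] [AddCommGroup M₂] [Module ℂ M₂] (b₁ : Bim S₁ M₁) (b₂ : Bim S₂ M₂)
    (F : S₁ × M₁ →ₗ[ℂ] S₂ × M₂) (hF : Function.Bijective F)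
    (hm : ∀ x y, F (b₁.mul x y) = b₂.mul (F x) (F y)) : b₁.Frob ⊤ ↔ b₂.Frob ⊤ := by
  constructor
  · rintro ⟨l, hl⟩
    let e := LinearEquiv.ofBijective F hF
    have he : ∀ x, F (e.symm x) = x := fun x => e.apply_symm_apply x
    have hs : ∀ x y, e.symm (b₂.mul x y) = b₁.mul (e.symm x) (e.symm y) := by
      intro x y
      apply hF.1
      rw [he, hm, he, he]
    refine ⟨l.comp e.symm.toLinearMap, fun x _ hx => ?_⟩
    have h1 : e.symm x = 0 := by
      refine hl (e.symm x) trivial fun y _ => ?_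
      obtain ⟨y', rfl⟩ := e.symm.surjective y
      have h2 := hx y' trivial
      rw [LinearMap.comp_apply] at h2
      change l (e.symm (b₂.mul x y' - b₂.mul y' x)) = 0 at h2
      rw [map_sub, hs, hs] at h2
      exact h2
    exact (LinearEquiv.map_eq_zero_iff e.symm).1 h1
  · rintro ⟨l, hl⟩
    refine ⟨l.comp F, fun x _ hx => ?_⟩
    have h1 : F x = 0 := by
      refine hl (F x) trivial fun y _ => ?_
      obtain ⟨y', rfl⟩ := hF.2 y
      have h2 := hx y' trivial
      rw [LinearMap.comp_apply, map_sub, hm, hm] at h2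
      exact h2
    exact hF.1 (h1.trans (map_zero F).symm)

section
variable (n : Fin 2 → ℕ) (μ : Option (Fin 2) → Option (Fin 2) → ℕ)

/-- the homomorphism of the model to `bA` -/
def FF (k0 : Fin (μ (some 0) none)) (k1 : Fin (μ (some 0) (some 1))) :
    PS n × GM n μ →ₗ[ℂ] (Matrix (Fin (n 0)) (Fin (n 0)) ℂ × Matrix (Fin (n 1)) (Fin (n 1)) ℂ) ×
      ((Fin (n 0) → ℂ) × Matrix (Fin (n 0)) (Fin (n 1)) ℂ) where
  toFun z := ((z.1 0, z.1 1),
    (fun a : Fin (n 0) => z.2 (some 0) none k0 a (0 : Fin 1), z.2 (some 0) (some 1) k1))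
  map_add' _ _ := rfl
  map_smul' _ _ := rfl

/-- an element of `PS n` -/
def sm (s0 : Matrix (Fin (n 0)) (Fin (n 0)) ℂ) (s1 : Matrix (Fin (n 1)) (Fin (n 1)) ℂ) : PS n :=
  fun i => match i with
    | 0 => s0
    | 1 => s1

/-- an element of `GM n μ` -/
def xm (v : Fin (n 0) → ℂ) (Z : Matrix (Fin (n 0)) (Fin (n 1)) ℂ) : GM n μ :=
  fun i j _ => match i, j with
    | some 0, none => (fun a _ => v a : Matrix (Fin (n 0)) (Fin 1) ℂ)
    | some 0, some 1 => Z
    | _, _ => 0

end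

end GGA

open GGA in
theorem t_GGA : S_GGA := by
  intro n μ hμ
  have h0 : μ (some 0) none = 1 := by rw [hμ]; simp
  have h1 : μ (some 0) (some 1) = 1 := by rw [hμ]; simp
  have hz : ∀ i j, ¬ (i = some 0 ∧ (j = none ∨ j = some 1)) → μ i j = 0 := by
    intro i j h
    rw [hμ, if_neg h]
  let k0 : Fin (μ (some 0) none) := ⟨0, by rw [h0]; exact Nat.one_pos⟩
  let k1 : Fin (μ (some 0) (some 1)) := ⟨0, by rw [h1]; exact Nat.one_pos⟩
  have hk0 : ∀ k, k = k0 := fun k => Fin.ext (by have := k.2; omega)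
  have hk1 : ∀ k, k = k1 := fun k => Fin.ext (by have := k.2; omega)
  refine transport (gm n μ) (bA (n 0) (n 1)) (FF n μ k0 k1) ⟨?_, ?_⟩ ?_
  · rw [← LinearMap.ker_eq_bot, LinearMap.ker_eq_bot']
    rintro ⟨s, x⟩ h
    have e1 : s 0 = 0 := congrArg (fun z => z.1.1) h
    have e2 : s 1 = 0 := congrArg (fun z => z.1.2) h
    have e3 : (fun a : Fin (n 0) => x (some 0) none k0 a (0 : Fin 1)) = 0 :=
      congrArg (fun z => z.2.1) h
    have e4 : x (some 0) (some 1) k1 = 0 := congrArg (fun z => z.2.2) h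
    refine Prod.ext ?_ ?_
    · funext i
      fin_cases i
      · exact e1
      · exact e2
    · funext i j k
      by_cases hij : i = some 0 ∧ (j = none ∨ j = some 1)
      · obtain ⟨rfl, rfl | rfl⟩ := hij
        · rw [hk0 k]
          funext a b
          have hb : b = (0 : Fin 1) := Subsingleton.elim (α := Fin 1) _ _
          rw [hb]
          exact congrFun e3 a
        · rw [hk1 k]
          exact e4
      · have h5 := hz i j hij
        exact absurd k.2 (by omega)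
  · rintro ⟨⟨s0, s1⟩, ⟨v, Z⟩⟩
    exact ⟨(sm n s0 s1, xm n μ v Z), rfl⟩
  · rintro ⟨s, x⟩ ⟨t, y⟩
    refine Prod.ext rfl (Prod.ext ?_ rfl)
    funext a
    let X : Matrix (Fin (n 0)) (Fin 1) ℂ := x (some 0) none k0
    let Y : Matrix (Fin (n 0)) (Fin 1) ℂ := y (some 0) none k0
    change (s 0 * Y) a (0 : Fin 1) + (X * (0 : Matrix (Fin 1) (Fin 1) ℂ)) a (0 : Fin 1) =
      (s 0 *ᵥ fun a : Fin (n 0) => Y a (0 : Fin 1)) a + 0
    rw [Matrix.mul_zero]
    rfl

end Pool.Agent.N917.AF
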