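import Pool.Agent.N917.AF.Stm7

/-!
Project AF (helper917), seventh part, leaf GGB: the model `gm` is `bB` (helper285).
-/

set_option autoImplicit false

namespace Pool.Agent.N917.AF

open Matrix

namespace GGB

/-- transport of the Frobenius property -/
theorem frob_transport {S₁ S₂ M₁ M₂ : Type} [Ring S₁] [Algebra ℂ S₁] [Ring S₂] [Algebra ℂ S₂]
    [AddCommGroup M₁] [Module ℂ M₁] [AddCommGroup M₂] [Module ℂ M₂] (b₁ : Bim S₁ M₁)
    (b₂ : Bim S₂ M₂) (e : (S₁ × M₁) →ₗ[ℂ] (S₂ × M₂)) (he : Function.Bijective e)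
    (hmul : ∀ a b, e (b₁.mul a b) = b₂.mul (e a) (e b)) : b₁.Frob ⊤ ↔ b₂.Frob ⊤ := by
  constructor
  · rintro ⟨l, hl⟩
    let E := LinearEquiv.ofBijective e he
    refine ⟨l ∘ₗ E.symm.toLinearMap, fun x _ hx => ?_⟩
    obtain ⟨a, rfl⟩ := he.2 x
    have h1 : a = 0 := hl a Submodule.mem_top fun b _ => by
      have h2 := hx (e b) Submodule.mem_top
      rw [← hmul, ← hmul, ← map_sub] at h2
      have h3 : E.symm (e (b₁.mul a b - b₁.mul b a)) = b₁.mul a b - b₁.mul b a :=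
        E.symm_apply_apply _
      rw [LinearMap.comp_apply] at h2
      change l (E.symm (e (b₁.mul a b - b₁.mul b a))) = 0 at h2
      rwa [h3] at h2
    rw [h1, map_zero]
  · rintro ⟨l, hl⟩
    refine ⟨l ∘ₗ e, fun x _ hx => ?_⟩
    have h1 : e x = 0 := hl (e x) Submodule.mem_top fun z _ => by
      obtain ⟨b, rfl⟩ := he.2 z
      have h2 := hx b Submodule.mem_top
      rw [LinearMap.comp_apply, map_sub, hmul, hmul] at h2
      exact h2
    exact he.1 (by rw [h1, map_zero])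

/-- the pair `(g, h)` -/
def mkS {n : Fin 2 → ℕ} (g : Matrix (Fin (n 0)) (Fin (n 0)) ℂ)
    (h : Matrix (Fin (n 1)) (Fin (n 1)) ℂ) : PS n
  | 0 => g
  | 1 => h

/-- the element with the given components -/
noncomputable def mkX {n : Fin 2 → ℕ} {μ : Option (Fin 2) → Option (Fin 2) → ℕ}
    (v : Fin (n 0) → ℂ) (Z : Matrix (Fin (n 1)) (Fin (n 0)) ℂ) : GM n μ
  | some 0, none, _ => (Matrix.of fun a _ => v a : Matrix (Fin (n 0)) (Fin 1) ℂ)
  | some 1, some 0, _ => Z
  | _, _, _ => 0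

/-- the same matrix -/
def c0 {n : Fin 2 → ℕ} (X : Matrix (Fin (NN n (some 0))) (Fin (NN n none)) ℂ) :
    Matrix (Fin (n 0)) (Fin 1) ℂ := X

/-- the same matrix -/
def c1 {n : Fin 2 → ℕ} (X : Matrix (Fin (NN n (some 1))) (Fin (NN n (some 0))) ℂ) :
    Matrix (Fin (n 1)) (Fin (n 0)) ℂ := X

/-- the linear map -/
noncomputable def E {n : Fin 2 → ℕ} {μ : Option (Fin 2) → Option (Fin 2) → ℕ}
    (k0 : Fin (μ (some 0) none)) (k1 : Fin (μ (some 1) (some 0))) : (PS n × GM n μ) →ₗ[ℂ]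
    ((Matrix (Fin (n 0)) (Fin (n 0)) ℂ × Matrix (Fin (n 1)) (Fin (n 1)) ℂ) ×
      ((Fin (n 0) → ℂ) × Matrix (Fin (n 1)) (Fin (n 0)) ℂ)) where
  toFun p := ((p.1 0, p.1 1), (fun a => c0 (p.2 (some 0) none k0) a 0,
    c1 (p.2 (some 1) (some 0) k1)))
  map_add' _ _ := rfl
  map_smul' _ _ := rfl

theorem E_apply {n : Fin 2 → ℕ} {μ : Option (Fin 2) → Option (Fin 2) → ℕ}
    (k0 : Fin (μ (some 0) none)) (k1 : Fin (μ (some 1) (some 0))) (s : PS n) (x : GM n μ) :
    E k0 k1 (s, x) = ((s 0, s 1),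
      (fun a => c0 (x (some 0) none k0) a 0, c1 (x (some 1) (some 0) k1))) := rfl

theorem E_mul {n : Fin 2 → ℕ} {μ : Option (Fin 2) → Option (Fin 2) → ℕ}
    (k0 : Fin (μ (some 0) none)) (k1 : Fin (μ (some 1) (some 0))) (a b : PS n × GM n μ) :
    E k0 k1 ((gm n μ).mul a b) = (bB (n 0) (n 1)).mul (E k0 k1 a) (E k0 k1 b) := by
  obtain ⟨s, x⟩ := a
  obtain ⟨s', y⟩ := b
  refine Prod.ext rfl (Prod.ext ?_ rfl)
  funext c
  show (s 0 * c0 (y (some 0) none k0) + c0 (x (some 0) none k0) *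
        (0 : Matrix (Fin 1) (Fin 1) ℂ)) c 0 =
    (s 0 *ᵥ (fun a => c0 (y (some 0) none k0) a 0) + 0) c
  rw [Matrix.mul_zero, add_zero, add_zero]
  rfl

end GGB

theorem t_GGB : S_GGB := by
  intro n μ h
  have p0 : μ (some 0) none = 1 := by rw [h]; simp
  have p1 : μ (some 1) (some 0) = 1 := by rw [h]; simp
  have hz : ∀ i j, ¬ ((i = some 0 ∧ j = none) ∨ (i = some 1 ∧ j = some 0)) → μ i j = 0 := by
    intro i j hij
    rw [h, if_neg hij]
  let k0 : Fin (μ (some 0) none) := ⟨0, by rw [p0]; exact one_pos⟩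
  let k1 : Fin (μ (some 1) (some 0)) := ⟨0, by rw [p1]; exact one_pos⟩
  have hk0 : ∀ k : Fin (μ (some 0) none), k = k0 := by
    intro k
    apply Fin.ext
    have := k.2
    show (k : ℕ) = 0
    omega
  have hk1 : ∀ k : Fin (μ (some 1) (some 0)), k = k1 := by
    intro k
    apply Fin.ext
    have := k.2
    show (k : ℕ) = 0
    omega
  refine GGB.frob_transport (gm n μ) (bB (n 0) (n 1)) (GGB.E k0 k1) ⟨?_, ?_⟩
    (GGB.E_mul k0 k1)
  · intro a b hab
    obtain ⟨s, x⟩ := a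
    obtain ⟨s', y⟩ := b
    rw [GGB.E_apply, GGB.E_apply] at hab
    have h1 : s 0 = s' 0 := congrArg (fun q => q.1.1) hab
    have h2 : s 1 = s' 1 := congrArg (fun q => q.1.2) hab
    have h3 := congrArg (fun q => q.2.1) hab
    have h4 : GGB.c1 (x (some 1) (some 0) k1) = GGB.c1 (y (some 1) (some 0) k1) :=
      congrArg (fun q => q.2.2) hab
    refine Prod.ext ?_ ?_
    · show s = s'
      refine funext fun i => ?_
      fin_cases i
      · exact h1
      · exact h2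
    · show x = y
      funext i j k
      by_cases hij : (i = some 0 ∧ j = none) ∨ (i = some 1 ∧ j = some 0)
      · rcases hij with ⟨rfl, rfl⟩ | ⟨rfl, rfl⟩
        · rw [hk0 k]
          refine Matrix.ext fun c z => ?_
          have hz0 : z = (0 : Fin 1) := Subsingleton.elim (α := Fin 1) _ _
          rw [hz0]
          exact congrFun h3 c
        · rw [hk1 k]
          exact h4
      · have h5 := k.2
        have h6 := hz i j hij
        omega
  · rintro ⟨⟨g, g'⟩, v, Z⟩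
    exact ⟨(GGB.mkS g g', GGB.mkX v Z), rfl⟩

end Pool.Agent.N917.AF
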