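import Pool.Agent.N917.AF.Stm3

/-!
Project AF (helper917), leaf ISO (helper717): transport along an isomorphism.
-/

set_option autoImplicit false

namespace Pool.Agent.N917.AF

theorem ISO.aux {V W : Type} [AddCommGroup V] [Module ℂ V] [AddCommGroup W] [Module ℂ W]
    (f : V → V → V) (g : W → W → W) (e : V ≃ₗ[ℂ] W) (h : ∀ x y, e (f x y) = g (e x) (e y))
    (H : AF W g) : AF V f := by
  obtain ⟨ω, ⟨h1, h2⟩, h3⟩ := H
  refine ⟨ω.compl₁₂ (e : V →ₗ[ℂ] W) (e : V →ₗ[ℂ] W), ⟨fun x y => ?_, fun x y z => ?_⟩,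
    fun x hx => ?_⟩
  · simp only [LinearMap.compl₁₂_apply, LinearEquiv.coe_coe]
    exact h1 _ _
  · simp only [LinearMap.compl₁₂_apply, LinearEquiv.coe_coe, h]
    exact h2 _ _ _
  · simp only [LinearMap.compl₁₂_apply, LinearEquiv.coe_coe] at hx
    have h4 : e x = 0 := h3 _ fun w => by
      have := hx (e.symm w)
      rwa [e.apply_symm_apply] at this
    exact (LinearEquiv.map_eq_zero_iff e).mp h4

theorem t_ISO : S_ISO := by
  intro V W _ _ _ _ f g e h
  refine ⟨fun H => ISO.aux g f e.symm (fun x y => ?_) H, fun H => ISO.aux f g e h H⟩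
  apply e.injective
  rw [e.apply_symm_apply, h, e.apply_symm_apply, e.apply_symm_apply]

end Pool.Agent.N917.AF
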