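import Mathlib

/-!
Project AF (helper917): anti-Frobenius algebras `S ⊕ M` (page MP_9890f7_al).  Statements of the leaves.
-/

set_option autoImplicit false

namespace Pool.Agent.N917.AF

open Matrix

/-- The vector space `Mat_n ⊕ M`, `M = Mat_n ^ p ⊕ (column vectors) ^ q ⊕ (row vectors) ^ r`. -/
abbrev B (n p q r : ℕ) : Type :=
  Matrix (Fin n) (Fin n) ℂ × (Fin p → Matrix (Fin n) (Fin n) ℂ) ×
    (Fin q → Fin n → ℂ) × (Fin r → Fin n → ℂ)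

/-- The product `(s, x) (s', x') = (s s', s x' + x s')`. -/
def mulB {n p q r : ℕ} (x y : B n p q r) : B n p q r :=
  (x.1 * y.1, fun k => x.1 * y.2.1 k + x.2.1 k * y.1, fun k => x.1 *ᵥ y.2.2.1 k,
    fun k => x.2.2.2 k ᵥ* y.1)

/-- `ω` is antisymmetric and satisfies the cyclic identity for the product `mul`. -/
def Coc {V : Type} [AddCommGroup V] [Module ℂ V] (mul : V → V → V) (ω : V →ₗ[ℂ] V →ₗ[ℂ] ℂ) : Prop :=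
  (∀ x y, ω x y = -ω y x) ∧ (∀ x y z, ω x (mul y z) + ω y (mul z x) + ω z (mul x y) = 0)

/-- The algebra `V` with the product `mul` is anti-Frobenius. -/
def AF (V : Type) [AddCommGroup V] [Module ℂ V] (mul : V → V → V) : Prop :=
  ∃ ω : V →ₗ[ℂ] V →ₗ[ℂ] ℂ, Coc mul ω ∧ ∀ x, (∀ y, ω x y = 0) → x = 0

/-- `S ⊕ M` for `S = ∏ Mat_(n i)` and `M` without components between different factors. -/
abbrev T {m : ℕ} (n p q r : Fin m → ℕ) (t : ℕ) : Type :=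
  ((i : Fin m) → B (n i) (p i) (q i) (r i)) × (Fin t → ℂ)

/-- the product of `T` -/
def mulT {m : ℕ} {n p q r : Fin m → ℕ} {t : ℕ} (x y : T n p q r t) : T n p q r t :=
  (fun i => mulB (x.1 i) (y.1 i), 0)

/-- the standard form -/
noncomputable def std {n p q r : ℕ} (Λ : Matrix (Fin n) (Fin n) ℂ)
    (l : Fin p → Matrix (Fin n) (Fin n) ℂ) (ξ : Fin q → Fin n → ℂ) (η : Fin r → Fin n → ℂ)
    (β : Matrix (Fin p) (Fin p) ℂ) (κ : Matrix (Fin q) (Fin r) ℂ) (x y : B n p q r) : ℂ :=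
  trace (Λ * (x.1 * y.1 - y.1 * x.1))
  + ∑ k, trace (l k * (x.1 * y.2.1 k + x.2.1 k * y.1 - y.1 * x.2.1 k - y.2.1 k * x.1))
  + ∑ k, ξ k ⬝ᵥ (x.1 *ᵥ y.2.2.1 k - y.1 *ᵥ x.2.2.1 k)
  + ∑ k, η k ⬝ᵥ (x.2.2.2 k ᵥ* y.1 - y.2.2.2 k ᵥ* x.1)
  + ∑ j, ∑ k, β j k * trace (x.2.1 j * y.2.1 k)
  + ∑ j, ∑ k, κ j k * (x.2.2.1 j ⬝ᵥ y.2.2.2 k - x.2.2.2 k ⬝ᵥ y.2.2.1 j)

/-- nondegeneracy of a function of two variables (on the left) -/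
def NDeg {V : Type} [Zero V] (f : V → V → ℂ) : Prop := ∀ x, (∀ y, f x y = 0) → x = 0

/-- nondegeneracy of the coboundary form on `Mat_n ⊕ (C^n)^a` -/
def ND (n a : ℕ) (Λ : Matrix (Fin n) (Fin n) ℂ) (ξ : Fin a → Fin n → ℂ) : Prop :=
  ∀ (s : Matrix (Fin n) (Fin n) ℂ) (v : Fin a → Fin n → ℂ),
    (∀ (s' : Matrix (Fin n) (Fin n) ℂ) (v' : Fin a → Fin n → ℂ),
      trace (Λ * (s * s' - s' * s)) + ∑ k, ξ k ⬝ᵥ (s *ᵥ v' k - s' *ᵥ v k) = 0) → s = 0 ∧ v = 0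

/-- the matrix `(I_r over 0)` -/
def kst (r a : ℕ) : Matrix (Fin (r + a)) (Fin r) ℂ := fun i k => if (i : ℕ) = (k : ℕ) then 1 else 0

/-! ### leaves -/

/-- SPF -/
def S_SPF : Prop := ∀ (m : ℕ) (n p q r : Fin m → ℕ) (t : ℕ), (∀ i, 1 ≤ n i) →
  AF (T n p q r t) mulT → Even t ∧ ∀ i, AF (B (n i) (p i) (q i) (r i)) mulB

/-- SPB -/
def S_SPB : Prop := ∀ (m : ℕ) (n p q r : Fin m → ℕ) (t : ℕ), Even t →
  (∀ i, AF (B (n i) (p i) (q i) (r i)) mulB) → AF (T n p q r t) mulT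

/-- COB: on `S × (S ⊕ M)` a cocycle is a coboundary -/
def S_COB : Prop := ∀ (n p q r : ℕ) (ω : B n p q r →ₗ[ℂ] B n p q r →ₗ[ℂ] ℂ), 1 ≤ n → Coc mulB ω →
  ∃ l : B n p q r →ₗ[ℂ] ℂ, ∀ (s : Matrix (Fin n) (Fin n) ℂ) (x : B n p q r),
    ω (s, 0, 0, 0) x = l (mulB (s, 0, 0, 0) x - mulB x (s, 0, 0, 0))

/-- MM: a cocycle on `M × M` -/
def S_MM : Prop := ∀ (n p q r : ℕ) (ω : B n p q r →ₗ[ℂ] B n p q r →ₗ[ℂ] ℂ), 1 ≤ n → Coc mulB ω →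
  ∃ (β : Matrix (Fin p) (Fin p) ℂ) (κ : Matrix (Fin q) (Fin r) ℂ), (∀ j k, β j k = -β k j) ∧
    ∀ (m m' : Fin p → Matrix (Fin n) (Fin n) ℂ) (v v' : Fin q → Fin n → ℂ)
      (u u' : Fin r → Fin n → ℂ),
      ω (0, m, v, u) (0, m', v', u') = ∑ j, ∑ k, β j k * trace (m j * m' k)
        + ∑ j, ∑ k, κ j k * (v j ⬝ᵥ u' k - u k ⬝ᵥ v' j)

/-- FORM: normal form of a cocycle -/
def S_FORM : Prop := ∀ (n p q r : ℕ) (ω : B n p q r →ₗ[ℂ] B n p q r →ₗ[ℂ] ℂ), 1 ≤ n → Coc mulB ω →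
  ∃ (Λ : Matrix (Fin n) (Fin n) ℂ) (l : Fin p → Matrix (Fin n) (Fin n) ℂ)
    (ξ : Fin q → Fin n → ℂ) (η : Fin r → Fin n → ℂ) (β : Matrix (Fin p) (Fin p) ℂ)
    (κ : Matrix (Fin q) (Fin r) ℂ), (∀ j k, β j k = -β k j) ∧
    ∀ x y, ω x y = std Λ l ξ η β κ x y

/-- FORM from COB and MM -/
def S_FORMimp : Prop := S_COB → S_MM → S_FORM

/-- COC: the standard form is a cocycle -/
def S_COC : Prop := ∀ (n p q r : ℕ) (Λ : Matrix (Fin n) (Fin n) ℂ)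
  (l : Fin p → Matrix (Fin n) (Fin n) ℂ) (ξ : Fin q → Fin n → ℂ) (η : Fin r → Fin n → ℂ)
  (β : Matrix (Fin p) (Fin p) ℂ) (κ : Matrix (Fin q) (Fin r) ℂ), (∀ j k, β j k = -β k j) →
  ∃ ω : B n p q r →ₗ[ℂ] B n p q r →ₗ[ℂ] ℂ, Coc mulB ω ∧ ∀ x y, ω x y = std Λ l ξ η β κ x y

/-- PEV -/
def S_PEV : Prop := ∀ (n p q r : ℕ) (Λ : Matrix (Fin n) (Fin n) ℂ)
  (l : Fin p → Matrix (Fin n) (Fin n) ℂ) (ξ : Fin q → Fin n → ℂ) (η : Fin r → Fin n → ℂ)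
  (β : Matrix (Fin p) (Fin p) ℂ) (κ : Matrix (Fin q) (Fin r) ℂ), 1 ≤ n → (∀ j k, β j k = -β k j) →
  NDeg (std Λ l ξ η β κ) → IsUnit β.det ∧ Even p

/-- KK -/
def S_KK : Prop := ∀ (n p q r : ℕ) (Λ : Matrix (Fin n) (Fin n) ℂ)
  (l : Fin p → Matrix (Fin n) (Fin n) ℂ) (ξ : Fin q → Fin n → ℂ) (η : Fin r → Fin n → ℂ)
  (β : Matrix (Fin p) (Fin p) ℂ) (κ : Matrix (Fin q) (Fin r) ℂ), 1 ≤ n → r ≤ q →
  NDeg (std Λ l ξ η β κ) → ∀ c : Fin r → ℂ, κ *ᵥ c = 0 → c = 0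

/-- OP: the opposite algebra -/
def S_OP : Prop := ∀ (n p q r : ℕ), AF (B n p q r) mulB → AF (B n p r q) mulB

/-- RK: an injective `q × r` matrix is `(I over 0)` after a base change -/
def S_RK : Prop := ∀ (q r : ℕ) (κ : Matrix (Fin q) (Fin r) ℂ), (∀ c, κ *ᵥ c = 0 → c = 0) →
  ∃ a : ℕ, ∃ h : q = r + a, ∃ P : Matrix (Fin (r + a)) (Fin (r + a)) ℂ, IsUnit P.det ∧
    P * (κ.submatrix (Fin.cast h.symm) id) = kst r a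

/-- BC: base change in the column vectors -/
def S_BC : Prop := ∀ (n p q r : ℕ) (Λ : Matrix (Fin n) (Fin n) ℂ)
  (l : Fin p → Matrix (Fin n) (Fin n) ℂ) (ξ : Fin q → Fin n → ℂ) (η : Fin r → Fin n → ℂ)
  (β : Matrix (Fin p) (Fin p) ℂ) (κ : Matrix (Fin q) (Fin r) ℂ) (P : Matrix (Fin q) (Fin q) ℂ),
  IsUnit P.det → NDeg (std Λ l ξ η β κ) →
  NDeg (std Λ l (fun i => ∑ j, P i j • ξ j) η β (P * κ))

/-- CORE: symplectic reduction -/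
def S_CORE : Prop := ∀ (n p r a : ℕ) (Λ : Matrix (Fin n) (Fin n) ℂ)
  (l : Fin p → Matrix (Fin n) (Fin n) ℂ) (ξ : Fin (r + a) → Fin n → ℂ) (η : Fin r → Fin n → ℂ)
  (β : Matrix (Fin p) (Fin p) ℂ), (∀ j k, β j k = -β k j) → IsUnit β.det →
  NDeg (std Λ l ξ η β (kst r a)) →
  ∃ Λ' : Matrix (Fin n) (Fin n) ℂ, ND n a Λ' (fun k => ξ (Fin.natAdd r k))

/-- LE -/
def S_LE : Prop := ∀ (n a : ℕ) (Λ : Matrix (Fin n) (Fin n) ℂ) (ξ : Fin a → Fin n → ℂ), 1 ≤ n →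
  ND n a Λ ξ → 1 ≤ a ∧ a ≤ n ∧ LinearIndependent ℂ ξ

/-- STD: one may take the `ξ k` to be the first unit vectors -/
def S_STD : Prop := ∀ (n a : ℕ) (Λ : Matrix (Fin (a + n)) (Fin (a + n)) ℂ)
  (ξ : Fin a → Fin (a + n) → ℂ), LinearIndependent ℂ ξ → ND (a + n) a Λ ξ →
  ∃ Λ' : Matrix (Fin (a + n)) (Fin (a + n)) ℂ,
    ND (a + n) a Λ' (fun k => Pi.single (Fin.castAdd n k) 1)

/-- DOWN: the Euclidean step -/
def S_DOWN : Prop := ∀ (n a : ℕ) (Λ : Matrix (Fin (a + n)) (Fin (a + n)) ℂ),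
  ND (a + n) a Λ (fun k => Pi.single (Fin.castAdd n k) 1) →
  ND n a (fun i j => Λ (Fin.natAdd a i) (Fin.natAdd a j))
    (fun k j => Λ (Fin.castAdd n k) (Fin.natAdd a j))

/-- UP: the inverse step -/
def S_UP : Prop := ∀ (n a : ℕ) (Λ : Matrix (Fin n) (Fin n) ℂ) (ξ : Fin a → Fin n → ℂ),
  ND n a Λ ξ → ∃ (Λ' : Matrix (Fin (a + n)) (Fin (a + n)) ℂ) (ξ' : Fin a → Fin (a + n) → ℂ),
    ND (a + n) a Λ' ξ'

/-- BLD: nondegenerate form on the large algebra -/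
def S_BLD : Prop := ∀ (n a p r : ℕ) (Λ : Matrix (Fin n) (Fin n) ℂ) (ξ : Fin a → Fin n → ℂ),
  ND n a Λ ξ → ∃ (ξ' : Fin (r + a) → Fin n → ℂ) (β : Matrix (Fin (p + p)) (Fin (p + p)) ℂ),
    (∀ j k, β j k = -β k j) ∧ NDeg (std Λ (fun _ => 0) ξ' (fun _ => 0) β (kst r a))

end Pool.Agent.N917.AF
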