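import Mathlib
import Pool.Agent.N917.AF.Stm

/-!
# AF/SPB: forms on a product (helper667)
-/

set_option autoImplicit false

namespace Pool.Agent.N917.AF

namespace SPB

/-- the standard symplectic form -/
noncomputable def J (k : ℕ) (w w' : Fin (k + k) → ℂ) : ℂ :=
  ∑ j : Fin k, (w (Fin.castAdd k j) * w' (Fin.natAdd k j) - w (Fin.natAdd k j) * w' (Fin.castAdd k j))

theorem J_add_left (k : ℕ) (a b c : Fin (k + k) → ℂ) : J k (a + b) c = J k a c + J k b c := by
  unfold J
  rw [← Finset.sum_add_distrib]
  exact Finset.sum_congr rfl fun j _ => by simp only [Pi.add_apply]; ring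

theorem J_add_right (k : ℕ) (a b c : Fin (k + k) → ℂ) : J k a (b + c) = J k a b + J k a c := by
  unfold J
  rw [← Finset.sum_add_distrib]
  exact Finset.sum_congr rfl fun j _ => by simp only [Pi.add_apply]; ring

theorem J_smul_left (k : ℕ) (z : ℂ) (a c : Fin (k + k) → ℂ) : J k (z • a) c = z * J k a c := by
  unfold J
  rw [Finset.mul_sum]
  exact Finset.sum_congr rfl fun j _ => by simp only [Pi.smul_apply, smul_eq_mul]; ring

theorem J_smul_right (k : ℕ) (z : ℂ) (a c : Fin (k + k) → ℂ) : J k a (z • c) = z * J k a c := by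
  unfold J
  rw [Finset.mul_sum]
  exact Finset.sum_congr rfl fun j _ => by simp only [Pi.smul_apply, smul_eq_mul]; ring

theorem J_anti (k : ℕ) (a b : Fin (k + k) → ℂ) : J k a b = -J k b a := by
  unfold J
  rw [← Finset.sum_neg_distrib]
  exact Finset.sum_congr rfl fun j _ => by ring

theorem J_zero (k : ℕ) (a : Fin (k + k) → ℂ) : J k a 0 = 0 := by
  unfold J
  exact Finset.sum_eq_zero fun j _ => by simp

theorem J_deg (k : ℕ) (a : Fin (k + k) → ℂ) (h : ∀ b, J k a b = 0) : a = 0 := by
  funext i
  refine Fin.addCases (fun j => ?_) (fun j => ?_) i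
  · have h1 := h (Pi.single (Fin.natAdd k j) 1)
    unfold J at h1
    rw [Finset.sum_eq_single j] at h1
    · rw [Pi.single_eq_same, Pi.single_eq_of_ne, mul_one, mul_zero, sub_zero] at h1
      · exact h1
      · intro h2
        have := congrArg Fin.val h2
        simp at this
        omega
    · intro b _ hb
      rw [Pi.single_eq_of_ne, Pi.single_eq_of_ne, mul_zero, mul_zero, sub_zero]
      · intro h2
        have := congrArg Fin.val h2
        simp at this
        omega
      · intro h2
        exact hb (Fin.natAdd_injective _ _ h2)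
    · intro h2
      exact absurd (Finset.mem_univ j) h2
  · have h1 := h (Pi.single (Fin.castAdd k j) 1)
    unfold J at h1
    rw [Finset.sum_eq_single j] at h1
    · rw [Pi.single_eq_same, Pi.single_eq_of_ne, mul_one, mul_zero, zero_sub, neg_eq_zero] at h1
      · exact h1
      · intro h2
        have := congrArg Fin.val h2
        simp at this
        omega
    · intro b _ hb
      rw [Pi.single_eq_of_ne, Pi.single_eq_of_ne, mul_zero, mul_zero, sub_zero]
      · intro h2
        exact hb (Fin.castAdd_injective _ _ h2)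
      · intro h2
        have := congrArg Fin.val h2
        simp at this
        omega
    · intro h2
      exact absurd (Finset.mem_univ j) h2

end SPB

open SPB in
theorem t_SPB : S_SPB := by
  intro m n p q r t ht h
  obtain ⟨k, rfl⟩ := ht
  choose ω hω hd using h
  have hcyc : ∀ i (x y z : B (n i) (p i) (q i) (r i)),
      ω i x (mulB y z) + ω i y (mulB z x) + ω i z (mulB x y) = 0 := fun i => (hω i).2
  obtain ⟨Om, hOm⟩ : ∃ Om : T n p q r (k + k) →ₗ[ℂ] T n p q r (k + k) →ₗ[ℂ] ℂ,
      ∀ x y, Om x y = ∑ i, ω i (x.1 i) (y.1 i) + J k x.2 y.2 := by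
    refine ⟨LinearMap.mk₂ ℂ (fun x y => ∑ i, ω i (x.1 i) (y.1 i) + J k x.2 y.2) ?_ ?_ ?_ ?_,
      fun x y => rfl⟩
    · intro x x' y
      simp only [Prod.fst_add, Prod.snd_add, Pi.add_apply, map_add, LinearMap.add_apply,
        Finset.sum_add_distrib, J_add_left]
      ring
    · intro c x y
      simp only [Prod.smul_fst, Prod.smul_snd, Pi.smul_apply, map_smul, LinearMap.smul_apply,
        J_smul_left, smul_eq_mul, mul_add, Finset.mul_sum]
    · intro x y y'
      simp only [Prod.fst_add, Prod.snd_add, Pi.add_apply, map_add,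
        Finset.sum_add_distrib, J_add_right]
      ring
    · intro c x y
      simp only [Prod.smul_fst, Prod.smul_snd, Pi.smul_apply, map_smul,
        J_smul_right, smul_eq_mul, mul_add, Finset.mul_sum]
  refine ⟨Om, ⟨fun x y => ?_, fun x y z => ?_⟩, fun x hx => ?_⟩
  · rw [hOm, hOm, J_anti k x.2 y.2, neg_add, ← Finset.sum_neg_distrib]
    congr 1
    exact Finset.sum_congr rfl fun i _ => (hω i).1 _ _
  · rw [hOm, hOm, hOm]
    have e1 : ∀ a b c : T n p q r (k + k), ∑ i, ω i (a.1 i) ((mulT b c).1 i) + J k a.2 (mulT b c).2 =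
        ∑ i, ω i (a.1 i) (mulB (b.1 i) (c.1 i)) := by
      intro a b c
      have : (mulT b c).2 = 0 := rfl
      rw [this, J_zero, add_zero]
      rfl
    rw [e1, e1, e1, ← Finset.sum_add_distrib, ← Finset.sum_add_distrib]
    exact Finset.sum_eq_zero fun i _ => hcyc i _ _ _
  · apply Prod.ext
    · funext i
      apply hd i
      intro b
      obtain ⟨s, hs1, hs2⟩ : ∃ s : (j : Fin m) → B (n j) (p j) (q j) (r j),
          s i = b ∧ ∀ j, j ≠ i → s j = 0 := by
        refine ⟨Function.update 0 i b, ?_, fun j hj => ?_⟩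
        · rw [Function.update_self]
        · rw [Function.update_of_ne hj]
          rfl
      have h1 := hx (s, 0)
      rw [hOm] at h1
      have h2 : J k x.2 ((s, 0) : T n p q r (k + k)).2 = 0 := J_zero k _
      rw [h2, add_zero, Finset.sum_eq_single i] at h1
      · have h3 : ((s, 0) : T n p q r (k + k)).1 i = b := hs1
        rw [h3] at h1
        exact h1
      · intro j _ hj
        have h3 : ((s, 0) : T n p q r (k + k)).1 j = 0 := hs2 j hj
        rw [h3, map_zero]
      · intro h3
        exact absurd (Finset.mem_univ i) h3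
    · apply J_deg
      intro b
      have h1 := hx (0, b)
      rw [hOm] at h1
      have h2 : ∑ i, ω i (x.1 i) (((0, b) : T n p q r (k + k)).1 i) = 0 :=
        Finset.sum_eq_zero fun i _ => map_zero _
      rw [h2, zero_add] at h1
      exact h1

end Pool.Agent.N917.AF
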