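import Mathlib
import Pool.Agent.N917.AF.Stm

/-!
Project AF (helper917), leaf SPF: forms on a product (by helper18).
-/

set_option autoImplicit false

namespace Pool.Agent.N917.AF

open Matrix

namespace SPF

section Block

variable {n p q r : ℕ}

theorem mulB_zero (x : B n p q r) : mulB x 0 = 0 := by
  simp only [mulB, Prod.fst_zero, Prod.snd_zero, Pi.zero_apply, mul_zero, add_zero, mulVec_zero,
    vecMul_zero]
  rfl

theorem zero_mulB (x : B n p q r) : mulB 0 x = 0 := by
  simp only [mulB, Prod.fst_zero, Prod.snd_zero, Pi.zero_apply, zero_mul, add_zero, zero_mulVec,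
    zero_vecMul]
  rfl

/-- every element is a sum of two products -/
theorem dec (x : B n p q r) :
    x = mulB ((1, 0, 0, 0) : B n p q r) x + mulB ((0, 0, 0, x.2.2.2) : B n p q r) (1, 0, 0, 0) := by
  obtain ⟨s, m, v, u⟩ := x
  simp only [mulB, one_mul, Pi.zero_apply, zero_mul, add_zero, one_mulVec, zero_vecMul, mul_zero,
    mulVec_zero, mul_one, vecMul_one, Prod.mk_add_mk]
  refine Prod.ext ?_ (Prod.ext ?_ (Prod.ext ?_ ?_))
  · simp
  · funext k; simp
  · funext k; simp
  · funext k; simp

end Block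

section Prod

variable {m : ℕ} {n p q r : Fin m → ℕ} {t : ℕ}

/-- inclusion of a block -/
def io (i : Fin m) : B (n i) (p i) (q i) (r i) →ₗ[ℂ] T n p q r t :=
  (LinearMap.inl ℂ _ _).comp (LinearMap.single ℂ (fun i => B (n i) (p i) (q i) (r i)) i)

theorem io_fst_same (i : Fin m) (a : B (n i) (p i) (q i) (r i)) :
    ((io i a : T n p q r t)).1 i = a := by
  show (Pi.single i a : (i : Fin m) → B (n i) (p i) (q i) (r i)) i = a
  rw [Pi.single_eq_same]

theorem io_fst_ne (i k : Fin m) (h : k ≠ i) (a : B (n i) (p i) (q i) (r i)) :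
    ((io i a : T n p q r t)).1 k = 0 := by
  show (Pi.single i a : (i : Fin m) → B (n i) (p i) (q i) (r i)) k = 0
  rw [Pi.single_eq_of_ne h]

theorem io_snd (i : Fin m) (a : B (n i) (p i) (q i) (r i)) : ((io i a : T n p q r t)).2 = 0 := rfl

theorem mulT_io (i : Fin m) (a b : B (n i) (p i) (q i) (r i)) :
    mulT (io i a : T n p q r t) (io i b) = io i (mulB a b) := by
  refine Prod.ext (funext fun k => ?_) rfl
  show mulB ((io i a : T n p q r t).1 k) ((io i b : T n p q r t).1 k) =
    (io i (mulB a b) : T n p q r t).1 k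
  by_cases h : k = i
  · subst h
    rw [io_fst_same, io_fst_same, io_fst_same]
  · rw [io_fst_ne i k h, io_fst_ne i k h, io_fst_ne i k h, mulB_zero]

theorem mulT_io_left (i : Fin m) (a : B (n i) (p i) (q i) (r i)) (x : T n p q r t)
    (hx : x.1 i = 0) : mulT (io i a : T n p q r t) x = 0 := by
  refine Prod.ext (funext fun k => ?_) rfl
  show mulB ((io i a : T n p q r t).1 k) (x.1 k) = 0
  by_cases h : k = i
  · subst h
    rw [hx, mulB_zero]
  · rw [io_fst_ne i k h, zero_mulB]

theorem mulT_io_right (i : Fin m) (a : B (n i) (p i) (q i) (r i)) (x : T n p q r t)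
    (hx : x.1 i = 0) : mulT x (io i a : T n p q r t) = 0 := by
  refine Prod.ext (funext fun k => ?_) rfl
  show mulB (x.1 k) ((io i a : T n p q r t).1 k) = 0
  by_cases h : k = i
  · subst h
    rw [hx, zero_mulB]
  · rw [io_fst_ne i k h, mulB_zero]

/-- elements without component at `i` are orthogonal to the block `i` -/
theorem orth {ω : T n p q r t →ₗ[ℂ] T n p q r t →ₗ[ℂ] ℂ} (h : Coc mulT ω) (x : T n p q r t)
    (i : Fin m) (hx : x.1 i = 0) (b : B (n i) (p i) (q i) (r i)) : ω x (io i b) = 0 := by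
  have key : ∀ y z : B (n i) (p i) (q i) (r i), ω x (io i (mulB y z)) = 0 := by
    intro y z
    have h1 := h.2 x (io i y) (io i z)
    rw [mulT_io, mulT_io_left i z x hx, mulT_io_right i y x hx, map_zero, map_zero, add_zero,
      add_zero] at h1
    exact h1
  rw [dec b, map_add, map_add, key, key, add_zero]

/-- decomposition of an element -/
theorem decT (y : T n p q r t) : y = ∑ i, io i (y.1 i) + ((0, y.2) : T n p q r t) := by
  refine Prod.ext ?_ ?_
  · rw [Prod.fst_add, Prod.fst_sum, add_zero]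
    funext k
    rw [Finset.sum_apply, Finset.sum_eq_single k (fun i _ hik => io_fst_ne i k hik.symm _)
      (fun hk => absurd (Finset.mem_univ k) hk), io_fst_same]
  · rw [Prod.snd_add, Prod.snd_sum]
    simp [io_snd]

theorem even_t {ω : T n p q r t →ₗ[ℂ] T n p q r t →ₗ[ℂ] ℂ} (h : Coc mulT ω)
    (hnd : ∀ x, (∀ y, ω x y = 0) → x = 0) : Even t := by
  by_contra hodd
  rw [Nat.not_even_iff_odd] at hodd
  set J : (Fin t → ℂ) →ₗ[ℂ] T n p q r t := LinearMap.inr ℂ _ _ with hJ
  set W : Matrix (Fin t) (Fin t) ℂ :=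
    fun i j => ω (J (Pi.single i 1)) (J (Pi.single j 1)) with hW
  have hWT : Wᵀ = -W := by
    ext i j
    rw [transpose_apply, neg_apply]
    exact h.1 _ _
  have hdet : W.det = 0 := by
    have h1 : W.det = (-1) ^ t * W.det := by
      conv_lhs => rw [← det_transpose, hWT, det_neg, Fintype.card_fin]
    rw [hodd.neg_one_pow] at h1
    have h2 : (2 : ℂ) * W.det = 0 := by linear_combination h1
    exact (mul_eq_zero.1 h2).resolve_left two_ne_zero
  obtain ⟨v, hv0, hv⟩ := exists_mulVec_eq_zero_iff.2 hdet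
  have hJs : ∀ w : Fin t → ℂ, J w = ∑ j, w j • J (Pi.single j 1) := by
    intro w
    conv_lhs => rw [pi_eq_sum_univ' w]
    rw [map_sum]
    refine Finset.sum_congr rfl fun j _ => ?_
    rw [map_smul]
  have h3 : ∀ i, ω (J (Pi.single i 1)) (J v) = 0 := by
    intro i
    have h4 := congrFun hv i
    rw [mulVec, dotProduct, Pi.zero_apply] at h4
    rw [hJs v, map_sum, ← h4]
    refine Finset.sum_congr rfl fun j _ => ?_
    rw [map_smul, smul_eq_mul, mul_comm]
  have h5 : ∀ w, ω (J v) (J w) = 0 := by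
    intro w
    rw [h.1, hJs w, map_sum, LinearMap.sum_apply]
    rw [neg_eq_zero]
    refine Finset.sum_eq_zero fun j _ => ?_
    rw [map_smul, LinearMap.smul_apply, h3, smul_zero]
  have h6 : J v = 0 := hnd _ fun y => by
    rw [decT y, map_add, map_sum, Finset.sum_eq_zero fun i _ => orth h (J v) i rfl _, zero_add]
    exact h5 y.2
  exact hv0 (congrArg Prod.snd h6)

end Prod

end SPF

open SPF in
/-- **forms on a product** -/
theorem t_SPF : S_SPF := by
  intro m n p q r t _ hAF
  obtain ⟨ω, h, hnd⟩ := hAF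
  refine ⟨even_t h hnd, fun i => ?_⟩
  refine ⟨ω.compl₁₂ (io i) (io i), ⟨fun x y => ?_, fun x y z => ?_⟩, fun a ha => ?_⟩
  · rw [LinearMap.compl₁₂_apply, LinearMap.compl₁₂_apply]
    exact h.1 _ _
  · rw [LinearMap.compl₁₂_apply, LinearMap.compl₁₂_apply, LinearMap.compl₁₂_apply, ← mulT_io,
      ← mulT_io, ← mulT_io]
    exact h.2 _ _ _
  · have h0 : (io i a : T n p q r t) = 0 := hnd _ fun y => by
      rw [decT y, map_add, map_sum, Finset.sum_eq_zero fun j _ => ?_, zero_add, h.1]
      · rw [neg_eq_zero]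
        exact orth h _ i rfl a
      · by_cases hj : j = i
        · subst hj
          have := ha (y.1 j)
          rwa [LinearMap.compl₁₂_apply] at this
        · exact orth h _ j (io_fst_ne i j hj a) _
    have h1 : (io i a : T n p q r t).1 i = 0 := by rw [h0]; rfl
    rwa [io_fst_same] at h1

end Pool.Agent.N917.AF
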