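import Pool.Agent.N917.AF.Stm2

/-!
Project AF (helper917), fourth part: stabilizers, the Euclidean step and castling at a sink.
-/

set_option autoImplicit false

namespace Pool.Agent.N917.AF

open Matrix

section
variable {S M : Type} [Ring S] [Algebra ℂ S] [AddCommGroup M] [Module ℂ M]

/-- `s` stabilizes the functional `lam` on `W`: `lam (s w - w s) = 0` on `W` -/
def Bim.Stab (b : Bim S M) (W : Submodule ℂ M) (lam : M →ₗ[ℂ] ℂ) (s : S) : Prop :=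
  ∀ w ∈ W, lam (b.L s w - b.R s w) = 0

/-- The functional `lam` on `W` has an open orbit and its stabilizer is a Frobenius Lie algebra. -/
def Bim.OpenFrob (b : Bim S M) (W : Submodule ℂ M) : Prop :=
  ∃ (lam : M →ₗ[ℂ] ℂ) (mu : S →ₗ[ℂ] ℂ),
    (∀ w ∈ W, (∀ s, lam (b.L s w - b.R s w) = 0) → w = 0) ∧
    ∀ s, b.Stab W lam s → (∀ s', b.Stab W lam s' → mu (s * s' - s' * s) = 0) → s = 0

/-- `(s, g) (w, Y) = (s w, g Y)`, `(w, Y) (s, g) = (w s, Y ρ(s))`: the factor `Mat_n` is a sink -/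
noncomputable def snk (b : Bim S M) {ν : ℕ} (ρ : S →ₗ[ℂ] Matrix (Fin ν) (Fin ν) ℂ)
    (hρ : ∀ s s', ρ (s * s') = ρ s * ρ s') (n : ℕ) :
    Bim (S × Matrix (Fin n) (Fin n) ℂ) (M × Matrix (Fin n) (Fin ν) ℂ) where
  L := LinearMap.mk₂ ℂ (fun s x => (b.L s.1 x.1, s.2 * x.2))
    (by intros; simp [Matrix.add_mul]) (by intros; simp)
    (by intros; simp [Matrix.mul_add]) (by intros; simp)
  R := LinearMap.mk₂ ℂ (fun s x => (b.R s.1 x.1, x.2 * ρ s.1))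
    (by intros; simp [Matrix.mul_add]) (by intros; simp)
    (by intros; simp [Matrix.add_mul]) (by intros; simp)
  mulL := by intros; simp [b.mulL, Matrix.mul_assoc]
  mulR := by intros; simp [b.mulR, hρ, Matrix.mul_assoc]
  comm := by intros; simp [b.comm, Matrix.mul_assoc]

/-- `(s, g) (w, Y) = (s w, ρ(s) Y)`, `(w, Y) (s, g) = (w s, Y g)`: the factor `Mat_n` is a source -/
noncomputable def src (b : Bim S M) {ν : ℕ} (ρ : S →ₗ[ℂ] Matrix (Fin ν) (Fin ν) ℂ)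
    (hρ : ∀ s s', ρ (s * s') = ρ s * ρ s') (n : ℕ) :
    Bim (S × Matrix (Fin n) (Fin n) ℂ) (M × Matrix (Fin ν) (Fin n) ℂ) where
  L := LinearMap.mk₂ ℂ (fun s x => (b.L s.1 x.1, ρ s.1 * x.2))
    (by intros; simp [Matrix.add_mul]) (by intros; simp)
    (by intros; simp [Matrix.mul_add]) (by intros; simp)
  R := LinearMap.mk₂ ℂ (fun s x => (b.R s.1 x.1, x.2 * s.2))
    (by intros; simp [Matrix.mul_add]) (by intros; simp)
    (by intros; simp [Matrix.add_mul]) (by intros; simp)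
  mulL := by intros; simp [b.mulL, hρ, Matrix.mul_assoc]
  mulR := by intros; simp [b.mulR, Matrix.mul_assoc]
  comm := by intros; simp [b.comm, Matrix.mul_assoc]

/-- the middle form of the castling transform -/
def Mid (b : Bim S M) {ν n n' : ℕ} (ρ : S →ₗ[ℂ] Matrix (Fin ν) (Fin ν) ℂ)
    (A : Matrix (Fin ν) (Fin n) ℂ) (P : Matrix (Fin n') (Fin ν) ℂ) (mu : S →ₗ[ℂ] ℂ)
    (lam : M →ₗ[ℂ] ℂ) : Prop :=
  ∀ (s : S) (w : M) (K : Matrix (Fin n) (Fin n') ℂ), P * ρ s * A = 0 →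
    (∀ w', lam (b.L s w' - b.R s w') = 0) →
    (∀ s', mu (s * s' - s' * s) + lam (b.R s' w - b.L s' w) + trace (A * K * P * ρ s') = 0) →
    s = 0 ∧ w = 0 ∧ K = 0

/-- complementary matrices: `C^ν = im A ⊕ im P'`, `P A = 0` -/
def Cmp {ν n n' : ℕ} (A : Matrix (Fin ν) (Fin n) ℂ) (A' : Matrix (Fin n) (Fin ν) ℂ)
    (P : Matrix (Fin n') (Fin ν) ℂ) (P' : Matrix (Fin ν) (Fin n') ℂ) : Prop :=
  A' * A = 1 ∧ P * P' = 1 ∧ P * A = 0 ∧ A' * P' = 0 ∧ A * A' + P' * P = 1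

end

/-- STB -/
def S_STB : Prop := ∀ (S M : Type) [Ring S] [Algebra ℂ S] [AddCommGroup M] [Module ℂ M]
  [Module.Finite ℂ S] [Module.Finite ℂ M] (b : Bim S M) (W : Submodule ℂ M), b.Sub W →
  (b.Frob W ↔ b.OpenFrob W)

/-- EUC: the Euclidean step at a sink -/
def S_EUC : Prop := ∀ (S M : Type) [Ring S] [Algebra ℂ S] [AddCommGroup M] [Module ℂ M]
  [Module.Finite ℂ S] [Module.Finite ℂ M] (b : Bim S M) (ν : ℕ)
  (ρ : S →ₗ[ℂ] Matrix (Fin ν) (Fin ν) ℂ) (hρ : ∀ s s', ρ (s * s') = ρ s * ρ s') (n : ℕ),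
  (snk b ρ hρ (ν + n)).Frob ⊤ ↔ (snk b ρ hρ n).Frob ⊤

/-- CS1: castling, first half -/
def S_CS1 : Prop := ∀ (S M : Type) [Ring S] [Algebra ℂ S] [AddCommGroup M] [Module ℂ M]
  [Module.Finite ℂ S] [Module.Finite ℂ M] (b : Bim S M) (ν : ℕ)
  (ρ : S →ₗ[ℂ] Matrix (Fin ν) (Fin ν) ℂ) (hρ : ∀ s s', ρ (s * s') = ρ s * ρ s') (n n' : ℕ),
  n + n' = ν → ((snk b ρ hρ n).Frob ⊤ ↔
    ∃ A A' P P', Cmp (ν := ν) (n := n) (n' := n') A A' P P' ∧ ∃ mu lam, Mid b ρ A P mu lam)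

/-- CS2: castling, second half -/
def S_CS2 : Prop := ∀ (S M : Type) [Ring S] [Algebra ℂ S] [AddCommGroup M] [Module ℂ M]
  [Module.Finite ℂ S] [Module.Finite ℂ M] (b : Bim S M) (ν : ℕ)
  (ρ : S →ₗ[ℂ] Matrix (Fin ν) (Fin ν) ℂ) (hρ : ∀ s s', ρ (s * s') = ρ s * ρ s') (n n' : ℕ),
  n + n' = ν → ((src b ρ hρ n').Frob ⊤ ↔
    ∃ A A' P P', Cmp (ν := ν) (n := n) (n' := n') A A' P P' ∧ ∃ mu lam, Mid b ρ A P mu lam)

end Pool.Agent.N917.AF
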