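import Pool.Agent.N917.AF.Stm3

/-!
Project AF (helper917), sixth part: arbitrary bimodules over `S = ∏ Mat_(n i)`, the canonical
reduction.
-/

set_option autoImplicit false

namespace Pool.Agent.N917.AF

open Matrix

section
variable {m : ℕ}

/-- the dimensions of the simple modules; `none` stands for the one-dimensional zero module -/
def NN (n : Fin m → ℕ) (i : Option (Fin m)) : ℕ := i.elim 1 n

/-- the action of `s` on the simple module `i` -/
def act {n : Fin m → ℕ} (s : PS n) : (i : Option (Fin m)) → Matrix (Fin (NN n i)) (Fin (NN n i)) ℂ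
  | none => 0
  | some i => s i

theorem act_add {n : Fin m → ℕ} (s s' : PS n) (i : Option (Fin m)) :
    act (s + s') i = act s i + act s' i := by
  cases i
  · simp [act]
  · rfl

theorem act_smul {n : Fin m → ℕ} (c : ℂ) (s : PS n) (i : Option (Fin m)) :
    act (c • s) i = c • act s i := by
  cases i
  · simp [act]
  · rfl

theorem act_mul {n : Fin m → ℕ} (s s' : PS n) (i : Option (Fin m)) :
    act (s * s') i = act s i * act s' i := by
  cases i
  · simp [act]
  · rfl

/-- the model of a bimodule over `∏ Mat_(n i)` with multiplicities `μ i j` -/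
abbrev GM (n : Fin m → ℕ) (μ : Option (Fin m) → Option (Fin m) → ℕ) : Type :=
  (i j : Option (Fin m)) → Fin (μ i j) → Matrix (Fin (NN n i)) (Fin (NN n j)) ℂ

/-- the bimodule structure of the model -/
noncomputable def gm (n : Fin m → ℕ) (μ : Option (Fin m) → Option (Fin m) → ℕ) :
    Bim (PS n) (GM n μ) where
  L := LinearMap.mk₂ ℂ (fun s x i j k => act s i * x i j k)
    (by intro s s' x; funext i j k; simp [act_add, Matrix.add_mul])
    (by intro c s x; funext i j k; simp [act_smul])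
    (by intro s x y; funext i j k; simp [Matrix.mul_add])
    (by intro c s x; funext i j k; simp)
  R := LinearMap.mk₂ ℂ (fun s x i j k => x i j k * act s j)
    (by intro s s' x; funext i j k; simp [act_add, Matrix.mul_add])
    (by intro c s x; funext i j k; simp [act_smul])
    (by intro s x y; funext i j k; simp [Matrix.add_mul])
    (by intro c s x; funext i j k; simp)
  mulL := by intro s s' x; funext i j k; simp [act_mul, Matrix.mul_assoc]
  mulR := by intro s s' x; funext i j k; simp [act_mul, Matrix.mul_assoc]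
  comm := by intro s s' x; funext i j k; simp [Matrix.mul_assoc]

variable {n : Fin m → ℕ} [∀ i, NeZero (n i)] {M : Type} [AddCommGroup M] [Module ℂ M]

/-- the left action of the minimal idempotent `i`; `none` stands for `1 - 1_S` -/
noncomputable def lE (b : Bim (PS n) M) (i : Option (Fin m)) : M →ₗ[ℂ] M :=
  i.elim (LinearMap.id - b.L 1) (fun i => b.L (ee n i))

/-- the right action of the minimal idempotent `j`; `none` stands for `1 - 1_S` -/
noncomputable def rE (b : Bim (PS n) M) (j : Option (Fin m)) : M →ₗ[ℂ] M :=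
  j.elim (LinearMap.id - b.R 1) (fun j => b.R (ee n j))

/-- the multiplicities `dim e_i W e_j` of a subspace `W` -/
noncomputable def mW (b : Bim (PS n) M) (W : Submodule ℂ M) (i j : Option (Fin m)) : ℕ :=
  Module.finrank ℂ (W.map (lE b i ∘ₗ rE b j))

/-- the multiplicities `dim e_i M e_j` of a bimodule, `i, j ∈ {none, 0, …, m-1}`,
`e_i = E_00` of the factor `i`, `e_none = 1 - 1_S` -/
noncomputable def mu (b : Bim (PS n) M) (i j : Option (Fin m)) : ℕ :=
  Module.finrank ℂ (LinearMap.range (lE b i ∘ₗ rE b j))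

end

/-- the skew part `max (μ i j - μ j i) 0` of the multiplicities -/
def skew {m : ℕ} (μ : Option (Fin m) → Option (Fin m) → ℕ) (i j : Option (Fin m)) : ℕ :=
  μ i j - μ j i

theorem frob_congr {m : ℕ} {n : Fin m → ℕ} {μ ν : Option (Fin m) → Option (Fin m) → ℕ}
    (h : μ = ν) (hF : (gm n ν).Frob ⊤) : (gm n μ).Frob ⊤ := by
  subst h; exact hF

/-- GMOR: structure of bimodules -/
def S_GMOR : Prop := ∀ (m : ℕ) (n : Fin m → ℕ) [∀ i, NeZero (n i)] (M : Type) [AddCommGroup M]
  [Module ℂ M] [Module.Finite ℂ M] (b : Bim (PS n) M), ∃ e : M ≃ₗ[ℂ] GM n (mu b),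
    (∀ s x, e (b.L s x) = (gm n (mu b)).L s (e x)) ∧ ∀ s x, e (b.R s x) = (gm n (mu b)).R s (e x)

/-- GSUB: structure of sub-bimodules -/
def S_GSUB : Prop := ∀ (m : ℕ) (n : Fin m → ℕ) [∀ i, NeZero (n i)] (M : Type) [AddCommGroup M]
  [Module ℂ M] [Module.Finite ℂ M] (b : Bim (PS n) M) (W : Submodule ℂ M), b.Sub W →
  ∃ f : GM n (mW b W) →ₗ[ℂ] M, Function.Injective f ∧ LinearMap.range f = W ∧
    (∀ s x, f ((gm n (mW b W)).L s x) = b.L s (f x)) ∧
    ∀ s x, f ((gm n (mW b W)).R s x) = b.R s (f x)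

/-- GSUB from GMOR -/
def S_GSUBimp : Prop := S_GMOR → S_GSUB

/-- GADD -/
def S_GADD : Prop := ∀ (m : ℕ) (n : Fin m → ℕ) [∀ i, NeZero (n i)] (M : Type) [AddCommGroup M]
  [Module ℂ M] [Module.Finite ℂ M] (b : Bim (PS n) M) (W' W : Submodule ℂ M), b.Sub W' →
  b.Sub W → IsCompl W' W → ∀ i j, mu b i j = mW b W' i j + mW b W i j

/-- GSYM -/
def S_GSYM : Prop := ∀ (m : ℕ) (n : Fin m → ℕ) [∀ i, NeZero (n i)] (M : Type) [AddCommGroup M]
  [Module ℂ M] [Module.Finite ℂ M] (b : Bim (PS n) M) (W : Submodule ℂ M), b.Sub W →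
  b.Sympl W → (∀ i j, mW b W i j = mW b W j i) ∧ ∀ i, Even (mW b W i i)

/-- GCYC: no loops and no oriented 2-cycles in the Frobenius part -/
def S_GCYC : Prop := ∀ (m : ℕ) (n : Fin m → ℕ) [∀ i, NeZero (n i)]
  (μ : Option (Fin m) → Option (Fin m) → ℕ), (gm n μ).Frob ⊤ → ∀ i j, μ i j = 0 ∨ μ j i = 0

/-- GTRF: transport of the Frobenius property -/
def S_GTRF : Prop := ∀ (S M₁ M₂ : Type) [Ring S] [Algebra ℂ S] [AddCommGroup M₁] [Module ℂ M₁]
  [AddCommGroup M₂] [Module ℂ M₂] (b₁ : Bim S M₁) (b₂ : Bim S M₂) (f : M₁ →ₗ[ℂ] M₂),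
  Function.Injective f → (∀ s x, f (b₁.L s x) = b₂.L s (f x)) →
  (∀ s x, f (b₁.R s x) = b₂.R s (f x)) → (b₂.Frob (LinearMap.range f) ↔ b₁.Frob ⊤)

/-- GBLD: nondegenerate form from a nondegenerate form on the skew part -/
def S_GBLD : Prop := ∀ (m : ℕ) (n : Fin m → ℕ) (μ : Option (Fin m) → Option (Fin m) → ℕ),
  (∀ i, Even (μ i i)) → (gm n (skew μ)).Frob ⊤ →
  AF (PS n × GM n μ) (gm n μ).mul

/-- GBLD from the transport lemma -/
def S_GBLDimp : Prop := S_GTRF → S_GBLD

/-- the canonical reduction -/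
def S_GEN : Prop := ∀ (m : ℕ) (n : Fin m → ℕ) [∀ i, NeZero (n i)] (M : Type) [AddCommGroup M]
  [Module ℂ M] [Module.Finite ℂ M] (b : Bim (PS n) M),
  AF (PS n × M) b.mul ↔
    (∀ i, Even (mu b i i)) ∧ (gm n (skew (mu b))).Frob ⊤

theorem t_GEN (hRES : S_RES2) (hISO : S_ISO) (hMOR : S_GMOR) (hSUB : S_GSUB) (hADD : S_GADD)
    (hSYM : S_GSYM) (hCYC : S_GCYC) (hTRF : S_GTRF) (hBLD : S_GBLD) : S_GEN := by
  intro m n _ M _ _ _ b
  constructor
  · intro h
    obtain ⟨W', W, hW', hW, hc, hS, hF⟩ := (hRES (PS n) M b).1 h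
    obtain ⟨hs1, hs2⟩ := hSYM m n M b W' hW' hS
    have ha := hADD m n M b W' W hW' hW hc
    obtain ⟨f, hf1, hf2, hf3, hf4⟩ := hSUB m n M b W hW
    have hF' : (gm n (mW b W)).Frob ⊤ := by
      rw [← hTRF (PS n) _ M (gm n (mW b W)) b f hf1 hf3 hf4, hf2]; exact hF
    have hcy := hCYC m n (mW b W) hF'
    have hrel : skew (mu b) = mW b W := by
      funext i j
      unfold skew
      have h1 := ha i j
      have h2 := ha j i
      have h3 := hs1 i j
      have h4 := hcy i j
      omega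
    refine ⟨fun i => ?_, ?_⟩
    · have h4 : mW b W i i = 0 := by
        rcases hcy i i with h | h <;> exact h
      rw [ha i i, h4, add_zero]; exact hs2 i
    · exact frob_congr hrel hF'
  · rintro ⟨h1, h2⟩
    obtain ⟨e, hL, hR⟩ := hMOR m n M b
    have hiso := hISO (PS n × M) (PS n × GM n (mu b)) b.mul (gm n (mu b)).mul
      ((LinearEquiv.refl ℂ (PS n)).prodCongr e) (by
        rintro ⟨s, x⟩ ⟨s', y⟩
        refine Prod.ext ?_ ?_
        · simp [Bim.mul]
        · simp [Bim.mul, hL, hR])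
    rw [hiso]
    exact hBLD m n (mu b) h1 h2

end Pool.Agent.N917.AF
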