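import Pool.Agent.N917.AF.Stm4
import Pool.Agent.N917.AF.Stm6

/-!
Project AF (helper917), seventh part: two simple factors, chains with single arrows.
-/

set_option autoImplicit false

namespace Pool.Agent.N917.AF

open Matrix

/-- `(g, h) (v, Z) = (g v, g Z)`, `(v, Z) (g, h) = (0, Z h)` -/
noncomputable def bA (x y : ℕ) : Bim (Matrix (Fin x) (Fin x) ℂ × Matrix (Fin y) (Fin y) ℂ)
    ((Fin x → ℂ) × Matrix (Fin x) (Fin y) ℂ) where
  L := LinearMap.mk₂ ℂ (fun s w => (s.1 *ᵥ w.1, s.1 * w.2))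
    (by intros; simp [Matrix.add_mul, Matrix.add_mulVec])
    (by intros; simp [Matrix.smul_mulVec])
    (by intros; simp [Matrix.mul_add, Matrix.mulVec_add])
    (by intros; simp [Matrix.mulVec_smul])
  R := LinearMap.mk₂ ℂ (fun s w => (0, w.2 * s.2))
    (by intros; simp [Matrix.mul_add]) (by intros; simp)
    (by intros; simp [Matrix.add_mul]) (by intros; simp)
  mulL := by intros; simp [Matrix.mul_assoc]
  mulR := by intros; simp [Matrix.mul_assoc]
  comm := by intros; simp [Matrix.mul_assoc]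

/-- `(g, h) (v, Z) = (g v, h Z)`, `(v, Z) (g, h) = (0, Z g)` -/
noncomputable def bB (x y : ℕ) : Bim (Matrix (Fin x) (Fin x) ℂ × Matrix (Fin y) (Fin y) ℂ)
    ((Fin x → ℂ) × Matrix (Fin y) (Fin x) ℂ) where
  L := LinearMap.mk₂ ℂ (fun s w => (s.1 *ᵥ w.1, s.2 * w.2))
    (by intros; simp [Matrix.add_mul, Matrix.add_mulVec])
    (by intros; simp [Matrix.smul_mulVec])
    (by intros; simp [Matrix.mul_add, Matrix.mulVec_add])
    (by intros; simp [Matrix.mulVec_smul])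
  R := LinearMap.mk₂ ℂ (fun s w => (0, w.2 * s.1))
    (by intros; simp [Matrix.mul_add]) (by intros; simp)
    (by intros; simp [Matrix.add_mul]) (by intros; simp)
  mulL := by intros; simp [Matrix.mul_assoc]
  mulR := by intros; simp [Matrix.mul_assoc]
  comm := by intros; simp [Matrix.mul_assoc]

/-- EUCS: the Euclidean step at a source -/
def S_EUCS : Prop := ∀ (S M : Type) [Ring S] [Algebra ℂ S] [AddCommGroup M] [Module ℂ M]
  [Module.Finite ℂ S] [Module.Finite ℂ M] (b : Bim S M) (ν : ℕ)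
  (ρ : S →ₗ[ℂ] Matrix (Fin ν) (Fin ν) ℂ) (hρ : ∀ s s', ρ (s * s') = ρ s * ρ s') (n : ℕ),
  (src b ρ hρ (ν + n)).Frob ⊤ ↔ (src b ρ hρ n).Frob ⊤

/-- GA -/
def S_GA : Prop := ∀ x y : ℕ, (bA x y).Frob ⊤ ↔ Nat.Coprime x (y + 1)

/-- GB -/
def S_GB : Prop := ∀ x y : ℕ, 1 ≤ x → ((bB x y).Frob ⊤ ↔ IsCoprime (x : ℤ) ((y : ℤ) - 1))

/-- GA from the two Euclidean steps -/
def S_GAimp : Prop := S_EUC → S_EUCS → S_GA

/-- GB from the castling and GA -/
def S_GBimp : Prop := S_EUC → S_CS1 → S_CS2 → S_GA → S_GB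

/-- GGA: the model `gm` is `bA` -/
def S_GGA : Prop := ∀ (n : Fin 2 → ℕ) (μ : Option (Fin 2) → Option (Fin 2) → ℕ),
  (∀ i j, μ i j = if i = some 0 ∧ (j = none ∨ j = some 1) then 1 else 0) →
  ((gm n μ).Frob ⊤ ↔ (bA (n 0) (n 1)).Frob ⊤)

/-- GGB: the model `gm` is `bB` -/
def S_GGB : Prop := ∀ (n : Fin 2 → ℕ) (μ : Option (Fin 2) → Option (Fin 2) → ℕ),
  (∀ i j, μ i j = if (i = some 0 ∧ j = none) ∨ (i = some 1 ∧ j = some 0) then 1 else 0) →
  ((gm n μ).Frob ⊤ ↔ (bB (n 0) (n 1)).Frob ⊤)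

end Pool.Agent.N917.AF
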