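import Pool.Agent.N917.AF.MOR
import Pool.Agent.N917.AF.ISO
import Pool.Agent.N917.AF.SPF
import Pool.Agent.N917.AF.SPB
import Pool.Agent.N917.AF.Blk

/-! Project AF (helper917): the classification for unmixed bimodules. -/

set_option autoImplicit false

namespace Pool.Agent.N917.AF

theorem unm (m : ℕ) (n : Fin m → ℕ) [∀ i, NeZero (n i)] (M : Type) [AddCommGroup M]
    [Module ℂ M] [Module.Finite ℂ M] (b : Bim (PS n) M) (hU : Unmixed b) :
    AF (PS n × M) b.mul ↔ Even (tt b) ∧ ∀ i, Even (pp b i) ∧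
      ∃ a : ℕ, 1 ≤ a ∧ a ∣ n i ∧ (qq b i = rr b i + a ∨ rr b i = qq b i + a) := by
  obtain ⟨e, he⟩ := t_MOR m n M b hU
  have hn : ∀ i, 1 ≤ n i := fun i => Nat.one_le_iff_ne_zero.2 (NeZero.ne (n i))
  rw [t_ISO _ _ b.mul mulT e he]
  constructor
  · intro h
    obtain ⟨h1, h2⟩ := t_SPF m n (pp b) (qq b) (rr b) (tt b) hn h
    exact ⟨h1, fun i => (blk (hn i)).1 (h2 i)⟩
  · rintro ⟨h1, h2⟩
    exact t_SPB m n (pp b) (qq b) (rr b) (tt b) h1 fun i => (blk (hn i)).2 (h2 i)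

end Pool.Agent.N917.AF
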